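import Pool.Agent.H703.Base

/-!
# The algorithm for one band, and its notions

Vertices are natural numbers, distances are natural numbers, a solution is a list of pairs of
vertices (a multigraph).
-/

set_option autoImplicit false

namespace Pool.Agent.H703

/-- A pair of vertices. -/
abbrev Edge := ℕ × ℕ

/-- The cost of a multigraph. -/
def cost (d : ℕ → ℕ → ℕ) (F : List Edge) : ℕ := (F.map fun e => d e.1 e.2).sum

/-- The list of all end points; the degree of `v` is the number of its occurrences. -/
def ends (F : List Edge) : List ℕ := F.flatMap fun e => [e.1, e.2]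

/-- Adjacency. -/
def adj (F : List Edge) (x y : ℕ) : Prop := (x, y) ∈ F ∨ (y, x) ∈ F

/-- The vertex `t` is connected to `A`. -/
def Joined (F : List Edge) (A : List ℕ) (t : ℕ) : Prop :=
  ∃ a ∈ A, Relation.ReflTransGen (adj F) a t

/-- All terminals in `R` are connected to `A`; for the travelling salesman problem, moreover, all
degrees outside `A` are even. -/
def Good (tsp : Bool) (F : List Edge) (R A : List ℕ) : Prop :=
  (∀ t ∈ R, Joined F A t) ∧ (tsp = true → ∀ v, v ∉ A → Even ((ends F).count v))

open Classical in
/-- The points of `V` reachable inside `V` from the points of `S` in `V` by steps of `r`. -/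
noncomputable def clos (r : ℕ → ℕ → Prop) (V S : List ℕ) : List ℕ :=
  (fun S' => V.filter fun v => decide (v ∈ S' ∨ ∃ s ∈ S', r s v))^[V.length]
    (V.filter fun v => decide (v ∈ S))

/-- `u` and `w` are closer to each other than through `A`. -/
def relN (d : ℕ → ℕ → ℕ) (A : List ℕ) (u w : ℕ) : Prop :=
  ∀ b ∈ A, ∀ c ∈ A, d u w < d u b + d w c

/-- The component of `u` in `U`. -/
noncomputable def compL (d : ℕ → ℕ → ℕ) (A U : List ℕ) (u : ℕ) : List ℕ := clos (relN d A) U [u]

open Classical in
/-- The least elements of the components of `U`. -/
noncomputable def tops (d : ℕ → ℕ → ℕ) (A U : List ℕ) : List ℕ :=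
  U.filter fun u => decide (∀ w ∈ compL d A U u, u ≤ w)

/-- All sequences of length at most `k`. -/
def seqs {β : Type} (V : List β) : ℕ → List (List β)
  | 0 => [[]]
  | k + 1 => seqs V k ++ V.flatMap (fun v => (seqs V k).map (fun l => v :: l))

/-- All pairs of elements of `S`. -/
def pairsOf (S : List ℕ) : List Edge := S.flatMap fun x => S.map fun y => (x, y)

open Classical in
/-- The first of the cheapest members of a list of multigraphs (`[]` if the list is empty). -/
noncomputable def pick (d : ℕ → ℕ → ℕ) (l : List (List Edge)) : List Edge :=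
  ((l.filter fun S => decide (∀ S' ∈ l, cost d S ≤ cost d S')).take 1).flatten

/-- The ways of connecting `z` to `A` by one edge or by two parallel edges. -/
def links (z : ℕ) (A : List ℕ) : List (List Edge) :=
  A.flatMap fun a => [[(z, a)], [(z, a), (z, a)]]

open Classical in
/-- One component: try all short multigraphs, and all ways of contracting a vertex `z`. -/
noncomputable def step (n : ℕ) (d : ℕ → ℕ → ℕ) (tsp : Bool) (L : ℕ)
    (rec : List ℕ → List ℕ → List ℕ → List Edge) (C R A : List ℕ) : List Edge :=
  pick d ((seqs (pairsOf (C ++ A)) L ++ (List.range n).flatMap fun z =>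
    (links z A).map fun E => E ++ rec (C.filter fun x => decide (x ≠ z))
      (R.filter fun x => decide (x ≠ z)) (z :: A)).filter fun F => decide (Good tsp F R A))

open Classical in
/-- The recursive algorithm for one band. -/
noncomputable def solve (n : ℕ) (d : ℕ → ℕ → ℕ) (tsp : Bool) (L : ℕ) :
    ℕ → List ℕ → List ℕ → List ℕ → List Edge
  | 0, _, _, _ => []
  | s + 1, U, R, A => (tops d A U).flatMap fun u =>
      step n d tsp L (solve n d tsp L s) (compL d A U u)
        (R.filter fun x => decide (x ∈ compL d A U u)) A

end Pool.Agent.H703
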