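import Pool.Agent.H703.Rp

/-!
# Feasibility of the images and of the union

Proofs written by helper25 from the plan of helper703.
-/

set_option autoImplicit false

namespace Pool.Agent.H703

variable {V : Type}

/-
PROOF IN WORDS of `phi_good`.  `r_j = rp n d T (tau j)`, `φ = phi n d T k j q`.  For `v < n`: if `r_j v = q` then `φ v = r_{j-k} v ∈ bandU`
(`r_{j-k} (r_{j-k} v) = r_{j-k} v` and `r_j (r_{j-k} v) = r_j v = q`), otherwise `φ v = q`.
Connectivity: let `t ∈ bandR`; so `t ∈ T`, `r_{j-k} t = t`, `r_j t = q`, and `q ∈ T` by `rp_term`.  There is a path from `q` to `t` in `F`; its image is a path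
in the image from `φ q` to `φ t`.  `φ t = t`.  `φ q = r_{j-k} q` as `r_j q = r_j (r_j t) = q`, and `r_{j-k} q = r_{j-k} (r_j t) = q` by `rp_down`.
(A step `adj F a b` is mapped to a step.)  Degrees: `ends` of the image is `(ends F).map φ`, so the count of `v` is the sum of the
counts in `ends F` of the points `x` with `φ x = v`: a sum of even numbers.  (`q < n` since `q ∈ reps`.)
PROOF IN WORDS of `total_good`.  (i) handshake: `Good tsp F R [q]` and `tsp = true` imply that all counts in `ends F` are even, since
the sum of all counts is `(ends F).length = 2 F.length`.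
(ii) degrees in `total`: `zeros` consists of pairs of equal edges; the rest is a sum of even numbers by (i).
(iii) connectivity: let `v ∈ T`.  `v` is adjacent to `r_0 v` (zeros; `tau 0 = 0`).  For every used level `j ∈ levels k J i` the point
`w = r_{j-k} v` is connected to `q = r_j v`: `w ∈ T` (`rp_term`), `w ∈ bandU n d T k j q`, `q ∈ reps`, so `w ∈ bandR`, and the band solution joins it to `q`
(`adj` is symmetric).  If `j ≤ k` then `j - k = 0`, otherwise `j - k` is again in `levels k J i`.  By strong induction `v` is connected to `r_j v` for all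
used `j`.  Some used level is `≥ J` (among `J+1, …, J+k` there is one congruent to `i` mod `k`), and there `r_j` is constant on `{0,…,n-1}` (`rp_top`,
`tau` is monotone).  So all terminals are connected.
-/

theorem phi_good_rp_lt {n : ℕ} {d : ℕ → ℕ → ℕ} {T : List ℕ} {t v : ℕ} (hv : v < n) :
    rp n d T t v < n := mem_clu_lt (rp_mem hv)

theorem phi_good_tau_mono {a b : ℕ} (h : a ≤ b) : tau a ≤ tau b :=
  Nat.div_le_div_right (Nat.pow_le_pow_right (by norm_num) h)

theorem phi_good_mem_bandU {n : ℕ} {d : ℕ → ℕ → ℕ} (hd : NMet d) {T : List ℕ} {k j q v : ℕ} (hv : v < n)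
    (h : rp n d T (tau j) v = q) : rp n d T (tau (j - k)) v ∈ bandU n d T k j q := by
  unfold bandU
  rw [List.mem_filter, List.mem_range, decide_eq_true_iff]
  refine ⟨phi_good_rp_lt hv, rp_down hd hv le_rfl, ?_⟩
  rw [rp_up hd hv (phi_good_tau_mono (Nat.sub_le j k)), h]

theorem phi_good_even {l : List ℕ} (h : ∀ x, Even (l.count x)) (p : ℕ → Bool) : Even (l.countP p) := by
  have h1 : l.countP p = ∑ x ∈ (l.filter p).toFinset, (l.filter p).count x := by
    rw [List.sum_toFinset_count_eq_length, List.countP_eq_length_filter]
  rw [h1]
  refine Finset.even_sum _ fun x hx => ?_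
  rw [List.mem_toFinset, List.mem_filter] at hx
  rw [List.count_filter hx.2]
  exact h x

theorem phi_good_ends_map (F : List Edge) (f : ℕ → ℕ) :
    ends (F.map (fun e => (f e.1, f e.2))) = (ends F).map f := by
  unfold ends
  induction F with
  | nil => rfl
  | cons e F ih =>
    rw [List.map_cons, List.flatMap_cons, List.flatMap_cons, List.map_append, ih]
    rfl

theorem phi_good_lift (F : List Edge) (f : ℕ → ℕ) {x y : ℕ}
    (h : Relation.ReflTransGen (adj F) x y) :
    Relation.ReflTransGen (adj (F.map (fun e => (f e.1, f e.2)))) (f x) (f y) := by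
  induction h with
  | refl => exact Relation.ReflTransGen.refl
  | tail _ hab ih =>
    refine Relation.ReflTransGen.tail ih ?_
    rcases hab with hab | hab
    · exact Or.inl (List.mem_map.2 ⟨_, hab, rfl⟩)
    · exact Or.inr (List.mem_map.2 ⟨_, hab, rfl⟩)

/-- the image of a solution is a solution for the band. -/
theorem phi_good {n : ℕ} {d : ℕ → ℕ → ℕ} (hd : NMet d) {tsp : Bool} {T : List ℕ}
    (hT : ∀ v ∈ T, v < n) {F : List Edge} (hF : ∀ e ∈ F, e.1 < n ∧ e.2 < n)
    (hG : AllGood tsp F T) {k j q : ℕ} (hq : q ∈ reps n d T j) :
    (∀ e ∈ F.map (fun e => (phi n d T k j q e.1, phi n d T k j q e.2)),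
      (e.1 ∈ bandU n d T k j q ∨ e.1 ∈ [q]) ∧ (e.2 ∈ bandU n d T k j q ∨ e.2 ∈ [q])) ∧
    Good tsp (F.map (fun e => (phi n d T k j q e.1, phi n d T k j q e.2)))
      (bandR n d T k j q) [q] := by
  have hmem : ∀ v < n, phi n d T k j q v ∈ bandU n d T k j q ∨ phi n d T k j q v ∈ [q] := by
    intro v hv
    unfold phi
    by_cases h : rp n d T (tau j) v = q
    · rw [if_pos h]
      exact Or.inl (phi_good_mem_bandU hd hv h)
    · rw [if_neg h]
      exact Or.inr (List.mem_singleton_self q)
  refine ⟨?_, ?_, ?_⟩
  · intro e he
    rw [List.mem_map] at he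
    obtain ⟨e0, he0, rfl⟩ := he
    exact ⟨hmem _ (hF e0 he0).1, hmem _ (hF e0 he0).2⟩
  · intro t ht
    unfold bandR at ht
    rw [List.mem_filter, decide_eq_true_iff] at ht
    obtain ⟨htU, htT⟩ := ht
    unfold bandU at htU
    rw [List.mem_filter, List.mem_range, decide_eq_true_iff] at htU
    obtain ⟨htn, h1, h2⟩ := htU
    have hqT : q ∈ T := by
      have := rp_term (d := d) (t := tau j) htn htT
      rwa [h2] at this
    refine ⟨q, List.mem_singleton_self q, ?_⟩
    have hpath := hG.1 q hqT t htT
    have hφt : phi n d T k j q t = t := by
      unfold phi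
      rw [if_pos h2, h1]
    have hφq : phi n d T k j q q = q := by
      have h3 : rp n d T (tau j) q = q := by
        unfold reps at hq
        rw [List.mem_filter, decide_eq_true_iff] at hq
        exact hq.2
      unfold phi
      rw [if_pos h3]
      have h4 := rp_down hd (T := T) htn (phi_good_tau_mono (Nat.sub_le j k))
      rwa [h2] at h4
    have hlift := phi_good_lift F (phi n d T k j q) hpath
    rwa [hφt, hφq] at hlift
  · intro htsp v _
    rw [phi_good_ends_map F (phi n d T k j q)]
    rw [List.count, List.countP_map]
    exact phi_good_even (hG.2 htsp) _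

theorem total_good_handshake {F : List Edge} {R : List ℕ} {q : ℕ} (h : Good true F R [q]) (v : ℕ) :
    Even ((ends F).count v) := by
  have h2 := h.2 rfl
  by_cases hv : v = q
  · subst hv
    have hlen : (ends F).length = 2 * F.length := by
      unfold ends
      induction F with
      | nil => rfl
      | cons e F ih =>
        clear h h2 ih
        induction F generalizing e with
        | nil => rfl
        | cons e' F ih2 =>
          have := ih2 e'
          rw [List.flatMap_cons, List.length_append, this]
          simp
          ring
    have hsum : ∑ x ∈ (ends F).toFinset, (ends F).count x = 2 * F.length := by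
      rw [List.sum_toFinset_count_eq_length, hlen]
    by_cases hmem : v ∈ (ends F).toFinset
    · rw [← Finset.add_sum_erase _ _ hmem] at hsum
      have hE : Even (∑ x ∈ (ends F).toFinset.erase v, (ends F).count x) := by
        refine Finset.even_sum _ fun x hx => ?_
        refine h2 x ?_
        rw [List.mem_singleton]
        exact Finset.ne_of_mem_erase hx
      have hE2 : Even ((ends F).count v + ∑ x ∈ (ends F).toFinset.erase v, (ends F).count x) := by
        rw [hsum]; exact even_two_mul _
      exact (Nat.even_add.1 hE2).2 hE
    · rw [List.mem_toFinset] at hmem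
      rw [List.count_eq_zero_of_not_mem hmem]
      exact Even.zero
  · exact h2 v (by rw [List.mem_singleton]; exact hv)

theorem total_good_ends_append (A B : List Edge) : ends (A ++ B) = ends A ++ ends B := by
  unfold ends
  rw [List.flatMap_append]

theorem total_good_even_flatMap {β : Type} (l : List β) (f : β → List Edge)
    (h : ∀ x ∈ l, ∀ v, Even ((ends (f x)).count v)) (v : ℕ) : Even ((ends (l.flatMap f)).count v) := by
  induction l with
  | nil => exact Even.zero
  | cons a l ih =>
    rw [List.flatMap_cons, total_good_ends_append, List.count_append]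
    exact (h a List.mem_cons_self v).add (ih fun x hx => h x (List.mem_cons_of_mem _ hx))

theorem total_good_adj_symm (F : List Edge) {x y : ℕ} (h : Relation.ReflTransGen (adj F) x y) :
    Relation.ReflTransGen (adj F) y x := by
  induction h with
  | refl => exact Relation.ReflTransGen.refl
  | tail _ hab ih =>
    refine Relation.ReflTransGen.head ?_ ih
    rcases hab with hab | hab
    · exact Or.inr hab
    · exact Or.inl hab

theorem total_good_adj_mono {F G : List Edge} (hFG : ∀ e ∈ F, e ∈ G) {x y : ℕ}
    (h : Relation.ReflTransGen (adj F) x y) : Relation.ReflTransGen (adj G) x y := by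
  induction h with
  | refl => exact Relation.ReflTransGen.refl
  | tail _ hab ih =>
    refine Relation.ReflTransGen.tail ih ?_
    rcases hab with hab | hab
    · exact Or.inl (hFG _ hab)
    · exact Or.inr (hFG _ hab)

/-- the union of the solutions of the bands is a solution. -/
theorem total_good {n : ℕ} {d : ℕ → ℕ → ℕ} (hd : NMet d) {tsp : Bool} {T : List ℕ}
    (hT : ∀ v ∈ T, v < n) {L s k J i : ℕ} (hk : 1 ≤ k) (hi : i < k)
    (hJ : ∀ u < n, ∀ w < n, d u w ≤ tau J)
    (hb : ∀ j q, 1 ≤ j → q ∈ reps n d T j →
      Good tsp (solve n d tsp L s (bandU n d T k j q) (bandR n d T k j q) [q])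
        (bandR n d T k j q) [q]) :
    AllGood tsp (total n d T tsp L s k J i) T := by
  have hrepmem : ∀ j v, v < n → rp n d T (tau j) v ∈ reps n d T j := by
    intro j v hv
    unfold reps
    rw [List.mem_filter, List.mem_range, decide_eq_true_iff]
    exact ⟨phi_good_rp_lt hv, rp_down hd hv le_rfl⟩
  have hlev : ∀ j, j ∈ levels k J i ↔ j < J + k + 1 ∧ 1 ≤ j ∧ j % k = i := by
    intro j
    unfold levels
    rw [List.mem_filter, List.mem_range, decide_eq_true_iff]
  constructor
  · -- connectivity
    have key : ∀ v ∈ T, ∀ j, j ∈ levels k J i →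
        Relation.ReflTransGen (adj (total n d T tsp L s k J i)) v (rp n d T (tau j) v) := by
      intro v hvT j
      have hvn := hT v hvT
      induction j using Nat.strong_induction_on with
      | _ j ih =>
        intro hj
        have hj' := (hlev j).1 hj
        -- the lower representative
        have hw : Relation.ReflTransGen (adj (total n d T tsp L s k J i)) v
            (rp n d T (tau (j - k)) v) := by
          by_cases hjk : j ≤ k
          · have h0 : j - k = 0 := Nat.sub_eq_zero_of_le hjk
            rw [h0]
            refine Relation.ReflTransGen.single (Or.inl ?_)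
            unfold total
            rw [List.mem_append]
            left
            unfold zeros
            rw [List.mem_flatMap]
            refine ⟨v, hvT, ?_⟩
            have : tau 0 = 0 := rfl
            rw [this]
            exact List.mem_cons_self
          · push Not at hjk
            refine ih (j - k) (by omega) ((hlev _).2 ⟨by omega, by omega, ?_⟩)
            rw [← Nat.mod_eq_sub_mod hjk.le]
            exact hj'.2.2
        set q := rp n d T (tau j) v with hq
        have hqr : q ∈ reps n d T j := hrepmem j v hvn
        have hwR : rp n d T (tau (j - k)) v ∈ bandR n d T k j q := by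
          unfold bandR
          rw [List.mem_filter, decide_eq_true_iff]
          exact ⟨phi_good_mem_bandU hd hvn hq.symm, rp_term hvn hvT⟩
        obtain ⟨a, ha, hpath⟩ := (hb j q hj'.2.1 hqr).1 _ hwR
        rw [List.mem_singleton] at ha
        rw [ha] at hpath
        have hsub : ∀ e ∈ solve n d tsp L s (bandU n d T k j q) (bandR n d T k j q) [q],
            e ∈ total n d T tsp L s k J i := by
          intro e he
          unfold total
          rw [List.mem_append]
          right
          rw [List.mem_flatMap]
          refine ⟨j, hj, ?_⟩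
          unfold band
          rw [List.mem_flatMap]
          exact ⟨q, hqr, he⟩
        exact hw.trans (total_good_adj_symm _ (total_good_adj_mono hsub hpath))
    -- a high level
    set m := (i + k - (J + 1) % k) % k with hm
    have hmk : m < k := Nat.mod_lt _ hk
    have hmod : (J + 1 + m) % k = i := by
      have hlt : (J + 1) % k < k := Nat.mod_lt _ hk
      rw [Nat.add_mod, hm, Nat.mod_mod, ← Nat.add_mod_left]
      rw [Nat.add_mod_left]
      rw [← Nat.add_mod]
      have : (J + 1) % k + (i + k - (J + 1) % k) = i + k := by omega
      rw [← Nat.mod_add_mod, this, Nat.add_mod_right, Nat.mod_eq_of_lt hi]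
    have hjs : J + 1 + m ∈ levels k J i := (hlev _).2 ⟨by omega, by omega, hmod⟩
    intro t ht t' ht'
    have h1 := key t ht _ hjs
    have h2 := key t' ht' _ hjs
    have h3 : rp n d T (tau (J + 1 + m)) t = rp n d T (tau (J + 1 + m)) t' :=
      rp_top hd (hT t ht) (hT t' ht') fun x hx y hy =>
        (hJ x hx y hy).trans (phi_good_tau_mono (by omega))
    rw [← h3] at h2
    exact h1.trans (total_good_adj_symm _ h2)
  · intro htsp v
    subst htsp
    unfold total
    rw [total_good_ends_append, List.count_append]
    refine Even.add ?_ ?_
    · unfold zeros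
      refine total_good_even_flatMap _ _ (fun x _ v => ?_) v
      have : ends [(x, rp n d T 0 x), (x, rp n d T 0 x)] =
          [x, rp n d T 0 x] ++ [x, rp n d T 0 x] := rfl
      rw [this, List.count_append]
      exact ⟨_, rfl⟩
    · refine total_good_even_flatMap _ _ (fun j hj v => ?_) v
      unfold band
      refine total_good_even_flatMap _ _ (fun q hq v => ?_) v
      exact total_good_handshake (hb j q ((hlev j).1 hj).2.1 hq) v

end Pool.Agent.H703
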