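import Pool.Agent.H703.PhiSum
import Pool.Agent.H703.Feas

/-!
# The approximation guarantee for the metric

Proofs written by helper359 from the plan of helper703.
-/

set_option autoImplicit false

namespace Pool.Agent.H703

variable {V : Type}

/-
PROOF IN WORDS.  `pick_spec` for the list of the `k ≥ 1` unions `total i`, `i < k`: the output is one of them, so `AllGood` by
`total_good`, and its cost is at most each, hence at most the average `(1/k) ∑_{i<k} cost (total i)`.
`cost (zeros) = 0` (`d v (rp n d T 0 v) ≤ C * 0` by `hconf`, `rp_mem`).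
`∑_{i<k} cost (total i) = ∑_{i<k} ∑_{j ∈ levels k J i} ∑_{q ∈ reps j} cost (solve …) = ∑_{j ∈ Icc 1 (J+k)} ∑_{q ∈ reps j} cost (solve …)`, since
every `j ∈ [1, J+k]` is in exactly one `levels k J i`, `i < k`.  With `hband` for the image of `F` (`phi_good`) this is
`≤ β ∑_j ∑_q ∑_{e ∈ F} d (φ e.1) (φ e.2) = β ∑_{e ∈ F} (∑_j ∑_q …) ≤ β (k + 8 C) cost d F` by `phi_sum`.
-/

theorem ptas_spec_cost_append (d : ℕ → ℕ → ℕ) (A B : List Edge) :
    cost d (A ++ B) = cost d A + cost d B := by
  simp [cost]

theorem ptas_spec_cost_flatMap {α : Type} (d : ℕ → ℕ → ℕ) (l : List α) (f : α → List Edge) :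
    cost d (l.flatMap f) = (l.map fun x => cost d (f x)).sum := by
  induction l with
  | nil => simp [cost]
  | cons a l ih =>
    rw [List.flatMap_cons, ptas_spec_cost_append, ih, List.map_cons, List.sum_cons]

theorem ptas_spec_range_sum (f : ℕ → ℝ) (m : ℕ) :
    ((List.range m).map f).sum = ∑ j ∈ Finset.range m, f j := by
  induction m with
  | zero => simp
  | succ m ih => rw [List.range_succ, List.map_append, List.sum_append, ih,
      Finset.sum_range_succ]; simp

theorem ptas_spec_filter_sum (f : ℕ → ℝ) (p : ℕ → Prop) [DecidablePred p] (l : List ℕ) :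
    ((l.filter fun j => decide (p j)).map f).sum = (l.map fun j => if p j then f j else 0).sum := by
  induction l with
  | nil => simp
  | cons a l ih =>
    by_cases h : p a
    · rw [List.filter_cons_of_pos (by simpa using h), List.map_cons, List.sum_cons, ih,
        List.map_cons, List.sum_cons, if_pos h]
    · rw [List.filter_cons_of_neg (by simpa using h), ih, List.map_cons, List.sum_cons, if_neg h,
        zero_add]

theorem ptas_spec_levels_sum (f : ℕ → ℝ) {k : ℕ} (hk : 1 ≤ k) (J : ℕ) :
    ∑ i ∈ Finset.range k, ((levels k J i).map f).sum = ∑ j ∈ Finset.Icc 1 (J + k), f j := by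
  classical
  have h1 : ∀ i, ((levels k J i).map f).sum =
      ∑ j ∈ Finset.range (J + k + 1), if 1 ≤ j ∧ j % k = i then f j else 0 := by
    intro i
    unfold levels
    rw [← ptas_spec_range_sum, ← ptas_spec_filter_sum]
  simp only [h1]
  rw [Finset.sum_comm]
  have h2 : ∀ j ∈ Finset.range (J + k + 1),
      ∑ i ∈ Finset.range k, (if 1 ≤ j ∧ j % k = i then f j else 0) = if 1 ≤ j then f j else 0 := by
    intro j _
    by_cases hj : 1 ≤ j
    · simp only [hj, true_and, if_true]
      rw [Finset.sum_ite_eq, if_pos (Finset.mem_range.2 (Nat.mod_lt _ (by omega)))]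
    · simp [hj]
  rw [Finset.sum_congr rfl h2, ← Finset.sum_filter]
  apply Finset.sum_congr _ fun _ _ => rfl
  ext j
  simp only [Finset.mem_filter, Finset.mem_range, Finset.mem_Icc]
  omega

theorem ptas_spec_cast_sum {α : Type} (l : List α) (f : α → ℕ) :
    (((l.map f).sum : ℕ) : ℝ) = (l.map fun x => (f x : ℝ)).sum := by
  induction l with
  | nil => simp
  | cons a l ih => simp [ih]

theorem ptas_spec_sum_le {α : Type} (l : List α) (f g : α → ℝ) (h : ∀ x ∈ l, f x ≤ g x) :
    (l.map f).sum ≤ (l.map g).sum := by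
  induction l with
  | nil => simp
  | cons a l ih =>
    rw [List.map_cons, List.sum_cons, List.map_cons, List.sum_cons]
    exact add_le_add (h a (by simp)) (ih fun x hx => h x (by simp [hx]))

theorem ptas_spec_sum_comm {α γ : Type} (l : List α) (l' : List γ) (f : α → γ → ℝ) :
    (l.map fun x => (l'.map fun y => f x y).sum).sum =
      (l'.map fun y => (l.map fun x => f x y).sum).sum := by
  induction l with
  | nil => simp
  | cons a l ih =>
    simp only [List.map_cons, List.sum_cons, ih]
    rw [← List.sum_map_add]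

theorem ptas_spec_sum_comm' {γ : Type} (s : Finset ℕ) (l' : List γ) (f : ℕ → γ → ℝ) :
    ∑ x ∈ s, (l'.map fun y => f x y).sum = (l'.map fun y => ∑ x ∈ s, f x y).sum := by
  induction l' with
  | nil => simp
  | cons a l ih =>
    simp only [List.map_cons, List.sum_cons, Finset.sum_add_distrib, ih]

theorem ptas_spec_mul_sum {α : Type} (l : List α) (f : α → ℝ) (β : ℝ) :
    (l.map fun x => β * f x).sum = β * (l.map f).sum := by
  induction l with
  | nil => simp
  | cons a l ih => simp [ih, mul_add]

theorem ptas_spec {n : ℕ} {d : ℕ → ℕ → ℕ} (hd : NMet d) {C : ℝ} (hC : 0 ≤ C)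
    (hconf : ∀ t u w : ℕ, u < n → w ∈ clu n d t u → (d u w : ℝ) ≤ C * t) {tsp : Bool}
    {T : List ℕ} (hT : ∀ v ∈ T, v < n) {L s k J : ℕ} (hk : 1 ≤ k)
    (hJ : ∀ u < n, ∀ w < n, d u w ≤ tau J) {β : ℝ} (hβ : 0 ≤ β)
    (hband : ∀ j q, 1 ≤ j → q ∈ reps n d T j →
      Good tsp (solve n d tsp L s (bandU n d T k j q) (bandR n d T k j q) [q])
        (bandR n d T k j q) [q] ∧
      ∀ F : List Edge, (∀ e ∈ F, (e.1 ∈ bandU n d T k j q ∨ e.1 ∈ [q]) ∧
        (e.2 ∈ bandU n d T k j q ∨ e.2 ∈ [q])) → Good tsp F (bandR n d T k j q) [q] →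
        (cost d (solve n d tsp L s (bandU n d T k j q) (bandR n d T k j q) [q]) : ℝ) ≤
          β * (cost d F : ℝ)) :
    AllGood tsp (ptas n d T tsp L s k J) T ∧
      ∀ F : List Edge, (∀ e ∈ F, e.1 < n ∧ e.2 < n) → AllGood tsp F T →
        (cost d (ptas n d T tsp L s k J) : ℝ) ≤ β * (1 + 8 * C / k) * (cost d F : ℝ) := by
  have hne : (List.range k).map (fun i => total n d T tsp L s k J i) ≠ [] := by
    intro h
    rw [List.map_eq_nil_iff, List.range_eq_nil] at h
    omega
  obtain ⟨hp1, hp2⟩ := pick_spec (d := d) hne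
  refine ⟨?_, ?_⟩
  · have h1 : ptas n d T tsp L s k J ∈ (List.range k).map (fun i => total n d T tsp L s k J i) := hp1
    rw [List.mem_map] at h1
    obtain ⟨i, hi, h2⟩ := h1
    rw [← h2]
    exact total_good hd hT hk (List.mem_range.1 hi) hJ fun j q hj hq => (hband j q hj hq).1
  · intro F hF hG
    set c : ℕ → ℕ → ℕ := fun j q =>
      cost d (solve n d tsp L s (bandU n d T k j q) (bandR n d T k j q) [q]) with hc
    -- the cost of `zeros`
    have hz : cost d (zeros n d T) = 0 := by
      unfold zeros
      rw [ptas_spec_cost_flatMap]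
      apply List.sum_eq_zero
      intro x hx
      rw [List.mem_map] at hx
      obtain ⟨v, hv, rfl⟩ := hx
      have h1 := hconf 0 v (rp n d T 0 v) (hT v hv) (rp_mem (hT v hv))
      have h2 : d v (rp n d T 0 v) = 0 := by
        have h3 : ((d v (rp n d T 0 v) : ℕ) : ℝ) ≤ 0 := by simpa using h1
        have h4 : (0 : ℝ) ≤ ((d v (rp n d T 0 v) : ℕ) : ℝ) := Nat.cast_nonneg _
        exact_mod_cast le_antisymm h3 h4
      simp [cost, h2]
    set b : ℕ → ℝ := fun j => ((reps n d T j).map fun q => (c j q : ℝ)).sum with hb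
    have hbandc : ∀ j, (cost d (band n d T tsp L s k j) : ℝ) = b j := by
      intro j
      unfold band
      rw [ptas_spec_cost_flatMap, ptas_spec_cast_sum]
    have htot : ∀ i, (cost d (total n d T tsp L s k J i) : ℝ) = ((levels k J i).map b).sum := by
      intro i
      unfold total
      rw [ptas_spec_cost_append, hz, zero_add, ptas_spec_cost_flatMap, ptas_spec_cast_sum]
      congr 1
      apply List.map_congr_left
      intro j _
      exact hbandc j
    have hsum : ∑ i ∈ Finset.range k, (cost d (total n d T tsp L s k J i) : ℝ) =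
        ∑ j ∈ Finset.Icc 1 (J + k), b j := by
      rw [← ptas_spec_levels_sum b hk J]
      exact Finset.sum_congr rfl fun i _ => htot i
    -- the average
    have havg : (k : ℝ) * (cost d (ptas n d T tsp L s k J) : ℝ) ≤
        ∑ i ∈ Finset.range k, (cost d (total n d T tsp L s k J i) : ℝ) := by
      have h1 : ∀ i ∈ Finset.range k, (cost d (ptas n d T tsp L s k J) : ℝ) ≤
          (cost d (total n d T tsp L s k J i) : ℝ) := by
        intro i hi
        have h2 := hp2 (total n d T tsp L s k J i)
          (List.mem_map.2 ⟨i, List.mem_range.2 (Finset.mem_range.1 hi), rfl⟩)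
        exact_mod_cast h2
      have h2 := Finset.sum_le_sum h1
      rw [Finset.sum_const, Finset.card_range, nsmul_eq_mul] at h2
      exact h2
    -- the bound for the bands
    have hbj : ∀ j ∈ Finset.Icc 1 (J + k), b j ≤ β * (F.map fun e =>
        ((reps n d T j).map fun q =>
          (d (phi n d T k j q e.1) (phi n d T k j q e.2) : ℝ)).sum).sum := by
      intro j hj
      rw [Finset.mem_Icc] at hj
      rw [ptas_spec_sum_comm, ← ptas_spec_mul_sum]
      apply ptas_spec_sum_le
      intro q hq
      obtain ⟨g1, g2⟩ := phi_good hd hT hF hG (k := k) hq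
      have h1 := (hband j q hj.1 hq).2 _ g1 g2
      have h2 : (cost d (F.map (fun e => (phi n d T k j q e.1, phi n d T k j q e.2))) : ℝ) =
          (F.map fun e => (d (phi n d T k j q e.1) (phi n d T k j q e.2) : ℝ)).sum := by
        unfold cost
        rw [List.map_map, ptas_spec_cast_sum]
        rfl
      rw [h2] at h1
      exact h1
    have hall : ∑ j ∈ Finset.Icc 1 (J + k), b j ≤ β * ((k + 8 * C) * (cost d F : ℝ)) := by
      refine le_trans (Finset.sum_le_sum hbj) ?_
      rw [← Finset.mul_sum]
      apply mul_le_mul_of_nonneg_left _ hβ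
      rw [ptas_spec_sum_comm']
      have h3 : (cost d F : ℝ) = (F.map fun e => (d e.1 e.2 : ℝ)).sum := by
        unfold cost
        rw [ptas_spec_cast_sum]
      rw [h3, ← ptas_spec_mul_sum]
      apply ptas_spec_sum_le
      intro e he
      exact phi_sum hd hC hconf T hk (hF e he).1 (hF e he).2 hJ
    have hkp : (0 : ℝ) < k := by exact_mod_cast hk
    rw [hsum] at havg
    have hfin := le_trans havg hall
    have e1 : β * (1 + 8 * C / k) * (cost d F : ℝ) =
        (β * ((k + 8 * C) * (cost d F : ℝ))) / k := by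
      field_simp
    rw [e1, le_div_iff₀ hkp, mul_comm]
    exact hfin

end Pool.Agent.H703
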