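import Mathlib

/-!
# Metric notions for the structure theorem

All distances are given by a function `d : V → V → ℝ` which is a pseudometric.
-/

set_option autoImplicit false

namespace Pool.Agent.H703

variable {V : Type}

/-- `d` is a pseudometric. -/
structure PMet (d : V → V → ℝ) : Prop where
  self : ∀ x, d x x = 0
  symm : ∀ x y, d x y = d y x
  tri : ∀ x y z, d x z ≤ d x y + d y z

theorem PMet.nonneg {d : V → V → ℝ} (h : PMet d) (x y : V) : 0 ≤ d x y := by
  have h1 := h.tri x y x
  rw [h.self, h.symm y x] at h1
  linarith

/-- The hub condition with parameter `h`, for the points of `W`: at every scale `r > 0` there is a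
set `S ⊆ W` of hubs, at most `h` of them within `2 r` of any point, such that every pair at a
distance in `(r, 2r]` has a hub on a geodesic between its points. -/
def HC (h : ℕ) (d : V → V → ℝ) (W : Set V) : Prop :=
  ∀ r : ℝ, 0 < r → ∃ S : Finset V, (∀ x ∈ S, x ∈ W) ∧
    (∀ v ∈ W, ∀ T : Finset V, T ⊆ S → (∀ x ∈ T, d v x ≤ 2 * r) → T.card ≤ h) ∧
    ∀ u ∈ W, ∀ w ∈ W, r < d u w → d u w ≤ 2 * r → ∃ x ∈ S, d u x + d x w = d u w

/-- `u` and `w` are closer to each other than through `A`. -/
def rel (d : V → V → ℝ) (A : Set V) (u w : V) : Prop :=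
  ∀ b ∈ A, ∀ c ∈ A, d u w < d u b + d w c

/-- The points reachable from `u` by steps inside `U` along `rel d A`. -/
def comp (d : V → V → ℝ) (A U : Set V) (u : V) : Set V :=
  {w | Relation.ReflTransGen (fun x y => y ∈ U ∧ rel d A x y) u w}

/-- Contraction depth at most `s`: `U` can be reduced to the empty set in `s` rounds; in a round
every component of what is left is treated separately, by contracting one point of `P` into the
contracted set `A`. -/
def Dep (d : V → V → ℝ) (P : Set V) : ℕ → Set V → Set V → Prop
  | 0, U, _ => U = ∅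
  | s + 1, U, A => ∀ u ∈ U, ∃ z ∈ P, Dep d P s (comp d A U u \ {z}) (insert z A)

end Pool.Agent.H703
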