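import Pool.Agent.H703.Clos

/-!
# Cheap solutions have few edges

Proofs written by helper847 from the plan of helper703.
-/

set_option autoImplicit false

namespace Pool.Agent.H703

/-
PROOF IN WORDS.  Among all lists `F'` with end points in `C ∪ A`, `Good tsp F' R A` and `cost d F' ≤ cost d F` choose one of
smallest length (`F` is one).  We show `F'.length ≤ L`; then `F' ∈ seqs (pairsOf (C ++ A)) L`.  By minimality:
 (a) no edge of `F'` has both end points in `A`: erase it; connectivity to `A` and the degrees outside `A` do not change, cost does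
     not increase.  (b) no edge `(x, x)`: erase it; the degree of `x` drops by 2.
 (c) for every `u ∉ A` at most two edges of `F'` (counted with multiplicity) join `u` to `A`: if there are three, erase two of them;
     the degree of `u` drops by 2, `u` is still adjacent to an element of `A`, so everything that was `Joined` to `A` still is.
So every edge is of type 1: both end points in `C \ A`, distinct, cost `≥ t`; or of type 2: exactly one end point `u ∈ C \ A`, the
other in `A`.  Type 2 edges of cost `< t/2`: each `a ∈ A` is within `< t/2` of at most one `u ∈ C` (separation), each `u` has at most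
two type 2 edges; so there are at most `2 * A.length` of them (map such an edge to its end point in `A`; at most two edges have
the same image because all have the same `u`).  All other edges cost at least `t/2` each, so there are at most
`2 * cost d F' / t` of them.  Total `≤ 2 * cost d F / t + 2 * A.length ≤ L`.
-/

/-! ### Auxiliary lemmas -/

theorem brute_cost_perm {d : ℕ → ℕ → ℕ} {F G : List Edge} (h : F.Perm G) : cost d F = cost d G :=
  (h.map _).sum_eq

theorem brute_cost_cons (d : ℕ → ℕ → ℕ) (e : Edge) (F : List Edge) :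
    cost d (e :: F) = d e.1 e.2 + cost d F := by
  simp [cost]

theorem brute_ends_perm {F G : List Edge} (h : F.Perm G) (v : ℕ) :
    (ends F).count v = (ends G).count v :=
  (h.flatMap_right _).count_eq v

theorem brute_ends_cons (e : Edge) (F : List Edge) (v : ℕ) :
    (ends (e :: F)).count v = ([e.1, e.2] : List ℕ).count v + (ends F).count v := by
  simp only [ends, List.flatMap_cons, List.count_append]

theorem brute_adj_perm {F G : List Edge} (h : F.Perm G) {x y : ℕ} (ha : adj F x y) : adj G x y := by
  rcases ha with ha | ha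
  · exact Or.inl (h.mem_iff.1 ha)
  · exact Or.inr (h.mem_iff.1 ha)

theorem brute_joined_trans {F G : List Edge} {A : List ℕ}
    (h : ∀ b c, adj F b c → Joined G A b → Joined G A c) {t : ℕ} (hj : Joined F A t) :
    Joined G A t := by
  obtain ⟨a, ha, hp⟩ := hj
  induction hp with
  | refl => exact ⟨a, ha, Relation.ReflTransGen.refl⟩
  | tail _ hbc ih => exact h _ _ hbc ih

theorem brute_joined_step {G : List Edge} {A : List ℕ} {b c : ℕ} (h : adj G b c)
    (hb : Joined G A b) : Joined G A c := by
  obtain ⟨a, ha, hp⟩ := hb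
  exact ⟨a, ha, hp.tail h⟩

theorem brute_joined_mem {G : List Edge} {A : List ℕ} {c : ℕ} (h : c ∈ A) : Joined G A c :=
  ⟨c, h, Relation.ReflTransGen.refl⟩

/-- Erasing an edge inside `A`. -/
theorem brute_a {tsp : Bool} {R A : List ℕ} {e : Edge} {F : List Edge} (h : Good tsp (e :: F) R A)
    (h1 : e.1 ∈ A) (h2 : e.2 ∈ A) : Good tsp F R A := by
  refine ⟨fun t ht => ?_, fun htsp v hv => ?_⟩
  · refine brute_joined_trans (fun b c hbc hb => ?_) (h.1 t ht)
    rcases hbc with hbc | hbc
    · rcases List.mem_cons.1 hbc with hbc | hbc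
      · refine brute_joined_mem ?_
        rw [← hbc] at h2; exact h2
      · exact brute_joined_step (Or.inl hbc) hb
    · rcases List.mem_cons.1 hbc with hbc | hbc
      · refine brute_joined_mem ?_
        rw [← hbc] at h1; exact h1
      · exact brute_joined_step (Or.inr hbc) hb
  · have h3 := h.2 htsp v hv
    rw [brute_ends_cons] at h3
    have h4 : ([e.1, e.2] : List ℕ).count v = 0 := by
      rw [List.count_eq_zero]
      intro h5
      simp only [List.mem_cons, List.not_mem_nil, or_false] at h5
      rcases h5 with h5 | h5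
      · exact hv (h5 ▸ h1)
      · exact hv (h5 ▸ h2)
    rw [h4, zero_add] at h3
    exact h3

/-- Erasing a loop. -/
theorem brute_b {tsp : Bool} {R A : List ℕ} {e : Edge} {F : List Edge} (h : Good tsp (e :: F) R A)
    (h1 : e.1 = e.2) : Good tsp F R A := by
  refine ⟨fun t ht => ?_, fun htsp v hv => ?_⟩
  · refine brute_joined_trans (fun b c hbc hb => ?_) (h.1 t ht)
    rcases hbc with hbc | hbc
    · rcases List.mem_cons.1 hbc with hbc | hbc
      · rw [← hbc] at h1
        simp only at h1
        rw [← h1]; exact hb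
      · exact brute_joined_step (Or.inl hbc) hb
    · rcases List.mem_cons.1 hbc with hbc | hbc
      · rw [← hbc] at h1
        simp only at h1
        rw [h1]; exact hb
      · exact brute_joined_step (Or.inr hbc) hb
  · have h3 := h.2 htsp v hv
    rw [brute_ends_cons, h1] at h3
    have h4 : Even (([e.2, e.2] : List ℕ).count v) := by
      by_cases h5 : e.2 = v
      · rw [h5]; simp
      · rw [List.count_eq_zero.2]
        · exact Even.zero
        · simp only [List.mem_cons, List.not_mem_nil, or_false, or_self]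
          exact fun h6 => h5 h6.symm
    exact (Nat.even_add.1 h3).1 h4

/-- `e` joins `u` to `A`. -/
def BJ (A : List ℕ) (u : ℕ) (e : Edge) : Prop := (e.1 = u ∧ e.2 ∈ A) ∨ (e.2 = u ∧ e.1 ∈ A)

theorem brute_count_BJ {A : List ℕ} {u v : ℕ} {e : Edge} (hu : u ∉ A) (h : BJ A u e) (hv : v ∉ A) :
    ([e.1, e.2] : List ℕ).count v = if v = u then 1 else 0 := by
  obtain ⟨x, y⟩ := e
  rcases h with ⟨h1, h2⟩ | ⟨h1, h2⟩
  · simp only at h1 h2
    subst h1
    have h3 : y ≠ v := fun h => hv (h ▸ h2)
    by_cases h4 : v = x
    · subst h4; simp [h3]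
    · have h5 : x ≠ v := fun h => h4 h.symm
      simp [h4, h3, h5]
  · simp only at h1 h2
    subst h1
    have h3 : x ≠ v := fun h => hv (h ▸ h2)
    by_cases h4 : v = y
    · subst h4; simp [h3]
    · have h5 : y ≠ v := fun h => h4 h.symm
      simp [h4, h3, h5]

/-- Erasing two of three edges that join `u` to `A`. -/
theorem brute_c {tsp : Bool} {R A : List ℕ} {u : ℕ} (hu : u ∉ A) {e₁ e₂ e₃ : Edge} {F : List Edge}
    (h : Good tsp (e₁ :: e₂ :: e₃ :: F) R A) (h1 : BJ A u e₁) (h2 : BJ A u e₂) (h3 : BJ A u e₃) :
    Good tsp (e₃ :: F) R A := by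
  have hju : Joined (e₃ :: F) A u := by
    rcases h3 with ⟨h4, h5⟩ | ⟨h4, h5⟩
    · refine brute_joined_step (b := e₃.2) (Or.inr ?_) (brute_joined_mem h5)
      rw [← h4]; exact List.mem_cons_self
    · refine brute_joined_step (b := e₃.1) (Or.inl ?_) (brute_joined_mem h5)
      rw [← h4]; exact List.mem_cons_self
  have key : ∀ e : Edge, BJ A u e → Joined (e₃ :: F) A e.1 ∧ Joined (e₃ :: F) A e.2 := by
    rintro e (⟨h4, h5⟩ | ⟨h4, h5⟩)
    · exact ⟨h4 ▸ hju, brute_joined_mem h5⟩
    · exact ⟨brute_joined_mem h5, h4 ▸ hju⟩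
  refine ⟨fun t ht => ?_, fun htsp v hv => ?_⟩
  · refine brute_joined_trans (fun b c hbc hb => ?_) (h.1 t ht)
    rcases hbc with hbc | hbc
    · rcases List.mem_cons.1 hbc with hbc | hbc
      · have := (key _ h1).2; rw [← hbc] at this; exact this
      · rcases List.mem_cons.1 hbc with hbc | hbc
        · have := (key _ h2).2; rw [← hbc] at this; exact this
        · exact brute_joined_step (Or.inl hbc) hb
    · rcases List.mem_cons.1 hbc with hbc | hbc
      · have := (key _ h1).1; rw [← hbc] at this; exact this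
      · rcases List.mem_cons.1 hbc with hbc | hbc
        · have := (key _ h2).1; rw [← hbc] at this; exact this
        · exact brute_joined_step (Or.inr hbc) hb
  · have h4 := h.2 htsp v hv
    rw [brute_ends_cons, brute_ends_cons e₂, brute_count_BJ hu h1 hv, brute_count_BJ hu h2 hv,
      ← add_assoc] at h4
    refine (Nat.even_add.1 h4).1 ?_
    split_ifs <;> decide

theorem brute_good_perm {tsp : Bool} {R A : List ℕ} {F G : List Edge} (hp : F.Perm G)
    (h : Good tsp F R A) : Good tsp G R A := by
  refine ⟨fun t ht => ?_, fun htsp v hv => ?_⟩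
  · exact brute_joined_trans (fun b c hbc hb => brute_joined_step (brute_adj_perm hp hbc) hb)
      (h.1 t ht)
  · rw [← brute_ends_perm hp]; exact h.2 htsp v hv

/-- The length of a list in terms of the fibres of a map. -/
theorem brute_len (f : Edge → ℕ) (S : Finset ℕ) (l : List Edge) (h : ∀ e ∈ l, f e ∈ S) :
    l.length = ∑ a ∈ S, l.countP (fun e => decide (f e = a)) := by
  induction l with
  | nil => simp
  | cons e l ih =>
    have h1 := ih fun x hx => h x (List.mem_cons_of_mem _ hx)
    simp only [List.length_cons, List.countP_cons, Finset.sum_add_distrib, ← h1, decide_eq_true_eq]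
    rw [Finset.sum_ite_eq, if_pos (h e List.mem_cons_self)]

/-- Many costly edges are expensive. -/
theorem brute_costly {d : ℕ → ℕ → ℕ} {c : ℝ} (l : List Edge) (h : ∀ e ∈ l, c ≤ (d e.1 e.2 : ℝ)) :
    (l.length : ℝ) * c ≤ cost d l := by
  induction l with
  | nil => simp [cost]
  | cons e l ih =>
    have h1 := ih fun x hx => h x (List.mem_cons_of_mem _ hx)
    have h2 := h e List.mem_cons_self
    rw [brute_cost_cons]
    push_cast
    rw [List.length_cons]
    push_cast
    linarith

/-- a cheap solution can be replaced by one with few edges. -/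
theorem brute {d : ℕ → ℕ → ℕ} (hd : NMet d) {tsp : Bool} {C R A : List ℕ} {t : ℝ}
    (ht : 0 < t) (hsep : ∀ u ∈ C, ∀ w ∈ C, u ≠ w → t ≤ (d u w : ℝ)) {L : ℕ} {F : List Edge}
    (hF : ∀ e ∈ F, (e.1 ∈ C ∨ e.1 ∈ A) ∧ (e.2 ∈ C ∨ e.2 ∈ A)) (hG : Good tsp F R A)
    (hL : 2 * (cost d F : ℝ) / t + 2 * (A.length : ℝ) ≤ L) :
    ∃ F' ∈ seqs (pairsOf (C ++ A)) L, Good tsp F' R A ∧ cost d F' ≤ cost d F := by
  classical
  set P : List Edge → Prop := fun F' => (∀ e ∈ F', (e.1 ∈ C ∨ e.1 ∈ A) ∧ (e.2 ∈ C ∨ e.2 ∈ A)) ∧
    Good tsp F' R A ∧ cost d F' ≤ cost d F with hP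
  have hex : ∃ n, ∃ F', P F' ∧ F'.length = n := ⟨F.length, F, ⟨hF, hG, le_rfl⟩, rfl⟩
  obtain ⟨F', hPF, hlen⟩ := Nat.find_spec hex
  have hmin : ∀ F₁, P F₁ → F'.length ≤ F₁.length := fun F₁ h1 => by
    rw [hlen]; exact Nat.find_min' hex ⟨F₁, h1, rfl⟩
  obtain ⟨hF', hG', hc'⟩ := hPF
  -- (a)
  have ha : ∀ e ∈ F', ¬ (e.1 ∈ A ∧ e.2 ∈ A) := by
    rintro e he ⟨h1, h2⟩
    have hp : F'.Perm (e :: F'.erase e) := List.perm_cons_erase he
    have h3 := hmin (F'.erase e) ⟨fun x hx => hF' x (List.mem_of_mem_erase hx),
      brute_a (brute_good_perm hp hG') h1 h2, by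
        rw [brute_cost_perm hp, brute_cost_cons] at hc'; omega⟩
    have h4 := hp.length_eq
    rw [List.length_cons] at h4
    omega
  -- (b)
  have hb : ∀ e ∈ F', e.1 ≠ e.2 := by
    intro e he h1
    have hp : F'.Perm (e :: F'.erase e) := List.perm_cons_erase he
    have h3 := hmin (F'.erase e) ⟨fun x hx => hF' x (List.mem_of_mem_erase hx),
      brute_b (brute_good_perm hp hG') h1, by
        rw [brute_cost_perm hp, brute_cost_cons] at hc'; omega⟩
    have h4 := hp.length_eq
    rw [List.length_cons] at h4
    omega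
  -- (c)
  have hcc : ∀ u, u ∉ A → F'.countP (fun e => decide (BJ A u e)) ≤ 2 := by
    intro u hu
    by_contra hcon
    push Not at hcon
    rw [List.countP_eq_length_filter] at hcon
    set K := F'.filter (fun e => decide (BJ A u e)) with hK
    have hperm : F'.Perm (K ++ F'.filter (fun e => !decide (BJ A u e))) :=
      (List.filter_append_perm _ _).symm
    have hKm : ∀ e ∈ K, BJ A u e := by
      intro e he
      rw [hK, List.mem_filter] at he
      simpa using he.2
    match hKe : K, hcon with
    | e₁ :: e₂ :: e₃ :: K', _ =>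
      simp only [List.cons_append] at hperm
      set G := K' ++ F'.filter (fun e => !decide (BJ A u e)) with hGG
      have h1 := hKm e₁ (by simp)
      have h2 := hKm e₂ (by simp)
      have h3 := hKm e₃ (by simp)
      have h4 := hmin (e₃ :: G) ⟨fun x hx => hF' x (hperm.mem_iff.2 (by
          simp only [List.mem_cons]
          rcases List.mem_cons.1 hx with h | h
          · exact Or.inr (Or.inr (Or.inl h))
          · exact Or.inr (Or.inr (Or.inr h)))),
        brute_c hu (brute_good_perm hperm hG') h1 h2 h3, by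
          rw [brute_cost_perm hperm, brute_cost_cons, brute_cost_cons d e₂] at hc'
          omega⟩
      have h5 := hperm.length_eq
      simp only [List.length_cons] at h4 h5
      omega
  -- cheap edges
  set Q : Edge → Bool := fun e => decide ((d e.1 e.2 : ℝ) < t / 2) with hQ
  set K := F'.filter Q with hK
  set N := F'.filter (fun e => !Q e) with hN
  have hperm : F'.Perm (K ++ N) := (List.filter_append_perm _ _).symm
  have hKm : ∀ e ∈ K, e ∈ F' ∧ (d e.1 e.2 : ℝ) < t / 2 := by
    intro e he
    rw [hK, List.mem_filter] at he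
    exact ⟨he.1, by simpa [hQ] using he.2⟩
  have hNm : ∀ e ∈ N, t / 2 ≤ (d e.1 e.2 : ℝ) := by
    intro e he
    rw [hN, List.mem_filter] at he
    simpa [hQ] using he.2
  -- a cheap edge has exactly one end in `A`
  have htype : ∀ e ∈ K, (e.1 ∈ A ∧ e.2 ∉ A ∧ e.2 ∈ C) ∨ (e.1 ∉ A ∧ e.2 ∈ A ∧ e.1 ∈ C) := by
    intro e he
    obtain ⟨h1, h2⟩ := hKm e he
    have h3 := hF' e h1
    by_cases h4 : e.1 ∈ A
    · have h5 : e.2 ∉ A := fun h => ha e h1 ⟨h4, h⟩
      exact Or.inl ⟨h4, h5, h3.2.resolve_right h5⟩
    · by_cases h5 : e.2 ∈ A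
      · exact Or.inr ⟨h4, h5, h3.1.resolve_right h4⟩
      · exfalso
        have h6 := hsep e.1 (h3.1.resolve_right h4) e.2 (h3.2.resolve_right h5) (hb e h1)
        linarith
  set al : Edge → ℕ := fun e => if e.1 ∈ A then e.1 else e.2 with hal
  set be : Edge → ℕ := fun e => if e.1 ∈ A then e.2 else e.1 with hbe
  have hab : ∀ e ∈ K, al e ∈ A ∧ be e ∉ A ∧ be e ∈ C ∧ BJ A (be e) e ∧
      (d (be e) (al e) : ℝ) < t / 2 := by
    intro e he
    have h2 := (hKm e he).2
    rcases htype e he with ⟨h3, h4, h5⟩ | ⟨h3, h4, h5⟩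
    · simp only [hal, hbe, if_pos h3]
      refine ⟨h3, h4, h5, Or.inr ⟨rfl, h3⟩, ?_⟩
      rw [hd.symm]; exact h2
    · simp only [hal, hbe, if_neg h3]
      exact ⟨h4, h3, h5, Or.inl ⟨rfl, h4⟩, h2⟩
  have hfib : ∀ a ∈ A.toFinset, K.countP (fun e => decide (al e = a)) ≤ 2 := by
    intro a _
    by_cases h0 : ∃ e ∈ K, al e = a
    · obtain ⟨e₀, he₀, ha₀⟩ := h0
      obtain ⟨g1, g2, g3, g4, g5⟩ := hab e₀ he₀
      have h1 : K.countP (fun e => decide (al e = a)) ≤ K.countP (fun e => decide (BJ A (be e₀) e)) := by
        refine List.countP_mono_left fun e he hae => ?_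
        simp only [decide_eq_true_eq] at hae ⊢
        obtain ⟨k1, k2, k3, k4, k5⟩ := hab e he
        have h2 : be e = be e₀ := by
          by_contra hne
          have h3 := hsep _ k3 _ g3 hne
          have h4 : d (be e) (be e₀) ≤ d (be e) a + d a (be e₀) := hd.tri _ _ _
          rw [hae] at k5
          rw [ha₀, hd.symm] at g5
          have h5 : (d (be e) (be e₀) : ℝ) ≤ d (be e) a + d a (be e₀) := by exact_mod_cast h4
          linarith
        rw [← h2]; exact k4
      have h2 : K.countP (fun e => decide (BJ A (be e₀) e)) ≤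
          F'.countP (fun e => decide (BJ A (be e₀) e)) :=
        List.Sublist.countP_le List.filter_sublist
      exact h1.trans (h2.trans (hcc _ g2))
    · have h1 : K.countP (fun e => decide (al e = a)) = 0 := by
        rw [List.countP_eq_zero]
        intro e he hae
        exact h0 ⟨e, he, by simpa using hae⟩
      omega
  have hKlen : K.length ≤ 2 * A.length := by
    rw [brute_len al A.toFinset K (fun e he => List.mem_toFinset.2 (hab e he).1)]
    calc ∑ a ∈ A.toFinset, K.countP (fun e => decide (al e = a))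
        ≤ ∑ a ∈ A.toFinset, 2 := Finset.sum_le_sum hfib
      _ = A.toFinset.card * 2 := by rw [Finset.sum_const, smul_eq_mul]
      _ ≤ 2 * A.length := by
          have := List.toFinset_card_le A
          omega
  have hNlen : (N.length : ℝ) ≤ 2 * (cost d F : ℝ) / t := by
    have h1 := brute_costly N hNm
    have h2 : cost d N ≤ cost d F := by
      have h3 : cost d F' = cost d K + cost d N := by
        rw [brute_cost_perm hperm]
        simp [cost]
      omega
    have h4 : (cost d N : ℝ) ≤ cost d F := by exact_mod_cast h2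
    rw [le_div_iff₀ ht]
    linarith
  have hlenF : F'.length ≤ L := by
    have h1 := hperm.length_eq
    rw [List.length_append] at h1
    have h2 : (F'.length : ℝ) ≤ L := by
      rw [h1]
      push_cast
      have h3 : (K.length : ℝ) ≤ 2 * A.length := by exact_mod_cast hKlen
      linarith
    exact_mod_cast h2
  refine ⟨F', mem_seqs.2 ⟨hlenF, fun e he => mem_pairsOf.2 ?_⟩, hG', hc'⟩
  have := hF' e he
  simpa only [List.mem_append] using this

end Pool.Agent.H703
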