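import Pool.Agent.H703.Tight
import Pool.Agent.Helper448.PSun

/-!
# The chain lemma

Proof written by helper128 from the plan of helper703.
-/

set_option autoImplicit false

namespace Pool.Agent.H703

variable {V : Type}

variable {d : V → V → ℝ} {a : V → ℝ} {P : Set V}

/-- The hypotheses of the chain lemma. -/
structure Chain (d : V → V → ℝ) (R : V → ℝ) (B : Set V) (K m : ℕ) (y : ℕ → V) : Prop where
  hub : ∀ i ≤ m, 0 ≤ R (y i)
  cov : ∀ i ≤ m, ∀ j ≤ m, 1 ≤ d (y i) (y j) →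
    ∃ x, x ∉ B ∧ d (y i) x + d x (y j) = d (y i) (y j) ∧ 2 * d (y i) (y j) - 1 / 1000 ≤ R x
  step : ∀ i < m, ∃ x, x ∉ B ∧ d (y i) x ≤ R x ∧ d x (y (i + 1)) ≤ 1 / 20
  ind : ∀ i j, i + 2 ≤ j → j ≤ m → ∀ x, d (y i) x ≤ R x → 1 / 20 < d x (y j)
  crd : ∀ i ≤ m, ∀ T : Finset V, (∀ x ∈ T, x ∉ B ∧ d (y i) x ≤ R x) → T.card ≤ K

theorem Chain.shift {R : V → ℝ} {B : Set V} {K m : ℕ} {y : ℕ → V} (h : Chain d R B K m y)
    (o m' : ℕ) (hom : o + m' ≤ m) : Chain d R B K m' (fun i => y (o + i)) where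
  hub i hi := h.hub _ (by omega)
  cov i hi j hj := h.cov _ (by omega) _ (by omega)
  step i hi := h.step (o + i) (by omega)
  ind i j hij hj := h.ind _ _ (by omega) (by omega)
  crd i hi := h.crd _ (by omega)

theorem Chain.far {R : V → ℝ} {B : Set V} {K m : ℕ} {y : ℕ → V} (hd : PMet d)
    (hR : ∀ x, R x < 0 ∨ 3 / 2 ≤ R x) (h : Chain d R B K m y) {i j : ℕ} (hij : i + 2 ≤ j)
    (hj : j ≤ m) : 3 / 2 < d (y i) (y j) := by
  by_contra hc
  push Not at hc
  have h1 : 3 / 2 ≤ R (y j) := by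
    rcases hR (y j) with h0 | h0
    · linarith [h.hub j hj]
    · exact h0
  have h2 := h.ind i j hij hj (y j) (hc.trans h1)
  rw [hd.self] at h2
  linarith

/-- The window argument: a good window of length `g + 3` is impossible. -/
theorem window_false {R : V → ℝ} {B : Set V} {K g : ℕ} {y : ℕ → V}
    (hd : PMet d) (hR : ∀ x, R x < 0 ∨ 3 / 2 ≤ R x) (h : Chain d R B (K + 1) (g + 2) y)
    (Ker : Finset V) (zs : V) (hzs : zs ∈ Ker) (hzB : zs ∉ B)
    (hzN : ∀ i ≤ g + 2, d (y i) zs ≤ R zs)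
    (g1 : ∀ i ≤ g + 2, ∀ x, x ∉ B → d (y i) x ≤ R x → x ∉ Ker → ∀ b ∈ Ker, R x < d b x)
    (g2 : ∀ i ≤ g + 2, ∀ b ∈ Ker, R (y i) < d b (y i))
    (ih : ∀ (B' : Set V) (y' : ℕ → V), Chain d R B' K g y' → False) : False := by
  classical
  have hne : Ker.Nonempty := ⟨zs, hzs⟩
  obtain ⟨a, ale, aex⟩ : ∃ a : V → ℝ, (∀ v, ∀ b ∈ Ker, a v ≤ d v b) ∧
      ∀ v, ∃ b ∈ Ker, a v = d v b :=
    ⟨fun v => Ker.inf' hne (fun b => d v b), fun v b hb => Finset.inf'_le _ hb,
      fun v => Finset.exists_mem_eq_inf' hne _⟩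
  have hR' : ∀ i ≤ g + 2, 3 / 2 ≤ R (y i) := by
    intro i hi
    rcases hR (y i) with h0 | h0
    · linarith [h.hub i hi]
    · exact h0
  have alip : ∀ x z, a x ≤ a z + d x z := by
    intro x z
    obtain ⟨b, hb, hb'⟩ := aex z
    have h1 := ale x b hb
    have h2 := hd.tri x z b
    linarith
  have apos : ∀ i ≤ g + 2, 3 / 2 < a (y i) := by
    intro i hi
    obtain ⟨b, hb, hb'⟩ := aex (y i)
    have h1 := g2 i hi b hb
    have h2 := hR' i hi
    rw [hb', hd.symm]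
    linarith
  obtain ⟨P, hP⟩ : ∃ P : Set V, P = {v | ∃ i ≤ g + 2, v = y i} := ⟨_, rfl⟩
  have memP : ∀ i ≤ g + 2, y i ∈ P := fun i hi => hP ▸ ⟨i, hi, rfl⟩
  have exP : ∀ v ∈ P, ∃ i ≤ g + 2, v = y i := fun v hv => by rw [hP] at hv; exact hv
  -- the by-product (H)
  have H : ∀ i ≤ g + 2, ∀ j ≤ g + 2, 1 ≤ d (y i) (y j) → d (y i) (y j) < a (y i) + a (y j) →
      ∃ x, x ∉ B ∧ x ∉ Ker ∧ d (y i) x + d x (y j) = d (y i) (y j) ∧
        2 * d (y i) (y j) - 1 / 1000 ≤ R x ∧ d (y i) x ≤ R x ∧ R x < a x := by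
    intro i hi j hj h1 h2
    obtain ⟨x, hxB, hx, hxR⟩ := h.cov i hi j hj h1
    have n1 := hd.nonneg x (y j)
    have hxN : d (y i) x ≤ R x := by linarith
    have hxK : x ∉ Ker := by
      intro hxK
      have e1 := ale (y i) x hxK
      have e2 := ale (y j) x hxK
      rw [hd.symm (y j) x] at e2
      linarith
    refine ⟨x, hxB, hxK, hx, hxR, hxN, ?_⟩
    obtain ⟨b, hb, hb'⟩ := aex x
    rw [hb', hd.symm x b]
    exact g1 i hi x hxB hxN hxK b hb
  have ctx : TCtx d a P := by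
    refine ⟨alip, ?_, ?_⟩
    · intro u hu
      obtain ⟨i, hi, rfl⟩ := exP u hu
      linarith [apos i hi]
    · intro u hu w hw huw
      obtain ⟨i, hi, rfl⟩ := exP u hu
      obtain ⟨j, hj, rfl⟩ := exP w hw
      by_cases h1 : 1 ≤ d (y i) (y j)
      · obtain ⟨x, -, -, hx, hxR, -, hxa⟩ := H i hi j hj h1 huw
        have e1 := alip x (y i)
        have e2 := alip x (y j)
        rw [hd.symm x (y i)] at e1
        linarith
      · push Not at h1
        linarith [apos i hi, apos j hj]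
  -- (n1)
  have stepK : ∀ i < g + 2, ∃ x, x ∉ B ∧ x ∉ Ker ∧ d (y i) x ≤ R x ∧
      d x (y (i + 1)) ≤ 1 / 20 := by
    intro i hi
    obtain ⟨x, hxB, hxN, hx⟩ := h.step i hi
    refine ⟨x, hxB, ?_, hxN, hx⟩
    intro hxK
    have e1 := g2 (i + 1) (by omega) x hxK
    have e2 := hR' (i + 1) (by omega)
    linarith
  have n1 : ∀ i < g + 2, d (y i) (y (i + 1)) < a (y i) + a (y (i + 1)) := by
    intro i hi
    obtain ⟨x, hxB, hxK, hxN, hx⟩ := stepK i hi
    obtain ⟨b, hb, hb'⟩ := aex x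
    have e0 := g1 i (by omega) x hxB hxN hxK b hb
    rw [hd.symm b x, ← hb'] at e0
    have e1 := alip x (y (i + 1))
    have e2 := hd.tri (y i) x (y (i + 1))
    have e3 := apos i (by omega)
    linarith
  -- (n2)
  have n2 : ∀ l, 2 ≤ l → l ≤ g + 2 → ∀ u w, Tight d a P u (y l) w → False := by
    intro l hl2 hl u w ht
    have hdn : ∀ k, k ≤ l → d (y (l - k)) (y l) < a (y (l - k)) + a (y l) := by
      intro k
      induction k with
      | zero =>
        intro _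
        rw [Nat.sub_zero, hd.self]
        linarith [apos l hl]
      | succ k ihk =>
        intro hk
        have e : l - k = l - (k + 1) + 1 := by omega
        refine ht.all_rel hd ctx (memP (l - k) (by omega)) (memP (l - (k + 1)) (by omega))
          (ihk (by omega)) ?_
        rw [e]
        exact n1 _ (by omega)
    have h0 : d (y 0) (y l) < a (y 0) + a (y l) := by
      have e := hdn l le_rfl
      rw [Nat.sub_self] at e
      exact e
    have hfar : 3 / 2 < d (y 0) (y l) := h.far hd hR (by omega) hl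
    have key : ∀ w', Tight d a P (y 0) (y l) w' → False := by
      intro w' ht'
      obtain ⟨x, -, -, hx, hxR, hxN, hxa⟩ := H 0 (by omega) l hl (by linarith) h0
      have b := ht'.bounds hd ctx
      have e1 : d x (y l) ≤ 1 / 20 :=
        hub_near (a := a) (d := d) (A := a (y l)) alip (hd.symm _ _) b.2.1
          (by linarith [b.2.2.1]) hx (by linarith)
      have e2 := h.ind 0 l (by omega) hl x hxN
      linarith
    have hvP : y l ∈ P := memP l hl
    have h0P : y 0 ∈ P := memP 0 (by omega)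
    have ht' := ht.symm hd
    by_cases c1 : d (y 0) u < a (y 0) + a u
    · by_cases c2 : d (y 0) w < a (y 0) + a w
      · have cr := ht.core hd ctx h0P c1 c2
        have cl := ctx.close _ h0P _ hvP h0
        have bd := ht.bounds hd ctx
        obtain ⟨i, hi, hui⟩ := exP u ht.hu
        have au := apos i hi
        rw [← hui] at au
        have hH := H i hi l hl (by rw [← hui]; linarith [bd.1, bd.2.1, bd.2.2.1, bd.2.2.2])
          (by rw [← hui]; exact ht.uv)
        rw [← hui] at hH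
        obtain ⟨x, -, -, hx, hxR, hxN, hxa⟩ := hH
        have e1 : d x (y l) ≤ 1 / 20 :=
          hub_near (a := a) (d := d) (A := a (y l)) alip (hd.symm _ _) bd.2.1
            (by linarith [bd.2.2.1]) hx (by linarith)
        have e2 : R x < d (y 0) x := by
          by_contra hc
          have e3 := h.ind 0 l (by omega) hl x (not_lt.mp hc)
          linarith
        have e3 := hd.tri (y 0) (y l) x
        rw [hd.symm (y l) x] at e3
        linarith [bd.1, bd.2.1, bd.2.2.1, bd.2.2.2, cr.1, cr.2.1]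
      · exact key w ⟨h0P, hvP, ht.hw, h0, ht.vw, not_lt.mp c2⟩
    · exact key u ⟨h0P, hvP, ht.hu, h0, ht'.vw, not_lt.mp c1⟩
  -- (n3)
  have n3 : ∀ k i, 2 ≤ i → i + k ≤ g + 2 → d (y i) (y (i + k)) < a (y i) + a (y (i + k)) := by
    intro k
    induction k with
    | zero =>
      intro i hi hk
      rw [Nat.add_zero, hd.self]
      linarith [apos i (by omega)]
    | succ k ihk =>
      intro i hi hk
      by_contra hc
      exact n2 (i + k) (by omega) (by omega) (y i) (y (i + (k + 1)))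
        ⟨memP i (by omega), memP _ (by omega), memP _ (by omega), ihk i hi (by omega),
          n1 (i + k) (by omega), not_lt.mp hc⟩
  have n3' : ∀ i j, 2 ≤ i → i ≤ g + 2 → 2 ≤ j → j ≤ g + 2 →
      d (y i) (y j) < a (y i) + a (y j) := by
    intro i j hi hi' hj hj'
    rcases le_total i j with hij | hij
    · obtain ⟨k, rfl⟩ := Nat.exists_eq_add_of_le hij
      exact n3 k i hi hj'
    · obtain ⟨k, rfl⟩ := Nat.exists_eq_add_of_le hij
      rw [hd.symm, add_comm (a _)]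
      exact n3 k j hj hi'
  refine ih (B ∪ ↑Ker) (fun i => y (2 + i)) ⟨?_, ?_, ?_, ?_, ?_⟩
  · intro i hi
    exact h.hub _ (by omega)
  · intro i hi j hj hij
    obtain ⟨x, hxB, hxK, hx, hxR, -, -⟩ := H (2 + i) (by omega) (2 + j) (by omega) hij
      (n3' _ _ (by omega) (by omega) (by omega) (by omega))
    refine ⟨x, ?_, hx, hxR⟩
    rintro (hx' | hx')
    · exact hxB hx'
    · exact hxK (Finset.mem_coe.mp hx')
  · intro i hi
    obtain ⟨x, hxB, hxK, hxN, hx⟩ := stepK (2 + i) (by omega)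
    refine ⟨x, ?_, hxN, hx⟩
    rintro (hx' | hx')
    · exact hxB hx'
    · exact hxK (Finset.mem_coe.mp hx')
  · intro i j hij hj x hx
    exact h.ind (2 + i) (2 + j) (by omega) (by omega) x hx
  · intro i hi T hT
    have hzT : zs ∉ T := by
      intro hc
      exact (hT zs hc).1 (Or.inr (Finset.mem_coe.mpr hzs))
    have e := h.crd (2 + i) (by omega) (insert zs T) (by
      intro x hx
      rcases Finset.mem_insert.mp hx with rfl | hx
      · exact ⟨hzB, hzN _ (by omega)⟩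
      · exact ⟨fun hc => (hT x hx).1 (Or.inl hc), (hT x hx).2⟩)
    rw [Finset.card_insert_of_notMem hzT] at e
    omega

/-- A set all of whose finite subsets have at most `K` elements is a finset. -/
theorem exists_fin {K : ℕ} {p : V → Prop}
    (h : ∀ T : Finset V, (∀ x ∈ T, p x) → T.card ≤ K) :
    ∃ N : Finset V, (∀ x, x ∈ N ↔ p x) ∧ N.card ≤ K := by
  classical
  have hf : {x | p x}.Finite := by
    by_contra hc
    obtain ⟨T, hT, hTc⟩ := Set.Infinite.exists_subset_card_eq hc (K + 1)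
    have := h T (fun x hx => hT hx)
    omega
  refine ⟨hf.toFinset, fun x => by simp, h _ (fun x hx => by simpa using hx)⟩

/-- The induction step. -/
theorem chain_succ (K0 K g : ℕ)
    (ih : ∀ (V : Type) (d : V → V → ℝ) (W : Set V) (R : V → ℝ),
      PMet d → (∀ x, R x < 0 ∨ 3 / 2 ≤ R x) → (∀ x, 0 ≤ R x → x ∈ W) →
      (∀ v ∈ W, ∀ T : Finset V, (∀ x ∈ T, d v x ≤ R x) → T.card ≤ K0) →
      ∀ (B : Set V) (m : ℕ) (y : ℕ → V), Chain d R B K m y → m < g) :
    ∃ g' : ℕ, ∀ (V : Type) (d : V → V → ℝ) (W : Set V) (R : V → ℝ),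
      PMet d → (∀ x, R x < 0 ∨ 3 / 2 ≤ R x) → (∀ x, 0 ≤ R x → x ∈ W) →
      (∀ v ∈ W, ∀ T : Finset V, (∀ x ∈ T, d v x ≤ R x) → T.card ≤ K0) →
      ∀ (B : Set V) (m : ℕ) (y : ℕ → V), Chain d R B (K + 1) m y → m < g' := by
  classical
  obtain ⟨L, hL⟩ : ∃ L, L = g + 3 := ⟨_, rfl⟩
  obtain ⟨M, hM⟩ : ∃ M, M = 4 * (L * K0 * K0) + 1 := ⟨_, rfl⟩
  obtain ⟨q, hq⟩ : ∃ q, q = Pool.Agent.Helper448.PSun.sb M (L * K0) + 1 := ⟨_, rfl⟩
  refine ⟨q * L + 1, ?_⟩
  intro V d W R hd hR hW hcard B m y h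
  by_contra hm
  push Not at hm
  have hLq : L ≤ q * L := Nat.le_mul_of_pos_left L (by omega)
  have hm2 : 2 ≤ m := by omega
  have hN : ∀ v, v ∈ W → ∃ N : Finset V, (∀ x, x ∈ N ↔ d v x ≤ R x) ∧ N.card ≤ K0 :=
    fun v hv => exists_fin (hcard v hv)
  choose! N hN' using hN
  have yW : ∀ i ≤ m, y i ∈ W := fun i hi => hW _ (h.hub i hi)
  have hwin : ∀ j < q, ∀ i < L, j * L + i ≤ m := by
    intro j hj i hi
    have e : (j + 1) * L ≤ q * L := Nat.mul_le_mul_right L hj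
    rw [Nat.add_mul, Nat.one_mul] at e
    omega
  obtain ⟨F, hF⟩ : ∃ F : ℕ → Finset V, F = fun j =>
      ((Finset.range L).biUnion (fun i => N (y (j * L + i)))).filter (fun x => x ∉ B) := ⟨_, rfl⟩
  have memF : ∀ j < q, ∀ x, x ∈ F j ↔ x ∉ B ∧ ∃ i < L, d (y (j * L + i)) x ≤ R x := by
    intro j hj x
    rw [hF]
    simp only [Finset.mem_filter, Finset.mem_biUnion, Finset.mem_range]
    constructor
    · rintro ⟨⟨i, hi, hx⟩, hxB⟩
      exact ⟨hxB, i, hi, ((hN' _ (yW _ (hwin j hj i hi))).1 x).mp hx⟩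
    · rintro ⟨hxB, i, hi, hx⟩
      exact ⟨⟨i, hi, ((hN' _ (yW _ (hwin j hj i hi))).1 x).mpr hx⟩, hxB⟩
  have cardF : ∀ j ∈ Finset.range q, (F j).card ≤ L * K0 := by
    intro j hj
    rw [hF]
    refine (Finset.card_filter_le _ _).trans ?_
    refine (Finset.card_biUnion_le_card_mul _ _ K0 ?_).trans (by rw [Finset.card_range])
    intro i hi
    exact (hN' _ (yW _ (hwin j (Finset.mem_range.mp hj) i (Finset.mem_range.mp hi)))).2
  obtain ⟨J, Ker, hJ, hJM, hKer, hJK⟩ := Pool.Agent.Helper448.PSun.sunflower M (L * K0)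
    (Finset.range q) F cardF (by rw [Finset.card_range]; omega)
  have hJq : ∀ j ∈ J, j < q := fun j hj => Finset.mem_range.mp (hJ hj)
  have hJ1 : 1 < J.card := by omega
  have k1 : ∀ j ∈ J, Ker ⊆ F j := by
    intro j hj
    obtain ⟨j', hj', hne⟩ := Finset.exists_mem_ne hJ1 j
    rw [← hJK j hj j' hj' (Ne.symm hne)]
    exact Finset.inter_subset_left
  obtain ⟨j0, hj0⟩ : J.Nonempty := Finset.card_pos.mp (by omega)
  have kerW : ∀ b ∈ Ker, b ∈ W := by
    intro b hb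
    obtain ⟨-, i, -, hi⟩ := (memF j0 (hJq j0 hj0) b).mp (k1 j0 hj0 hb)
    exact hW b ((hd.nonneg _ _).trans hi)
  -- the common hub
  obtain ⟨⟨p, r⟩, hpr, hmax⟩ := Finset.exists_max_image
    ((Finset.range (m + 1)) ×ˢ (Finset.range (m + 1))) (fun z : ℕ × ℕ => d (y z.1) (y z.2))
    ⟨(0, 0), by simp⟩
  have hpr' := Finset.mem_product.mp hpr
  have hp : p ≤ m := by have := Finset.mem_range.mp hpr'.1; omega
  have hr : r ≤ m := by have := Finset.mem_range.mp hpr'.2; omega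
  have hmax' : ∀ i ≤ m, ∀ j ≤ m, d (y i) (y j) ≤ d (y p) (y r) := by
    intro i hi j hj
    exact hmax (i, j) (Finset.mem_product.mpr
      ⟨Finset.mem_range.mpr (by omega), Finset.mem_range.mpr (by omega)⟩)
  have hD : 3 / 2 < d (y p) (y r) :=
    lt_of_lt_of_le (h.far hd hR (i := 0) (j := 2) (by omega) hm2)
      (hmax' 0 (by omega) 2 hm2)
  obtain ⟨zs, hzB, hz, hzR⟩ := h.cov p hp r hr (by linarith)
  have hzN : ∀ i ≤ m, d (y i) zs ≤ R zs := by
    intro i hi
    have e1 := hd.tri (y i) (y p) zs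
    have e2 := hd.tri (y i) (y r) zs
    rw [hd.symm (y r) zs] at e2
    have e3 := hmax' i hi p hp
    have e4 := hmax' i hi r hr
    linarith
  have hzF : ∀ j ∈ J, zs ∈ F j := by
    intro j hj
    rw [memF j (hJq j hj)]
    exact ⟨hzB, 0, by omega, hzN _ (hwin j (hJq j hj) 0 (by omega))⟩
  have hzK : zs ∈ Ker := by
    obtain ⟨j', hj', hne⟩ := Finset.exists_mem_ne hJ1 j0
    rw [← hJK j0 hj0 j' hj' (Ne.symm hne)]
    exact Finset.mem_inter.mpr ⟨hzF _ hj0, hzF _ hj'⟩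
  -- the neighbourhoods of the kernel
  obtain ⟨NK, hNK⟩ : ∃ NK : Finset V, NK = Ker.biUnion N := ⟨_, rfl⟩
  have memNK : ∀ x, x ∈ NK ↔ ∃ b ∈ Ker, d b x ≤ R x := by
    intro x
    rw [hNK, Finset.mem_biUnion]
    constructor
    · rintro ⟨b, hb, hx⟩
      exact ⟨b, hb, ((hN' b (kerW b hb)).1 x).mp hx⟩
    · rintro ⟨b, hb, hx⟩
      exact ⟨b, hb, ((hN' b (kerW b hb)).1 x).mpr hx⟩
  have cardNK : NK.card ≤ L * K0 * K0 := by
    rw [hNK]
    refine (Finset.card_biUnion_le_card_mul _ _ K0 (fun b hb => (hN' b (kerW b hb)).2)).trans ?_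
    exact Nat.mul_le_mul_right _ hKer
  obtain ⟨B1, hB1⟩ : ∃ B1 : Finset ℕ, B1 = J.filter (fun j => ∃ x ∈ F j, x ∉ Ker ∧ x ∈ NK) :=
    ⟨_, rfl⟩
  obtain ⟨B2, hB2⟩ : ∃ B2 : Finset ℕ, B2 = J.filter (fun j => ∃ i < L, y (j * L + i) ∈ NK) :=
    ⟨_, rfl⟩
  have cB1 : B1.card ≤ NK.card := by
    have e : ∀ j ∈ B1, ∃ x, x ∈ F j ∧ x ∉ Ker ∧ x ∈ NK := by
      intro j hj
      rw [hB1] at hj
      exact (Finset.mem_filter.mp hj).2
    have : Nonempty V := ⟨zs⟩
    choose! f hf using e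
    refine Finset.card_le_card_of_injOn f (fun j hj => (hf j hj).2.2) ?_
    intro i hi j hj hij
    by_contra hne
    have hiJ : i ∈ J := by
      have := Finset.mem_coe.mp hi
      rw [hB1] at this
      exact (Finset.mem_filter.mp this).1
    have hjJ : j ∈ J := by
      have := Finset.mem_coe.mp hj
      rw [hB1] at this
      exact (Finset.mem_filter.mp this).1
    apply (hf i hi).2.1
    rw [← hJK i hiJ j hjJ hne]
    refine Finset.mem_inter.mpr ⟨(hf i hi).1, ?_⟩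
    rw [hij]
    exact (hf j hj).1
  have cB2 : B2.card ≤ 2 * NK.card := by
    have e : ∀ j ∈ B2, ∃ i, i < L ∧ y (j * L + i) ∈ NK := by
      intro j hj
      rw [hB2] at hj
      obtain ⟨i, hi, hi'⟩ := (Finset.mem_filter.mp hj).2
      exact ⟨i, hi, hi'⟩
    choose! f hf using e
    have hB2J : ∀ j ∈ B2, j ∈ J := by
      intro j hj
      rw [hB2] at hj
      exact (Finset.mem_filter.mp hj).1
    refine Finset.card_le_mul_card_image_of_maps_to (f := fun j => y (j * L + f j))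
      (fun j hj => (hf j hj).2) 2 ?_
    intro b hb
    by_contra hc
    push Not at hc
    obtain ⟨i, hi, j, hj, k, hk, hij, hik, hjk⟩ := Finset.two_lt_card.mp hc
    have key : ∀ s t, s ∈ B2.filter (fun j => y (j * L + f j) = b) →
        t ∈ B2.filter (fun j => y (j * L + f j) = b) → ¬ (s + 2 ≤ t) := by
      intro s t hs ht hst
      have hs' := Finset.mem_filter.mp hs
      have ht' := Finset.mem_filter.mp ht
      have hsL := (hf s hs'.1).1
      have htL := (hf t ht'.1).1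
      have e1 : (s + 2) * L ≤ t * L := Nat.mul_le_mul_right L hst
      rw [Nat.add_mul] at e1
      have e2 := h.far hd hR (i := s * L + f s) (j := t * L + f t) (by omega)
        (hwin t (hJq t (hB2J t ht'.1)) _ htL)
      rw [hs'.2, ht'.2, hd.self] at e2
      linarith
    have a1 := key i j hi hj
    have a2 := key j i hj hi
    have a3 := key i k hi hk
    have a4 := key k i hk hi
    have a5 := key j k hj hk
    have a6 := key k j hk hj
    omega
  obtain ⟨j, hj, hjn⟩ : ∃ j ∈ J, j ∉ B1 ∪ B2 := by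
    by_contra hc
    push Not at hc
    have e1 := Finset.card_le_card (show J ⊆ B1 ∪ B2 from hc)
    have e2 := Finset.card_union_le B1 B2
    omega
  have hj1 : j ∉ B1 := fun hc => hjn (Finset.mem_union_left _ hc)
  have hj2 : j ∉ B2 := fun hc => hjn (Finset.mem_union_right _ hc)
  have hjq := hJq j hj
  refine window_false hd hR (h.shift (j * L) (g + 2) (hwin j hjq (g + 2) (by omega))) Ker zs hzK
    hzB (fun i hi => hzN _ (hwin j hjq i (by omega))) ?_ ?_ ?_
  · intro i hi x hxB hxN hxK b hb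
    by_contra hc
    apply hj1
    rw [hB1]
    refine Finset.mem_filter.mpr ⟨hj, x, ?_, hxK, (memNK x).mpr ⟨b, hb, not_lt.mp hc⟩⟩
    exact (memF j hjq x).mpr ⟨hxB, i, by omega, hxN⟩
  · intro i hi b hb
    by_contra hc
    apply hj2
    rw [hB2]
    exact Finset.mem_filter.mpr ⟨hj, i, by omega, (memNK _).mpr ⟨b, hb, not_lt.mp hc⟩⟩
  · intro B' y' hC
    exact absurd (ih V d W R hd hR hW hcard B' g y' hC) (lt_irrefl _)

/-- The chain lemma. -/
theorem chain_lemma (K0 K : ℕ) : ∃ g : ℕ, ∀ (V : Type) (d : V → V → ℝ) (W : Set V) (R : V → ℝ),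
    PMet d → (∀ x, R x < 0 ∨ 3 / 2 ≤ R x) → (∀ x, 0 ≤ R x → x ∈ W) →
    (∀ v ∈ W, ∀ T : Finset V, (∀ x ∈ T, d v x ≤ R x) → T.card ≤ K0) →
    ∀ (B : Set V) (m : ℕ) (y : ℕ → V), (∀ i ≤ m, 0 ≤ R (y i)) →
    (∀ i ≤ m, ∀ j ≤ m, 1 ≤ d (y i) (y j) → ∃ x, x ∉ B ∧ d (y i) x + d x (y j) = d (y i) (y j) ∧
      2 * d (y i) (y j) - 1 / 1000 ≤ R x) →
    (∀ i < m, ∃ x, x ∉ B ∧ d (y i) x ≤ R x ∧ d x (y (i + 1)) ≤ 1 / 20) →
    (∀ i j, i + 2 ≤ j → j ≤ m → ∀ x, d (y i) x ≤ R x → 1 / 20 < d x (y j)) →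
    (∀ i ≤ m, ∀ T : Finset V, (∀ x ∈ T, x ∉ B ∧ d (y i) x ≤ R x) → T.card ≤ K) →
    m < g := by
  have main : ∃ g : ℕ, ∀ (V : Type) (d : V → V → ℝ) (W : Set V) (R : V → ℝ),
      PMet d → (∀ x, R x < 0 ∨ 3 / 2 ≤ R x) → (∀ x, 0 ≤ R x → x ∈ W) →
      (∀ v ∈ W, ∀ T : Finset V, (∀ x ∈ T, d v x ≤ R x) → T.card ≤ K0) →
      ∀ (B : Set V) (m : ℕ) (y : ℕ → V), Chain d R B K m y → m < g := by
    induction K with
    | zero =>
      refine ⟨1, ?_⟩
      intro V d W R hd hR hW hcard B m y h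
      by_contra hm
      push Not at hm
      obtain ⟨x, hxB, hxN, -⟩ := h.step 0 (by omega)
      have e := h.crd 0 (by omega) {x} (by
        intro z hz
        rw [Finset.mem_singleton.mp hz]
        exact ⟨hxB, hxN⟩)
      rw [Finset.card_singleton] at e
      omega
    | succ K ih =>
      obtain ⟨g, hg⟩ := ih
      exact chain_succ K0 K g hg
  obtain ⟨g, hg⟩ := main
  exact ⟨g, fun V d W R hd hR hW hcard B m y h1 h2 h3 h4 h5 =>
    hg V d W R hd hR hW hcard B m y ⟨h1, h2, h3, h4, h5⟩⟩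

end Pool.Agent.H703
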