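import Pool.Agent.H703.Ptas

/-!
# The closure operator and other list functions

Proofs written by helper625 from the plan of helper703.
-/

set_option autoImplicit false

namespace Pool.Agent.H703

/-
PROOF IN WORDS.
`mem_clos`: let `T_i` be the `i`-th iterate; each is `V.filter p_i` for a predicate `p_i`, with `p_i v → p_{i+1} v` for `v ∈ V`
(monotone), so `T_i` is a sublist of `T_{i+1}`, and if the lengths agree then `T_i = T_{i+1}` and the sequence is constant from
then on.  Lengths are at most `V.length`, so `T_{V.length}` is a fixed point.  Hence it is closed under steps `s → v`, `v ∈ V`,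
`r s v`; conversely every member of `T_i` is reachable (induction on `i`).
`joined_iff`: steps of `adj F` stay inside `ends F`.   `good_iff`: `v ∉ ends F` has `count = 0`.
-/

open Classical in
/-- one step of the closure -/
noncomputable def closF (r : ℕ → ℕ → Prop) (V S' : List ℕ) : List ℕ :=
  V.filter fun v => decide (v ∈ S' ∨ ∃ s ∈ S', r s v)

theorem mem_closF {r : ℕ → ℕ → Prop} {V S' : List ℕ} {x : ℕ} :
    x ∈ closF r V S' ↔ x ∈ V ∧ (x ∈ S' ∨ ∃ s ∈ S', r s x) := by
  simp [closF]

open Classical in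
/-- the iterates -/
noncomputable def closT (r : ℕ → ℕ → Prop) (V S : List ℕ) : ℕ → List ℕ
  | 0 => V.filter fun v => decide (v ∈ S)
  | i + 1 => closF r V (closT r V S i)

theorem closT_eq (r : ℕ → ℕ → Prop) (V S : List ℕ) (i : ℕ) :
    (closF r V)^[i] (closT r V S 0) = closT r V S i := by
  induction i with
  | zero => rfl
  | succ i ih => rw [Function.iterate_succ_apply', ih]; rfl

theorem clos_eq (r : ℕ → ℕ → Prop) (V S : List ℕ) : clos r V S = closT r V S V.length := by
  rw [← closT_eq]; rfl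

theorem closT_sub_V {r : ℕ → ℕ → Prop} {V S : List ℕ} {i x : ℕ} (h : x ∈ closT r V S i) :
    x ∈ V := by
  cases i with
  | zero => simp only [closT, List.mem_filter] at h; exact h.1
  | succ i => exact (mem_closF.1 h).1

theorem closT_mono {r : ℕ → ℕ → Prop} {V S : List ℕ} {i x : ℕ} (h : x ∈ closT r V S i) :
    x ∈ closT r V S (i + 1) :=
  mem_closF.2 ⟨closT_sub_V h, Or.inl h⟩

theorem closT_mono' {r : ℕ → ℕ → Prop} {V S : List ℕ} {i x : ℕ} (h : x ∈ closT r V S 0) :
    x ∈ closT r V S i := by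
  induction i with
  | zero => exact h
  | succ i ih => exact closT_mono ih

theorem closT_stab (r : ℕ → ℕ → Prop) (V S : List ℕ) (i : ℕ) :
    (closT r V S i).toFinset = (closT r V S (i + 1)).toFinset ∨
      i + 1 ≤ (closT r V S (i + 1)).toFinset.card := by
  have hsub : ∀ i, (closT r V S i).toFinset ⊆ (closT r V S (i + 1)).toFinset := by
    intro i x hx
    rw [List.mem_toFinset] at hx ⊢
    exact closT_mono hx
  induction i with
  | zero =>
    by_cases h : (closT r V S 0).toFinset = (closT r V S (0 + 1)).toFinset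
    · exact Or.inl h
    · right
      have h1 := Finset.card_lt_card (Finset.ssubset_iff_subset_ne.2 ⟨hsub 0, h⟩)
      omega
  | succ i ih =>
    rcases ih with ih | ih
    · left
      ext x
      have h1 : ∀ y, y ∈ closT r V S i ↔ y ∈ closT r V S (i + 1) := by
        intro y
        rw [← List.mem_toFinset, ih, List.mem_toFinset]
      rw [List.mem_toFinset, List.mem_toFinset]
      constructor
      · exact fun hx => closT_mono hx
      · intro hx
        obtain ⟨h2, h3⟩ := mem_closF.1 hx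
        refine mem_closF.2 ⟨h2, ?_⟩
        rcases h3 with h3 | ⟨s, hs, h3⟩
        · exact Or.inl ((h1 x).2 h3)
        · exact Or.inr ⟨s, (h1 s).2 hs, h3⟩
    · by_cases h : (closT r V S (i + 1)).toFinset = (closT r V S (i + 1 + 1)).toFinset
      · exact Or.inl h
      · right
        have h1 := Finset.card_lt_card (Finset.ssubset_iff_subset_ne.2 ⟨hsub (i + 1), h⟩)
        omega

theorem closT_fix {r : ℕ → ℕ → Prop} {V S : List ℕ} {x : ℕ}
    (h : x ∈ closT r V S (V.length + 1)) : x ∈ closT r V S V.length := by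
  rcases closT_stab r V S V.length with h1 | h1
  · rw [← List.mem_toFinset, h1, List.mem_toFinset]; exact h
  · exfalso
    have h2 : (closT r V S (V.length + 1)).toFinset ⊆ V.toFinset := by
      intro y hy
      rw [List.mem_toFinset] at hy ⊢
      exact closT_sub_V hy
    have h3 := Finset.card_le_card h2
    have h4 := List.toFinset_card_le V
    omega

theorem mem_clos {r : ℕ → ℕ → Prop} {V S : List ℕ} {x : ℕ} :
    x ∈ clos r V S ↔ ∃ s ∈ S, s ∈ V ∧ Relation.ReflTransGen (fun a b => b ∈ V ∧ r a b) s x := by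
  rw [clos_eq]
  constructor
  · generalize V.length = i
    intro h
    induction i generalizing x with
    | zero =>
      simp only [closT, List.mem_filter, decide_eq_true_eq] at h
      exact ⟨x, h.2, h.1, Relation.ReflTransGen.refl⟩
    | succ i ih =>
      obtain ⟨h1, h2 | ⟨y, hy, hr⟩⟩ := mem_closF.1 h
      · exact ih h2
      · obtain ⟨s, hs, hsV, h3⟩ := ih hy
        exact ⟨s, hs, hsV, h3.tail ⟨h1, hr⟩⟩
  · rintro ⟨s, hs, hsV, h⟩
    induction h with
    | refl =>
      apply closT_mono'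
      simp only [closT, List.mem_filter, decide_eq_true_eq]
      exact ⟨hsV, hs⟩
    | tail _ hyz ih => exact closT_fix (mem_closF.2 ⟨hyz.1, Or.inr ⟨_, ih, hyz.2⟩⟩)

theorem adj_ends {F : List Edge} {x y : ℕ} (h : adj F x y) : y ∈ ends F := by
  rw [ends, List.mem_flatMap]
  rcases h with h | h
  · exact ⟨_, h, by simp⟩
  · exact ⟨_, h, by simp⟩

theorem joined_iff {F : List Edge} {A : List ℕ} {t : ℕ} :
    Joined F A t ↔ t ∈ clos (adj F) (A ++ ends F) A := by
  rw [mem_clos]
  constructor
  · rintro ⟨a, ha, h⟩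
    refine ⟨a, ha, List.mem_append_left _ ha, ?_⟩
    refine Relation.ReflTransGen.mono ?_ _ _ h
    intro x y hxy
    exact ⟨List.mem_append_right _ (adj_ends hxy), hxy⟩
  · rintro ⟨a, ha, -, h⟩
    refine ⟨a, ha, Relation.ReflTransGen.mono ?_ _ _ h⟩
    intro x y hxy
    exact hxy.2

theorem good_iff {tsp : Bool} {F : List Edge} {R A : List ℕ} :
    Good tsp F R A ↔ (∀ t ∈ R, t ∈ clos (adj F) (A ++ ends F) A) ∧
      (tsp = false ∨ ∀ v ∈ ends F, v ∈ A ∨ (ends F).count v % 2 = 0) := by
  have h1 : (∀ t ∈ R, Joined F A t) ↔ (∀ t ∈ R, t ∈ clos (adj F) (A ++ ends F) A) :=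
    forall₂_congr fun t _ => joined_iff
  rw [Good, h1]
  refine and_congr_right fun _ => ?_
  constructor
  · intro h
    cases tsp with
    | false => exact Or.inl rfl
    | true =>
      right
      intro v _
      by_cases hv : v ∈ A
      · exact Or.inl hv
      · exact Or.inr (Nat.even_iff.1 (h rfl v hv))
  · rintro (h | h) htsp v hv
    · rw [h] at htsp; exact absurd htsp (by simp)
    · by_cases hvF : v ∈ ends F
      · rcases h v hvF with h2 | h2
        · exact absurd h2 hv
        · exact Nat.even_iff.2 h2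
      · rw [List.count_eq_zero_of_not_mem hvF]
        exact Even.zero

theorem mem_pairsOf {S : List ℕ} {e : Edge} : e ∈ pairsOf S ↔ e.1 ∈ S ∧ e.2 ∈ S := by
  obtain ⟨x, y⟩ := e
  simp only [pairsOf, List.mem_flatMap, List.mem_map, Prod.mk.injEq]
  constructor
  · rintro ⟨a, ha, b, hb, rfl, rfl⟩
    exact ⟨ha, hb⟩
  · rintro ⟨ha, hb⟩
    exact ⟨x, ha, y, hb, rfl, rfl⟩

theorem mem_seqs {β : Type} {V : List β} {k : ℕ} {l : List β} :
    l ∈ seqs V k ↔ l.length ≤ k ∧ ∀ x ∈ l, x ∈ V := by
  induction k generalizing l with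
  | zero =>
    rw [seqs, List.mem_singleton]
    constructor
    · rintro rfl; simp
    · rintro ⟨h, -⟩
      exact List.length_eq_zero_iff.1 (by omega)
  | succ k ih =>
    rw [seqs, List.mem_append, List.mem_flatMap]
    simp only [List.mem_map]
    constructor
    · rintro (h | ⟨v, hv, l', hl', rfl⟩)
      · obtain ⟨h1, h2⟩ := ih.1 h
        exact ⟨by omega, h2⟩
      · obtain ⟨h1, h2⟩ := ih.1 hl'
        refine ⟨by rw [List.length_cons]; omega, ?_⟩
        intro x hx
        rcases List.mem_cons.1 hx with rfl | hx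
        · exact hv
        · exact h2 x hx
    · rintro ⟨h1, h2⟩
      cases l with
      | nil => exact Or.inl (ih.2 ⟨by simp, by simp⟩)
      | cons v l' =>
        right
        rw [List.length_cons] at h1
        exact ⟨v, h2 v (by simp), l', ih.2 ⟨by omega, fun x hx => h2 x (by simp [hx])⟩, rfl⟩

theorem pick_spec {d : ℕ → ℕ → ℕ} {l : List (List Edge)} (hl : l ≠ []) :
    pick d l ∈ l ∧ ∀ S ∈ l, cost d (pick d l) ≤ cost d S := by
  classical
  obtain ⟨S0, hS0⟩ := List.exists_mem_of_ne_nil l hl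
  have hex : ∃ n, ∃ S ∈ l, cost d S = n := ⟨_, S0, hS0, rfl⟩
  obtain ⟨S1, hS1, hc⟩ := Nat.find_spec hex
  have hmin : ∀ S' ∈ l, cost d S1 ≤ cost d S' := by
    intro S' hS'
    rw [hc]
    exact Nat.find_min' hex ⟨S', hS', rfl⟩
  have hm : S1 ∈ l.filter fun S => decide (∀ S' ∈ l, cost d S ≤ cost d S') := by
    rw [List.mem_filter, decide_eq_true_eq]
    exact ⟨hS1, hmin⟩
  have hp : ∀ m : List (List Edge), m ≠ [] → (∀ S ∈ m, S ∈ l ∧ ∀ S' ∈ l, cost d S ≤ cost d S') →
      (m.take 1).flatten ∈ l ∧ ∀ S ∈ l, cost d ((m.take 1).flatten) ≤ cost d S := by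
    intro m hm hm'
    cases m with
    | nil => exact absurd rfl hm
    | cons S m =>
      have : ((S :: m).take 1).flatten = S := by simp
      rw [this]
      exact hm' S (by simp)
  apply hp
  · exact List.ne_nil_of_mem hm
  · intro S hS
    rw [List.mem_filter, decide_eq_true_eq] at hS
    exact hS

theorem mem_tops {d : ℕ → ℕ → ℕ} {A U : List ℕ} (hs : ∀ x y, d x y = d y x) {u : ℕ} (hu : u ∈ U) :
    ∃ v ∈ tops d A U, u ∈ compL d A U v ∧ ∀ x, x ∈ compL d A U v ↔ x ∈ compL d A U u := by
  classical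
  have hmem : ∀ u x, x ∈ compL d A U u ↔
      u ∈ U ∧ Relation.ReflTransGen (fun a b => b ∈ U ∧ relN d A a b) u x := by
    intro u x
    rw [compL, mem_clos]
    simp
  have hsymm : ∀ a b, relN d A a b → relN d A b a := by
    intro a b h x hx y hy
    have := h y hy x hx
    rw [hs b a]
    omega
  have hrev : ∀ u x, u ∈ U → Relation.ReflTransGen (fun a b => b ∈ U ∧ relN d A a b) u x →
      x ∈ U ∧ Relation.ReflTransGen (fun a b => b ∈ U ∧ relN d A a b) x u := by
    intro u x hu h
    induction h with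
    | refl => exact ⟨hu, Relation.ReflTransGen.refl⟩
    | tail _ hyz ih =>
      exact ⟨hyz.1, Relation.ReflTransGen.head ⟨ih.1, hsymm _ _ hyz.2⟩ ih.2⟩
  have hex : ∃ v, v ∈ compL d A U u := ⟨u, (hmem u u).2 ⟨hu, Relation.ReflTransGen.refl⟩⟩
  have hv := Nat.find_spec hex
  have hmin : ∀ w ∈ compL d A U u, Nat.find hex ≤ w := fun w hw => Nat.find_min' hex hw
  obtain ⟨v, hvv⟩ : ∃ v, v = Nat.find hex := ⟨_, rfl⟩
  rw [← hvv] at hv hmin
  obtain ⟨-, huv⟩ := (hmem u v).1 hv
  obtain ⟨hvU, hvu⟩ := hrev u v hu huv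
  have heq : ∀ x, x ∈ compL d A U v ↔ x ∈ compL d A U u := by
    intro x
    rw [hmem, hmem]
    exact ⟨fun h => ⟨hu, huv.trans h.2⟩, fun h => ⟨hvU, hvu.trans h.2⟩⟩
  refine ⟨v, ?_, (hmem v u).2 ⟨hvU, hvu⟩, heq⟩
  rw [tops, List.mem_filter, decide_eq_true_eq]
  exact ⟨hvU, fun w hw => hmin w ((heq w).1 hw)⟩

end Pool.Agent.H703
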