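import Pool.Agent.H703.DepBasic

/-!
# From the hub condition to one radius function
-/

set_option autoImplicit false

namespace Pool.Agent.H703

variable {V : Type}

/-- A radius function `R` for the points: `x` is a hub if `0 ≤ R x`; at most `K` hubs `x` have a
given point within distance `R x`, and every pair at a distance in `[1, Dmax]` has a hub on a
geodesic whose radius is almost twice its distance. -/
structure Hubs (d : V → V → ℝ) (W : Set V) (Dmax : ℝ) (K : ℕ) (R : V → ℝ) : Prop where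
  dich : ∀ x, R x < 0 ∨ 3 / 2 ≤ R x
  mem : ∀ x, 0 ≤ R x → x ∈ W
  card : ∀ v ∈ W, ∀ T : Finset V, (∀ x ∈ T, d v x ≤ R x) → T.card ≤ K
  cov : ∀ u ∈ W, ∀ w ∈ W, 1 ≤ d u w → d u w ≤ Dmax →
    ∃ x, d u x + d x w = d u w ∧ 2 * d u w - 1 / 1000 ≤ R x

/-- `U ⊆ W` is `1`-separated, of diameter at most `Dmax / 2`, and `χ u w` is a chosen hub on a
geodesic from `u` to `w`, of large radius, such that no point `z` of `A` is within distance
`R (χ u w)` of it. -/
structure Chosen (d : V → V → ℝ) (W : Set V) (Dmax : ℝ) (R : V → ℝ) (χ : V → V → V)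
    (U A : Set V) : Prop where
  sub : U ⊆ W
  sep : ∀ u ∈ U, ∀ w ∈ U, u ≠ w → 1 ≤ d u w
  diam : ∀ u ∈ U, ∀ w ∈ U, 2 * d u w ≤ Dmax
  geo : ∀ u ∈ U, ∀ w ∈ U, u ≠ w → d u (χ u w) + d (χ u w) w = d u w
  rad : ∀ u ∈ U, ∀ w ∈ U, u ≠ w → 2 * d u w - 1 / 1000 ≤ R (χ u w)
  far : ∀ u ∈ U, ∀ w ∈ U, u ≠ w → ∀ z ∈ A, R (χ u w) < d z (χ u w)

/-- The hubs chosen for the pairs of `U`. -/
def Rel (χ : V → V → V) (U : Set V) : Set V := {x | ∃ u ∈ U, ∃ w ∈ U, u ≠ w ∧ x = χ u w}

/-- The hub condition gives a radius function. -/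
theorem exists_hubs (h : ℕ) (Dmax : ℝ) : ∃ K : ℕ, ∀ (V : Type) (d : V → V → ℝ) (W : Set V),
    PMet d → HC h d W → ∃ R : V → ℝ, Hubs d W Dmax K R := by
  classical
  set D0 : ℝ := max Dmax 1 with hD0
  have hD01 : 1 ≤ D0 := le_max_right _ _
  have hD0D : Dmax ≤ D0 := le_max_left _ _
  have hD0p : 0 < D0 := by linarith
  set θ : ℝ := 2 - 1 / (2000 * D0) with hθ
  have hθ1 : (2 - θ) * D0 = 1 / 2000 := by
    rw [hθ]; field_simp; ring
  have hp : 0 < 1 / (2000 * D0) := by positivity
  have hθ2 : θ < 2 := by rw [hθ]; linarith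
  have hθ3 : 3 / 2 ≤ θ := by
    have : 1 / (2000 * D0) ≤ 1 / 2 := by
      rw [div_le_div_iff₀ (by positivity) (by norm_num)]; linarith
    rw [hθ]; linarith
  have hθ0 : 0 < θ := by linarith
  set q : ℝ := 2 / θ with hq
  have hqθ : θ * q = 2 := by rw [hq]; field_simp
  have hq1 : 1 < q := by rw [hq, lt_div_iff₀ hθ0]; linarith
  have hq2 : q ≤ 2 := by rw [hq, div_le_iff₀ hθ0]; linarith
  set r : ℕ → ℝ := fun i => θ / 2 * q ^ i with hr
  have hrpos : ∀ i, 0 < r i := fun i => by rw [hr]; positivity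
  have hrs : ∀ i, r (i + 1) = q * r i := fun i => by rw [hr]; simp only; ring
  have hrmono : Monotone r := by
    apply monotone_nat_of_le_succ
    intro i
    rw [hrs]
    nlinarith [hrpos i]
  have hr0 : r 0 = θ / 2 := by rw [hr]; simp
  obtain ⟨I, hI⟩ := pow_unbounded_of_one_lt (D0 * 2 / θ) hq1
  have hI' : D0 ≤ r (I + 1) := by
    have h1 : D0 ≤ r I := by
      rw [hr]
      simp only
      rw [div_lt_iff₀ hθ0] at hI
      nlinarith
    exact h1.trans (hrmono (Nat.le_succ I))
  refine ⟨(I + 1) * h, ?_⟩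
  intro V d W hd hc
  choose S hS1 hS2 hS3 using fun i => hc (r i) (hrpos i)
  let A : V → Finset ℕ := fun x => (Finset.range (I + 1)).filter (fun i => x ∈ S i)
  let R : V → ℝ := fun x => if hA : (A x).Nonempty then 2 * r ((A x).max' hA) else -1
  have hR1 : ∀ x i, i ≤ I → x ∈ S i → 2 * r i ≤ R x := by
    intro x i hi hx
    have hmem : i ∈ A x := Finset.mem_filter.mpr ⟨Finset.mem_range.mpr (by omega), hx⟩
    have hA : (A x).Nonempty := ⟨i, hmem⟩
    have e : R x = 2 * r ((A x).max' hA) := dif_pos hA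
    rw [e]
    have := hrmono (Finset.le_max' (A x) i hmem)
    linarith
  have hR2 : ∀ x, R x = -1 ∨ ∃ i, i ≤ I ∧ x ∈ S i ∧ R x = 2 * r i := by
    intro x
    by_cases hA : (A x).Nonempty
    · right
      have h1 := Finset.max'_mem (A x) hA
      have h2 := Finset.mem_filter.mp h1
      exact ⟨(A x).max' hA, by have := Finset.mem_range.mp h2.1; omega, h2.2, dif_pos hA⟩
    · left
      exact dif_neg hA
  have hR3 : ∀ x, 0 ≤ R x → ∃ i, i ≤ I ∧ x ∈ S i ∧ R x = 2 * r i := by
    intro x hx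
    rcases hR2 x with h1 | h1
    · rw [h1] at hx; linarith
    · exact h1
  refine ⟨R, ?_, ?_, ?_, ?_⟩
  · intro x
    rcases hR2 x with h1 | ⟨i, -, -, h1⟩
    · left; rw [h1]; norm_num
    · right
      rw [h1]
      have := hrmono (Nat.zero_le i)
      rw [hr0] at this
      linarith
  · intro x hx
    obtain ⟨i, -, hi, -⟩ := hR3 x hx
    exact hS1 i x hi
  · intro v hv T hT
    have hsub : T ⊆ (Finset.range (I + 1)).biUnion
        (fun i => T.filter (fun x => x ∈ S i ∧ d v x ≤ 2 * r i)) := by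
      intro x hx
      have h1 := hT x hx
      obtain ⟨i, hi, hxi, hRx⟩ := hR3 x ((hd.nonneg v x).trans h1)
      rw [Finset.mem_biUnion]
      refine ⟨i, Finset.mem_range.mpr (by omega), Finset.mem_filter.mpr ⟨hx, hxi, ?_⟩⟩
      rw [← hRx]; exact h1
    calc T.card ≤ _ := Finset.card_le_card hsub
      _ ≤ ∑ i ∈ Finset.range (I + 1),
          (T.filter (fun x => x ∈ S i ∧ d v x ≤ 2 * r i)).card := Finset.card_biUnion_le
      _ ≤ ∑ i ∈ Finset.range (I + 1), h := by
          apply Finset.sum_le_sum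
          intro i _
          apply hS2 i v hv
          · intro x hx
            exact (Finset.mem_filter.mp hx).2.1
          · intro x hx
            exact (Finset.mem_filter.mp hx).2.2
      _ = (I + 1) * h := by simp
  · intro u hu w hw h1 h2
    have hex : ∃ j, d u w ≤ r j := ⟨I + 1, (h2.trans hD0D).trans hI'⟩
    set j := Nat.find hex with hj
    have hj1 : d u w ≤ r j := Nat.find_spec hex
    have hj2 : j ≤ I + 1 := Nat.find_min' hex ((h2.trans hD0D).trans hI')
    have hj0 : j ≠ 0 := by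
      intro h0
      rw [h0, hr0] at hj1
      linarith
    obtain ⟨i, hi⟩ := Nat.exists_eq_succ_of_ne_zero hj0
    have hi1 : r i < d u w := by
      have := Nat.find_min hex (m := i) (by omega)
      exact not_le.mp this
    rw [hi, Nat.succ_eq_add_one, hrs] at hj1
    have hi2 : d u w ≤ 2 * r i := by nlinarith [hrpos i]
    obtain ⟨x, hx, hxe⟩ := hS3 i u hu w hw hi1 hi2
    refine ⟨x, hxe, ?_⟩
    have h3 := hR1 x i (by omega) hx
    have h4 : θ * (q * r i) = 2 * r i := by
      calc θ * (q * r i) = (θ * q) * r i := by ring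
        _ = 2 * r i := by rw [hqθ]
    have h5 : θ * d u w ≤ θ * (q * r i) := mul_le_mul_of_nonneg_left hj1 hθ0.le
    have h6 : (2 - θ) * d u w ≤ (2 - θ) * D0 :=
      mul_le_mul_of_nonneg_left (h2.trans hD0D) (by linarith)
    rw [hθ1] at h6
    linarith

end Pool.Agent.H703
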