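import Pool.Agent.H703.Chain
import Pool.Agent.H703.Hub

/-!
# The closure lemma

Proof written by helper437 from the plan of helper703.
-/

set_option autoImplicit false

namespace Pool.Agent.H703

variable {V : Type}

theorem fin_of_card {S : Set V} {K : ℕ}
    (h : ∀ T : Finset V, (∀ x ∈ T, x ∈ S) → T.card ≤ K) :
    ∃ F : Finset V, (∀ x, x ∈ F ↔ x ∈ S) ∧ F.card ≤ K := by
  have hfin : S.Finite := by
    by_contra hinf
    obtain ⟨t, ht, hc⟩ := Set.Infinite.exists_subset_card_eq hinf (K + 1)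
    have := h t (fun x hx => ht hx)
    omega
  exact ⟨hfin.toFinset, fun x => hfin.mem_toFinset, h _ fun x hx => hfin.mem_toFinset.1 hx⟩

/-- The step relation. -/
def EE (d : V → V → ℝ) (R : V → ℝ) (χ : V → V → V) (U A : Set V) (y y' : V) : Prop :=
  y' ∈ Rel χ U ∧ ∃ x, x ∉ A ∧ d y x ≤ R x ∧ d x y' ≤ 1 / 20

section closure

variable {d : V → V → ℝ} {W : Set V} {R : V → ℝ} {Dmax : ℝ} {K0 : ℕ} {χ : V → V → V}
  {U A : Set V}

theorem rel_rad (hC : Chosen d W Dmax R χ U A) {y : V} (hy : y ∈ Rel χ U) : 1 ≤ R y := by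
  obtain ⟨u, hu, w, hw, hne, rfl⟩ := hy
  have h1 := hC.rad u hu w hw hne
  have h2 := hC.sep u hu w hw hne
  linarith

theorem rel_W (hH : Hubs d W Dmax K0 R) (hC : Chosen d W Dmax R χ U A) {y : V}
    (hy : y ∈ Rel χ U) : y ∈ W :=
  hH.mem y (by have := rel_rad hC hy; linarith)

theorem rel_far (hC : Chosen d W Dmax R χ U A) {y : V} (hy : y ∈ Rel χ U) {z : V} (hz : z ∈ A) :
    R y < d z y := by
  obtain ⟨u, hu, w, hw, hne, rfl⟩ := hy
  exact hC.far u hu w hw hne z hz

theorem exists_out (hd : PMet d) (hH : Hubs d W Dmax K0 R) (hC : Chosen d W Dmax R χ U A)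
    {y : V} (hy : y ∈ W) :
    ∃ F : Finset V, (∀ x, x ∈ F ↔ EE d R χ U A y x) ∧ F.card ≤ K0 * K0 := by
  classical
  have h1 : ∀ v : V, ∃ F : Finset V, (v ∈ W → ∀ x, x ∈ F ↔ d v x ≤ R x) ∧ F.card ≤ K0 := by
    intro v
    by_cases hv : v ∈ W
    · obtain ⟨F, hF, hF'⟩ := fin_of_card (S := {x | d v x ≤ R x}) (fun T hT => hH.card v hv T hT)
      exact ⟨F, fun _ => hF, hF'⟩
    · exact ⟨∅, fun h => absurd h hv, by simp⟩
  choose F hF hF' using h1
  refine fin_of_card (S := {x | EE d R χ U A y x}) fun T hT => ?_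
  have h2 : T ⊆ (F y).biUnion F := by
    intro y' hy'
    obtain ⟨h3, x, -, h4, h5⟩ := hT y' hy'
    have hxW : x ∈ W := hH.mem x ((hd.nonneg _ _).trans h4)
    refine Finset.mem_biUnion.2 ⟨x, (hF y hy x).2 h4, (hF x hxW y').2 ?_⟩
    have := rel_rad hC h3
    linarith
  refine (Finset.card_le_card h2).trans ?_
  refine (Finset.card_biUnion_le_card_mul _ _ K0 fun x _ => hF' x).trans ?_
  exact Nat.mul_le_mul_right _ (hF' y)

/-- The triangle inequalities for the points on two geodesics. -/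
theorem four (hd : PMet d) {u w u' w' y y' : V} (h : d u y + d y w = d u w)
    (h' : d u' y' + d y' w' = d u' w') :
    4 * d y y' ≤ 2 * d u w + 2 * d u' w' + (d u u' + d u w' + d w u' + d w w') := by
  have e1 := hd.symm y u
  have e2 := hd.symm w' y'
  have a1 := hd.tri y u y'
  have a2 := hd.tri u u' y'
  have a3 := hd.tri u w' y'
  have b1 := hd.tri y w y'
  have b2 := hd.tri w u' y'
  have b3 := hd.tri w w' y'
  linarith

theorem geo_notin (hd : PMet d) (hH : Hubs d W Dmax K0 R) (hC : Chosen d W Dmax R χ U A)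
    {y y' : V} (hy : y ∈ Rel χ U) (hy' : y' ∈ Rel χ U) {x : V}
    (hx : d y x + d x y' = d y y') : x ∉ A := by
  intro hxA
  have key : ∀ p ∈ U, ∀ q ∈ U, 3 * d p q ≤ d x p + d x q + 1 / 500 := by
    intro p hp q hq
    by_cases hpq : p = q
    · subst hpq
      have h1 := hd.self p
      have h2 := hd.nonneg x p
      linarith
    · have h1 := hC.far p hp q hq hpq x hxA
      have h2 := hC.rad p hp q hq hpq
      have h3 := hC.geo p hp q hq hpq
      have h4 := hd.tri x p (χ p q)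
      have h5 := hd.tri x q (χ p q)
      have h6 := hd.symm q (χ p q)
      linarith
  have f1 := rel_far hC hy hxA
  have f2 := rel_far hC hy' hxA
  have r1 : 3 / 2 ≤ R y := (hH.dich y).resolve_left (by have := rel_rad hC hy; linarith)
  have r2 : 3 / 2 ≤ R y' := (hH.dich y').resolve_left (by have := rel_rad hC hy'; linarith)
  obtain ⟨u, hu, w, hw, hne, rfl⟩ := hy
  obtain ⟨u', hu', w', hw', hne', rfl⟩ := hy'
  have g1 := hC.geo u hu w hw hne
  have g2 := hC.geo u' hu' w' hw' hne'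
  have h4 := four hd g1 g2
  have k1 := key u hu u' hu'
  have k2 := key u hu w' hw'
  have k3 := key w hw u' hu'
  have k4 := key w hw w' hw'
  have q1 := hC.rad u hu w hw hne
  have q2 := hC.rad u' hu' w' hw' hne'
  have t1 := hd.tri x (χ u w) u
  have t2 := hd.tri x (χ u w) w
  have t3 := hd.tri x (χ u' w') u'
  have t4 := hd.tri x (χ u' w') w'
  have s1 := hd.symm u (χ u w)
  have s2 := hd.symm u' (χ u' w')
  have s3 := hd.symm (χ u w) x
  linarith

theorem dist_le_Dmax (hd : PMet d) (hC : Chosen d W Dmax R χ U A)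
    {y y' : V} (hy : y ∈ Rel χ U) (hy' : y' ∈ Rel χ U) : d y y' ≤ Dmax := by
  obtain ⟨u, hu, w, hw, hne, rfl⟩ := hy
  obtain ⟨u', hu', w', hw', hne', rfl⟩ := hy'
  have g1 := hC.geo u hu w hw hne
  have g2 := hC.geo u' hu' w' hw' hne'
  have h4 := four hd g1 g2
  have k0 := hC.diam u hu w hw
  have k5 := hC.diam u' hu' w' hw'
  have k1 := hC.diam u hu u' hu'
  have k2 := hC.diam u hu w' hw'
  have k3 := hC.diam w hw u' hu'
  have k4 := hC.diam w hw w' hw'
  linarith

/-- Condition (c) of the chain lemma. -/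
theorem cond_c (hd : PMet d) (hH : Hubs d W Dmax K0 R) (hC : Chosen d W Dmax R χ U A)
    {y y' : V} (hy : y ∈ Rel χ U) (hy' : y' ∈ Rel χ U) (h1 : 1 ≤ d y y') :
    ∃ x, x ∉ A ∧ d y x + d x y' = d y y' ∧ 2 * d y y' - 1 / 1000 ≤ R x := by
  obtain ⟨x, hx, hx'⟩ := hH.cov y (rel_W hH hC hy) y' (rel_W hH hC hy') h1
    (dist_le_Dmax hd hC hy hy')
  exact ⟨x, geo_notin hd hH hC hy hy' hx, hx, hx'⟩

/-- The levels. -/
noncomputable def Lv (out : V → Finset V) (z0 : V) : ℕ → Finset V
  | 0 => {z0}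
  | n + 1 => by classical exact Lv out z0 n ∪ (Lv out z0 n).biUnion out

theorem mem_Lv_succ {out : V → Finset V} {z0 : V} {n : ℕ} {x : V} :
    x ∈ Lv out z0 (n + 1) ↔ x ∈ Lv out z0 n ∨ ∃ y ∈ Lv out z0 n, x ∈ out y := by
  classical
  rw [Lv]
  simp only [Finset.mem_union, Finset.mem_biUnion]

theorem Lv_mono {out : V → Finset V} {z0 : V} {m n : ℕ} (h : m ≤ n) :
    Lv out z0 m ⊆ Lv out z0 n := by
  induction n with
  | zero =>
    obtain rfl : m = 0 := by omega
    exact fun _ h => h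
  | succ n ih =>
    rcases Nat.lt_or_eq_of_le h with h1 | rfl
    · exact fun x hx => mem_Lv_succ.2 (Or.inl (ih (by omega) hx))
    · exact fun _ h => h

theorem Lv_card {out : V → Finset V} {z0 : V} {K : ℕ} (h : ∀ y, (out y).card ≤ K) (n : ℕ) :
    (Lv out z0 n).card ≤ (K + 1) ^ n := by
  classical
  induction n with
  | zero => simp [Lv]
  | succ n ih =>
    have h1 : Lv out z0 (n + 1) ⊆ Lv out z0 n ∪ (Lv out z0 n).biUnion out := by
      intro x hx
      rcases mem_Lv_succ.1 hx with hx | ⟨y, hy, hx⟩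
      · exact Finset.mem_union_left _ hx
      · exact Finset.mem_union_right _ (Finset.mem_biUnion.2 ⟨y, hy, hx⟩)
    refine (Finset.card_le_card h1).trans ((Finset.card_union_le _ _).trans ?_)
    have h2 := Finset.card_biUnion_le_card_mul (Lv out z0 n) out K fun x _ => h x
    calc (Lv out z0 n).card + ((Lv out z0 n).biUnion out).card
        ≤ (Lv out z0 n).card + (Lv out z0 n).card * K := Nat.add_le_add_left h2 _
      _ = (Lv out z0 n).card * (K + 1) := by ring
      _ ≤ (K + 1) ^ n * (K + 1) := Nat.mul_le_mul_right _ ih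
      _ = (K + 1) ^ (n + 1) := by ring

theorem exists_path {out : V → Finset V} {z0 : V} : ∀ (m : ℕ) (v : V), v ∈ Lv out z0 m →
    (∀ k < m, v ∉ Lv out z0 k) → ∃ y : ℕ → V, y m = v ∧ (∀ i < m, y (i + 1) ∈ out (y i)) ∧
      (∀ i ≤ m, y i ∈ Lv out z0 i) ∧ ∀ i ≤ m, ∀ k < i, y i ∉ Lv out z0 k := by
  intro m
  induction m with
  | zero =>
    intro v hv _
    refine ⟨fun _ => v, rfl, fun i hi => absurd hi (by omega), fun i hi => ?_, fun i hi k hk => ?_⟩
    · obtain rfl : i = 0 := by omega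
      exact hv
    · omega
  | succ m ih =>
    intro v hv hv'
    rcases mem_Lv_succ.1 hv with h | ⟨u, hu, huv⟩
    · exact absurd h (hv' m (by omega))
    · obtain ⟨y, h1, h2, h3, h4⟩ := ih u hu fun k hk hk' =>
        hv' (k + 1) (by omega) (mem_Lv_succ.2 (Or.inr ⟨u, hk', huv⟩))
      refine ⟨fun i => if i ≤ m then y i else v, ?_, ?_, ?_, ?_⟩
      · simp
      · intro i hi
        show (if i + 1 ≤ m then y (i + 1) else v) ∈ out (if i ≤ m then y i else v)
        rw [if_pos (by omega : i ≤ m)]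
        by_cases hi' : i + 1 ≤ m
        · rw [if_pos hi']
          exact h2 i (by omega)
        · rw [if_neg hi']
          obtain rfl : i = m := by omega
          rw [h1]
          exact huv
      · intro i hi
        show (if i ≤ m then y i else v) ∈ _
        by_cases hi' : i ≤ m
        · rw [if_pos hi']
          exact h3 i hi'
        · rw [if_neg hi']
          obtain rfl : i = m + 1 := by omega
          exact hv
      · intro i hi k hk
        show (if i ≤ m then y i else v) ∉ _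
        by_cases hi' : i ≤ m
        · rw [if_pos hi']
          exact h4 i hi' k hk
        · rw [if_neg hi']
          obtain rfl : i = m + 1 := by omega
          exact hv' k hk

end closure

/-- TARGET: the closure of one chosen hub under `contained in a hub ball` is bounded. -/
theorem exists_closure (K0 : ℕ) : ∃ N : ℕ, ∀ (V : Type) (d : V → V → ℝ) (W : Set V) (R : V → ℝ)
    (Dmax : ℝ), PMet d → Hubs d W Dmax K0 R → ∀ (χ : V → V → V) (U A : Set V),
    Chosen d W Dmax R χ U A → ∀ z0 ∈ Rel χ U, ∃ Z : Finset V, z0 ∈ Z ∧ Z.card ≤ N ∧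
      (∀ z ∈ Z, z ∈ Rel χ U) ∧ ∀ z ∈ Z, ∀ x ∈ Rel χ U, d z x ≤ R x → x ∈ Z := by
  obtain ⟨g, hg⟩ := chain_lemma K0 K0
  refine ⟨(K0 * K0 + 1) ^ g, fun V d W R Dmax hd hH χ U A hC z0 hz0 => ?_⟩
  have h1 : ∀ y : V, ∃ F : Finset V, (y ∈ W → ∀ x, x ∈ F ↔ EE d R χ U A y x) ∧
      F.card ≤ K0 * K0 := by
    intro y
    by_cases hy : y ∈ W
    · obtain ⟨F, hF, hF'⟩ := exists_out hd hH hC hy
      exact ⟨F, fun _ => hF, hF'⟩
    · exact ⟨∅, fun h => absurd h hy, by simp⟩
  choose out hout hcard using h1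
  have hrel : ∀ n, ∀ x ∈ Lv out z0 n, x ∈ Rel χ U := by
    intro n
    induction n with
    | zero =>
      intro x hx
      rw [Lv, Finset.mem_singleton] at hx
      exact hx ▸ hz0
    | succ n ih =>
      intro x hx
      rcases mem_Lv_succ.1 hx with hx | ⟨y, hy, hx⟩
      · exact ih x hx
      · exact ((hout y (rel_W hH hC (ih y hy)) x).1 hx).1
  have hclaim : ∀ m v, v ∈ Lv out z0 m → (∀ k < m, v ∉ Lv out z0 k) → m < g := by
    intro m v hv hv'
    obtain ⟨y, h1, h2, h3, h4⟩ := exists_path m v hv hv'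
    have hyR : ∀ i ≤ m, y i ∈ Rel χ U := fun i hi => hrel i _ (h3 i hi)
    have hyW : ∀ i ≤ m, y i ∈ W := fun i hi => rel_W hH hC (hyR i hi)
    refine hg V d W R hd hH.dich hH.mem hH.card A m y ?_ ?_ ?_ ?_ ?_
    · intro i hi
      have := rel_rad hC (hyR i hi)
      linarith
    · intro i hi j hj h5
      exact cond_c hd hH hC (hyR i hi) (hyR j hj) h5
    · intro i hi
      exact ((hout (y i) (hyW i (by omega)) _).1 (h2 i hi)).2
    · intro i j hij hj x hx
      by_contra h5
      have h6 : d x (y j) ≤ 1 / 20 := not_lt.1 h5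
      by_cases hxA : x ∈ A
      · have h7 := rel_far hC (hyR j hj) hxA
        have h8 := rel_rad hC (hyR j hj)
        linarith
      · have h7 : y j ∈ out (y i) := (hout (y i) (hyW i (by omega)) _).2
          ⟨hyR j hj, x, hxA, hx, h6⟩
        have h8 : y j ∈ Lv out z0 (i + 1) := mem_Lv_succ.2 (Or.inr ⟨y i, h3 i (by omega), h7⟩)
        exact h4 j hj (i + 1) (by omega) h8
    · intro i hi T hT
      exact hH.card (y i) (hyW i hi) T fun x hx => (hT x hx).2
  refine ⟨Lv out z0 g, ?_, Lv_card hcard g, hrel g, ?_⟩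
  · exact Lv_mono (Nat.zero_le g) (by rw [Lv]; exact Finset.mem_singleton_self _)
  · intro z hz x hx hzx
    by_contra hxn
    have h5 : x ∉ A := by
      intro hxA
      have h6 := rel_far hC hx hxA
      have h7 := rel_rad hC hx
      have h8 := hd.self x
      linarith
    have h6 : x ∈ out z := (hout z (rel_W hH hC (hrel g z hz)) x).2
      ⟨hx, x, h5, hzx, by rw [hd.self]; norm_num⟩
    have h7 : x ∈ Lv out z0 (g + 1) := mem_Lv_succ.2 (Or.inr ⟨z, hz, h6⟩)
    have h8 := hclaim (g + 1) x h7 fun k hk hk' => hxn (Lv_mono (by omega) hk')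
    omega

end Pool.Agent.H703
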