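import Pool.Agent.H703.Base

/-!
# Confinement at hub number 2

Proof written by helper619 from the plan of helper703.
-/

set_option autoImplicit false

namespace Pool.Agent.H703

variable {V : Type}

/-- the hubs at scale `8 ρ`, the points `c 0, …, c m` and their labels -/
structure Ctx (d : V → V → ℝ) (ρ : ℝ) (S : Finset V) (W : Set V) (m : ℕ) (c : ℕ → V)
    (lam : ℕ → V) : Prop where
  pm : PMet d
  pos : 0 < ρ
  SW : ∀ x ∈ S, x ∈ W
  three : ∀ v ∈ W, ∀ x ∈ S, ∀ y ∈ S, ∀ z ∈ S, d v x ≤ 16 * ρ → d v y ≤ 16 * ρ → d v z ≤ 16 * ρ →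
    x = y ∨ x = z ∨ y = z
  hub : ∀ u ∈ W, ∀ w ∈ W, 8 * ρ < d u w → d u w ≤ 16 * ρ → ∃ x ∈ S, d u x + d x w = d u w
  cW : ∀ i ≤ m, c i ∈ W
  hop : ∀ i < m, d (c i) (c (i + 1)) ≤ ρ
  lamS : ∀ t ≤ m, lam t ∈ S
  lamd : ∀ t ≤ m, d (c t) (lam t) ≤ 9 * ρ

namespace Ctx

variable {d : V → V → ℝ} {ρ : ℝ} {S : Finset V} {W : Set V} {m : ℕ} {c : ℕ → V} {lam : ℕ → V}

theorem trans (h : Ctx d ρ S W m c lam) {x y z : V} (hx : x ∈ S) (hy : y ∈ S) (hz : z ∈ S)
    (h1 : d x y ≤ 16 * ρ) (h2 : d y z ≤ 16 * ρ) : d x z ≤ 16 * ρ := by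
  have h3 : d y x ≤ 16 * ρ := by rw [h.pm.symm]; exact h1
  have h4 : d y y ≤ 16 * ρ := by rw [h.pm.self]; linarith [h.pos]
  rcases h.three y (h.SW y hy) x hx y hy z hz h3 h4 h2 with e | e | e
  · rw [e]; exact h2
  · rw [e, h.pm.self]; linarith [h.pos]
  · rw [← e]; exact h1

theorem rev (h : Ctx d ρ S W m c lam) :
    Ctx d ρ S W m (fun i => c (m - i)) (fun i => lam (m - i)) := by
  refine ⟨h.pm, h.pos, h.SW, h.three, h.hub, ?_, ?_, ?_, ?_⟩
  · intro i _
    exact h.cW _ (by omega)
  · intro i hi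
    have e : m - i = (m - (i + 1)) + 1 := by omega
    show d (c (m - i)) (c (m - (i + 1))) ≤ ρ
    rw [h.pm.symm, e]
    exact h.hop _ (by omega)
  · intro t _
    exact h.lamS _ (by omega)
  · intro t _
    exact h.lamd _ (by omega)

/-- between two indices at distance `> 8 ρ` there is one at distance in `(8 ρ, 9 ρ]` -/
theorem cross_fwd (h : Ctx d ρ S W m c lam) {q : ℕ} :
    ∀ n, q + n ≤ m → 8 * ρ < d (c q) (c (q + n)) →
      ∃ j, q ≤ j ∧ j ≤ q + n ∧ 8 * ρ < d (c q) (c j) ∧ d (c q) (c j) ≤ 9 * ρ := by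
  intro n
  induction n with
  | zero =>
    intro _ h1
    rw [Nat.add_zero, h.pm.self] at h1
    linarith [h.pos]
  | succ n ih =>
    intro hn h1
    by_cases h2 : 8 * ρ < d (c q) (c (q + n))
    · obtain ⟨j, a, b, e, f⟩ := ih (by omega) h2
      exact ⟨j, a, by omega, e, f⟩
    · refine ⟨q + (n + 1), by omega, le_refl _, h1, ?_⟩
      have h3 := h.pm.tri (c q) (c (q + n)) (c (q + (n + 1)))
      have h4 := h.hop (q + n) (by omega)
      rw [Nat.add_assoc] at h4
      linarith

theorem cross_bwd (h : Ctx d ρ S W m c lam) {q : ℕ} (hq : q ≤ m) :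
    ∀ n, n ≤ q → 8 * ρ < d (c q) (c (q - n)) →
      ∃ j, q - n ≤ j ∧ j ≤ q ∧ 8 * ρ < d (c q) (c j) ∧ d (c q) (c j) ≤ 9 * ρ := by
  intro n
  induction n with
  | zero =>
    intro _ h1
    rw [Nat.sub_zero, h.pm.self] at h1
    linarith [h.pos]
  | succ n ih =>
    intro hn h1
    by_cases h2 : 8 * ρ < d (c q) (c (q - n))
    · obtain ⟨j, a, b, e, f⟩ := ih (by omega) h2
      exact ⟨j, by omega, b, e, f⟩
    · refine ⟨q - (n + 1), le_refl _, by omega, h1, ?_⟩
      have h3 := h.pm.tri (c q) (c (q - n)) (c (q - (n + 1)))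
      have h4 := h.hop (q - (n + 1)) (by omega)
      have e : q - (n + 1) + 1 = q - n := by omega
      rw [e, h.pm.symm] at h4
      linarith

theorem cross (h : Ctx d ρ S W m c lam) {q t : ℕ} (hq : q ≤ m) (ht : t ≤ m)
    (h1 : 8 * ρ < d (c q) (c t)) :
    ∃ j, min q t ≤ j ∧ j ≤ max q t ∧ 8 * ρ < d (c q) (c j) ∧ d (c q) (c j) ≤ 9 * ρ := by
  rcases le_total q t with hqt | hqt
  · obtain ⟨n, rfl⟩ := Nat.exists_eq_add_of_le hqt
    obtain ⟨j, a, b, e⟩ := h.cross_fwd n ht h1
    exact ⟨j, by omega, by omega, e⟩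
  · have e : t = q - (q - t) := by omega
    rw [e] at h1
    obtain ⟨j, a, b, e⟩ := h.cross_bwd hq (q - t) (by omega) h1
    exact ⟨j, by omega, by omega, e⟩

/-- exit property: no index between `q` and `t` is a visit, and no hub is within `6 ρ` of `c q` -/
theorem exit (h : Ctx d ρ S W m c lam) {q t : ℕ} (hq : q ≤ m) (ht : t ≤ m)
    (hT : ∀ z ∈ S, d (c q) z ≤ 16 * ρ → 6 * ρ < d (c q) z)
    (hn : ∀ j, min q t ≤ j → j ≤ max q t → ∀ z ∈ S, 3 * ρ < d (c j) z) :
    d (c q) (c t) ≤ 8 * ρ := by
  by_contra h1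
  obtain ⟨j, a, b, e, f⟩ := h.cross hq ht (not_le.1 h1)
  have hjm : j ≤ m := le_trans b (max_le hq ht)
  obtain ⟨x, hx, hxe⟩ := h.hub _ (h.cW q hq) _ (h.cW j hjm) e (by linarith [h.pos])
  have h2 := hn j a b x hx
  have h3 := h.pm.nonneg x (c j)
  have h4 := hT x hx (by linarith [h.pos])
  rw [h.pm.symm] at h2
  linarith

/-- hubs near a long transition -/
theorem long_near (h : Ctx d ρ S W m c lam) {i q : ℕ} (hi : i < m) (hq : q = i ∨ q = i + 1)
    (hl : 16 * ρ < d (lam i) (lam (i + 1))) :
    (∀ z ∈ S, d (c q) z ≤ 16 * ρ → 6 * ρ < d (c q) z) ∧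
    (∀ z ∈ S, d (c q) z ≤ 16 * ρ → z = lam i ∨ z = lam (i + 1)) := by
  have hqm : q ≤ m := by omega
  have h1 := h.lamd i (by omega)
  have h2 := h.lamd (i + 1) (by omega)
  have h3 := h.hop i hi
  have h4 := h.pm.tri (c i) (c (i + 1)) (lam (i + 1))
  have h5 := h.pm.tri (c (i + 1)) (c i) (lam i)
  rw [h.pm.symm (c (i + 1)) (c i)] at h5
  have hp := h.pos
  have b1 : d (c q) (lam i) ≤ 10 * ρ := by
    rcases hq with rfl | rfl <;> linarith
  have b2 : d (c q) (lam (i + 1)) ≤ 10 * ρ := by
    rcases hq with rfl | rfl <;> linarith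
  have h6 := h.pm.tri (lam i) (c q) (lam (i + 1))
  rw [h.pm.symm (lam i) (c q)] at h6
  have key : ∀ z ∈ S, d (c q) z ≤ 16 * ρ → z = lam i ∨ z = lam (i + 1) := by
    intro z hz hzd
    rcases h.three _ (h.cW q hqm) z hz _ (h.lamS i (by omega)) _ (h.lamS (i + 1) (by omega)) hzd
      (by linarith) (by linarith) with e | e | e
    · exact Or.inl e
    · exact Or.inr e
    · rw [e, h.pm.self] at hl
      linarith
  refine ⟨?_, key⟩
  intro z hz hzd
  rcases key z hz hzd with e | e
  · rw [e]; linarith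
  · rw [e]; linarith

/-- the first long transition between two indices with labels far apart -/
theorem exists_long (h : Ctx d ρ S W m c lam) {a : ℕ} :
    ∀ b, a ≤ b → b ≤ m → 16 * ρ < d (lam a) (lam b) →
      ∃ i, a ≤ i ∧ i < b ∧ 16 * ρ < d (lam i) (lam (i + 1)) ∧
        ∀ j, a ≤ j → j ≤ i → d (lam a) (lam j) ≤ 16 * ρ := by
  intro b
  induction b using Nat.strong_induction_on with
  | _ b ih =>
    intro hab hbm hd
    by_cases h1 : ∃ j, a ≤ j ∧ j < b ∧ 16 * ρ < d (lam a) (lam j)
    · obtain ⟨j, h2, h3, h4⟩ := h1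
      obtain ⟨i, e1, e2, e3, e4⟩ := ih j h3 h2 (by omega) h4
      exact ⟨i, e1, by omega, e3, e4⟩
    · push Not at h1
      have hne : a ≠ b := by
        rintro rfl
        rw [h.pm.self] at hd
        linarith [h.pos]
      obtain ⟨i, rfl⟩ : ∃ i, b = i + 1 := ⟨b - 1, by omega⟩
      refine ⟨i, by omega, by omega, ?_, fun j hj1 hj2 => h1 j hj1 (by omega)⟩
      by_contra h2
      have h3 := h.trans (h.lamS a (by omega)) (h.lamS i (by omega)) (h.lamS (i + 1) hbm)
        (h1 i (by omega) (by omega)) (not_lt.1 h2)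
      linarith

/-- Claim 1 -/
theorem claim (h : Ctx d ρ S W m c lam) {T' T : ℕ} (hTT : T' < T) (hTm : T ≤ m)
    {z' z : V} (hz' : z' ∈ S) (hz : z ∈ S) (hv' : d (c T') z' ≤ 3 * ρ) (hv : d (c T) z ≤ 3 * ρ)
    (hn : ∀ j, T' < j → j < T → ∀ y ∈ S, 3 * ρ < d (c j) y) : d z' z ≤ 16 * ρ := by
  by_contra hcon
  rw [not_le] at hcon
  have hp := h.pos
  have hne : z' ≠ z := by
    rintro rfl
    rw [h.pm.self] at hcon
    linarith
  have l1 : d z' (lam T') ≤ 16 * ρ := by
    have h1 := h.pm.tri z' (c T') (lam T')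
    rw [h.pm.symm z' (c T')] at h1
    have h2 := h.lamd T' (by omega)
    linarith
  have l2 : d (lam T) z ≤ 16 * ρ := by
    have h1 := h.pm.tri (lam T) (c T) z
    rw [h.pm.symm (lam T) (c T)] at h1
    have h2 := h.lamd T hTm
    linarith
  have hlTS' := h.lamS T' (by omega)
  have hlTS := h.lamS T hTm
  -- a label equivalent to z', or not
  have flip : ∀ a, T' ≤ a → a ≤ T → d z' (lam a) ≤ 16 * ρ → 16 * ρ < d (lam a) (lam T) := by
    intro a h1 h2 h3
    by_contra h4
    have h5 := h.trans hz' (h.lamS a (by omega)) hlTS h3 (not_lt.1 h4)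
    have h6 := h.trans hz' hlTS hz h5 l2
    linarith
  -- facts on long transitions
  have hlong : ∀ i, T' ≤ i → i < T → 16 * ρ < d (lam i) (lam (i + 1)) → T' < i ∧ i + 1 < T ∧
      (∀ t, T' < t → t < T → d (c i) (c t) ≤ 8 * ρ) := by
    intro i h1 h2 h3
    have n1 := (h.long_near (q := i) (by omega) (Or.inl rfl) h3).1
    have n2 := (h.long_near (q := i + 1) (by omega) (Or.inr rfl) h3).1
    have h4 : T' ≠ i := by
      rintro rfl
      have := n1 z' hz' (by linarith)
      linarith
    have h5 : i + 1 ≠ T := by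
      rintro rfl
      have := n2 z hz (by linarith)
      linarith
    refine ⟨by omega, by omega, ?_⟩
    intro t ht1 ht2
    exact h.exit (by omega) (by omega) n1 (fun j hj1 hj2 => hn j (by omega) (by omega))
  obtain ⟨i, hi1, hi2, hi3, hi4⟩ := h.exists_long T hTT.le hTm (flip T' le_rfl hTT.le l1)
  obtain ⟨hi5, hi6, hi7⟩ := hlong i hi1 hi2 hi3
  have lamz' : ∀ j, T' ≤ j → j ≤ i → d z' (lam j) ≤ 16 * ρ := by
    intro j h1 h2
    exact h.trans hz' hlTS' (h.lamS j (by omega)) l1 (hi4 j h1 h2)
  have near := (h.long_near (q := i) (by omega) (Or.inl rfl) hi3).2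
  -- z and z' are near c i
  have zi : d (c i) z ≤ 16 * ρ := by
    have h1 := hi7 (T - 1) (by omega) (by omega)
    have h2 := h.hop (T - 1) (by omega)
    have e : T - 1 + 1 = T := by omega
    rw [e] at h2
    have h3 := h.pm.tri (c i) (c (T - 1)) (c T)
    have h4 := h.pm.tri (c i) (c T) z
    linarith
  have zi' : d (c i) z' ≤ 16 * ρ := by
    have h1 := hi7 (T' + 1) (by omega) (by omega)
    have h2 := h.hop T' (by omega)
    have h3 := h.pm.tri (c i) (c (T' + 1)) (c T')
    rw [h.pm.symm (c (T' + 1)) (c T')] at h3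
    have h4 := h.pm.tri (c i) (c T') z'
    linarith
  have e1 : lam i = z' := by
    rcases near z' hz' zi' with e | e
    · exact e.symm
    · rcases near z hz zi with e' | e'
      · exfalso
        have := lamz' i hi1 le_rfl
        rw [← e'] at this
        linarith
      · exact absurd (e.trans e'.symm) hne
  have e2 : lam (i + 1) = z := by
    rcases near z hz zi with e | e
    · exact absurd (e1.symm.trans e.symm) hne
    · exact e.symm
  -- backward induction
  have back : ∀ n, ∀ t, t + n = i → T' < t → lam t = z' ∧ d (c t) z ≤ 12 * ρ := by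
    intro n
    induction n with
    | zero =>
      intro t ht _
      have : t = i := by omega
      subst this
      refine ⟨e1, ?_⟩
      have h1 := h.lamd (t + 1) (by omega)
      rw [e2] at h1
      have h2 := h.hop t (by omega)
      have h3 := h.pm.tri (c t) (c (t + 1)) z
      linarith
    | succ n ih =>
      intro t ht hT't
      obtain ⟨ih1, ih2⟩ := ih (t + 1) (by omega) (by omega)
      have hop := h.hop t (by omega)
      have pz : d (c t) z ≤ 13 * ρ := by
        have := h.pm.tri (c t) (c (t + 1)) z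
        linarith
      have pz' : d (c t) z' ≤ 10 * ρ := by
        have h1 := h.lamd (t + 1) (by omega)
        rw [ih1] at h1
        have := h.pm.tri (c t) (c (t + 1)) z'
        linarith
      have nearp : ∀ y ∈ S, d (c t) y ≤ 16 * ρ → y = z ∨ y = z' := by
        intro y hy hyd
        rcases h.three _ (h.cW t (by omega)) y hy z hz z' hz' hyd (by linarith) (by linarith) with
          e | e | e
        · exact Or.inl e
        · exact Or.inr e
        · exact absurd e.symm hne
      have lt : lam t = z' := by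
        rcases nearp _ (h.lamS t (by omega)) (by linarith [h.lamd t (by omega)]) with e | e
        · exfalso
          have := lamz' t (by omega) (by omega)
          rw [e] at this
          linarith
        · exact e
      refine ⟨lt, ?_⟩
      by_contra hpz
      rw [not_le] at hpz
      have pT : 9 * ρ < d (c t) (c T) := by
        have := h.pm.tri (c t) (c T) z
        linarith
      -- last index `s < T` with `d p (c s) ≤ 8 ρ`
      obtain ⟨s, hs1, hs2, hs3, hs4⟩ : ∃ s, t ≤ s ∧ s < T ∧ d (c t) (c s) ≤ 8 * ρ ∧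
          ∀ u, s < u → u ≤ T → 8 * ρ < d (c t) (c u) := by
        have gen : ∀ k, t + k ≤ T → (∃ s, t ≤ s ∧ s < T ∧ d (c t) (c s) ≤ 8 * ρ ∧
            ∀ u, s < u → u ≤ T → 8 * ρ < d (c t) (c u)) ∨
            (∀ u, T - k ≤ u → u ≤ T → 8 * ρ < d (c t) (c u)) := by
          intro k
          induction k with
          | zero =>
            intro _
            right
            intro u hu1 hu2
            have : u = T := by omega
            rw [this]
            linarith
          | succ k ihk =>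
            intro hk
            rcases ihk (by omega) with h1 | h1
            · exact Or.inl h1
            · by_cases h2 : 8 * ρ < d (c t) (c (T - (k + 1)))
              · right
                intro u hu1 hu2
                by_cases h3 : u = T - (k + 1)
                · rw [h3]; exact h2
                · exact h1 u (by omega) hu2
              · left
                refine ⟨T - (k + 1), by omega, by omega, not_lt.1 h2, ?_⟩
                intro u hu1 hu2
                exact h1 u (by omega) hu2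
        rcases gen (T - t) (by omega) with h1 | h1
        · exact h1
        · exfalso
          have := h1 t (by omega) (by omega)
          rw [h.pm.self] at this
          linarith
      have g1 := hs4 (s + 1) (by omega) (by omega)
      have g2 : d (c t) (c (s + 1)) ≤ 9 * ρ := by
        have h1 := h.pm.tri (c t) (c s) (c (s + 1))
        have h2 := h.hop s (by omega)
        linarith
      have g3 : s + 1 < T := by
        rcases Nat.lt_or_ge (s + 1) T with h1 | h1
        · exact h1
        · exfalso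
          have : s + 1 = T := by omega
          rw [this] at g2
          linarith
      obtain ⟨x, hx, hxe⟩ := h.hub _ (h.cW t (by omega)) _ (h.cW (s + 1) (by omega)) g1
        (by linarith)
      have g4 := h.pm.nonneg x (c (s + 1))
      have g5 : x = z' := by
        rcases nearp x hx (by linarith) with e | e
        · exfalso
          rw [e] at hxe g4
          linarith
        · exact e
      rw [g5] at hxe
      have g6 := hn t hT't (by omega) z' hz'
      have g7 : d z' (lam (s + 1)) ≤ 16 * ρ := by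
        have h1 := h.pm.tri z' (c (s + 1)) (lam (s + 1))
        have h2 := h.lamd (s + 1) (by omega)
        linarith
      obtain ⟨i', k1, k2, k3, -⟩ := h.exists_long T (a := s + 1) (by omega) hTm
        (flip (s + 1) (by omega) (by omega) g7)
      have k4 := (hlong i' (by omega) k2 k3).2.2 t hT't (by omega)
      have k5 := hs4 i' (by omega) (by omega)
      rw [h.pm.symm] at k4
      linarith
  obtain ⟨-, f1⟩ := back (i - (T' + 1)) (T' + 1) (by omega) (by omega)
  have f2 := h.hop T' (by omega)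
  have f3 := h.pm.tri (c T') (c (T' + 1)) z
  have f4 := h.pm.tri z' (c T') z
  rw [h.pm.symm z' (c T')] at f4
  linarith

/-- all visited hubs are equivalent -/
theorem visits (h : Ctx d ρ S W m c lam) :
    ∀ n, ∀ T' T, T = T' + n → T ≤ m → ∀ z' ∈ S, ∀ z ∈ S, d (c T') z' ≤ 3 * ρ →
      d (c T) z ≤ 3 * ρ → d z' z ≤ 16 * ρ := by
  intro n
  induction n using Nat.strong_induction_on with
  | _ n ih =>
    intro T' T hT hTm z' hz' z hz h1 h2
    have hp := h.pos
    by_cases h3 : ∃ j, T' < j ∧ j < T ∧ ∃ y ∈ S, d (c j) y ≤ 3 * ρ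
    · obtain ⟨j, j1, j2, y, hy, hjy⟩ := h3
      have a1 := ih (j - T') (by omega) T' j (by omega) (by omega) z' hz' y hy h1 hjy
      have a2 := ih (T - j) (by omega) j T (by omega) hTm y hy z hz hjy h2
      exact h.trans hz' hy hz a1 a2
    · push Not at h3
      rcases Nat.eq_zero_or_pos n with rfl | hn
      · have : T = T' := by omega
        subst this
        have := h.pm.tri z' (c T) z
        rw [h.pm.symm z' (c T)] at this
        linarith
      · exact h.claim (by omega) hTm hz' hz h1 h2 h3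

/-- the beginning of the path -/
theorem start (h : Ctx d ρ S W m c lam) {T : ℕ} (hTm : T ≤ m) {z : V} (hz : z ∈ S)
    (hv : d (c T) z ≤ 3 * ρ) (hn : ∀ j, j < T → ∀ y ∈ S, 3 * ρ < d (c j) y) :
    ∃ y ∈ S, d (c 0) y ≤ 20 * ρ ∧ d y z ≤ 16 * ρ := by
  have hp := h.pos
  have l2 : d (lam T) z ≤ 16 * ρ := by
    have h1 := h.pm.tri (lam T) (c T) z
    rw [h.pm.symm (lam T) (c T)] at h1
    have h2 := h.lamd T hTm
    linarith
  by_cases h0 : 16 * ρ < d (lam 0) (lam T)
  · obtain ⟨i, hi1, hi2, hi3, -⟩ := h.exists_long T (Nat.zero_le _) hTm h0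
    have n1 := (h.long_near (q := i) (by omega) (Or.inl rfl) hi3).1
    have n2 := (h.long_near (q := i + 1) (by omega) (Or.inr rfl) hi3).1
    have h5 : i + 1 ≠ T := by
      rintro rfl
      have := n2 z hz (by linarith)
      linarith
    have ex : ∀ t, t < T → d (c i) (c t) ≤ 8 * ρ := by
      intro t ht
      exact h.exit (by omega) (by omega) n1 (fun j hj1 hj2 => hn j (by omega))
    refine ⟨z, hz, ?_, ?_⟩
    · have a1 := ex 0 (by omega)
      have a2 := ex (T - 1) (by omega)
      have a3 := h.hop (T - 1) (by omega)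
      have e : T - 1 + 1 = T := by omega
      rw [e] at a3
      have a4 := h.pm.tri (c 0) (c i) (c (T - 1))
      rw [h.pm.symm (c 0) (c i)] at a4
      have a5 := h.pm.tri (c 0) (c (T - 1)) (c T)
      have a6 := h.pm.tri (c 0) (c T) z
      linarith
    · rw [h.pm.self]; linarith
  · refine ⟨lam 0, h.lamS 0 (Nat.zero_le _), by linarith [h.lamd 0 (Nat.zero_le _)], ?_⟩
    exact h.trans (h.lamS 0 (Nat.zero_le _)) (h.lamS T hTm) hz (not_lt.1 h0) l2

theorem main (h : Ctx d ρ S W m c lam) : d (c 0) (c m) ≤ 56 * ρ := by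
  have hp := h.pos
  by_cases hv : ∃ t ≤ m, ∃ z ∈ S, d (c t) z ≤ 3 * ρ
  · -- first visit
    have key : ∀ (c' lam' : ℕ → V), Ctx d ρ S W m c' lam' → (∃ t ≤ m, ∃ z ∈ S, d (c' t) z ≤ 3 * ρ) →
        ∃ T ≤ m, ∃ z ∈ S, d (c' T) z ≤ 3 * ρ ∧ ∃ y ∈ S, d (c' 0) y ≤ 20 * ρ ∧ d y z ≤ 16 * ρ := by
      intro c' lam' h' hv'
      classical
      have hv2 : ∃ t, t ≤ m ∧ ∃ z ∈ S, d (c' t) z ≤ 3 * ρ := hv'
      obtain ⟨h1, z, hz, h2⟩ := Nat.find_spec hv2
      refine ⟨Nat.find hv2, h1, z, hz, h2, h'.start h1 hz h2 ?_⟩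
      intro j hj y hy
      by_contra hcon
      exact Nat.find_min hv2 hj ⟨by omega, y, hy, not_lt.1 hcon⟩
    obtain ⟨T1, hT1, z1, hz1, hv1, y1, hy1, a1, b1⟩ := key c lam h hv
    have hvr : ∃ t ≤ m, ∃ z ∈ S, d ((fun i => c (m - i)) t) z ≤ 3 * ρ := by
      obtain ⟨t, ht, z, hz, hd⟩ := hv
      refine ⟨m - t, by omega, z, hz, ?_⟩
      have e : m - (m - t) = t := by omega
      show d (c (m - (m - t))) z ≤ 3 * ρ
      rw [e]; exact hd
    obtain ⟨T2, hT2, z2, hz2, hv2, y2, hy2, a2, b2⟩ := key _ _ h.rev hvr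
    simp only [Nat.sub_zero] at hv2 a2
    have b3 : d z1 z2 ≤ 16 * ρ := by
      rcases le_total T1 (m - T2) with hle | hle
      · exact h.visits (m - T2 - T1) T1 (m - T2) (by omega) (by omega) z1 hz1 z2 hz2 hv1 hv2
      · rw [h.pm.symm]
        exact h.visits (T1 - (m - T2)) (m - T2) T1 (by omega) (by omega) z2 hz2 z1 hz1 hv2 hv1
    have b4 := h.trans hy1 hz1 hz2 b1 b3
    have b5 : d z2 y2 ≤ 16 * ρ := by rw [h.pm.symm]; exact b2
    have b6 := h.trans hy1 hz2 hy2 b4 b5
    have t1 := h.pm.tri (c 0) y1 (c m)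
    have t2 := h.pm.tri y1 y2 (c m)
    rw [h.pm.symm y2 (c m)] at t2
    linarith
  · push Not at hv
    by_cases h0 : 16 * ρ < d (lam 0) (lam m)
    · obtain ⟨i, hi1, hi2, hi3, -⟩ := h.exists_long m (Nat.zero_le _) le_rfl h0
      have n1 := (h.long_near (q := i) (by omega) (Or.inl rfl) hi3).1
      have ex : ∀ t, t ≤ m → d (c i) (c t) ≤ 8 * ρ := by
        intro t ht
        exact h.exit (by omega) (by omega) n1 (fun j hj1 hj2 => hv j (by omega))
      have t1 := h.pm.tri (c 0) (c i) (c m)
      rw [h.pm.symm (c 0) (c i)] at t1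
      linarith [ex 0 (Nat.zero_le _), ex m le_rfl]
    · have t1 := h.pm.tri (c 0) (lam 0) (c m)
      have t2 := h.pm.tri (lam 0) (lam m) (c m)
      rw [h.pm.symm (lam m) (c m)] at t2
      linarith [h.lamd 0 (Nat.zero_le _), h.lamd m le_rfl]

end Ctx

theorem confinement_pos {d : V → V → ℝ} {W : Set V} (hd : PMet d) (hc : HC 2 d W) {ρ : ℝ}
    (hρ : 0 < ρ) (m : ℕ) (c : ℕ → V) (hW : ∀ i ≤ m, c i ∈ W)
    (hop : ∀ i < m, d (c i) (c (i + 1)) ≤ ρ) : d (c 0) (c m) ≤ 56 * ρ := by
  classical
  by_contra hcon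
  rw [not_le] at hcon
  obtain ⟨S, hSW, hcard, hhub⟩ := hc (8 * ρ) (by linarith)
  have three : ∀ v ∈ W, ∀ x ∈ S, ∀ y ∈ S, ∀ z ∈ S, d v x ≤ 16 * ρ → d v y ≤ 16 * ρ →
      d v z ≤ 16 * ρ → x = y ∨ x = z ∨ y = z := by
    intro v hv x hx y hy z hz h1 h2 h3
    by_contra hne
    push Not at hne
    obtain ⟨n1, n2, n3⟩ := hne
    have := hcard v hv {x, y, z} (by
      intro w hw
      simp only [Finset.mem_insert, Finset.mem_singleton] at hw
      rcases hw with rfl | rfl | rfl <;> assumption) (by
      intro w hw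
      simp only [Finset.mem_insert, Finset.mem_singleton] at hw
      rcases hw with rfl | rfl | rfl <;> linarith)
    rw [Finset.card_eq_three.2 ⟨x, y, z, n1, n2, n3, rfl⟩] at this
    omega
  have hub : ∀ u ∈ W, ∀ w ∈ W, 8 * ρ < d u w → d u w ≤ 16 * ρ → ∃ x ∈ S, d u x + d x w = d u w := by
    intro u hu w hw h1 h2
    exact hhub u hu w hw h1 (by linarith)
  -- a context with dummy labels to use the crossing lemma
  have lab : ∀ t, ∃ x, t ≤ m → x ∈ S ∧ d (c t) x ≤ 9 * ρ := by
    intro t
    by_cases ht : t ≤ m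
    · have far : ∃ j ≤ m, 8 * ρ < d (c t) (c j) := by
        by_contra hfar
        push Not at hfar
        have h1 := hfar 0 (Nat.zero_le _)
        have h2 := hfar m le_rfl
        have h3 := hd.tri (c 0) (c t) (c m)
        rw [hd.symm (c 0) (c t)] at h3
        linarith
      obtain ⟨j, hj, hjd⟩ := far
      -- crossing
      have : ∃ j', j' ≤ m ∧ 8 * ρ < d (c t) (c j') ∧ d (c t) (c j') ≤ 9 * ρ := by
        rcases le_total t j with hle | hle
        · have fwd : ∀ n, t + n ≤ m → 8 * ρ < d (c t) (c (t + n)) →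
              ∃ j, j ≤ m ∧ 8 * ρ < d (c t) (c j) ∧ d (c t) (c j) ≤ 9 * ρ := by
            intro n
            induction n with
            | zero =>
              intro _ h1
              rw [Nat.add_zero, hd.self] at h1
              linarith
            | succ n ih =>
              intro hn h1
              by_cases h2 : 8 * ρ < d (c t) (c (t + n))
              · exact ih (by omega) h2
              · refine ⟨t + (n + 1), hn, h1, ?_⟩
                have h3 := hd.tri (c t) (c (t + n)) (c (t + (n + 1)))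
                have h4 := hop (t + n) (by omega)
                rw [Nat.add_assoc] at h4
                linarith
          refine fwd (j - t) (by omega) ?_
          have e : t + (j - t) = j := by omega
          rw [e]; exact hjd
        · have bwd : ∀ n, n ≤ t → 8 * ρ < d (c t) (c (t - n)) →
              ∃ j, j ≤ m ∧ 8 * ρ < d (c t) (c j) ∧ d (c t) (c j) ≤ 9 * ρ := by
            intro n
            induction n with
            | zero =>
              intro _ h1
              rw [Nat.sub_zero, hd.self] at h1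
              linarith
            | succ n ih =>
              intro hn h1
              by_cases h2 : 8 * ρ < d (c t) (c (t - n))
              · exact ih (by omega) h2
              · refine ⟨t - (n + 1), by omega, h1, ?_⟩
                have h3 := hd.tri (c t) (c (t - n)) (c (t - (n + 1)))
                have h4 := hop (t - (n + 1)) (by omega)
                have e : t - (n + 1) + 1 = t - n := by omega
                rw [e, hd.symm] at h4
                linarith
          refine bwd (t - j) (by omega) ?_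
          have e : t - (t - j) = j := by omega
          rw [e]; exact hjd
      obtain ⟨j', hj', k1, k2⟩ := this
      obtain ⟨x, hx, hxe⟩ := hub _ (hW t ht) _ (hW j' hj') k1 (by linarith)
      exact ⟨x, fun _ => ⟨hx, by linarith [hd.nonneg x (c j')]⟩⟩
    · exact ⟨c 0, fun h => absurd h ht⟩
  choose lam hlam using lab
  have C : Ctx d ρ S W m c lam :=
    ⟨hd, hρ, hSW, three, hub, hW, hop, fun t ht => (hlam t ht).1, fun t ht => (hlam t ht).2⟩
  linarith [C.main]

/-- Confinement: if the hub condition holds with parameter 2, a chain of hops of length at most `ρ`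
stays within `56 ρ` of its start. -/
theorem confinement {d : V → V → ℝ} {W : Set V} (hd : PMet d) (hc : HC 2 d W) {ρ : ℝ} (hρ : 0 ≤ ρ)
    (m : ℕ) (c : ℕ → V) (hW : ∀ i ≤ m, c i ∈ W) (hop : ∀ i < m, d (c i) (c (i + 1)) ≤ ρ) :
    d (c 0) (c m) ≤ 56 * ρ := by
  rcases hρ.eq_or_lt with rfl | hpos
  · refine le_of_forall_pos_le_add ?_
    intro ε hε
    have h1 := confinement_pos hd hc (ρ := ε / 56) (by positivity) m c hW
      (fun i hi => (hop i hi).trans (by positivity))
    linarith
  · exact confinement_pos hd hc hpos m c hW hop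

end Pool.Agent.H703
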