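import Pool.Agent.H703.Tight

/-!
# Calculus of the contraction depth
-/

set_option autoImplicit false

namespace Pool.Agent.H703

variable {V : Type} {d : V → V → ℝ} {P : Set V}

theorem rel_mono {A A' : Set V} (h : A ⊆ A') {u w : V} (hr : rel d A' u w) : rel d A u w :=
  fun b hb c hc => hr b (h hb) c (h hc)

theorem rel_symm (hd : PMet d) {A : Set V} {u w : V} (hr : rel d A u w) : rel d A w u := by
  intro b hb c hc
  have := hr c hc b hb
  rw [hd.symm w u]
  linarith

theorem comp_mono {A A' U U' : Set V} (hA : A ⊆ A') (hU : U' ⊆ U) (u : V) :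
    comp d A' U' u ⊆ comp d A U u := by
  intro w hw
  induction hw with
  | refl => exact Relation.ReflTransGen.refl
  | tail _ h ih => exact Relation.ReflTransGen.tail ih ⟨hU h.1, rel_mono hA h.2⟩

theorem mem_comp_self {A U : Set V} (u : V) : u ∈ comp d A U u := Relation.ReflTransGen.refl

theorem comp_subset {A U : Set V} {u : V} (hu : u ∈ U) : comp d A U u ⊆ U := by
  intro w hw
  induction hw with
  | refl => exact hu
  | tail _ h _ => exact h.1

theorem comp_comp {A U : Set V} (u : V) : comp d A U u ⊆ comp d A (comp d A U u) u := by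
  intro w hw
  induction hw with
  | refl => exact mem_comp_self u
  | @tail b c hb hbc ih =>
    exact Relation.ReflTransGen.tail ih ⟨Relation.ReflTransGen.tail hb hbc, hbc.2⟩

theorem Dep.mono : ∀ {s : ℕ} {U U' A A' : Set V}, A ⊆ A' → U' ⊆ U → Dep d P s U A →
    Dep d P s U' A'
  | 0, U, U', A, A', _, hU, h => by
    simp only [Dep] at h ⊢
    exact Set.subset_eq_empty hU h
  | s + 1, U, U', A, A', hA, hU, h => by
    simp only [Dep] at h ⊢
    intro u hu
    obtain ⟨z, hz, h1⟩ := h u (hU hu)
    refine ⟨z, hz, Dep.mono (Set.insert_subset_insert hA) ?_ h1⟩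
    exact Set.sdiff_subset_sdiff_left (comp_mono hA hU u)

theorem Dep.empty : ∀ (s : ℕ) (A : Set V), Dep d P s ∅ A
  | 0, A => by simp [Dep]
  | s + 1, A => by simp [Dep]

theorem Dep.succ (hP : P.Nonempty) : ∀ {s : ℕ} {U A : Set V}, Dep d P s U A →
    Dep d P (s + 1) U A
  | 0, U, A, h => by
    simp only [Dep] at h
    subst h
    exact Dep.empty _ _
  | s + 1, U, A, h => by
    unfold Dep
    intro u hu
    unfold Dep at h
    obtain ⟨z, hz, h1⟩ := h u hu
    exact ⟨z, hz, Dep.succ hP h1⟩

theorem Dep.le (hP : P.Nonempty) {s t : ℕ} (hst : s ≤ t) {U A : Set V} (h : Dep d P s U A) :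
    Dep d P t U A := by
  induction hst with
  | refl => exact h
  | step _ ih => exact Dep.succ hP ih

theorem Dep.of_comps {s : ℕ} {U A : Set V} (h : ∀ u ∈ U, Dep d P s (comp d A U u) A) :
    Dep d P s U A := by
  cases s with
  | zero =>
    simp only [Dep] at h ⊢
    by_contra hne
    obtain ⟨u, hu⟩ := Set.nonempty_iff_ne_empty.2 hne
    have := mem_comp_self (d := d) (A := A) (U := U) u
    rw [h u hu] at this
    exact this
  | succ s =>
    intro u hu
    have h1 := h u hu
    unfold Dep at h1
    obtain ⟨z, hz, h2⟩ := h1 u (mem_comp_self u)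
    exact ⟨z, hz, Dep.mono le_rfl (Set.sdiff_subset_sdiff_left (comp_comp u)) h2⟩

theorem Dep.contract {s : ℕ} : ∀ (Z : Finset V) {U A : Set V}, (∀ z ∈ Z, z ∈ P) →
    Dep d P s (U \ Z) (A ∪ Z) → Dep d P (s + Z.card) U A := by
  classical
  intro Z
  induction Z using Finset.induction_on with
  | empty =>
    intro U A _ h
    simpa using h
  | @insert z Z hz ih =>
    intro U A hZ h
    rw [Finset.card_insert_of_notMem hz]
    intro u hu
    refine ⟨z, hZ z (Finset.mem_insert_self _ _), ?_⟩
    refine ih (fun x hx => hZ x (Finset.mem_insert_of_mem hx)) ?_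
    refine Dep.mono ?_ ?_ h
    · intro x hx
      simp only [Finset.coe_insert, Set.mem_union, Set.mem_insert_iff, Finset.mem_coe] at hx ⊢
      tauto
    · intro x hx
      have hxC := comp_subset hu hx.1.1
      simp only [Finset.coe_insert, Set.mem_sdiff, Set.mem_insert_iff, Finset.mem_coe,
        Set.mem_singleton_iff] at hx ⊢
      tauto

theorem Dep.single {U A : Set V} {u : V} (hU : U ⊆ {u}) (hu : u ∈ P) : Dep d P 1 U A := by
  intro w hw
  have hwu : w = u := hU hw
  subst hwu
  refine ⟨w, hu, ?_⟩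
  simp only [Dep]
  rw [Set.sdiff_eq_empty]
  exact fun x hx => hU (comp_subset hw hx)

end Pool.Agent.H703
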