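import Pool.Agent.H703.Closure

/-!
# Bounded contraction depth

Proof written by helper446 from the plan of helper703.
-/

set_option autoImplicit false

namespace Pool.Agent.H703

variable {V : Type}

variable {d : V → V → ℝ} {a : V → ℝ} {P : Set V}

/-! ### Auxiliary lemmas for the target -/

theorem exists_a (d : V → V → ℝ) {A : Set V} (hf : A.Finite) (hne : A.Nonempty) :
    ∃ a : V → ℝ, (∀ v, ∀ z ∈ A, a v ≤ d v z) ∧ ∀ v, ∃ z ∈ A, a v = d v z := by
  have hne' : hf.toFinset.Nonempty := (Set.Finite.toFinset_nonempty hf).2 hne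
  refine ⟨fun v => hf.toFinset.inf' hne' fun z => d v z, fun v z hz => ?_, fun v => ?_⟩
  · exact Finset.inf'_le _ (hf.mem_toFinset.2 hz)
  · obtain ⟨z, hz, h⟩ := Finset.exists_mem_eq_inf' hne' fun z => d v z
    exact ⟨z, hf.mem_toFinset.1 hz, h⟩

theorem comp_dep {W : Set V} {R : V → ℝ} {Dmax : ℝ} {K0 s : ℕ} {χ : V → V → V}
    {U A U0 : Set V} (hd : PMet d) (hH : Hubs d W Dmax K0 R) (hUW : U ⊆ W)
    (hsep : ∀ u ∈ U, ∀ w ∈ U, u ≠ w → 1 ≤ d u w)
    (hgeo : ∀ u ∈ U, ∀ w ∈ U, u ≠ w → d u (χ u w) + d (χ u w) w = d u w)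
    (hrad : ∀ u ∈ U, ∀ w ∈ U, u ≠ w → 2 * d u w - 1 / 1000 ≤ R (χ u w))
    (hfin : U.Finite) (hUP : U ⊆ P) (hAf : A.Finite) (hAn : A.Nonempty) (hU0 : U0 ⊆ U) {u0 : V}
    (hu0 : u0 ∈ U0)
    (h1 : ∀ u ∈ U0, ∀ w ∈ U0, u ≠ w → rel d A u w → ∀ z ∈ A, R (χ u w) < d z (χ u w))
    (h3 : ∀ C' : Set V, C' ⊆ U0 → (∀ u ∈ C', ∀ w ∈ C', u ≠ w → rel d A u w) →
      Dep d P s C' A) : Dep d P (s + K0) (comp d A U0 u0) A := by
  classical
  obtain ⟨a, ha1, ha2⟩ := exists_a d hAf hAn
  set C := comp d A U0 u0 with hC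
  have hCU : C ⊆ U0 := comp_subset hu0
  have hCU' : ∀ x ∈ C, x ∈ U := fun x hx => hU0 (hCU hx)
  have hPne : P.Nonempty := ⟨u0, hUP (hU0 hu0)⟩
  have hu0C : u0 ∈ C := mem_comp_self u0
  have hrel : ∀ u w, rel d A u w ↔ d u w < a u + a w := by
    intro u w
    constructor
    · intro h
      obtain ⟨b, hb, hb'⟩ := ha2 u
      obtain ⟨c, hc, hc'⟩ := ha2 w
      rw [hb', hc']
      exact h b hb c hc
    · intro h b hb c hc
      have := ha1 u b hb
      have := ha1 w c hc
      linarith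
  by_cases hall : ∀ u ∈ C, ∀ w ∈ C, u ≠ w → rel d A u w
  · exact Dep.le hPne (Nat.le_add_right _ _) (h3 C hCU hall)
  push Not at hall
  obtain ⟨p, hp, q, hq, hpq, hnr⟩ := hall
  have hax : ∀ u ∈ C, ∀ w ∈ C, u ≠ w → rel d A u w → R (χ u w) < a (χ u w) := by
    intro u hu w hw huw hr
    obtain ⟨z, hz, hz'⟩ := ha2 (χ u w)
    rw [hz', hd.symm]
    exact h1 u (hCU hu) w (hCU hw) huw hr z hz
  have hlip : ∀ x y, a x ≤ a y + d x y := by
    intro x y
    obtain ⟨z, hz, hz'⟩ := ha2 y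
    have e1 := ha1 x z hz
    have e2 := hd.tri x y z
    linarith
  have hclose0 : ∀ u ∈ C, ∀ w ∈ C, u ≠ w → rel d A u w → 3 * d u w ≤ a u + a w + 1 / 500 := by
    intro u hu w hw huw hr
    have e1 := hax u hu w hw huw hr
    have e2 := hrad u (hCU' u hu) w (hCU' w hw) huw
    have e3 := hgeo u (hCU' u hu) w (hCU' w hw) huw
    have e4 := hlip (χ u w) u
    have e5 := hlip (χ u w) w
    rw [hd.symm (χ u w) u] at e4
    linarith
  have hconn : ∀ u ∈ C, ∃ w ∈ C, w ≠ u ∧ rel d A u w := by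
    intro u hu
    by_contra hc
    push Not at hc
    have key : ∀ w ∈ C, (w = u ↔ u0 = u) := by
      intro w hw
      induction hw with
      | refl => exact Iff.rfl
      | @tail b c hb hbc ih =>
        have hbC : b ∈ C := hb
        have hcC : c ∈ C := Relation.ReflTransGen.tail hb hbc
        rw [← ih]
        constructor
        · rintro rfl
          by_contra hbu
          exact hc b hbC hbu (rel_symm hd hbc.2)
        · rintro rfl
          by_contra hcu
          exact hc c hcC hcu hbc.2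
    have h4 := (key u hu).1 rfl
    have h5 := (key p hp).2 h4
    have h6 := (key q hq).2 h4
    exact hpq (h5.trans h6.symm)
  have hpos : ∀ u ∈ C, 1 / 2 ≤ a u := by
    intro u hu
    obtain ⟨w, hw, hwu, hr⟩ := hconn u hu
    have e1 := hclose0 u hu w hw hwu.symm hr
    have e2 := hsep u (hCU' u hu) w (hCU' w hw) hwu.symm
    have e3 := hlip w u
    rw [hd.symm w u] at e3
    linarith
  have hT : TCtx d a C := by
    refine ⟨hlip, hpos, fun u hu w hw h => ?_⟩
    by_cases huw : u = w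
    · subst huw
      have := hpos u hu
      rw [hd.self]
      linarith
    · exact hclose0 u hu w hw huw ((hrel u w).2 h)
  have hself : ∀ u ∈ C, rel d A u u := by
    intro u hu
    rw [hrel, hd.self]
    have := hpos u hu
    linarith
  obtain ⟨u, hu, v, hv, w, hw, huv, hvw, huw⟩ : ∃ u ∈ C, ∃ v ∈ C, ∃ w ∈ C,
      rel d A u v ∧ rel d A v w ∧ ¬ rel d A u w := by
    by_contra hc
    push Not at hc
    have key : ∀ w ∈ C, rel d A u0 w := by
      intro w hw
      induction hw with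
      | refl => exact hself u0 hu0C
      | @tail b c hb hbc ih =>
        exact hc u0 hu0C b hb c (Relation.ReflTransGen.tail hb hbc) ih hbc.2
    exact hnr (hc p hp u0 hu0C q hq (rel_symm hd (key p hp)) (key q hq))
  have hTt : Tight d a C u v w := ⟨hu, hv, hw, (hrel _ _).1 huv, (hrel _ _).1 hvw, by
    have := (not_congr (hrel u w)).1 huw
    linarith⟩
  -- the core
  have hCf : C.Finite := hfin.subset hCU'
  set Q : Finset V := hCf.toFinset.filter fun n => rel d A n u ∧ rel d A n w with hQ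
  have memQ : ∀ n, n ∈ Q ↔ n ∈ C ∧ rel d A n u ∧ rel d A n w := by
    intro n
    rw [hQ, Finset.mem_filter, hCf.mem_toFinset]
  have hQnear : ∀ n ∈ Q, n ≠ u ∧ d (χ u n) n ≤ 1 / 20 ∧ d u (χ u n) ≤ R (χ u n) := by
    intro n hn
    obtain ⟨hnC, hnu, hnw⟩ := (memQ n).1 hn
    have hne : n ≠ u := fun h => huw (h ▸ hnw)
    have c1 := hTt.core hd hT hnC ((hrel _ _).1 hnu) ((hrel _ _).1 hnw)
    have c2 := hTt.bounds hd hT
    have c3 := hax u hu n hnC hne.symm (rel_symm hd hnu)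
    have c4 := hrad u (hCU' u hu) n (hCU' n hnC) hne.symm
    have c5 := hgeo u (hCU' u hu) n (hCU' n hnC) hne.symm
    have c6 := hsep u (hCU' u hu) n (hCU' n hnC) hne.symm
    have c7 := hd.nonneg (χ u n) n
    refine ⟨hne, ?_, by linarith⟩
    exact hub_near (a := a) (A := a v) hlip (hd.symm _ _) c2.2.1 c1.2.2.1 c5 (by linarith)
  have hQcard : Q.card ≤ K0 := by
    have hinj : Set.InjOn (χ u) (Q : Set V) := by
      intro n hn n' hn' h
      by_contra hne
      obtain ⟨-, e1, -⟩ := hQnear n hn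
      obtain ⟨-, e2, -⟩ := hQnear n' hn'
      have hnC := ((memQ n).1 hn).1
      have hnC' := ((memQ n').1 hn').1
      have e3 := hsep n (hCU' n hnC) n' (hCU' n' hnC') hne
      have e4 := hd.tri n (χ u n) n'
      rw [hd.symm n (χ u n)] at e4
      have h' : χ u n = χ u n' := h
      rw [← h'] at e2
      linarith
    rw [← Finset.card_image_of_injOn hinj]
    refine hH.card u (hUW (hCU' u hu)) _ fun x hx => ?_
    obtain ⟨n, hn, rfl⟩ := Finset.mem_image.1 hx
    exact (hQnear n hn).2.2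
  refine Dep.le hPne (Nat.add_le_add_left hQcard s) ?_
  refine Dep.contract Q (fun z hz => hUP (hCU' z ((memQ z).1 hz).1)) ?_
  refine Dep.mono (A := A) (U := C \ Q) Set.subset_union_left (fun _ h => h) ?_
  refine Dep.of_comps fun n0 hn0 => ?_
  -- all points are related to `v`
  have hallv : ∀ n ∈ C, rel d A n v := by
    have key : ∀ n ∈ C, (rel d A n v ↔ rel d A u0 v) := by
      intro n hn
      induction hn with
      | refl => exact Iff.rfl
      | @tail b c hb hbc ih =>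
        have hbC : b ∈ C := hb
        have hcC : c ∈ C := Relation.ReflTransGen.tail hb hbc
        rw [← ih]
        constructor
        · intro h
          exact (hrel _ _).2 (hTt.all_rel hd hT hcC hbC ((hrel _ _).1 h) ((hrel _ _).1 hbc.2))
        · intro h
          exact (hrel _ _).2 (hTt.all_rel hd hT hbC hcC ((hrel _ _).1 h)
            ((hrel _ _).1 (rel_symm hd hbc.2)))
    intro n hn
    exact (key n hn).2 ((key v hv).1 (hself v hv))
  have hbd : ∀ n ∈ C \ (Q : Set V), a v / 2 - 1 / 500 ≤ a n ∧ a n ≤ a v / 2 + 1 / 250 := by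
    rintro n ⟨hnC, hnQ⟩
    have hnQ' : ¬ (n ∈ C ∧ rel d A n u ∧ rel d A n w) := fun h => hnQ ((memQ n).2 h)
    have hnv := (hrel _ _).1 (hallv n hnC)
    by_cases hnu : rel d A n u
    · have hnw : ¬ rel d A n w := fun h => hnQ' ⟨hnC, hnu, h⟩
      have ht : Tight d a C n v w := ⟨hnC, hv, hw, hnv, (hrel _ _).1 hvw, by
        have := (not_congr (hrel n w)).1 hnw
        linarith⟩
      have := ht.bounds hd hT
      exact ⟨this.1, this.2.1⟩
    · have ht : Tight d a C n v u := ⟨hnC, hv, hu, hnv, (hrel _ _).1 (rel_symm hd huv), by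
        have := (not_congr (hrel n u)).1 hnu
        linarith⟩
      have := ht.bounds hd hT
      exact ⟨this.1, this.2.1⟩
  have htrans : ∀ n1 ∈ C \ (Q : Set V), ∀ n2 ∈ C \ (Q : Set V), ∀ n3 ∈ C \ (Q : Set V),
      rel d A n1 n2 → rel d A n2 n3 → rel d A n1 n3 := by
    intro n1 h1' n2 h2' n3 h3' h12 h23
    by_contra h13
    have ht : Tight d a C n1 n2 n3 := ⟨h1'.1, h2'.1, h3'.1, (hrel _ _).1 h12, (hrel _ _).1 h23, by
      have := (not_congr (hrel n1 n3)).1 h13
      linarith⟩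
    have b1 := ht.bounds hd hT
    have b2 := hbd n1 h1'
    have b3 := hbd n2 h2'
    have b4 := hpos v hv
    linarith [b1.2.1, b2.1, b3.2]
  have hC'sub : comp d A (C \ (Q : Set V)) n0 ⊆ C \ (Q : Set V) := comp_subset hn0
  refine h3 _ (fun x hx => hCU (hC'sub hx).1) ?_
  have key : ∀ x ∈ comp d A (C \ (Q : Set V)) n0, rel d A n0 x := by
    intro x hx
    induction hx with
    | refl => exact hself n0 hn0.1
    | @tail b c hb hbc ih =>
      exact htrans n0 hn0 b (hC'sub hb) c (hC'sub (Relation.ReflTransGen.tail hb hbc)) ih hbc.2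
  intro x hx y hy _
  exact htrans x (hC'sub hx) n0 hn0 y (hC'sub hy) (rel_symm hd (key x hx)) (key y hy)

/-- The hub of a pair at maximal distance. -/
theorem exists_z0 {W : Set V} {R : V → ℝ} {Dmax : ℝ} {χ : V → V → V} {U A : Set V} (hd : PMet d)
    (hCh : Chosen d W Dmax R χ U A) (hfin : U.Finite) (h2 : ¬ ∀ u ∈ U, ∀ w ∈ U, u = w) :
    ∃ z0 ∈ Rel χ U, z0 ∉ A ∧ ∀ u ∈ U, d u z0 ≤ R z0 := by
  classical
  have hne : ((hfin.prod hfin).toFinset).Nonempty := by
    rw [Set.Finite.toFinset_nonempty]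
    push Not at h2
    obtain ⟨u, hu, -⟩ := h2
    exact ⟨(u, u), hu, hu⟩
  obtain ⟨⟨p, q⟩, hpq, hmax⟩ := Finset.exists_max_image _ (fun x : V × V => d x.1 x.2) hne
  rw [Set.Finite.mem_toFinset] at hpq
  obtain ⟨hp, hq⟩ := hpq
  have hmax' : ∀ u ∈ U, ∀ w ∈ U, d u w ≤ d p q := fun u hu w hw =>
    hmax (u, w) ((Set.Finite.mem_toFinset _).2 ⟨hu, hw⟩)
  have hpq' : p ≠ q := by
    rintro rfl
    apply h2
    intro u hu w hw
    by_contra huw
    have e1 := hCh.sep u hu w hw huw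
    have e2 := hmax' u hu w hw
    simp only [hd.self] at e2
    linarith
  have e1 := hCh.sep p hp q hq hpq'
  have e2 := hCh.geo p hp q hq hpq'
  have e3 := hCh.rad p hp q hq hpq'
  refine ⟨χ p q, ⟨p, hp, q, hq, hpq', rfl⟩, fun h => ?_, fun u hu => ?_⟩
  · have e4 := hCh.far p hp q hq hpq' _ h
    rw [hd.self] at e4
    linarith
  · have e4 := hd.tri u p (χ p q)
    have e5 := hd.tri u q (χ p q)
    have e6 := hmax' u hu p hp
    have e7 := hmax' u hu q hq
    rw [hd.symm q (χ p q)] at e5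
    linarith

theorem depth_small {U A : Set V} (hUP : U ⊆ P) (hP : P.Nonempty) {s : ℕ}
    (hs : 1 ≤ s) (h : ∀ u ∈ U, ∀ w ∈ U, u = w) : Dep d P s U A := by
  by_cases hne : U.Nonempty
  · obtain ⟨u, hu⟩ := hne
    exact Dep.le hP hs (Dep.single (fun w hw => h w hw u hu) (hUP hu))
  · rw [Set.not_nonempty_iff_eq_empty] at hne
    subst hne
    exact Dep.empty _ _

/-- TARGET: bounded contraction depth. -/
theorem depth_bound (K0 K : ℕ) : ∃ s : ℕ, ∀ (V : Type) (d : V → V → ℝ) (W : Set V) (R : V → ℝ)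
    (Dmax : ℝ), PMet d → Hubs d W Dmax K0 R → ∀ (χ : V → V → V) (U A P : Set V),
    Chosen d W Dmax R χ U A → U.Finite → A.Finite → U ⊆ P → Rel χ U ⊆ P → P.Nonempty →
    (∀ u ∈ U, ∀ T : Finset V, (∀ x ∈ T, x ∉ A ∧ d u x ≤ R x) → T.card ≤ K) →
    Dep d P s U A := by
  classical
  obtain ⟨N, hN⟩ := exists_closure K0
  induction K with
  | zero =>
    refine ⟨1, fun V d W R Dmax hd hH χ U A P hCh hUf hAf hUP hRP hP hK => ?_⟩
    by_cases h2 : ∀ u ∈ U, ∀ w ∈ U, u = w
    · exact depth_small hUP hP le_rfl h2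
    · exfalso
      obtain ⟨z0, -, hz1, hz2⟩ := exists_z0 hd hCh hUf h2
      push Not at h2
      obtain ⟨u, hu, -⟩ := h2
      have := hK u hu {z0} (fun x hx => by
        rw [Finset.mem_singleton] at hx
        subst hx
        exact ⟨hz1, hz2 u hu⟩)
      simp at this
  | succ K ih =>
    obtain ⟨s, hs⟩ := ih
    refine ⟨s + K0 + N + 1, fun V d W R Dmax hd hH χ U A P hCh hUf hAf hUP hRP hP hK => ?_⟩
    by_cases h2 : ∀ u ∈ U, ∀ w ∈ U, u = w
    · exact depth_small hUP hP (by omega) h2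
    obtain ⟨z0, hz0, hz1, hz2⟩ := exists_z0 hd hCh hUf h2
    obtain ⟨Z, hzZ, hZN, hZR, hZc⟩ := hN V d W R Dmax hd hH χ U A hCh z0 hz0
    refine Dep.le hP (s := s + K0 + Z.card) (by omega) ?_
    refine Dep.contract Z (fun z hz => hRP (hZR z hz)) ?_
    refine Dep.of_comps fun u0 hu0 => ?_
    have hsub : ∀ x ∈ U \ (Z : Set V), x ∈ U := fun x hx => hx.1
    have h1 : ∀ u ∈ U \ (Z : Set V), ∀ w ∈ U \ (Z : Set V), u ≠ w → rel d (A ∪ Z) u w →
        ∀ z ∈ A ∪ (Z : Set V), R (χ u w) < d z (χ u w) := by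
      intro u hu w hw huw hr z hz
      rcases hz with hz | hz
      · exact hCh.far u hu.1 w hw.1 huw z hz
      · by_contra hc
        push Not at hc
        have hx : χ u w ∈ Z := hZc z hz (χ u w) ⟨u, hu.1, w, hw.1, huw, rfl⟩ hc
        have e1 := hr (χ u w) (Or.inr hx) (χ u w) (Or.inr hx)
        have e2 := hCh.geo u hu.1 w hw.1 huw
        rw [hd.symm w (χ u w)] at e1
        linarith
    refine comp_dep (W := W) (R := R) (Dmax := Dmax) (χ := χ) (U := U) hd hH hCh.sub hCh.sep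
      hCh.geo hCh.rad hUf hUP (hAf.union (Finset.finite_toSet Z)) ⟨z0, Or.inr hzZ⟩ hsub hu0 h1 ?_
    intro C' hC' hrel
    have hC'U : ∀ x ∈ C', x ∈ U := fun x hx => (hC' hx).1
    refine hs V d W R Dmax hd hH χ C' (A ∪ Z) P ⟨fun x hx => hCh.sub (hC'U x hx),
      fun u hu w hw => hCh.sep u (hC'U u hu) w (hC'U w hw),
      fun u hu w hw => hCh.diam u (hC'U u hu) w (hC'U w hw),
      fun u hu w hw => hCh.geo u (hC'U u hu) w (hC'U w hw),
      fun u hu w hw => hCh.rad u (hC'U u hu) w (hC'U w hw),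
      fun u hu w hw huw => h1 u (hC' hu) w (hC' hw) huw (hrel u hu w hw huw)⟩
      (hUf.subset hC'U) (hAf.union (Finset.finite_toSet Z)) (fun x hx => hUP (hC'U x hx)) ?_ hP ?_
    · rintro x ⟨u, hu, w, hw, huw, rfl⟩
      exact hRP ⟨u, hC'U u hu, w, hC'U w hw, huw, rfl⟩
    · intro u hu T hT
      have hz0T : z0 ∉ T := fun h => (hT z0 h).1 (Or.inr hzZ)
      have := hK u (hC'U u hu) (insert z0 T) (fun x hx => by
        rcases Finset.mem_insert.1 hx with rfl | hx
        · exact ⟨hz1, hz2 u (hC'U u hu)⟩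
        · exact ⟨fun h => (hT x hx).1 (Or.inl h), (hT x hx).2⟩)
      rw [Finset.card_insert_of_notMem hz0T] at this
      omega

end Pool.Agent.H703
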