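import Pool.Agent.H703.Alg

/-!
# The algorithm for the metric: levels, clusters, bands
-/

set_option autoImplicit false

namespace Pool.Agent.H703

/-- The metric axioms for distances in `ℕ`. -/
structure NMet (d : ℕ → ℕ → ℕ) : Prop where
  self : ∀ x, d x x = 0
  symm : ∀ x y, d x y = d y x
  tri : ∀ x y z, d x z ≤ d x y + d y z

/-- The distances as real numbers. -/
def dR (d : ℕ → ℕ → ℕ) : ℕ → ℕ → ℝ := fun x y => (d x y : ℝ)

theorem NMet.toPMet {d : ℕ → ℕ → ℕ} (h : NMet d) : PMet (dR d) := by
  refine ⟨?_, ?_, ?_⟩
  · intro x
    unfold dR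
    exact_mod_cast h.self x
  · intro x y
    unfold dR
    exact_mod_cast h.symm x y
  · intro x y z
    unfold dR
    exact_mod_cast h.tri x y z

/-- The cluster of `v` at threshold `t`: the points of `{0, …, n-1}` reachable by hops of length at
most `t`. -/
noncomputable def clu (n : ℕ) (d : ℕ → ℕ → ℕ) (t v : ℕ) : List ℕ :=
  clos (fun x y => d x y ≤ t) (List.range n) [v]

open Classical in
/-- The representative of the cluster of `v` at threshold `t`: the least terminal in it, or its
least element if it contains no terminal. -/
noncomputable def rp (n : ℕ) (d : ℕ → ℕ → ℕ) (T : List ℕ) (t v : ℕ) : ℕ :=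
  ((clu n d t v).filter (fun x => decide (x ∈ T)) ++ clu n d t v).headD v

/-- The threshold of level `j`: `0, 1, 2, 4, 8, …`. -/
def tau (j : ℕ) : ℕ := 2 ^ j / 2

open Classical in
/-- The points of the band below the cluster with representative `q` of level `j`: the
representatives of its subclusters of level `j - k`. -/
noncomputable def bandU (n : ℕ) (d : ℕ → ℕ → ℕ) (T : List ℕ) (k j q : ℕ) : List ℕ :=
  (List.range n).filter fun v => decide (rp n d T (tau (j - k)) v = v ∧ rp n d T (tau j) v = q)

open Classical in
/-- The terminals of the band. -/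
noncomputable def bandR (n : ℕ) (d : ℕ → ℕ → ℕ) (T : List ℕ) (k j q : ℕ) : List ℕ :=
  (bandU n d T k j q).filter fun x => decide (x ∈ T)

open Classical in
/-- The representatives of level `j`. -/
noncomputable def reps (n : ℕ) (d : ℕ → ℕ → ℕ) (T : List ℕ) (j : ℕ) : List ℕ :=
  (List.range n).filter fun q => decide (rp n d T (tau j) q = q)

/-- The union of the solutions of all bands below level `j`. -/
noncomputable def band (n : ℕ) (d : ℕ → ℕ → ℕ) (T : List ℕ) (tsp : Bool) (L s k j : ℕ) :
    List Edge :=
  (reps n d T j).flatMap fun q => solve n d tsp L s (bandU n d T k j q) (bandR n d T k j q) [q]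

/-- Two copies of the edge from every terminal to its representative at distance `0`. -/
noncomputable def zeros (n : ℕ) (d : ℕ → ℕ → ℕ) (T : List ℕ) : List Edge :=
  T.flatMap fun v => [(v, rp n d T 0 v), (v, rp n d T 0 v)]

open Classical in
/-- The levels used with offset `i`. -/
noncomputable def levels (k J i : ℕ) : List ℕ :=
  (List.range (J + k + 1)).filter fun j => decide (1 ≤ j ∧ j % k = i)

/-- The solution for the offset `i`. -/
noncomputable def total (n : ℕ) (d : ℕ → ℕ → ℕ) (T : List ℕ) (tsp : Bool) (L s k J i : ℕ) :
    List Edge :=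
  zeros n d T ++ (levels k J i).flatMap fun j => band n d T tsp L s k j

/-- The approximation scheme for the metric. -/
noncomputable def ptas (n : ℕ) (d : ℕ → ℕ → ℕ) (T : List ℕ) (tsp : Bool) (L s k J : ℕ) :
    List Edge :=
  pick d ((List.range k).map fun i => total n d T tsp L s k J i)

/-- The map of the band below the cluster `q` of level `j`. -/
noncomputable def phi (n : ℕ) (d : ℕ → ℕ → ℕ) (T : List ℕ) (k j q v : ℕ) : ℕ :=
  if rp n d T (tau j) v = q then rp n d T (tau (j - k)) v else q

/-- All terminals are connected to each other; for the travelling salesman problem all degrees are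
even. -/
def AllGood (tsp : Bool) (F : List Edge) (T : List ℕ) : Prop :=
  (∀ t ∈ T, ∀ t' ∈ T, Relation.ReflTransGen (adj F) t t') ∧
    (tsp = true → ∀ v, Even ((ends F).count v))

end Pool.Agent.H703
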