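import Pool.Agent.H703.GraphA
import Pool.Agent.H703.Ptas

/-!
# From weighted graphs to metrics on natural numbers

Proofs written by helper341 from the plan of helper703.
-/

set_option autoImplicit false

namespace Pool.Agent.H703

variable {V : Type}

namespace WGraph

variable {n : ℕ} (X : WGraph n)

end WGraph

variable {n : ℕ}

/-! ### Auxiliary lemmas -/

theorem WGraph.n_pos (X : WGraph n) : 0 < n := by
  have := X.connected.nonempty
  exact Fin.pos_iff_nonempty.2 inferInstance

theorem len_nil (X : WGraph n) (u : Fin n) : X.len (SimpleGraph.Walk.nil : X.graph.Walk u u) = 0 := by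
  unfold WGraph.len
  rw [SimpleGraph.Walk.darts_nil, List.map_nil, List.sum_nil]

theorem len_cons (X : WGraph n) {u v w : Fin n} (h : X.graph.Adj u v) (p : X.graph.Walk v w) :
    X.len (SimpleGraph.Walk.cons h p) = X.weight u v + X.len p := by
  unfold WGraph.len
  rw [SimpleGraph.Walk.darts_cons, List.map_cons, List.sum_cons]

theorem len_append (X : WGraph n) {u v w : Fin n} (p : X.graph.Walk u v) (q : X.graph.Walk v w) :
    X.len (p.append q) = X.len p + X.len q := by
  unfold WGraph.len
  rw [SimpleGraph.Walk.darts_append, List.map_append, List.sum_append]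

theorem len_reverse (X : WGraph n) {u v : Fin n} (p : X.graph.Walk u v) :
    X.len p.reverse = X.len p := by
  induction p with
  | nil => rfl
  | cons h p ih =>
    rw [SimpleGraph.Walk.reverse_cons, len_append, ih, len_cons, len_cons, len_nil, X.symm]
    ring

theorem weight_le_len (X : WGraph n) {u v : Fin n} (p : X.graph.Walk u v) :
    ∀ e ∈ p.darts, X.weight e.fst e.snd ≤ X.len p := by
  induction p with
  | nil =>
    intro e he
    rw [SimpleGraph.Walk.darts_nil] at he
    exact absurd he List.not_mem_nil
  | cons h p ih =>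
    intro e he
    rw [SimpleGraph.Walk.darts_cons, List.mem_cons] at he
    rw [len_cons]
    rcases he with rfl | he
    · have := len_nonneg X p
      simpa using this
    · have := ih e he
      have h2 := X.nonneg
      exact this.trans (le_add_of_nonneg_left (h2 _ _))

theorem len_take_drop (X : WGraph n) {u v x : Fin n} (p : X.graph.Walk u v) (h : x ∈ p.support) :
    X.len (p.takeUntil x h) + X.len (p.dropUntil x h) = X.len p := by
  rw [← len_append, SimpleGraph.Walk.take_spec]

theorem len_bypass (X : WGraph n) {u v : Fin n} (p : X.graph.Walk u v) :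
    X.len p.bypass ≤ X.len p := by
  induction p with
  | nil => exact le_rfl
  | cons h p ih =>
    rename_i a b c
    rw [SimpleGraph.Walk.bypass, len_cons]
    have h3 := X.nonneg a b
    split_ifs with hs
    · have h1 := len_take_drop X p.bypass hs
      have h2 := len_nonneg X (p.bypass.takeUntil _ hs)
      linarith
    · rw [len_cons]
      linarith

/-- shortest walks -/
theorem exists_min (X : WGraph n) {tab : List (List (List ℕ))} (ht : IsTable (clear X.code) tab)
    (u v : Fin n) : ∃ p : X.graph.Walk u v, X.dist u v = X.len p := by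
  obtain ⟨p, -, -, h, -⟩ := table_walk X ht u v
  exact ⟨p, h⟩

theorem dist_self' (X : WGraph n) {tab : List (List (List ℕ))} (ht : IsTable (clear X.code) tab)
    (u : Fin n) : X.dist u u = 0 := by
  apply le_antisymm
  · have := dist_le_len X (SimpleGraph.Walk.nil : X.graph.Walk u u)
    rwa [len_nil, Rat.cast_zero] at this
  · obtain ⟨p, hp⟩ := exists_min X ht u u
    rw [hp]
    exact_mod_cast len_nonneg X p

theorem dist_symm_le (X : WGraph n) {tab : List (List (List ℕ))} (ht : IsTable (clear X.code) tab)
    (u v : Fin n) : X.dist u v ≤ X.dist v u := by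
  obtain ⟨p, hp⟩ := exists_min X ht v u
  rw [hp, ← len_reverse]
  exact dist_le_len X _

theorem dist_symm' (X : WGraph n) {tab : List (List (List ℕ))} (ht : IsTable (clear X.code) tab)
    (u v : Fin n) : X.dist u v = X.dist v u :=
  le_antisymm (dist_symm_le X ht u v) (dist_symm_le X ht v u)

theorem dist_tri' (X : WGraph n) {tab : List (List (List ℕ))} (ht : IsTable (clear X.code) tab)
    (u v w : Fin n) : X.dist u w ≤ X.dist u v + X.dist v w := by
  obtain ⟨p, hp⟩ := exists_min X ht u v
  obtain ⟨q, hq⟩ := exists_min X ht v w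
  rw [hp, hq]
  have := dist_le_len X (p.append q)
  rw [len_append] at this
  exact_mod_cast this

/-- cutting down the index -/
def cut (X : WGraph n) (u : ℕ) : Fin n := ⟨min u (n - 1), by have := X.n_pos; omega⟩

theorem tdist_cut (X : WGraph n) (tab : List (List (List ℕ))) (u v : ℕ) :
    tdist (clear X.code) tab u v = tdist (clear X.code) tab (cut X u) (cut X v) := by
  have h1 : ∀ u : ℕ, min ((cut X u : Fin n) : ℕ) (n - 1) = min u (n - 1) := by
    intro u
    change min (min u (n - 1)) (n - 1) = min u (n - 1)
    omega
  unfold tdist tget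
  rw [length_clear, h1, h1]

theorem tdist_real (X : WGraph n) {tab : List (List (List ℕ))} (ht : IsTable (clear X.code) tab)
    (u v : ℕ) : (tdist (clear X.code) tab u v : ℝ) = comden X.code * X.dist (cut X u) (cut X v) := by
  rw [tdist_cut, tdist_eq X ht]

theorem cut_of_lt (X : WGraph n) {u : ℕ} (hu : u < n) : cut X u = ⟨u, hu⟩ := by
  unfold cut
  apply Fin.ext
  change min u (n - 1) = u
  omega

/-- the highway dimension is attained -/
theorem highway_mem (X : WGraph n) (r : ℝ) (hr : 0 < r) : ∃ S : Finset (Fin n), X.IsCover r S ∧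
    X.IsSparse X.highwayDim r S := by
  classical
  have hne : {h | ∀ r : ℝ, 0 < r → ∃ S : Finset (Fin n), X.IsCover r S ∧ X.IsSparse h r S}.Nonempty := by
    refine ⟨n, fun r _ => ⟨Finset.univ, ?_, ?_⟩⟩
    · intro u v p _ _ _
      exact ⟨u, Finset.mem_univ _, p.start_mem_support⟩
    · intro v
      refine (Finset.card_le_univ _).trans ?_
      rw [Fintype.card_fin]
  exact Nat.sInf_mem hne r hr

/-
PROOF IN WORDS.  `D = comden X.code`, `N = clear X.code`.
`nmet`: from `tdist_eq` (distances of a connected graph form a pseudometric: reverse and append walks); indices are cut down to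
`{0, …, n-1}` by `tget`, so the axioms hold for all natural numbers (`n ≥ 1` as the graph is connected).
`hc_of_highwayDim`: the set in the definition of `highwayDim` is not empty (`h = n`, `S = univ`) and upward closed, so for `r > 0` there is
a locally `h`-sparse cover `S'` for the scale `r / D`; take `S = S'.map val`.  For `u, w < n` with `r < d u w ≤ 2 r` take a shortest path (a
walk of minimal length, made a path by `Walk.bypass`, which does not increase the length), it has a vertex `x ∈ S'`; splitting
the path at `x` (`takeUntil`, `dropUntil`) gives `d u x + d x w ≤ d u w`.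
`conf_of_confined`: a chain of hops `c_i → c_{i+1}` with `tdist ≤ t`: replace each hop by a shortest walk, all its edges have weight at most
`t / D`; concatenate; so `X.dist u w ≤ C * (t / D)`.
-/

theorem nmet (X : WGraph n) {tab : List (List (List ℕ))} (ht : IsTable (clear X.code) tab) :
    NMet (tdist (clear X.code) tab) := by
  constructor
  · intro x
    have h : (tdist (clear X.code) tab x x : ℝ) = 0 := by
      rw [tdist_real X ht, dist_self' X ht, mul_zero]
    exact_mod_cast h
  · intro x y
    have h : (tdist (clear X.code) tab x y : ℝ) = tdist (clear X.code) tab y x := by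
      rw [tdist_real X ht, tdist_real X ht, dist_symm' X ht]
    exact_mod_cast h
  · intro x y z
    have h : (tdist (clear X.code) tab x z : ℝ) ≤
        tdist (clear X.code) tab x y + tdist (clear X.code) tab y z := by
      rw [tdist_real X ht, tdist_real X ht, tdist_real X ht, ← mul_add]
      exact mul_le_mul_of_nonneg_left (dist_tri' X ht _ _ _) (Nat.cast_nonneg _)
    exact_mod_cast h

theorem hc_of_highwayDim (X : WGraph n) {tab : List (List (List ℕ))}
    (ht : IsTable (clear X.code) tab) {h : ℕ} (hh : X.highwayDim ≤ h) :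
    HC h (dR (tdist (clear X.code) tab)) {x | x < n} := by
  classical
  intro r hr
  have hD : (0 : ℝ) < comden X.code := by exact_mod_cast comden_pos X
  obtain ⟨S, hcov, hsp⟩ := highway_mem X (r / comden X.code) (div_pos hr hD)
  refine ⟨S.map Fin.valEmbedding, ?_, ?_, ?_⟩
  · intro x hx
    rw [Finset.mem_map] at hx
    obtain ⟨y, -, rfl⟩ := hx
    exact y.2
  · intro v hv T hTS hT
    have h1 : T.card ≤ (S.filter fun x => X.dist ⟨v, hv⟩ x ≤ 2 * (r / comden X.code)).card := by
      rw [← Finset.card_map (s := S.filter fun x => X.dist ⟨v, hv⟩ x ≤ 2 * (r / comden X.code))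
        Fin.valEmbedding]
      apply Finset.card_le_card
      intro x hx
      have h2 := hTS hx
      rw [Finset.mem_map] at h2
      obtain ⟨y, hy, rfl⟩ := h2
      rw [Finset.mem_map]
      refine ⟨y, ?_, rfl⟩
      rw [Finset.mem_filter]
      refine ⟨hy, ?_⟩
      have h3 : (tdist (clear X.code) tab v (y : ℕ) : ℝ) ≤ 2 * r := hT _ hx
      rw [tdist_real X ht, cut_of_lt X hv, cut_of_lt X y.2] at h3
      rw [← mul_div_assoc, le_div_iff₀ hD]
      calc _ = _ := mul_comm _ _
        _ ≤ _ := h3
    have h2 := hsp ⟨v, hv⟩
    refine h1.trans ?_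
    refine le_trans ?_ hh
    convert h2
  · intro u hu w hw h1 h2
    change u < n at hu
    change w < n at hw
    have hreal : ∀ (a b : ℕ) (ha : a < n) (hb : b < n),
        dR (tdist (clear X.code) tab) a b = comden X.code * X.dist ⟨a, ha⟩ ⟨b, hb⟩ := by
      intro a b ha hb
      unfold dR
      rw [tdist_real X ht, cut_of_lt X ha, cut_of_lt X hb]
    rw [hreal u w hu hw] at h1 h2
    obtain ⟨p0, hp0⟩ := exists_min X ht ⟨u, hu⟩ ⟨w, hw⟩
    set p := p0.bypass with hp
    have h3 : X.dist ⟨u, hu⟩ ⟨w, hw⟩ = X.len p := by
      apply le_antisymm (dist_le_len X p)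
      rw [hp0]
      exact_mod_cast len_bypass X p0
    have hshort : X.IsShortest p := by
      refine ⟨SimpleGraph.Walk.bypass_isPath _, ?_⟩
      intro q
      have h4 := dist_le_len X q
      rw [h3] at h4
      exact_mod_cast h4
    rw [h3] at h1 h2
    obtain ⟨x, hxS, hx⟩ := hcov _ _ p hshort (by
      rw [div_lt_iff₀ hD]
      calc r < _ := h1
        _ = _ := mul_comm _ _) (by
      rw [← mul_div_assoc, le_div_iff₀ hD]
      calc _ = _ := mul_comm _ _
        _ ≤ _ := h2)
    refine ⟨x, ?_, ?_⟩
    · rw [Finset.mem_map]
      exact ⟨x, hxS, rfl⟩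
    · rw [hreal u x hu x.2, hreal x w x.2 hw, hreal u w hu hw, ← mul_add]
      congr 1
      apply le_antisymm
      · have h5 := dist_le_len X (p.takeUntil x hx)
        have h6 := dist_le_len X (p.dropUntil x hx)
        have h7 := len_take_drop X p hx
        have h8 : (X.len (p.takeUntil x hx) : ℝ) + X.len (p.dropUntil x hx) = X.len p := by
          exact_mod_cast h7
        rw [h3]
        change X.dist ⟨u, hu⟩ x + X.dist x ⟨w, hw⟩ ≤ _
        linarith
      · exact dist_tri' X ht _ _ _

theorem conf_of_confined (X : WGraph n) {tab : List (List (List ℕ))}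
    (ht : IsTable (clear X.code) tab) {C : ℝ} (hC : X.Confined C) (t : ℕ) {u w : ℕ} (hu : u < n)
    (hw : Relation.ReflTransGen (fun a b => b < n ∧ tdist (clear X.code) tab a b ≤ t) u w) :
    (tdist (clear X.code) tab u w : ℝ) ≤ C * t := by
  have hD : (0 : ℝ) < comden X.code := by exact_mod_cast comden_pos X
  have key : ∃ (hw : w < n) (p : X.graph.Walk ⟨u, hu⟩ ⟨w, hw⟩),
      ∀ e ∈ p.darts, (X.weight e.fst e.snd : ℝ) ≤ t / comden X.code := by
    induction hw with
    | refl =>
      refine ⟨hu, SimpleGraph.Walk.nil, ?_⟩
      intro e he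
      rw [SimpleGraph.Walk.darts_nil] at he
      exact absurd he List.not_mem_nil
    | @tail b c _ hbc ih =>
      obtain ⟨hb, p, hp⟩ := ih
      obtain ⟨hc, hd⟩ := hbc
      obtain ⟨q, hq⟩ := exists_min X ht ⟨b, hb⟩ ⟨c, hc⟩
      refine ⟨hc, p.append q, ?_⟩
      intro e he
      rw [SimpleGraph.Walk.darts_append, List.mem_append] at he
      rcases he with he | he
      · exact hp e he
      · have h1 : (X.weight e.fst e.snd : ℝ) ≤ X.len q := by
          exact_mod_cast weight_le_len X q e he
        have h2 : (tdist (clear X.code) tab b c : ℝ) ≤ t := by exact_mod_cast hd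
        rw [tdist_real X ht, cut_of_lt X hb, cut_of_lt X hc, hq] at h2
        rw [le_div_iff₀ hD]
        calc (X.weight e.fst e.snd : ℝ) * comden X.code ≤ X.len q * comden X.code :=
              mul_le_mul_of_nonneg_right h1 hD.le
          _ = _ := mul_comm _ _
          _ ≤ _ := h2
  obtain ⟨hw', p, hp⟩ := key
  have h1 := hC (t / comden X.code) _ _ p (by positivity) hp
  rw [tdist_real X ht, cut_of_lt X hu, cut_of_lt X hw']
  calc (comden X.code : ℝ) * X.dist ⟨u, hu⟩ ⟨w, hw'⟩ ≤ comden X.code * (C * (t / comden X.code)) :=
        mul_le_mul_of_nonneg_left h1 hD.le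
    _ = C * t := by field_simp

end Pool.Agent.H703
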