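import Pool.Agent.H703.TableDefs
import Pool.Agent.H601R2.PP
import Pool.Agent.NPC.Dec

/-!
# All shortest walks in polynomial time

Proofs written by helper573 from the plan of helper703.
-/

set_option autoImplicit false

namespace Pool.Agent.H703.TableAux

/-! Shortest walks in polynomial time (Bellman-Ford with lists of walks). -/

open Pool.Agent.NPC

/-! ### Lists and walks -/

/-- The consecutive pairs. -/
def zt (l : List ℕ) : List (ℕ × ℕ) := l.zip l.tail

theorem zt_cons (a b : ℕ) (l : List ℕ) : zt (a :: b :: l) = (a, b) :: zt (b :: l) := rfl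

theorem zt_split : ∀ (a : List ℕ) (x : ℕ) (c : List ℕ),
    zt (a ++ x :: c) = zt (a ++ [x]) ++ zt (x :: c)
  | [], x, c => by simp [zt]
  | [y], x, c => by
    simp only [List.cons_append, List.nil_append]
    rw [zt_cons, zt_cons]
    simp [zt]
  | y :: z :: a, x, c => by
    have ih := zt_split (z :: a) x c
    simp only [List.cons_append] at ih ⊢
    rw [zt_cons, zt_cons, ih]
    rfl

theorem wsum_eq (d : ℕ → ℕ → ℕ) (l : List ℕ) : wsum d l = ((zt l).map fun e => d e.1 e.2).sum := rfl

theorem wsum_split (d : ℕ → ℕ → ℕ) (a : List ℕ) (x : ℕ) (c : List ℕ) :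
    wsum d (a ++ x :: c) = wsum d (a ++ [x]) + wsum d (x :: c) := by
  rw [wsum_eq, zt_split, List.map_append, List.sum_append]
  rfl

theorem wsum_cons (d : ℕ → ℕ → ℕ) (a b : ℕ) (l : List ℕ) :
    wsum d (a :: b :: l) = d a b + wsum d (b :: l) := by
  rw [wsum_eq, zt_cons, List.map_cons, List.sum_cons]
  rfl

theorem dup_split : ∀ l : List ℕ, ¬ l.Nodup → ∃ (a : List ℕ) (x : ℕ) (b c : List ℕ),
    l = a ++ x :: (b ++ x :: c)
  | [], h => by simp at h
  | y :: l, h => by
    by_cases hy : y ∈ l
    · obtain ⟨b, c, rfl⟩ := List.append_of_mem hy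
      exact ⟨[], y, b, c, rfl⟩
    · have h2 : ¬ l.Nodup := fun h3 => h (List.nodup_cons.2 ⟨hy, h3⟩)
      obtain ⟨a, x, b, c, rfl⟩ := dup_split l h2
      exact ⟨y :: a, x, b, c, rfl⟩

theorem walk_cut {N : List (List (Option ℕ))} {u v x : ℕ} {a b c : List ℕ}
    (h : IsWalk N u v (a ++ x :: (b ++ x :: c))) : IsWalk N u v (a ++ x :: c) := by
  refine ⟨?_, ?_, ?_, ?_⟩
  · have := h.head
    cases a <;> simpa using this
  · have := h.last
    simp only [List.getLast?_append, List.getLast?_cons] at this ⊢
    simpa using this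
  · intro e he
    change e ∈ zt (a ++ x :: c) at he
    rw [zt_split] at he
    apply h.chain
    change e ∈ zt (a ++ x :: (b ++ x :: c))
    rw [zt_split]
    rcases List.mem_append.1 he with h1 | h1
    · exact List.mem_append_left _ h1
    · apply List.mem_append_right
      have h2 := zt_split (x :: b) x c
      simp only [List.cons_append] at h2
      rw [h2]
      exact List.mem_append_right _ h1
  · intro y hy
    apply h.lt
    simp only [List.mem_append, List.mem_cons] at hy ⊢
    tauto

theorem wsum_cut (d : ℕ → ℕ → ℕ) (x : ℕ) (a b c : List ℕ) :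
    wsum d (a ++ x :: c) ≤ wsum d (a ++ x :: (b ++ x :: c)) := by
  rw [wsum_split, wsum_split d a x (b ++ x :: c)]
  have h2 := wsum_split d (x :: b) x c
  simp only [List.cons_append] at h2
  rw [h2]
  omega

theorem walk_short {N : List (List (Option ℕ))} {u v : ℕ} : ∀ (k : ℕ) (l : List ℕ), l.length ≤ k →
    IsWalk N u v l → ∃ l', IsWalk N u v l' ∧ l'.length ≤ N.length ∧
      wsum (wt N) l' ≤ wsum (wt N) l := by
  intro k
  induction k with
  | zero =>
    intro l hl hw
    exact ⟨l, hw, by omega, le_rfl⟩
  | succ k ih =>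
    intro l hl hw
    by_cases hn : l.Nodup
    · refine ⟨l, hw, ?_, le_rfl⟩
      have h1 : l ⊆ List.range N.length := fun x hx => List.mem_range.2 (hw.lt x hx)
      have h2 := (List.subperm_of_subset hn h1).length_le
      simpa using h2
    · obtain ⟨a, x, b, c, rfl⟩ := dup_split l hn
      have h1 : (a ++ x :: c).length ≤ k := by
        simp only [List.length_append, List.length_cons] at hl ⊢
        omega
      obtain ⟨l', h2, h3, h4⟩ := ih _ h1 (walk_cut hw)
      exact ⟨l', h2, h3, h4.trans (wsum_cut _ _ _ _ _)⟩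

/-! ### The algorithm -/

/-- A list of least weight, as a list with at most one member. -/
def bestw (N : List (List (Option ℕ))) (l : List (List ℕ)) : List (List ℕ) :=
  (l.filter fun p => decide (∀ q ∈ l, wsum (wt N) p ≤ wsum (wt N) q)).take 1

theorem bestw_length (N : List (List (Option ℕ))) (l : List (List ℕ)) :
    (bestw N l).length ≤ 1 := by
  unfold bestw
  simp

theorem bestw_mem {N : List (List (Option ℕ))} {l : List (List ℕ)} {p : List ℕ}
    (h : p ∈ bestw N l) : p ∈ l := (List.mem_filter.1 (List.mem_of_mem_take h)).1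

theorem exists_least (w : List ℕ → ℕ) : ∀ l : List (List ℕ), l ≠ [] → ∃ p ∈ l, ∀ q ∈ l, w p ≤ w q
  | [], h => absurd rfl h
  | [p], _ => ⟨p, by simp, by simp⟩
  | p :: q :: l, _ => by
    obtain ⟨r, hr, hr2⟩ := exists_least w (q :: l) (by simp)
    rcases Nat.le_total (w p) (w r) with h | h
    · refine ⟨p, List.mem_cons_self, fun s hs => ?_⟩
      rcases List.mem_cons.1 hs with rfl | hs
      · exact le_rfl
      · exact h.trans (hr2 s hs)
    · refine ⟨r, List.mem_cons_of_mem _ hr, fun s hs => ?_⟩
      rcases List.mem_cons.1 hs with rfl | hs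
      · exact h
      · exact hr2 s hs

theorem bestw_exists {N : List (List (Option ℕ))} {l : List (List ℕ)} {q : List ℕ} (h : q ∈ l) :
    ∃ p ∈ bestw N l, wsum (wt N) p ≤ wsum (wt N) q := by
  obtain ⟨r, hr, hr2⟩ := exists_least (wsum (wt N)) l (by rintro rfl; simp at h)
  have h1 : r ∈ l.filter fun p => decide (∀ q ∈ l, wsum (wt N) p ≤ wsum (wt N) q) :=
    List.mem_filter.2 ⟨hr, by simpa using hr2⟩
  unfold bestw
  cases hl : l.filter fun p => decide (∀ q ∈ l, wsum (wt N) p ≤ wsum (wt N) q) with
  | nil => rw [hl] at h1; simp at h1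
  | cons p t =>
    have h2 : p ∈ l.filter fun p => decide (∀ q ∈ l, wsum (wt N) p ≤ wsum (wt N) q) := by
      rw [hl]; exact List.mem_cons_self
    have h3 := (List.mem_filter.1 h2).2
    rw [decide_eq_true_iff] at h3
    exact ⟨p, by simp, h3 q h⟩

/-- The candidates for the walks starting at `u`. -/
def candw (N : List (List (Option ℕ))) (cur : List (List (List ℕ))) (u : ℕ) : List (List ℕ) :=
  cur.getD u [] ++ (List.range N.length).flatMap fun x =>
    if (ent N u x).isSome = true then (cur.getD x []).map (fun p => u :: p) else []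

/-- One round. -/
def stepw (N : List (List (Option ℕ))) (cur : List (List (List ℕ))) : List (List (List ℕ)) :=
  (List.range N.length).map fun u => bestw N (candw N cur u)

/-- The initial state. -/
def initw (N : List (List (Option ℕ))) (v : ℕ) : List (List (List ℕ)) :=
  (List.range N.length).map fun u => if u = v then [[v]] else []

/-- The state after `i` rounds. -/
def curw (N : List (List (Option ℕ))) (v i : ℕ) : List (List (List ℕ)) :=
  (stepw N)^[i] (initw N v)

/-- The table. -/
def tabw (N : List (List (Option ℕ))) : List (List (List ℕ)) :=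
  (List.range N.length).map fun u => (List.range N.length).map fun v =>
    ((curw N v N.length).getD u []).flatten

theorem getD_map_range {β : Type} (f : ℕ → β) (n u : ℕ) (d : β) :
    ((List.range n).map f).getD u d = if u < n then f u else d := by
  rw [List.getD_eq_getElem?_getD]
  split_ifs with h
  · simp [h]
  · simp [h]

theorem curw_succ (N : List (List (Option ℕ))) (v i : ℕ) :
    curw N v (i + 1) = stepw N (curw N v i) := Function.iterate_succ_apply' _ _ _

theorem candw_mem {N : List (List (Option ℕ))} {cur : List (List (List ℕ))} {u : ℕ} {p : List ℕ} :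
    p ∈ candw N cur u ↔ p ∈ cur.getD u [] ∨ ∃ x < N.length, (ent N u x).isSome = true ∧
      ∃ q ∈ cur.getD x [], p = u :: q := by
  unfold candw
  rw [List.mem_append, List.mem_flatMap]
  apply or_congr_right
  constructor
  · rintro ⟨x, hx, h⟩
    split_ifs at h with h1
    · obtain ⟨q, hq, rfl⟩ := List.mem_map.1 h
      exact ⟨x, List.mem_range.1 hx, h1, q, hq, rfl⟩
    · simp at h
  · rintro ⟨x, hx, h1, q, hq, rfl⟩
    refine ⟨x, List.mem_range.2 hx, ?_⟩
    rw [if_pos h1]
    exact List.mem_map.2 ⟨q, hq, rfl⟩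

/-- The shape of the states. -/
theorem curw_shape (N : List (List (Option ℕ))) (v : ℕ) : ∀ i : ℕ,
    (curw N v i).length = N.length ∧ ∀ e ∈ curw N v i, e.length ≤ 1 ∧
      ∀ p ∈ e, p.length ≤ i + 1 ∧ ∀ x ∈ p, x < N.length := by
  intro i
  induction i with
  | zero =>
    refine ⟨by simp [curw, initw], ?_⟩
    intro e he
    change e ∈ initw N v at he
    unfold initw at he
    obtain ⟨u, hu, rfl⟩ := List.mem_map.1 he
    have hu' := List.mem_range.1 hu
    by_cases huv : u = v
    · subst huv
      simp [hu']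
    · simp [huv]
  | succ i ih =>
    rw [curw_succ]
    refine ⟨by simp [stepw], ?_⟩
    intro e he
    unfold stepw at he
    obtain ⟨u, hu, rfl⟩ := List.mem_map.1 he
    have hu' := List.mem_range.1 hu
    refine ⟨bestw_length _ _, fun p hp => ?_⟩
    have hg : ∀ x : ℕ, ∀ q ∈ (curw N v i).getD x [], q.length ≤ i + 1 ∧ ∀ y ∈ q, y < N.length := by
      intro x q hq
      rw [List.getD_eq_getElem?_getD] at hq
      cases hx : (curw N v i)[x]? with
      | none => rw [hx] at hq; simp at hq
      | some e =>
        rw [hx] at hq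
        exact (ih.2 e (List.mem_of_getElem? hx)).2 q (by simpa using hq)
    rcases candw_mem.1 (bestw_mem hp) with h | ⟨x, hx, _, q, hq, rfl⟩
    · have := hg u p h
      exact ⟨by omega, this.2⟩
    · have := hg x q hq
      refine ⟨by simp; omega, fun y hy => ?_⟩
      rcases List.mem_cons.1 hy with rfl | hy
      · exact hu'
      · exact this.2 y hy

theorem isWalk_single {N : List (List (Option ℕ))} {v : ℕ} (hv : v < N.length) :
    IsWalk N v v [v] := ⟨rfl, rfl, by simp, by simpa using hv⟩

theorem isWalk_cons {N : List (List (Option ℕ))} {u x v : ℕ} {p : List ℕ} (hu : u < N.length)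
    (hx : (ent N u x).isSome = true) (hp : IsWalk N x v p) : IsWalk N u v (u :: p) := by
  obtain ⟨q, rfl⟩ : ∃ q, p = x :: q := by
    have := hp.head
    cases p with
    | nil => simp at this
    | cons y q => simp at this; exact ⟨q, by rw [this]⟩
  refine ⟨rfl, ?_, ?_, ?_⟩
  · have := hp.last
    simpa using this
  · intro e he
    change e ∈ zt (u :: x :: q) at he
    rw [zt_cons] at he
    rcases List.mem_cons.1 he with rfl | he
    · exact hx
    · exact hp.chain e he
  · intro y hy
    rcases List.mem_cons.1 hy with rfl | hy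
    · exact hu
    · exact hp.lt y hy

/-- All members of the states are walks. -/
theorem curw_sound {N : List (List (Option ℕ))} {v : ℕ} : ∀ i : ℕ,
    ∀ u < N.length, ∀ p ∈ (curw N v i).getD u [], IsWalk N u v p := by
  intro i
  induction i with
  | zero =>
    intro u hu p hp
    change p ∈ (initw N v).getD u [] at hp
    unfold initw at hp
    rw [getD_map_range, if_pos hu] at hp
    split_ifs at hp with h
    · subst h
      rw [List.mem_singleton.1 hp]
      exact isWalk_single hu
    · simp at hp
  | succ i ih =>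
    intro u hu p hp
    rw [curw_succ] at hp
    unfold stepw at hp
    rw [getD_map_range, if_pos hu] at hp
    rcases candw_mem.1 (bestw_mem hp) with h | ⟨x, hx, h1, q, hq, rfl⟩
    · exact ih u hu p h
    · exact isWalk_cons hu h1 (ih x hx q hq)

/-- The states are optimal. -/
theorem curw_opt {N : List (List (Option ℕ))} {v : ℕ} : ∀ i : ℕ,
    ∀ u < N.length, ∀ l : List ℕ, IsWalk N u v l → l.length ≤ i + 1 →
      ∃ p ∈ (curw N v i).getD u [], wsum (wt N) p ≤ wsum (wt N) l := by
  intro i
  induction i with
  | zero =>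
    intro u hu l hl hlen
    obtain ⟨rfl, h⟩ : u = v ∧ l = [v] := by
      have h1 := hl.head
      have h2 := hl.last
      match l with
      | [] => simp at h1
      | [y] =>
        simp at h1 h2
        exact ⟨by omega, by rw [h2]⟩
      | y :: z :: l => simp at hlen
    subst h
    refine ⟨[u], ?_, le_rfl⟩
    change [u] ∈ (initw N u).getD u []
    unfold initw
    rw [getD_map_range, if_pos hu, if_pos rfl]
    simp
  | succ i ih =>
    intro u hu l hl hlen
    rw [curw_succ]
    unfold stepw
    rw [getD_map_range, if_pos hu]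
    match l, hl, hlen with
    | [], hl, _ => have := hl.head; simp at this
    | [y], hl, hlen =>
      obtain ⟨p, hp, hp2⟩ := ih u hu [y] hl (by simp)
      obtain ⟨r, hr, hr2⟩ := bestw_exists (N := N) (candw_mem.2 (Or.inl hp) :
        p ∈ candw N (curw N v i) u)
      exact ⟨r, hr, hr2.trans hp2⟩
    | y :: x :: l, hl, hlen =>
      have hy : y = u := by
        have := hl.head
        simpa using this
      subst hy
      have hx : x < N.length := hl.lt x (by simp)
      have hs : (ent N y x).isSome = true := hl.chain (y, x) (by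
        change (y, x) ∈ zt (y :: x :: l)
        rw [zt_cons]; exact List.mem_cons_self)
      have hw : IsWalk N x v (x :: l) := by
        refine ⟨rfl, ?_, ?_, ?_⟩
        · have := hl.last
          simpa using this
        · intro e he
          apply hl.chain
          change e ∈ zt (y :: x :: l)
          rw [zt_cons]
          exact List.mem_cons_of_mem _ he
        · intro z hz
          exact hl.lt z (List.mem_cons_of_mem _ hz)
      obtain ⟨p, hp, hp2⟩ := ih x hx (x :: l) hw (by simp at hlen ⊢; omega)
      have hpw := curw_sound i x hx p hp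
      obtain ⟨r, hr, hr2⟩ := bestw_exists (N := N) (candw_mem.2 (Or.inr ⟨x, hx, hs, p, hp, rfl⟩) :
        y :: p ∈ candw N (curw N v i) y)
      refine ⟨r, hr, hr2.trans ?_⟩
      obtain ⟨q, rfl⟩ : ∃ q, p = x :: q := by
        have := hpw.head
        cases p with
        | nil => simp at this
        | cons y q => simp at this; exact ⟨q, by rw [this]⟩
      rw [wsum_cons, wsum_cons]
      omega

theorem tabw_correct (N : List (List (Option ℕ))) : IsTable N (tabw N) := by
  rintro u v hu hv ⟨l₀, hl₀⟩
  have hget : tget (tabw N) N.length u v = ((curw N v N.length).getD u []).flatten := by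
    unfold tget tabw
    rw [min_eq_left (by omega), min_eq_left (by omega), getD_map_range, if_pos hu, getD_map_range,
      if_pos hv]
  rw [hget]
  have hlen : ((curw N v N.length).getD u []).length ≤ 1 := by
    have h1 := curw_shape N v N.length
    rw [List.getD_eq_getElem?_getD]
    cases hx : (curw N v N.length)[u]? with
    | none => simp
    | some e => simpa using (h1.2 e (List.mem_of_getElem? hx)).1
  have key : ∀ l, IsWalk N u v l → ∃ p, (curw N v N.length).getD u [] = [p] ∧
      wsum (wt N) p ≤ wsum (wt N) l := by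
    intro l hl
    obtain ⟨l', h1, h2, h3⟩ := walk_short l.length l le_rfl hl
    obtain ⟨p, hp, hp2⟩ := curw_opt N.length u hu l' h1 (by omega)
    refine ⟨p, ?_, hp2.trans h3⟩
    match h : (curw N v N.length).getD u [] with
    | [] => rw [h] at hp; simp at hp
    | [q] => rw [h] at hp; simp at hp; rw [hp]
    | q :: r :: t => rw [h] at hlen; simp at hlen
  obtain ⟨p, hp, _⟩ := key l₀ hl₀
  have hfl : ((curw N v N.length).getD u []).flatten = p := by rw [hp]; simp
  rw [hfl]
  refine ⟨curw_sound N.length u hu p (by rw [hp]; simp), fun l hl => ?_⟩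
  obtain ⟨q, hq, hq2⟩ := key l hl
  rw [hp] at hq
  simp at hq
  rwa [hq]

/-! ### Running time -/

section time

variable {α : Type} [TEnc α]

theorem poly_take1 {β : Type} [TEnc β] {l : α → List β} (hl : NPC.Poly l) :
    NPC.Poly (fun a => (l a).take 1) := by
  refine (NPC.Poly.listCases (g := fun _ => ([] : List β)) (h := fun _ b _ => [b]) hl
    (NPC.Poly.const _) (NPC.Poly.cons (NPC.Poly.fst (NPC.Poly.snd NPC.Poly.id))
      (NPC.Poly.const _))).congr fun a => ?_
  cases l a <;> simp

theorem poly_ent {N : α → List (List (Option ℕ))} {u v : α → ℕ} (hN : NPC.Poly N)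
    (hu : NPC.Poly u) (hv : NPC.Poly v) : NPC.Poly (fun a => ent (N a) (u a) (v a)) := by
  unfold ent
  exact NPC.Poly.getD (NPC.Poly.getD hN hu (NPC.Poly.const _)) hv (NPC.Poly.const _)

theorem poly_wt {N : α → List (List (Option ℕ))} {u v : α → ℕ} (hN : NPC.Poly N)
    (hu : NPC.Poly u) (hv : NPC.Poly v) : NPC.Poly (fun a => wt (N a) (u a) (v a)) := by
  unfold wt
  exact NPC.Poly.optGetD (poly_ent hN hu hv) (NPC.Poly.const _)

theorem poly_wsum {N : α → List (List (Option ℕ))} {l : α → List ℕ} (hN : NPC.Poly N)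
    (hl : NPC.Poly l) : NPC.Poly (fun a => wsum (wt (N a)) (l a)) := by
  unfold wsum
  refine NPC.Poly.sum (NPC.Poly.map (F := fun a (e : ℕ × ℕ) => wt (N a) e.1 e.2)
    (NPC.Poly.zip hl (NPC.Poly.tail hl)) ?_)
  exact poly_wt (hN.comp (NPC.Poly.fst NPC.Poly.id)) (NPC.Poly.fst (NPC.Poly.snd NPC.Poly.id))
    (NPC.Poly.snd (NPC.Poly.snd NPC.Poly.id))

theorem poly_bestw {N : α → List (List (Option ℕ))} {l : α → List (List ℕ)} (hN : NPC.Poly N)
    (hl : NPC.Poly l) : NPC.Poly (fun a => bestw (N a) (l a)) := by
  unfold bestw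
  refine poly_take1 (PP.filter (r := fun a p => ∀ q ∈ l a, wsum (wt (N a)) p ≤ wsum (wt (N a)) q)
    hl ?_)
  refine PP.ball (r := fun (p : α × List ℕ) q => wsum (wt (N p.1)) p.2 ≤ wsum (wt (N p.1)) q)
    (hl.comp (NPC.Poly.fst NPC.Poly.id)) ?_
  have q : NPC.Poly (fun p : (α × List ℕ) × List ℕ => p.1.1) :=
    NPC.Poly.fst (NPC.Poly.fst NPC.Poly.id)
  exact PP.le (poly_wsum (hN.comp q) (NPC.Poly.snd (NPC.Poly.fst NPC.Poly.id)))
    (poly_wsum (hN.comp q) (NPC.Poly.snd NPC.Poly.id))

theorem poly_candw {N : α → List (List (Option ℕ))} {cur : α → List (List (List ℕ))} {u : α → ℕ}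
    (hN : NPC.Poly N) (hc : NPC.Poly cur) (hu : NPC.Poly u) :
    NPC.Poly (fun a => candw (N a) (cur a) (u a)) := by
  unfold candw
  refine NPC.Poly.append (NPC.Poly.getD hc hu (NPC.Poly.const _))
    (NPC.Poly.flatMap (F := fun a x => if (ent (N a) (u a) x).isSome = true then
      ((cur a).getD x []).map (fun p => u a :: p) else []) (NPC.Poly.range_length hN) ?_)
  have q : NPC.Poly (fun p : α × ℕ => p.1) := NPC.Poly.fst NPC.Poly.id
  have q2 : NPC.Poly (fun p : α × ℕ => p.2) := NPC.Poly.snd NPC.Poly.id
  refine PP.ite (PP.bool (NPC.Poly.isSome (poly_ent (hN.comp q) (hu.comp q) q2))) ?_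
    (NPC.Poly.const _)
  refine NPC.Poly.map (F := fun (p : α × ℕ) (r : List ℕ) => u p.1 :: r)
    (NPC.Poly.getD (hc.comp q) q2 (NPC.Poly.const _)) ?_
  exact NPC.Poly.cons (hu.comp (NPC.Poly.fst (NPC.Poly.fst NPC.Poly.id)))
    (NPC.Poly.snd NPC.Poly.id)

theorem poly_stepw {N : α → List (List (Option ℕ))} {cur : α → List (List (List ℕ))}
    (hN : NPC.Poly N) (hc : NPC.Poly cur) : NPC.Poly (fun a => stepw (N a) (cur a)) := by
  unfold stepw
  refine NPC.Poly.map (F := fun a u => bestw (N a) (candw (N a) (cur a) u))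
    (NPC.Poly.range_length hN) ?_
  have q : NPC.Poly (fun p : α × ℕ => p.1) := NPC.Poly.fst NPC.Poly.id
  exact poly_bestw (hN.comp q) (poly_candw (hN.comp q) (hc.comp q) (NPC.Poly.snd NPC.Poly.id))

theorem poly_initw {N : α → List (List (Option ℕ))} {v : α → ℕ} (hN : NPC.Poly N)
    (hv : NPC.Poly v) : NPC.Poly (fun a => initw (N a) (v a)) := by
  unfold initw
  refine NPC.Poly.map (F := fun a u => if u = v a then [[v a]] else []) (NPC.Poly.range_length hN) ?_
  have q : NPC.Poly (fun p : α × ℕ => p.1) := NPC.Poly.fst NPC.Poly.id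
  exact PP.ite (PP.eq (NPC.Poly.snd NPC.Poly.id) (hv.comp q))
    (NPC.Poly.cons (NPC.Poly.cons (hv.comp q) (NPC.Poly.const _)) (NPC.Poly.const _))
    (NPC.Poly.const _)

theorem sz_curw (N : List (List (Option ℕ))) (v i : ℕ) (hi : i ≤ N.length) :
    sz (curw N v i) ≤ N.length * ((N.length + 1) * (4 * N.length + 2) + 4) + 1 := by
  obtain ⟨h1, h2⟩ := curw_shape N v i
  refine (sz_le_length_mul _ ((N.length + 1) * (4 * N.length + 2) + 3) ?_).trans ?_
  · intro e he
    obtain ⟨h3, h4⟩ := h2 e he
    refine (sz_le_length_mul _ ((N.length + 1) * (4 * N.length + 2) + 1) ?_).trans ?_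
    · intro p hp
      obtain ⟨h5, h6⟩ := h4 p hp
      refine (sz_le_length_mul _ (4 * N.length + 1) ?_).trans ?_
      · intro x hx
        have h7 := h6 x hx
        have h8 := sz_nat_le x
        have h9 : x.size ≤ x := Nat.size_le.2 Nat.lt_two_pow_self
        omega
      · have : p.length ≤ N.length + 1 := by omega
        exact Nat.add_le_add_right (Nat.mul_le_mul_right _ this) 1
    · have := Nat.mul_le_mul_right ((N.length + 1) * (4 * N.length + 2) + 1 + 1) h3
      omega
  · rw [h1]

theorem poly_curw {N : α → List (List (Option ℕ))} {v : α → ℕ} (hN : NPC.Poly N)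
    (hv : NPC.Poly v) : NPC.Poly (fun a => curw (N a) (v a) (N a).length) := by
  obtain ⟨q1, hq1⟩ := hN.sz_le
  refine NPC.Poly.iterLen (l := N) (s := fun a => initw (N a) (v a))
    (F := fun a cur => stepw (N a) cur) hN (poly_initw hN hv)
    (poly_stepw (hN.comp (NPC.Poly.fst NPC.Poly.id)) (NPC.Poly.snd NPC.Poly.id))
    (q1 * ((q1 + 1) * (4 * q1 + 2) + 4) + 1) ?_
  intro a k hk
  refine (sz_curw (N a) (v a) k hk).trans ?_
  have e1 : (N a).length ≤ q1.eval (sz a) := (length_lt_sz (N a)).le.trans (hq1 a)
  simp only [Polynomial.eval_add, Polynomial.eval_mul, Polynomial.eval_one,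
    Polynomial.eval_ofNat]
  gcongr

theorem poly_tabw : NPC.Poly tabw := by
  unfold tabw
  have hid : NPC.Poly (fun N : List (List (Option ℕ)) => N) := NPC.Poly.id
  refine NPC.Poly.map (F := fun (N : List (List (Option ℕ))) u => (List.range N.length).map fun v =>
    ((curw N v N.length).getD u []).flatten) (NPC.Poly.range_length hid) ?_
  refine NPC.Poly.map (F := fun (p : List (List (Option ℕ)) × ℕ) v =>
    ((curw p.1 v p.1.length).getD p.2 []).flatten)
    (NPC.Poly.range_length (NPC.Poly.fst NPC.Poly.id)) ?_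
  refine NPC.Poly.flatten (NPC.Poly.getD ?_ (NPC.Poly.snd (NPC.Poly.fst NPC.Poly.id))
    (NPC.Poly.const _))
  exact poly_curw (N := fun p : (List (List (Option ℕ)) × ℕ) × ℕ => p.1.1) (v := fun p => p.2)
    (NPC.Poly.fst (NPC.Poly.fst NPC.Poly.id)) (NPC.Poly.snd NPC.Poly.id)

end time

/-- tables of shortest walks can be computed in polynomial time. -/
theorem exists_table : ∃ f : List (List (Option ℕ)) → List (List (List ℕ)),
    NPC.Poly f ∧ ∀ N, IsTable N (f N) := by
  exact ⟨tabw, poly_tabw, tabw_correct⟩

end Pool.Agent.H703.TableAux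

namespace Pool.Agent.H703

/-- Tables of shortest walks can be computed in polynomial time. -/
theorem exists_table : ∃ f : List (List (Option ℕ)) → List (List (List ℕ)),
    NPC.Poly f ∧ ∀ N, IsTable N (f N) := TableAux.exists_table

end Pool.Agent.H703
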