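import Pool.Agent.H703.Time2

/-!
# The approximation scheme for the metric runs in polynomial time

Proofs written by helper209 from the plan of helper703.
-/

set_option autoImplicit false

namespace Pool.Agent.H703

variable {V : Type}

open Pool.Agent.NPC

variable {α : Type} [TEnc α]

/-! ### Proof of the target -/

theorem lift_d {γ : Type} [TEnc γ] {d : α → ℕ → ℕ → ℕ}
    (hd : NPC.Poly (fun p : α × ℕ × ℕ => d p.1 p.2.1 p.2.2)) {f : γ → α} (hf : NPC.Poly f) :
    NPC.Poly (fun p : γ × ℕ × ℕ => d (f p.1) p.2.1 p.2.2) :=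
  hd.comp (NPC.Poly.pair (hf.comp (NPC.Poly.fst NPC.Poly.id)) (NPC.Poly.snd NPC.Poly.id))

theorem poly_tau {j : α → ℕ} (hj : UPoly j) : NPC.Poly (fun a => tau (j a)) := by
  have h1 : NPC.Poly (fun a => List.replicate (j a) false) :=
    (NPC.Poly.map (F := fun _ _ => false) hj (NPC.Poly.const _)).congr fun a => by
      rw [List.map_replicate]
  have h2 : NPC.Poly (fun a => valB (List.replicate (j a) false ++ [true])) :=
    NPC.Poly.valBits (NPC.Poly.append h1 (NPC.Poly.const _))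
  have h3 : NPC.Poly (fun a => 2 ^ j a) := h2.congr fun a => by
    rw [valB_replicate_false]; simp
  exact NPC.Poly.div h3 (NPC.Poly.const 2)

theorem poly_headD {β : Type} [TEnc β] {l : α → List β} {v : α → β} (hl : NPC.Poly l)
    (hv : NPC.Poly v) : NPC.Poly (fun a => (l a).headD (v a)) := by
  refine (NPC.Poly.listCases (g := v) (h := fun _ b _ => b) hl hv
    (NPC.Poly.fst (NPC.Poly.snd NPC.Poly.id))).congr fun a => ?_
  cases l a <;> rfl

theorem poly_clu {n : α → ℕ} (hn : UPoly n) {d : α → ℕ → ℕ → ℕ}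
    (hd : NPC.Poly (fun p : α × ℕ × ℕ => d p.1 p.2.1 p.2.2)) {t v : α → ℕ} (ht : NPC.Poly t)
    (hv : NPC.Poly v) : NPC.Poly (fun a => clu (n a) (d a) (t a) (v a)) := by
  unfold clu
  exact poly_clos (r := fun a x y => d a x y ≤ t a) hn.range
    (NPC.Poly.cons hv (NPC.Poly.const _)) (PP.le hd (ht.comp (NPC.Poly.fst NPC.Poly.id)))

theorem poly_rp {n : α → ℕ} (hn : UPoly n) {d : α → ℕ → ℕ → ℕ}
    (hd : NPC.Poly (fun p : α × ℕ × ℕ => d p.1 p.2.1 p.2.2)) {T : α → List ℕ} (hT : NPC.Poly T)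
    {t v : α → ℕ} (ht : NPC.Poly t)
    (hv : NPC.Poly v) : NPC.Poly (fun a => rp (n a) (d a) (T a) (t a) (v a)) := by
  unfold rp
  have hc := poly_clu hn hd ht hv
  refine poly_headD (NPC.Poly.append ?_ hc) hv
  exact PP.filter (inst := fun a x => _) (r := fun a x => x ∈ T a) hc
    (PP.mem (NPC.Poly.snd NPC.Poly.id) (hT.comp (NPC.Poly.fst NPC.Poly.id)))

theorem upoly_sub {j : α → ℕ} (hj : UPoly j) (k : ℕ) : UPoly (fun a => j a - k) :=
  UPoly.of_le (NPC.Poly.sub hj.toPoly (NPC.Poly.const k)) hj fun _ => Nat.sub_le _ _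

theorem poly_bandU {n : α → ℕ} (hn : UPoly n) {d : α → ℕ → ℕ → ℕ}
    (hd : NPC.Poly (fun p : α × ℕ × ℕ => d p.1 p.2.1 p.2.2)) {T : α → List ℕ} (hT : NPC.Poly T)
    (k : ℕ) {j q : α → ℕ} (hj : UPoly j) (hq : NPC.Poly q) :
    NPC.Poly (fun a => bandU (n a) (d a) (T a) k (j a) (q a)) := by
  unfold bandU
  have h1 : NPC.Poly (fun p : α × ℕ => p.1) := NPC.Poly.fst NPC.Poly.id
  have h2 : NPC.Poly (fun p : α × ℕ => p.2) := NPC.Poly.snd NPC.Poly.id
  refine PP.filter (inst := fun a x => _) (r := fun a v => rp (n a) (d a) (T a) (tau (j a - k)) v = v ∧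
    rp (n a) (d a) (T a) (tau (j a)) v = q a) hn.range ?_
  refine PP.and (PP.eq ?_ h2) (PP.eq ?_ (hq.comp h1))
  · exact poly_rp (α := α × ℕ) (n := fun p => n p.1) (d := fun p => d p.1) (T := fun p => T p.1)
      (t := fun p => tau (j p.1 - k)) (v := fun p => p.2) (hn.comp h1) (lift_d hd h1) (hT.comp h1)
      ((poly_tau (upoly_sub hj k)).comp h1) h2
  · exact poly_rp (α := α × ℕ) (n := fun p => n p.1) (d := fun p => d p.1) (T := fun p => T p.1)
      (t := fun p => tau (j p.1)) (v := fun p => p.2) (hn.comp h1) (lift_d hd h1) (hT.comp h1)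
      ((poly_tau hj).comp h1) h2

theorem poly_bandR {n : α → ℕ} (hn : UPoly n) {d : α → ℕ → ℕ → ℕ}
    (hd : NPC.Poly (fun p : α × ℕ × ℕ => d p.1 p.2.1 p.2.2)) {T : α → List ℕ} (hT : NPC.Poly T)
    (k : ℕ) {j q : α → ℕ} (hj : UPoly j) (hq : NPC.Poly q) :
    NPC.Poly (fun a => bandR (n a) (d a) (T a) k (j a) (q a)) := by
  unfold bandR
  exact PP.filter (inst := fun a x => _) (r := fun a x => x ∈ T a) (poly_bandU hn hd hT k hj hq)
    (PP.mem (NPC.Poly.snd NPC.Poly.id) (hT.comp (NPC.Poly.fst NPC.Poly.id)))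

theorem poly_reps {n : α → ℕ} (hn : UPoly n) {d : α → ℕ → ℕ → ℕ}
    (hd : NPC.Poly (fun p : α × ℕ × ℕ => d p.1 p.2.1 p.2.2)) {T : α → List ℕ} (hT : NPC.Poly T)
    {j : α → ℕ} (hj : UPoly j) : NPC.Poly (fun a => reps (n a) (d a) (T a) (j a)) := by
  unfold reps
  have h1 : NPC.Poly (fun p : α × ℕ => p.1) := NPC.Poly.fst NPC.Poly.id
  have h2 : NPC.Poly (fun p : α × ℕ => p.2) := NPC.Poly.snd NPC.Poly.id
  refine PP.filter (inst := fun a x => _) (r := fun a q => rp (n a) (d a) (T a) (tau (j a)) q = q)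
    hn.range ?_
  refine PP.eq ?_ h2
  exact poly_rp (α := α × ℕ) (n := fun p => n p.1) (d := fun p => d p.1) (T := fun p => T p.1)
      (t := fun p => tau (j p.1)) (v := fun p => p.2) (hn.comp h1) (lift_d hd h1) (hT.comp h1)
      ((poly_tau hj).comp h1) h2

theorem poly_band {n : α → ℕ} (hn : UPoly n) {d : α → ℕ → ℕ → ℕ}
    (hd : NPC.Poly (fun p : α × ℕ × ℕ => d p.1 p.2.1 p.2.2)) {T : α → List ℕ} (hT : NPC.Poly T)
    (tsp : Bool) (L s k : ℕ) {j : α → ℕ} (hj : UPoly j) :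
    NPC.Poly (fun a => band (n a) (d a) (T a) tsp L s k (j a)) := by
  unfold band
  have h1 : NPC.Poly (fun p : α × ℕ => p.1) := NPC.Poly.fst NPC.Poly.id
  have h2 : NPC.Poly (fun p : α × ℕ => p.2) := NPC.Poly.snd NPC.Poly.id
  refine NPC.Poly.flatMap (F := fun a q => solve (n a) (d a) tsp L s
    (bandU (n a) (d a) (T a) k (j a) q) (bandR (n a) (d a) (T a) k (j a) q) [q])
    (poly_reps hn hd hT hj) ?_
  have hs := poly_solve (α := α × ℕ) (n := fun p => n p.1) (d := fun p => d p.1) (hn.comp h1)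
    (lift_d hd h1) tsp L s
  exact hs.comp (NPC.Poly.pair NPC.Poly.id (NPC.Poly.pair
    (poly_bandU (α := α × ℕ) (n := fun p => n p.1) (d := fun p => d p.1) (T := fun p => T p.1)
      (j := fun p => j p.1) (q := fun p => p.2) (hn.comp h1) (lift_d hd h1) (hT.comp h1) k
      (hj.comp h1) h2)
    (NPC.Poly.pair
    (poly_bandR (α := α × ℕ) (n := fun p => n p.1) (d := fun p => d p.1) (T := fun p => T p.1)
      (j := fun p => j p.1) (q := fun p => p.2) (hn.comp h1) (lift_d hd h1) (hT.comp h1) k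
      (hj.comp h1) h2)
    (NPC.Poly.cons h2 (NPC.Poly.const _)))))

theorem poly_zeros {n : α → ℕ} (hn : UPoly n) {d : α → ℕ → ℕ → ℕ}
    (hd : NPC.Poly (fun p : α × ℕ × ℕ => d p.1 p.2.1 p.2.2)) {T : α → List ℕ} (hT : NPC.Poly T) :
    NPC.Poly (fun a => zeros (n a) (d a) (T a)) := by
  unfold zeros
  have h1 : NPC.Poly (fun p : α × ℕ => p.1) := NPC.Poly.fst NPC.Poly.id
  have h2 : NPC.Poly (fun p : α × ℕ => p.2) := NPC.Poly.snd NPC.Poly.id
  have h3 : NPC.Poly (fun p : α × ℕ => rp (n p.1) (d p.1) (T p.1) 0 p.2) :=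
    poly_rp (α := α × ℕ) (n := fun p => n p.1) (d := fun p => d p.1) (T := fun p => T p.1)
      (t := fun _ => 0) (v := fun p => p.2) (hn.comp h1) (lift_d hd h1) (hT.comp h1)
      (NPC.Poly.const _) h2
  exact NPC.Poly.flatMap (F := fun a v => [(v, rp (n a) (d a) (T a) 0 v),
    (v, rp (n a) (d a) (T a) 0 v)]) hT
    (NPC.Poly.cons (NPC.Poly.pair h2 h3) (NPC.Poly.cons (NPC.Poly.pair h2 h3) (NPC.Poly.const _)))

theorem poly_levels {J i : α → ℕ} (hJ : UPoly J) (k : ℕ) (hi : NPC.Poly i) :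
    NPC.Poly (fun a => levels k (J a) (i a)) := by
  unfold levels
  have h1 : NPC.Poly (fun p : α × ℕ => p.1) := NPC.Poly.fst NPC.Poly.id
  have h2 : NPC.Poly (fun p : α × ℕ => p.2) := NPC.Poly.snd NPC.Poly.id
  refine PP.filter (inst := fun a x => _) (r := fun a j => 1 ≤ j ∧ j % k = i a)
    ((hJ.add (UPoly.const k)).add (UPoly.const 1)).range ?_
  exact PP.and (PP.le (NPC.Poly.const 1) h2) (PP.eq (NPC.Poly.mod h2 (NPC.Poly.const k))
    (hi.comp h1))

theorem flatMap_congr_mem {β γ : Type} (l : List β) (f g : β → List γ)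
    (h : ∀ x ∈ l, f x = g x) : l.flatMap f = l.flatMap g := by
  induction l with
  | nil => rfl
  | cons a l ih =>
    rw [List.flatMap_cons, List.flatMap_cons, h a List.mem_cons_self,
      ih fun x hx => h x (List.mem_cons_of_mem _ hx)]

theorem poly_total {n J : α → ℕ} (hn : UPoly n) (hJ : UPoly J) {d : α → ℕ → ℕ → ℕ}
    (hd : NPC.Poly (fun p : α × ℕ × ℕ => d p.1 p.2.1 p.2.2)) {T : α → List ℕ} (hT : NPC.Poly T)
    (tsp : Bool) (L s k : ℕ) {i : α → ℕ} (hi : NPC.Poly i) :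
    NPC.Poly (fun a => total (n a) (d a) (T a) tsp L s k (J a) (i a)) := by
  unfold total
  have h1 : NPC.Poly (fun p : α × ℕ => p.1) := NPC.Poly.fst NPC.Poly.id
  have h2 : NPC.Poly (fun p : α × ℕ => p.2) := NPC.Poly.snd NPC.Poly.id
  refine NPC.Poly.append (poly_zeros hn hd hT) ?_
  have hJk : UPoly (fun a => J a + k) := hJ.add (UPoly.const k)
  have hu : UPoly (fun p : α × ℕ => min p.2 (J p.1 + k)) :=
    UPoly.of_le (NPC.Poly.min h2 (hJk.toPoly.comp h1)) (hJk.comp h1) fun p => min_le_right _ _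
  refine (NPC.Poly.flatMap (F := fun a j => band (n a) (d a) (T a) tsp L s k (min j (J a + k)))
    (poly_levels hJ k hi)
    (poly_band (α := α × ℕ) (n := fun p => n p.1) (d := fun p => d p.1) (T := fun p => T p.1)
      (hn.comp h1) (lift_d hd h1) (hT.comp h1) tsp L s k hu)).congr fun a => ?_
  apply flatMap_congr_mem
  intro j hj
  unfold levels at hj
  have hj1 := List.mem_range.1 (List.mem_filter.1 hj).1
  rw [min_eq_left (by omega)]

theorem poly_ptas {n J : α → ℕ} (hn : UPoly n) (hJ : UPoly J) {d : α → ℕ → ℕ → ℕ}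
    (hd : NPC.Poly (fun p : α × ℕ × ℕ => d p.1 p.2.1 p.2.2)) {T : α → List ℕ} (hT : NPC.Poly T)
    (tsp : Bool) (L s k : ℕ) :
    NPC.Poly (fun a => ptas (n a) (d a) (T a) tsp L s k (J a)) := by
  unfold ptas
  have h1 : NPC.Poly (fun p : α × ℕ => p.1) := NPC.Poly.fst NPC.Poly.id
  refine poly_pick hd ?_
  exact NPC.Poly.map (F := fun a i => total (n a) (d a) (T a) tsp L s k (J a) i)
    (NPC.Poly.const _)
    (poly_total (α := α × ℕ) (n := fun p => n p.1) (J := fun p => J p.1) (d := fun p => d p.1)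
      (T := fun p => T p.1) (hn.comp h1) (hJ.comp h1) (lift_d hd h1) (hT.comp h1) tsp L s k
      (NPC.Poly.snd NPC.Poly.id))

end Pool.Agent.H703
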