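import Mathlib

/-!
# Walks in weight matrices
-/

set_option autoImplicit false

namespace Pool.Agent.H703

/-- The entry of a weight matrix (`none`: no edge). -/
def ent (N : List (List (Option ℕ))) (u v : ℕ) : Option ℕ := (N.getD u []).getD v none

/-- The weight of an edge. -/
def wt (N : List (List (Option ℕ))) (u v : ℕ) : ℕ := (ent N u v).getD 0

/-- The sum of `d` over the consecutive pairs of a list. -/
def wsum (d : ℕ → ℕ → ℕ) (l : List ℕ) : ℕ := ((l.zip l.tail).map fun e => d e.1 e.2).sum

/-- `l` is a walk from `u` to `v` in the weighted graph with matrix `N`. -/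
structure IsWalk (N : List (List (Option ℕ))) (u v : ℕ) (l : List ℕ) : Prop where
  head : l.head? = some u
  last : l.getLast? = some v
  chain : ∀ e ∈ l.zip l.tail, (ent N e.1 e.2).isSome = true
  lt : ∀ x ∈ l, x < N.length

/-- The entry of a table of walks, with indices cut down to `{0, …, n-1}`. -/
def tget (tab : List (List (List ℕ))) (n u v : ℕ) : List ℕ :=
  (tab.getD (min u (n - 1)) []).getD (min v (n - 1)) []

/-- The distances given by a table of walks. -/
def tdist (N : List (List (Option ℕ))) (tab : List (List (List ℕ))) (u v : ℕ) : ℕ :=
  wsum (wt N) (tget tab N.length u v)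

/-- `tab` is a table of shortest walks for `N`. -/
def IsTable (N : List (List (Option ℕ))) (tab : List (List (List ℕ))) : Prop :=
  ∀ u v, u < N.length → v < N.length → (∃ l, IsWalk N u v l) →
    IsWalk N u v (tget tab N.length u v) ∧
      ∀ l, IsWalk N u v l → wsum (wt N) (tget tab N.length u v) ≤ wsum (wt N) l

/-- The common denominator of a rational weight matrix. -/
def comden (M : List (List (Option ℚ))) : ℕ := (M.flatten.map fun o => (o.getD 0).den).prod

/-- The matrix with the denominators cleared. -/
def clear (M : List (List (Option ℚ))) : List (List (Option ℕ)) :=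
  M.map fun r => r.map fun o => o.map fun q => q.num.toNat * (comden M / q.den)

end Pool.Agent.H703
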