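import Pool.Agent.H703.Alg
import Pool.Agent.H703.TableDefs
import Pool.Agent.H601R2.PP
import Pool.Agent.NPC.Dec

/-!
# Euler tours in polynomial time

Proofs written by helper348 from the plan of helper703.
-/

set_option autoImplicit false

namespace Pool.Agent.H703.TourAux

open Pool.Agent.NPC

/-! ### The algorithm -/

/-- the edge and the vertex are incident -/
def inc (v : ℕ) (e : Edge) : Prop := e.1 = v ∨ e.2 = v

instance (v : ℕ) (e : Edge) : Decidable (inc v e) := by unfold inc; infer_instance

/-- one step of `pick` -/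
def pst (v : ℕ) (e : Edge) (s : Option Edge × List Edge × List Edge) :
    Option Edge × List Edge × List Edge :=
  if inc v e then (some e, s.2.2, e :: s.2.2) else (s.1, e :: s.2.1, e :: s.2.2)

/-- The first edge at `v`, the other edges, all the edges. -/
def pick (v : ℕ) (G : List Edge) : Option Edge × List Edge × List Edge :=
  G.foldr (pst v) (none, [], [])

/-- states: stack, output, unused edges -/
abbrev St : Type := List ℕ × List ℕ × List Edge

/-- one step of the algorithm of Hierholzer -/
def stp (s : St) : St :=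
  match s.1 with
  | [] => s
  | v :: S => match (pick v s.2.2).1 with
    | none => (S, v :: s.2.1, s.2.2)
    | some e => ((if e.1 = v then e.2 else e.1) :: v :: S, s.2.1, (pick v s.2.2).2.1)

/-- the tour -/
def tour (x : List Edge × ℕ) : List ℕ := (stp^[(x.1 ++ x.1 ++ [(0, 0)]).length] ([x.2], [], x.1)).2.1

/-! ### pick -/

theorem pick_cons (v : ℕ) (e : Edge) (G : List Edge) :
    pick v (e :: G) = pst v e (pick v G) := rfl

theorem pick_all (v : ℕ) (G : List Edge) : (pick v G).2.2 = G := by
  induction G with
  | nil => rfl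
  | cons e G ih =>
    rw [pick_cons]
    unfold pst
    split_ifs <;> simp [ih]

theorem pick_none {v : ℕ} {G : List Edge} (h : (pick v G).1 = none) : ∀ e ∈ G, ¬ inc v e := by
  induction G with
  | nil => simp
  | cons e G ih =>
    rw [pick_cons] at h
    unfold pst at h
    split_ifs at h with h1
    intro e' he'
    rcases List.mem_cons.1 he' with rfl | he'
    · exact h1
    · exact ih h e' he'

theorem pick_some {v : ℕ} {G : List Edge} {e : Edge} (h : (pick v G).1 = some e) :
    inc v e ∧ (e :: (pick v G).2.1).Perm G := by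
  induction G with
  | nil => cases h
  | cons e' G ih =>
    rw [pick_cons] at h ⊢
    unfold pst at h ⊢
    split_ifs at h ⊢ with h1
    · cases h
      exact ⟨h1, by simp [pick_all]⟩
    · obtain ⟨h2, h3⟩ := ih h
      refine ⟨h2, ?_⟩
      exact (List.Perm.swap e' e _).trans (h3.cons e')

/-! ### Polynomial time -/

theorem sz_pick (v : ℕ) (G : List Edge) : sz (pick v G) ≤ 3 * sz G + 10 := by
  have h1 : sz (pick v G).1 ≤ sz G + 2 := by
    cases h : (pick v G).1 with
    | none => simp
    | some e =>
      have h2 := (pick_some h).2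
      have h3 : e ∈ G := h2.subset (List.mem_cons_self)
      have h4 := sz_le_of_mem h3
      simp
      omega
  have h2 : sz (pick v G).2.1 ≤ sz G := by
    clear h1
    induction G with
    | nil => simp [pick]
    | cons e G ih =>
      rw [pick_cons]
      unfold pst
      split_ifs
      · simp only [pick_all]
        simp
        omega
      · simp
        exact ih
  have h3 : sz (pick v G).2.2 = sz G := by rw [pick_all]
  have h4 : sz (pick v G) = sz (pick v G).1 + (sz (pick v G).2.1 + sz (pick v G).2.2 + 1) + 1 := by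
    rw [← sz_pair, ← sz_pair]
  omega

theorem poly_inc {α : Type} [TEnc α] {v : α → ℕ} {e : α → Edge} (hv : Poly v) (he : Poly e) :
    Poly (fun a => decide (inc (v a) (e a))) :=
  (Poly.decide_or (Poly.decide_eq (Poly.fst he) hv) (Poly.decide_eq (Poly.snd he) hv)).congr
    fun a => by unfold inc; rfl

theorem poly_pick {α : Type} [TEnc α] {v : α → ℕ} {G : α → List Edge} (hv : Poly v)
    (hG : Poly G) : Poly (fun a => pick (v a) (G a)) := by
  obtain ⟨r, hr⟩ := hG.sz_le
  refine Poly.foldr (F := fun a => pst (v a)) (s := fun _ => (none, [], [])) hG (NPC.Poly.const _)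
    ?_ (Polynomial.C 3 * r + Polynomial.C 10) ?_
  · unfold pst
    refine Poly.ite (p := fun p : α × Edge × Option Edge × List Edge × List Edge =>
      inc (v p.1) p.2.1) (poly_inc (hv.comp (Poly.fst Poly.id)) (Poly.fst (Poly.snd Poly.id))) ?_ ?_
    · exact Poly.pair (Poly.some (Poly.fst (Poly.snd Poly.id)))
        (Poly.pair (Poly.snd (Poly.snd (Poly.snd (Poly.snd Poly.id))))
          (Poly.cons (Poly.fst (Poly.snd Poly.id))
            (Poly.snd (Poly.snd (Poly.snd (Poly.snd Poly.id))))))
    · exact Poly.pair (Poly.fst (Poly.snd (Poly.snd Poly.id)))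
        (Poly.pair (Poly.cons (Poly.fst (Poly.snd Poly.id))
          (Poly.fst (Poly.snd (Poly.snd (Poly.snd Poly.id)))))
          (Poly.cons (Poly.fst (Poly.snd Poly.id))
            (Poly.snd (Poly.snd (Poly.snd (Poly.snd Poly.id))))))
  · intro a k _
    have h1 := sz_pick (v a) ((G a).drop k)
    have h2 := Poly.sz_drop_le (G a) k
    have h3 := hr a
    simp only [Polynomial.eval_add, Polynomial.eval_mul, Polynomial.eval_C]
    unfold pick at h1
    omega

theorem poly_stp : Poly stp := by
  refine (Poly.listCases (l := fun s : St => s.1) (g := fun s : St => s)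
    (h := fun s v S => match (pick v s.2.2).1 with
    | none => (S, v :: s.2.1, s.2.2)
    | some e => ((if e.1 = v then e.2 else e.1) :: v :: S, s.2.1, (pick v s.2.2).2.1))
    (Poly.fst Poly.id) Poly.id ?_).congr ?_
  have hs : Poly (fun p : St × ℕ × List ℕ => p.1) := Poly.fst Poly.id
  have hv : Poly (fun p : St × ℕ × List ℕ => p.2.1) := Poly.fst (Poly.snd Poly.id)
  have hS : Poly (fun p : St × ℕ × List ℕ => p.2.2) := Poly.snd (Poly.snd Poly.id)
  have hp : Poly (fun p : St × ℕ × List ℕ => pick p.2.1 p.1.2.2) :=
    poly_pick hv (Poly.snd (Poly.snd hs))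
  · refine (Poly.optCases (o := fun p : St × ℕ × List ℕ => (pick p.2.1 p.1.2.2).1)
      (g := fun p : St × ℕ × List ℕ => (p.2.2, p.2.1 :: p.1.2.1, p.1.2.2))
      (h := fun p e => ((if e.1 = p.2.1 then e.2 else e.1) :: p.2.1 :: p.2.2, p.1.2.1,
        (pick p.2.1 p.1.2.2).2.1)) (Poly.fst hp) ?_ ?_).congr
        (fun p => by cases (pick p.2.1 p.1.2.2).1 <;> rfl)
    · exact Poly.pair hS (Poly.pair (Poly.cons hv (Poly.fst (Poly.snd hs)))
        (Poly.snd (Poly.snd hs)))
    · have f1 : NPC.Poly (fun q : (St × ℕ × List ℕ) × Edge => q.1) := Poly.fst Poly.id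
      have f2 : NPC.Poly (fun q : (St × ℕ × List ℕ) × Edge => q.2) := Poly.snd Poly.id
      refine Poly.pair (Poly.cons (Poly.ite (Poly.decide_eq (Poly.fst f2) (hv.comp f1))
        (Poly.snd f2) (Poly.fst f2)) (Poly.cons (hv.comp f1) (hS.comp f1)))
        (Poly.pair (Poly.fst (Poly.snd (hs.comp f1))) (Poly.fst (Poly.snd (hp.comp f1))))
  · rintro ⟨S, L, G⟩
    cases S with
    | nil => rfl
    | cons v S => rfl

/-- what is needed for the bound of the size -/
structure SB (F : List Edge) (r k : ℕ) (s : St) : Prop where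
  a : ∀ x ∈ s.1, x = r ∨ x ∈ ends F
  b : ∀ x ∈ s.2.1, x = r ∨ x ∈ ends F
  c : ∀ e ∈ s.2.2, e ∈ F
  la : s.1.length ≤ k + 1
  lb : s.2.1.length ≤ k
  lc : s.2.2.length ≤ F.length

theorem mem_ends {F : List Edge} {x : ℕ} : x ∈ ends F ↔ ∃ e ∈ F, inc x e := by
  unfold ends inc
  simp only [List.mem_flatMap, List.mem_cons, List.not_mem_nil, or_false, eq_comm]

theorem SB.step {F : List Edge} {r k : ℕ} {s : St} (h : SB F r k s) : SB F r (k + 1) (stp s) := by
  obtain ⟨S, L, G⟩ := s
  obtain ⟨a, b, c, la, lb, lc⟩ := h
  cases S with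
  | nil =>
    show SB F r (k + 1) ([], L, G)
    exact ⟨a, b, c, by simp, Nat.le_succ_of_le lb, lc⟩
  | cons v S =>
    simp only [stp]
    simp only at a b c la lb lc
    cases hp : (pick v G).1 with
    | none =>
      refine ⟨fun x hx => a x (List.mem_cons_of_mem _ hx), ?_, c, ?_, ?_, lc⟩
      · intro x hx
        rcases List.mem_cons.1 hx with rfl | hx
        · exact a x (List.mem_cons_self)
        · exact b x hx
      · simp only [List.length_cons] at la ⊢; omega
      · simp only [List.length_cons]; omega
    | some e =>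
      obtain ⟨h1, h2⟩ := pick_some hp
      have heG : e ∈ G := h2.subset (List.mem_cons_self)
      refine ⟨?_, b, ?_, ?_, ?_, ?_⟩
      · intro x hx
        rcases List.mem_cons.1 hx with hx | hx
        · refine Or.inr (mem_ends.2 ⟨e, c e heG, ?_⟩)
          subst hx
          unfold inc
          split_ifs <;> simp
        · exact a x hx
      · exact fun e' he' => c e' (h2.subset (List.mem_cons_of_mem _ he'))
      · simp only [List.length_cons] at la ⊢; omega
      · simp only; omega
      · have := h2.length_eq
        simp only [List.length_cons] at this ⊢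
        omega

theorem SB.iter (F : List Edge) (r k : ℕ) : SB F r k (stp^[k] ([r], [], F)) := by
  induction k with
  | zero => exact ⟨by simp, by simp, by simp, by simp, by simp, le_rfl⟩
  | succ k ih =>
    rw [Function.iterate_succ_apply']
    exact ih.step

theorem poly_tour : Poly tour := by
  unfold tour
  have h1 : Poly (fun x : List Edge × ℕ =>
      stp^[(x.1 ++ x.1 ++ [((0, 0) : Edge)]).length] ([x.2], [], x.1)) := by
    refine Poly.iterLen (l := fun x : List Edge × ℕ => x.1 ++ x.1 ++ [((0, 0) : Edge)])
      (s := fun x : List Edge × ℕ => (([x.2], [], x.1) : St)) (F := fun _ => stp)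
      (Poly.append (Poly.append (Poly.fst Poly.id) (Poly.fst Poly.id)) (NPC.Poly.const _))
      (Poly.pair (Poly.cons (Poly.snd Poly.id) (NPC.Poly.const _))
        (Poly.pair (NPC.Poly.const _) (Poly.fst Poly.id)))
      (poly_stp.comp (Poly.snd Poly.id))
      ((Polynomial.C 10 * Polynomial.X + Polynomial.C 10) * (Polynomial.X + Polynomial.C 1) +
        Polynomial.C 10) ?_
    rintro ⟨F, r⟩ k hk
    have hb := SB.iter F r k
    generalize stp^[k] ([r], [], F) = s at hb
    obtain ⟨S, L, G⟩ := s
    obtain ⟨a, b, c, la, lb, lc⟩ := hb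
    simp only at a b c la lb lc hk
    have hFr : sz (F, r) = sz F + sz r + 1 := sz_pair F r
    have hF := length_lt_sz F
    have hv : ∀ x, x = r ∨ x ∈ ends F → sz x ≤ sz (F, r) := by
      rintro x (rfl | hx)
      · omega
      · obtain ⟨⟨e1, e2⟩, he, h2⟩ := mem_ends.1 hx
        have h3 := sz_le_of_mem he
        have h4 : sz ((e1, e2) : Edge) = sz e1 + sz e2 + 1 := sz_pair e1 e2
        rcases h2 with rfl | rfl
        · simp only at *; omega
        · simp only at *; omega
    have s1 := sz_le_length_mul S (sz (F, r)) (fun x hx => hv x (a x hx))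
    have s2 := sz_le_length_mul L (sz (F, r)) (fun x hx => hv x (b x hx))
    have s3 := sz_le_length_mul G (sz (F, r)) (fun e he => by
      have := sz_le_of_mem (c e he); omega)
    have hlen : k ≤ 2 * F.length + 1 := by
      simp only [List.length_append, List.length_cons, List.length_nil] at hk
      omega
    have hsz : sz ((S, L, G) : St) = sz S + (sz L + sz G + 1) + 1 := by
      rw [sz_pair, sz_pair]
    rw [hsz]
    simp only [Polynomial.eval_add, Polynomial.eval_mul, Polynomial.eval_C, Polynomial.eval_X]
    have t1 : S.length ≤ 2 * sz (F, r) + 2 := by omega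
    have t2 : L.length ≤ 2 * sz (F, r) + 2 := by omega
    have t3 : G.length ≤ 2 * sz (F, r) + 2 := by omega
    have u1 := Nat.mul_le_mul_right (sz (F, r) + 1) t1
    have u2 := Nat.mul_le_mul_right (sz (F, r) + 1) t2
    have u3 := Nat.mul_le_mul_right (sz (F, r) + 1) t3
    nlinarith
  exact Poly.fst (Poly.snd h1)

/-! ### Correctness -/

/-- the unordered edges of a list of edges -/
def EF (F : List Edge) : Multiset (Sym2 ℕ) := (F.map fun e => s(e.1, e.2) : List (Sym2 ℕ))

/-- the unordered edges of a walk -/
def EW (l : List ℕ) : Multiset (Sym2 ℕ) := ((l.zip l.tail).map fun e => s(e.1, e.2) : List (Sym2 ℕ))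

theorem EF_cons (e : Edge) (F : List Edge) : EF (e :: F) = s(e.1, e.2) ::ₘ EF F := rfl

theorem EW_cons (x y : ℕ) (l : List ℕ) : EW (x :: y :: l) = s(x, y) ::ₘ EW (y :: l) := rfl

theorem EW_single (x : ℕ) : EW [x] = 0 := rfl

theorem EF_perm {F G : List Edge} (h : F.Perm G) : EF F = EF G :=
  Multiset.coe_eq_coe.2 (h.map _)

theorem ends_perm {F G : List Edge} (h : F.Perm G) : (ends F).Perm (ends G) := h.flatMap_right _

theorem mem_EF {F : List Edge} {z : Sym2 ℕ} : z ∈ EF F ↔ ∃ e ∈ F, s(e.1, e.2) = z := by
  unfold EF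
  rw [Multiset.mem_coe, List.mem_map]

theorem mem_EW {l : List ℕ} {x y : ℕ} (h : s(x, y) ∈ EW l) : x ∈ l ∧ y ∈ l := by
  induction l with
  | nil => simp [EW] at h
  | cons a l ih =>
    cases l with
    | nil => simp [EW] at h
    | cons b l =>
      rw [EW_cons, Multiset.mem_cons] at h
      rcases h with h | h
      · rcases Sym2.eq_iff.1 h with ⟨rfl, rfl⟩ | ⟨rfl, rfl⟩ <;> simp
      · obtain ⟨h1, h2⟩ := ih h
        exact ⟨List.mem_cons_of_mem _ h1, List.mem_cons_of_mem _ h2⟩

/-- the costs from the unordered edges -/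
theorem cost_eq (d : ℕ → ℕ → ℕ) (hd : ∀ x y, d x y = d y x) (F : List Edge) :
    cost d F = ((EF F).map (Sym2.lift ⟨d, hd⟩)).sum := by
  unfold cost EF
  rw [Multiset.map_coe, Multiset.sum_coe, List.map_map]
  rfl

theorem wsum_eq (d : ℕ → ℕ → ℕ) (hd : ∀ x y, d x y = d y x) (l : List ℕ) :
    wsum d l = ((EW l).map (Sym2.lift ⟨d, hd⟩)).sum := by
  unfold wsum EW
  rw [Multiset.map_coe, Multiset.sum_coe, List.map_map]
  rfl

/-- the invariant, for a nonempty stack -/
structure IA (F : List Edge) (r v : ℕ) (S L : List ℕ) (G : List Edge) (a : ℕ) : Prop where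
  e : EW (v :: S) + EF G + EW (a :: L) = EF F
  p : ∀ x, Even ((ends G).count x + ((if x = v then 1 else 0) + (if x = a then 1 else 0)))
  l1 : (v :: S).getLast? = some r
  l2 : (L = [] ∧ a = r) ∨ L.getLast? = some r
  n : ∀ x ∈ L, ∀ e ∈ G, ¬ inc x e

/-- the invariant, for the empty stack -/
structure IB (F : List Edge) (r : ℕ) (L : List ℕ) (G : List Edge) : Prop where
  e : EF G + EW L = EF F
  l1 : L.head? = some r
  l2 : L.getLast? = some r
  n : ∀ x ∈ L, ∀ e ∈ G, ¬ inc x e

/-- the invariant -/
def Inv (F : List Edge) (r : ℕ) (s : St) : Prop :=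
  match s.1 with
  | [] => IB F r s.2.1 s.2.2
  | v :: S => ∃ a, IA F r v S s.2.1 s.2.2 a

theorem count_zero {G : List Edge} {v : ℕ} (h : ∀ e ∈ G, ¬ inc v e) : (ends G).count v = 0 := by
  rw [List.count_eq_zero]
  intro hv
  obtain ⟨e, he, h'⟩ := mem_ends.1 hv
  exact h e he h'

theorem Inv.step {F : List Edge} {r : ℕ} {s : St} (h : Inv F r s) : Inv F r (stp s) := by
  obtain ⟨S, L, G⟩ := s
  cases S with
  | nil => exact h
  | cons v S =>
    obtain ⟨a, h⟩ : ∃ a, IA F r v S L G a := h
    simp only [stp]
    cases hp : (pick v G).1 with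
    | none =>
      have hn := pick_none hp
      have h0 := count_zero hn
      have hva : v = a := by
        have h1 := h.p v
        rw [h0, if_pos rfl] at h1
        by_contra hne
        rw [if_neg hne] at h1
        exact absurd h1 (by decide)
      subst hva
      have hL : (v :: L).getLast? = some r := by
        rcases h.l2 with ⟨h1, h2⟩ | h1
        · rw [h1, h2]; rfl
        · cases L with
          | nil => cases h1
          | cons b L => exact h1
      have hn' : ∀ x ∈ v :: L, ∀ e ∈ G, ¬ inc x e := by
        intro x hx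
        rcases List.mem_cons.1 hx with rfl | hx
        · exact hn
        · exact h.n x hx
      cases S with
      | nil =>
        have hvr : v = r := by
          have := h.l1
          simpa using this
        show IB F r (v :: L) G
        refine ⟨?_, by rw [hvr]; rfl, hL, hn'⟩
        rw [← h.e, EW_single, zero_add]
      | cons w S =>
        show ∃ a, IA F r w S (v :: L) G a
        refine ⟨w, ?_, ?_, h.l1, Or.inr hL, hn'⟩
        · rw [← h.e, EW_cons w v L, EW_cons v w S, Sym2.eq_swap]
          simp only [Multiset.cons_add, Multiset.add_cons]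
        · intro x
          have h1 := h.p x
          exact Nat.even_add.2 ⟨fun _ => ⟨_, rfl⟩,
            fun _ => (Nat.even_add.1 h1).2 ⟨_, rfl⟩⟩
    | some e =>
      obtain ⟨h1, h2⟩ := pick_some hp
      set u := if e.1 = v then e.2 else e.1 with hu
      have hs : s(e.1, e.2) = s(u, v) := by
        rw [hu]
        split_ifs with h3
        · rw [h3, Sym2.eq_swap]
        · rw [h1.resolve_left h3]
      show ∃ a, IA F r u (v :: S) L (pick v G).2.1 a
      refine ⟨a, ?_, ?_, h.l1, h.l2, ?_⟩
      · rw [← h.e, EW_cons u v S, ← EF_perm h2, EF_cons, hs]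
        simp only [Multiset.cons_add, Multiset.add_cons]
      · intro x
        have h3 := h.p x
        have h4 : (ends G).count x = ((if e.1 = x then 1 else 0) + (if e.2 = x then 1 else 0)) +
            (ends (pick v G).2.1).count x := by
          rw [← (ends_perm h2).count_eq x]
          show (e.1 :: e.2 :: ends (pick v G).2.1).count x = _
          rw [List.count_cons, List.count_cons]
          simp only [beq_iff_eq]
          ring
        have h5 : (if e.1 = x then 1 else 0) + (if e.2 = x then 1 else 0) =
            ((if x = u then 1 else 0) + (if x = v then 1 else 0) : ℕ) := by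
          rw [hu]
          by_cases h6 : e.1 = v
          · rw [if_pos h6, h6, add_comm]
            simp only [eq_comm]
          · have h7 := h1.resolve_left h6
            rw [if_neg h6, h7]
            simp only [eq_comm]
        rw [h4, h5] at h3
        have h8 : (if x = u then 1 else 0) + (if x = v then 1 else 0) +
            (ends (pick v G).2.1).count x + ((if x = v then 1 else 0) + (if x = a then 1 else 0)) =
            2 * (if x = v then 1 else 0) + ((ends (pick v G).2.1).count x +
            ((if x = u then 1 else 0) + (if x = a then 1 else 0))) := by ring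
        rw [h8, Nat.even_add] at h3
        exact h3.1 (even_two_mul _)
      · exact fun x hx e' he' => h.n x hx e' (h2.subset (List.mem_cons_of_mem _ he'))

/-- the potential -/
def mu (s : St) : ℕ := 2 * s.2.2.length + s.1.length

theorem mu_step (s : St) : s.1 = [] ∨ mu (stp s) + 1 = mu s := by
  obtain ⟨S, L, G⟩ := s
  cases S with
  | nil => exact Or.inl rfl
  | cons v S =>
    right
    simp only [stp]
    cases hp : (pick v G).1 with
    | none => simp [mu]; omega
    | some e =>
      have h2 := (pick_some hp).2.length_eq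
      simp only [List.length_cons] at h2
      simp [mu]
      omega

theorem stp_nil {s : St} (h : s.1 = []) : stp s = s := by
  obtain ⟨S, L, G⟩ := s
  simp only at h
  subst h
  rfl

theorem mu_iter (s : St) (k : ℕ) : (stp^[k] s).1 = [] ∨ mu (stp^[k] s) + k = mu s := by
  induction k with
  | zero => exact Or.inr rfl
  | succ k ih =>
    rw [Function.iterate_succ_apply']
    rcases ih with h | h
    · rw [stp_nil h]; exact Or.inl h
    · rcases mu_step (stp^[k] s) with h1 | h1
      · rw [stp_nil h1]; exact Or.inl h1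
      · right; omega

theorem Inv.iter {F : List Edge} {r : ℕ} {s : St} (h : Inv F r s) (k : ℕ) :
    Inv F r (stp^[k] s) := by
  induction k with
  | zero => exact h
  | succ k ih =>
    rw [Function.iterate_succ_apply']
    exact ih.step

theorem final {F : List Edge} {r : ℕ} {L : List ℕ} {G : List Edge} (h : IB F r L G)
    (hc : ∀ v ∈ ends F, Relation.ReflTransGen (adj F) r v) : G = [] := by
  have hrL : r ∈ L := List.mem_of_mem_head? (by rw [h.l1]; rfl)
  have key : ∀ v, Relation.ReflTransGen (adj F) r v → v ∈ L := by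
    intro v hv
    induction hv with
    | refl => exact hrL
    | @tail x y _ hxy ih =>
      have h1 : s(x, y) ∈ EF F := by
        rcases hxy with h1 | h1
        · exact mem_EF.2 ⟨_, h1, rfl⟩
        · exact mem_EF.2 ⟨_, h1, Sym2.eq_swap⟩
      rw [← h.e, Multiset.mem_add] at h1
      rcases h1 with h1 | h1
      · obtain ⟨e, he, h2⟩ := mem_EF.1 h1
        refine absurd ?_ (h.n x ih e he)
        rcases Sym2.eq_iff.1 h2 with h3 | h3
        · exact Or.inl h3.1
        · exact Or.inr h3.2
      · exact (mem_EW h1).2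
  cases G with
  | nil => rfl
  | cons e G =>
    exfalso
    have h1 : s(e.1, e.2) ∈ EF F := by
      rw [← h.e, EF_cons]
      simp
    obtain ⟨e', he', h2⟩ := mem_EF.1 h1
    have h3 : e.1 ∈ ends F := by
      refine mem_ends.2 ⟨e', he', ?_⟩
      rcases Sym2.eq_iff.1 h2 with h3 | h3
      · exact Or.inl h3.1
      · exact Or.inr h3.2
    exact h.n e.1 (key _ (hc _ h3)) e (List.mem_cons_self) (Or.inl rfl)

/-- Euler tours can be computed in polynomial time. -/
theorem exists_tour : ∃ f : List Edge × ℕ → List ℕ, NPC.Poly f ∧ ∀ (F : List Edge) (r : ℕ),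
    (∀ v, Even ((ends F).count v)) → (∀ v ∈ ends F, Relation.ReflTransGen (adj F) r v) →
    (f (F, r)).head? = some r ∧ (f (F, r)).getLast? = some r ∧ (∀ v ∈ ends F, v ∈ f (F, r)) ∧
      (∀ v ∈ f (F, r), v = r ∨ v ∈ ends F) ∧
      ∀ d : ℕ → ℕ → ℕ, (∀ x y, d x y = d y x) → wsum d (f (F, r)) = cost d F := by
  refine ⟨tour, poly_tour, fun F r he hc => ?_⟩
  have h0 : Inv F r ([r], [], F) := by
    refine ⟨r, ?_, ?_, rfl, Or.inl ⟨rfl, rfl⟩, by simp⟩
    · rw [EW_single, zero_add, add_zero]
    · intro x
      rw [← two_mul, Nat.even_add]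
      exact ⟨fun _ => even_two_mul _, fun _ => he x⟩
  have h1 := h0.iter (F ++ F ++ [((0, 0) : Edge)]).length
  have h2 := SB.iter F r (F ++ F ++ [((0, 0) : Edge)]).length
  have h3 : (stp^[(F ++ F ++ [((0, 0) : Edge)]).length] ([r], [], F)).1 = [] := by
    rcases mu_iter ([r], [], F) (F ++ F ++ [((0, 0) : Edge)]).length with h | h
    · exact h
    · simp only [mu, List.length_append, List.length_cons, List.length_nil] at h
      exact List.eq_nil_of_length_eq_zero (by
        simp only [List.length_append, List.length_cons, List.length_nil]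
        omega)
  unfold tour
  simp only
  generalize stp^[(F ++ F ++ [((0, 0) : Edge)]).length] ([r], [], F) = s at h1 h2 h3
  obtain ⟨S, L, G⟩ := s
  simp only at h3
  subst h3
  have h4 : IB F r L G := h1
  have hG := final h4 hc
  subst hG
  have h5 : EW L = EF F := by
    rw [← h4.e]
    show EW L = 0 + EW L
    rw [zero_add]
  refine ⟨h4.l1, h4.l2, ?_, h2.b, ?_⟩
  · intro v hv
    obtain ⟨e, he, h6⟩ := mem_ends.1 hv
    have h7 : s(e.1, e.2) ∈ EW L := by
      rw [h5]; exact mem_EF.2 ⟨e, he, rfl⟩
    rcases h6 with rfl | rfl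
    · exact (mem_EW h7).1
    · exact (mem_EW h7).2
  · intro d hd
    rw [wsum_eq d hd, cost_eq d hd, h5]

end Pool.Agent.H703.TourAux

namespace Pool.Agent.H703

/-- Euler tours can be computed in polynomial time. -/
theorem exists_tour : ∃ f : List Edge × ℕ → List ℕ, NPC.Poly f ∧ ∀ (F : List Edge) (r : ℕ),
    (∀ v, Even ((ends F).count v)) → (∀ v ∈ ends F, Relation.ReflTransGen (adj F) r v) →
    (f (F, r)).head? = some r ∧ (f (F, r)).getLast? = some r ∧ (∀ v ∈ ends F, v ∈ f (F, r)) ∧
      (∀ v ∈ f (F, r), v = r ∨ v ∈ ends F) ∧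
      ∀ d : ℕ → ℕ → ℕ, (∀ x y, d x y = d y x) → wsum d (f (F, r)) = cost d F :=
  TourAux.exists_tour

end Pool.Agent.H703
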