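import Pool.Agent.H703.Metric
import Pool.Agent.H703.Time3
import Pool.Agent.H703.Table
import Pool.Agent.H703.Tour
import Pool.Agent.H703.GraphB
import Pool.Agent.H670R2.RatDec

/-!
# The scheme on the matrix of a graph
-/

set_option autoImplicit false

namespace Pool.Agent.H703

variable {V : Type}

namespace WGraph

variable {n : ℕ} (X : WGraph n)

end WGraph

open Pool.Agent.NPC

variable {n : ℕ}

/-- An exponent `J` with `d u w ≤ tau J` for all `u, w < n`. -/
def topLevel (n : ℕ) (d : ℕ → ℕ → ℕ) : ℕ :=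
  ((List.range n).flatMap fun u => (List.range n).map fun v => d u v).sum.size + 1

/-- The output of the scheme on the matrix `M` of a graph with terminals `T`, as a multigraph in
the metric closure. -/
noncomputable def runF (f : List (List (Option ℕ)) → List (List (List ℕ)))
    (tsp : Bool) (L s k : ℕ) (M : List (List (Option ℚ))) (T : List ℕ) : List Edge :=
  ptas M.length (tdist (clear M) (f (clear M))) T tsp L s k
    (topLevel M.length (tdist (clear M) (f (clear M))))

/-
WHAT IS WANTED.  `le_tau_topLevel`: a sum is at least each term and `m < 2 ^ m.size`.  `ptas_ends`: the members of `pick` come from the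
list; `zeros`, `band`, `solve_ends`, `rp_mem`, `mem_clu_lt`.  `runF_spec`: `metric_ptas` for `d = tdist …` with `nmet`, `hc_of_highwayDim`, and the
confinement from `conf_of_confined` (`clu` is a `clos`, use `mem_clos`).  `poly_clear`, `poly_runF`: `comden` is a product of a list (see
`poly_prodN` in TH694/M3/Final.lean), `wsum`, `tdist` by `zip`, `tail`, `map`, `sum`; `topLevel` is `UPoly` since `Nat.size m` is the length of
`m.bits` (`UPoly.length`, `NPC.Poly.natBits`).
-/

/-! ### Auxiliary lemmas -/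

theorem runF_aux_mem_le_sum {l : List ℕ} {x : ℕ} (h : x ∈ l) : x ≤ l.sum := by
  induction l with
  | nil => simp at h
  | cons a l ih =>
    rw [List.sum_cons]
    rcases List.mem_cons.1 h with rfl | h
    · exact Nat.le_add_right _ _
    · exact (ih h).trans (Nat.le_add_left _ _)

theorem runF_aux_mem_ends {F : List Edge} {x : ℕ} :
    x ∈ ends F ↔ ∃ e ∈ F, x = e.1 ∨ x = e.2 := by
  unfold ends
  simp [List.mem_flatMap]

theorem runF_aux_prod {α : Type} [TEnc α] {l : α → List ℕ} (hl : NPC.Poly l) :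
    NPC.Poly (fun a => (l a).prod) := by
  obtain ⟨r, hr⟩ := hl.sz_le
  refine (NPC.Poly.foldr (s := fun _ => 1) (F := fun _ x s => x * s) hl (NPC.Poly.const 1)
    (NPC.Poly.mul (NPC.Poly.fst (NPC.Poly.snd NPC.Poly.id)) (NPC.Poly.snd (NPC.Poly.snd NPC.Poly.id)))
    (Polynomial.C 4 * r + Polynomial.C 1) ?_).congr fun a => ?_
  · intro a k hk
    have key : ∀ l : List ℕ, (l.foldr (fun x s => x * s) 1).size ≤ sz l := by
      intro l
      induction l with
      | nil => simp
      | cons x l ih =>
        rw [List.foldr_cons]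
        set s := l.foldr (fun x s => x * s) 1
        have h1 := Nat.lt_size_self x
        have h2 := Nat.lt_size_self s
        have h3 : x * s < 2 ^ (x.size + s.size) := by
          rw [pow_add]
          exact Nat.mul_lt_mul'' h1 h2
        have h4 := Nat.size_le.2 h3
        have h5 := size_le_sz x
        simp
        omega
    have h1 := sz_nat_le (((l a).drop k).foldr (fun x s => x * s) 1)
    have h2 := key ((l a).drop k)
    have h3 := NPC.Poly.sz_drop_le (l a) k
    have h4 := hr a
    simp only [Polynomial.eval_add, Polynomial.eval_mul, Polynomial.eval_C]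
    omega
  · induction l a with
    | nil => rfl
    | cons x l ih => rw [List.foldr_cons, ih, List.prod_cons]

theorem runF_aux_ent {α : Type} [TEnc α] {N : α → List (List (Option ℕ))} {u v : α → ℕ}
    (hN : NPC.Poly N) (hu : NPC.Poly u) (hv : NPC.Poly v) :
    NPC.Poly (fun a => ent (N a) (u a) (v a)) := by
  unfold ent
  exact NPC.Poly.getD (NPC.Poly.getD hN hu (NPC.Poly.const _)) hv (NPC.Poly.const _)

theorem runF_aux_wt {α : Type} [TEnc α] {N : α → List (List (Option ℕ))} {u v : α → ℕ}
    (hN : NPC.Poly N) (hu : NPC.Poly u) (hv : NPC.Poly v) :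
    NPC.Poly (fun a => wt (N a) (u a) (v a)) := by
  unfold wt
  exact NPC.Poly.optGetD (runF_aux_ent hN hu hv) (NPC.Poly.const _)

theorem runF_aux_wsum {α : Type} [TEnc α] {N : α → List (List (Option ℕ))} {l : α → List ℕ}
    (hN : NPC.Poly N) (hl : NPC.Poly l) :
    NPC.Poly (fun a => wsum (wt (N a)) (l a)) := by
  unfold wsum
  refine NPC.Poly.sum (NPC.Poly.map (F := fun a (e : ℕ × ℕ) => wt (N a) e.1 e.2)
    (NPC.Poly.zip hl (NPC.Poly.tail hl)) ?_)
  exact runF_aux_wt (hN.comp (NPC.Poly.fst NPC.Poly.id))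
    (NPC.Poly.fst (NPC.Poly.snd NPC.Poly.id)) (NPC.Poly.snd (NPC.Poly.snd NPC.Poly.id))

theorem runF_aux_size {α : Type} [TEnc α] {m : α → ℕ} (hm : NPC.Poly m) :
    UPoly (fun a => (m a).size) := by
  have h := UPoly.length (NPC.Poly.natBits hm)
  have e : (fun a => (m a).size) = fun a => (m a).bits.length := by
    funext a
    rw [Nat.size_eq_bits_len]
  rw [e]
  exact h

theorem le_tau_topLevel (n : ℕ) (d : ℕ → ℕ → ℕ) : ∀ u < n, ∀ w < n, d u w ≤ tau (topLevel n d) := by
  intro u hu w hw
  unfold tau topLevel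
  set l := (List.range n).flatMap fun u => (List.range n).map fun v => d u v with hl
  have h1 : d u w ∈ l := by
    rw [hl, List.mem_flatMap]
    refine ⟨u, List.mem_range.2 hu, ?_⟩
    rw [List.mem_map]
    exact ⟨w, List.mem_range.2 hw, rfl⟩
  have h2 := runF_aux_mem_le_sum h1
  have h3 := Nat.lt_size_self l.sum
  rw [pow_succ, Nat.mul_div_cancel _ (by norm_num)]
  omega

theorem ptas_ends (n : ℕ) (d : ℕ → ℕ → ℕ) {T : List ℕ} (hT : ∀ v ∈ T, v < n) (tsp : Bool)
    (L s k J : ℕ) : ∀ x ∈ ends (ptas n d T tsp L s k J), x < n := by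
  intro x hx
  unfold ptas at hx
  by_cases hl : ((List.range k).map fun i => total n d T tsp L s k J i) = []
  · rw [hl] at hx
    simp [pick, ends] at hx
  obtain ⟨h1, -⟩ := pick_spec (d := d) hl
  obtain ⟨i, -, hi⟩ := List.mem_map.1 h1
  rw [← hi] at hx
  obtain ⟨e, he, hxe⟩ := runF_aux_mem_ends.1 hx
  unfold total at he
  rcases List.mem_append.1 he with he | he
  · unfold zeros at he
    obtain ⟨v, hv, hev⟩ := List.mem_flatMap.1 he
    have hvn := hT v hv
    have hrn : rp n d T 0 v < n := mem_clu_lt (rp_mem hvn)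
    simp only [List.mem_cons, List.not_mem_nil, or_false, or_self] at hev
    subst hev
    rcases hxe with rfl | rfl
    · exact hvn
    · exact hrn
  · obtain ⟨j, -, hej⟩ := List.mem_flatMap.1 he
    unfold band at hej
    obtain ⟨q, hq, heq⟩ := List.mem_flatMap.1 hej
    have hqn : q < n := by
      unfold reps at hq
      exact List.mem_range.1 (List.mem_filter.1 hq).1
    apply solve_ends s (bandU n d T k j q) (bandR n d T k j q) [q] ?_ ?_ x
      (runF_aux_mem_ends.2 ⟨e, heq, hxe⟩)
    · intro y hy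
      unfold bandU at hy
      exact List.mem_range.1 (List.mem_filter.1 hy).1
    · intro y hy
      rw [List.mem_singleton.1 hy]
      exact hqn

theorem length_code (X : WGraph n) : X.code.length = n := by
  simp [WGraph.code]

/-- correctness of `runF` -/
theorem runF_spec (h : ℕ) {C ε : ℝ} (hC : 0 ≤ C) (hε : 0 < ε) : ∃ k L s : ℕ,
    ∀ (f : List (List (Option ℕ)) → List (List (List ℕ))) (n : ℕ) (X : WGraph n) (T : List ℕ)
      (tsp : Bool), IsTable (clear X.code) (f (clear X.code)) → X.highwayDim ≤ h → X.Confined C →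
      (∀ v ∈ T, v < n) →
      (∀ x ∈ ends (runF f tsp L s k X.code T), x < n) ∧ AllGood tsp (runF f tsp L s k X.code T) T ∧
      ∀ F : List Edge, (∀ e ∈ F, e.1 < n ∧ e.2 < n) → AllGood tsp F T →
        (cost (tdist (clear X.code) (f (clear X.code))) (runF f tsp L s k X.code T) : ℝ) ≤
          (1 + ε) * (cost (tdist (clear X.code) (f (clear X.code))) F : ℝ) := by
  obtain ⟨k, L, s, hk, H⟩ := metric_ptas h hC hε
  refine ⟨k, L, s, ?_⟩
  intro f n X T tsp htab hh hconf hT
  have hlen := length_code X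
  have h1 := H n (tdist (clear X.code) (f (clear X.code))) T tsp
    (topLevel n (tdist (clear X.code) (f (clear X.code)))) (nmet X htab)
    (hc_of_highwayDim X htab hh) ?_ hT (le_tau_topLevel _ _)
  · unfold runF
    rw [hlen]
    exact ⟨ptas_ends n _ hT tsp L s k _, h1.1, h1.2⟩
  · intro t u w hu hw
    apply conf_of_confined X htab hconf t hu
    unfold clu at hw
    obtain ⟨s', hs', -, hr⟩ := mem_clos.1 hw
    rw [List.mem_singleton.1 hs'] at hr
    refine Relation.ReflTransGen.mono (r := fun a b => b ∈ List.range n ∧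
      tdist (clear X.code) (f (clear X.code)) a b ≤ t) ?_ _ _ hr
    intro a b hab
    exact ⟨List.mem_range.1 hab.1, hab.2⟩

theorem poly_clear : NPC.Poly (fun M : List (List (Option ℚ)) => clear M) := by
  unfold clear
  have hc : NPC.Poly (fun M : List (List (Option ℚ)) => comden M) := by
    unfold comden
    refine runF_aux_prod (NPC.Poly.map (F := fun _ (o : Option ℚ) => (o.getD 0).den)
      (NPC.Poly.flatten NPC.Poly.id) ?_)
    exact H670R2.poly_den (NPC.Poly.optGetD (NPC.Poly.snd NPC.Poly.id) (NPC.Poly.const _))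
  refine NPC.Poly.map (F := fun (M : List (List (Option ℚ))) (r : List (Option ℚ)) =>
    r.map fun o => o.map fun q => q.num.toNat * (comden M / q.den)) NPC.Poly.id ?_
  refine NPC.Poly.map (F := fun (p : List (List (Option ℚ)) × List (Option ℚ)) (o : Option ℚ) =>
    o.map fun q => q.num.toNat * (comden p.1 / q.den)) (NPC.Poly.snd NPC.Poly.id) ?_
  refine NPC.Poly.optMap_fp
    (h := fun (p : (List (List (Option ℚ)) × List (Option ℚ)) × Option ℚ) (q : ℚ) =>
      q.num.toNat * (comden p.1.1 / q.den)) (NPC.Poly.snd NPC.Poly.id) ?_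
  exact NPC.Poly.mul (NPC.Poly.toNat (H670R2.poly_num (NPC.Poly.snd NPC.Poly.id)))
    (NPC.Poly.div (hc.comp (NPC.Poly.fst (NPC.Poly.fst (NPC.Poly.fst NPC.Poly.id))))
      (H670R2.poly_den (NPC.Poly.snd NPC.Poly.id)))

theorem poly_tget {α : Type} [TEnc α] {tab : α → List (List (List ℕ))} {n u v : α → ℕ}
    (ht : NPC.Poly tab) (hn : NPC.Poly n) (hu : NPC.Poly u) (hv : NPC.Poly v) :
    NPC.Poly (fun a => tget (tab a) (n a) (u a) (v a)) := by
  unfold tget
  have h1 : NPC.Poly (fun a => n a - 1) := NPC.Poly.sub hn (NPC.Poly.const _)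
  exact NPC.Poly.getD (NPC.Poly.getD ht (NPC.Poly.min hu h1) (NPC.Poly.const _))
    (NPC.Poly.min hv h1) (NPC.Poly.const _)

theorem runF_aux_top {α : Type} [TEnc α] {n : α → ℕ} {d : α → ℕ → ℕ → ℕ} (hn : UPoly n)
    (hd : NPC.Poly (fun p : α × ℕ × ℕ => d p.1 p.2.1 p.2.2)) :
    UPoly (fun a => topLevel (n a) (d a)) := by
  unfold topLevel
  refine UPoly.add (runF_aux_size (NPC.Poly.sum ?_)) (UPoly.const 1)
  refine NPC.Poly.flatMap (F := fun (a : α) (u : ℕ) =>
    (List.range (n a)).map fun v => d a u v) hn.range ?_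
  refine NPC.Poly.map (F := fun (q : α × ℕ) (v : ℕ) => d q.1 q.2 v)
    (hn.range.comp (NPC.Poly.fst NPC.Poly.id)) ?_
  exact hd.comp (NPC.Poly.pair (NPC.Poly.fst (NPC.Poly.fst NPC.Poly.id))
    (NPC.Poly.pair (NPC.Poly.snd (NPC.Poly.fst NPC.Poly.id)) (NPC.Poly.snd NPC.Poly.id)))

theorem runF_aux_tdist {α : Type} [TEnc α] {N : α → List (List (Option ℕ))}
    {tab : α → List (List (List ℕ))} (hN : NPC.Poly N) (ht : NPC.Poly tab) :
    NPC.Poly (fun p : α × ℕ × ℕ => tdist (N p.1) (tab p.1) p.2.1 p.2.2) := by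
  unfold tdist
  have hc : NPC.Poly (fun p : α × ℕ × ℕ => N p.1) := hN.comp (NPC.Poly.fst NPC.Poly.id)
  have ht' : NPC.Poly (fun p : α × ℕ × ℕ => tab p.1) := ht.comp (NPC.Poly.fst NPC.Poly.id)
  exact runF_aux_wsum hc (poly_tget ht' (NPC.Poly.length hc)
      (NPC.Poly.fst (NPC.Poly.snd NPC.Poly.id)) (NPC.Poly.snd (NPC.Poly.snd NPC.Poly.id)))

/-- polynomial time of `runF` and of the table -/
theorem poly_runF {f : List (List (Option ℕ)) → List (List (List ℕ))} (hf : NPC.Poly f)
    (tsp : Bool) (L s k : ℕ) : NPC.Poly (fun p : List (List (Option ℚ)) × List ℕ =>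
      runF f tsp L s k p.1 p.2) := by
  have hM : NPC.Poly (fun p : List (List (Option ℚ)) × List ℕ => p.1) :=
    NPC.Poly.fst NPC.Poly.id
  have hn : UPoly (fun p : List (List (Option ℚ)) × List ℕ => p.1.length) := UPoly.length hM
  have hc : NPC.Poly (fun p : List (List (Option ℚ)) × List ℕ => clear p.1) :=
    poly_clear.comp hM
  have hd := runF_aux_tdist hc (hf.comp hc)
  have hJ := runF_aux_top (d := fun (p : List (List (Option ℚ)) × List ℕ) =>
    tdist (clear p.1) (f (clear p.1))) hn hd
  have hT : NPC.Poly (fun p : List (List (Option ℚ)) × List ℕ => p.2) :=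
    NPC.Poly.snd NPC.Poly.id
  have h := poly_ptas (d := fun (p : List (List (Option ℚ)) × List ℕ) =>
    tdist (clear p.1) (f (clear p.1))) hn hJ hd hT tsp L s k
  unfold runF
  exact h

end Pool.Agent.H703
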