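import Pool.Agent.H703.GraphDefs
import Pool.Agent.H703.TableDefs

/-!
# From weighted graphs to matrices

Proofs written by helper489 from the plan of helper703.
-/

set_option autoImplicit false

namespace Pool.Agent.H703

namespace WGraph

variable {n : ℕ} (X : WGraph n)

end WGraph

/-
PROOF IN WORDS.  `N = clear X.code` has `n` rows and columns; `ent N u v = some (D * X.weight u v)` for adjacent `u, v < n` (as natural
number; `D = comden X.code`, every denominator divides `D`, weights are `≥ 0`) and `none` otherwise.
`walk_to_list`, `list_to_walk`: induction on the walk / on the list.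
`exists_isWalk`: from connectedness.  `table_walk`, `tdist_eq`: the infimum over walks is attained by the table walk (lengths are
bounded below by `0`).
-/

variable {n : ℕ}

/-! ### Auxiliary lemmas -/

theorem comden_pos (X : WGraph n) : 0 < comden X.code := by
  unfold comden
  refine List.prod_pos fun a ha => ?_
  obtain ⟨o, _, rfl⟩ := List.mem_map.1 ha
  exact (o.getD 0).den_pos

theorem length_clear (X : WGraph n) : (clear X.code).length = n := by
  unfold clear WGraph.code
  simp

theorem ent_clear (X : WGraph n) (u v : Fin n) [Decidable (X.graph.Adj u v)] :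
    ent (clear X.code) u v = if X.graph.Adj u v then
      some ((X.weight u v).num.toNat * (comden X.code / (X.weight u v).den)) else none := by
  classical
  unfold ent clear
  rw [List.getD_eq_getElem?_getD, List.getD_eq_getElem?_getD, List.getElem?_map]
  have e0 : X.code[(u : ℕ)]? = some (List.ofFn fun v : Fin n =>
      if X.graph.Adj u v then some (X.weight u v) else none) := by
    unfold WGraph.code
    rw [List.getElem?_ofFn, dif_pos u.2]
  rw [e0]
  simp only [Option.map_some, Option.getD_some, List.getElem?_map]
  rw [List.getElem?_ofFn, dif_pos v.2]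
  simp only [Option.map_some, Option.getD_some, Fin.eta]
  by_cases h : X.graph.Adj u v
  · rw [if_pos h, if_pos h]
    rfl
  · rw [if_neg h, if_neg h]
    rfl

theorem ent_adj (X : WGraph n) {u v : Fin n} (h : X.graph.Adj u v) :
    ent (clear X.code) u v =
      some ((X.weight u v).num.toNat * (comden X.code / (X.weight u v).den)) := by
  classical
  rw [ent_clear, if_pos h]

theorem adj_of_ent (X : WGraph n) {u v : Fin n} (h : (ent (clear X.code) u v).isSome = true) :
    X.graph.Adj u v := by
  classical
  by_contra hn
  rw [ent_clear, if_neg hn] at h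
  simp at h

theorem den_dvd (X : WGraph n) {u v : Fin n} (h : X.graph.Adj u v) :
    (X.weight u v).den ∣ comden X.code := by
  classical
  unfold comden
  refine List.dvd_prod (List.mem_map.2 ⟨some (X.weight u v), ?_, rfl⟩)
  rw [List.mem_flatten]
  unfold WGraph.code
  refine ⟨_, List.mem_ofFn.2 ⟨u, rfl⟩, List.mem_ofFn.2 ⟨v, ?_⟩⟩
  rw [if_pos h]

theorem wt_adj (X : WGraph n) {u v : Fin n} (h : X.graph.Adj u v) :
    (wt (clear X.code) u v : ℚ) = comden X.code * X.weight u v := by
  unfold wt
  rw [ent_adj X h, Option.getD_some]
  obtain ⟨k, hk⟩ := den_dvd X h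
  have hd : 0 < (X.weight u v).den := (X.weight u v).den_pos
  rw [hk, Nat.mul_div_cancel_left _ hd]
  push_cast
  have h1 : (((X.weight u v).num.toNat : ℕ) : ℚ) = ((X.weight u v).num : ℚ) := by
    have h2 : 0 ≤ (X.weight u v).num := Rat.num_nonneg.2 (X.nonneg u v)
    have h3 : (((X.weight u v).num.toNat : ℕ) : ℤ) = (X.weight u v).num := Int.toNat_of_nonneg h2
    exact_mod_cast h3
  rw [h1]
  have h4 : ((X.weight u v).den : ℚ) * X.weight u v = (X.weight u v).num := by
    have := Rat.mul_den_eq_num (X.weight u v)
    rw [mul_comm]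
    exact this
  rw [← h4]
  ring

theorem wsum_cons (d : ℕ → ℕ → ℕ) (a b : ℕ) (t : List ℕ) :
    wsum d (a :: b :: t) = d a b + wsum d (b :: t) := by
  unfold wsum
  simp

theorem sup_eq (l : List (Fin n)) :
    (List.map (fun x : ℕ => x) (do let a ← l; pure (a : ℕ))) = l.map Fin.val := by
  induction l with
  | nil => rfl
  | cons a l ih =>
    have h : (List.map (fun x : ℕ => x) (do let a ← (a :: l); pure (a : ℕ))) =
        (a : ℕ) :: (List.map (fun x : ℕ => x) (do let a ← l; pure (a : ℕ))) := by
      simp
    rw [h, ih, List.map_cons]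

theorem walk_to_list_aux (X : WGraph n) {u v : Fin n} (p : X.graph.Walk u v) :
    IsWalk (clear X.code) u v (p.support.map Fin.val) ∧
      (wsum (wt (clear X.code)) (p.support.map Fin.val) : ℚ) =
        comden X.code * X.len p := by
  induction p with
  | @nil a =>
    refine ⟨⟨by simp, by simp, by simp, ?_⟩, ?_⟩
    · intro x hx
      rw [length_clear]
      simp at hx
      rw [hx]
      exact a.2
    · simp [wsum, WGraph.len]
  | @cons a b c h q ih =>
    obtain ⟨ih1, ih2⟩ := ih
    obtain ⟨t, ht⟩ : ∃ t, q.support.map Fin.val = (b : ℕ) :: t := by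
      rw [← SimpleGraph.Walk.cons_tail_support q]
      exact ⟨_, rfl⟩
    rw [SimpleGraph.Walk.support_cons, List.map_cons]
    rw [ht] at ih1 ih2 ⊢
    refine ⟨⟨rfl, ?_, ?_, ?_⟩, ?_⟩
    · rw [List.getLast?_cons_cons]
      exact ih1.last
    · intro e he
      simp only [List.tail_cons, List.zip_cons_cons, List.mem_cons] at he
      rcases he with rfl | he
      · rw [ent_adj X h]
        rfl
      · exact ih1.chain e he
    · intro x hx
      rcases List.mem_cons.1 hx with rfl | hx
      · rw [length_clear]; exact a.2
      · exact ih1.lt x hx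
    · rw [wsum_cons]
      push_cast
      rw [ih2, wt_adj X h]
      have : X.len (SimpleGraph.Walk.cons h q) = X.weight a b + X.len q := by
        unfold WGraph.len
        rw [SimpleGraph.Walk.darts_cons, List.map_cons, List.sum_cons]
      rw [this]
      ring

theorem walk_to_list (X : WGraph n) {u v : Fin n} (p : X.graph.Walk u v) :
    IsWalk (clear X.code) u v (p.support.map Fin.val) ∧
      (wsum (wt (clear X.code)) (p.support.map Fin.val) : ℚ) =
        comden X.code * X.len p := by
  exact walk_to_list_aux X p

theorem list_to_walk_aux (X : WGraph n) {v : Fin n} (l : List ℕ) : ∀ u : Fin n,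
    IsWalk (clear X.code) u v l →
    ∃ p : X.graph.Walk u v, p.support.map Fin.val = l := by
  induction l with
  | nil =>
    intro u hl
    have := hl.head
    simp at this
  | cons a t ih =>
    intro u hl
    have ha : a = u := by
      have := hl.head
      simpa using this
    subst ha
    cases t with
    | nil =>
      have h1 : u = v := by
        have := hl.last
        simp only [List.getLast?_singleton, Option.some.injEq] at this
        exact Fin.ext this
      subst h1
      exact ⟨SimpleGraph.Walk.nil, by simp⟩
    | cons b t =>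
      have hb : b < n := by
        have := hl.lt b (by simp)
        rwa [length_clear] at this
      have hw : IsWalk (clear X.code) ((⟨b, hb⟩ : Fin n) : ℕ) v (b :: t) := by
        refine ⟨rfl, ?_, ?_, ?_⟩
        · have := hl.last
          rwa [List.getLast?_cons_cons] at this
        · intro e he
          refine hl.chain e ?_
          simp only [List.tail_cons, List.zip_cons_cons, List.mem_cons] at he ⊢
          exact Or.inr he
        · intro x hx
          exact hl.lt x (List.mem_cons_of_mem _ hx)
      obtain ⟨p, hp⟩ := ih ⟨b, hb⟩ hw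
      have hadj : X.graph.Adj u ⟨b, hb⟩ := by
        apply adj_of_ent X
        exact hl.chain ((u : ℕ), b) (by simp)
      refine ⟨SimpleGraph.Walk.cons hadj p, ?_⟩
      rw [SimpleGraph.Walk.support_cons, List.map_cons, hp]

theorem list_to_walk (X : WGraph n) {u v : Fin n} {l : List ℕ}
    (hl : IsWalk (clear X.code) u v l) :
    ∃ p : X.graph.Walk u v, (p.support.map Fin.val) = l := by
  obtain ⟨p, hp⟩ := list_to_walk_aux X l u hl
  exact ⟨p, hp⟩

theorem exists_isWalk (X : WGraph n) {u v : ℕ} (hu : u < n) (hv : v < n) :
    ∃ l, IsWalk (clear X.code) u v l := by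
  obtain ⟨p⟩ := X.connected.preconnected ⟨u, hu⟩ ⟨v, hv⟩
  exact ⟨_, (walk_to_list X p).1⟩

theorem len_nonneg (X : WGraph n) {u v : Fin n} (p : X.graph.Walk u v) : 0 ≤ X.len p := by
  unfold WGraph.len
  refine List.sum_nonneg fun a ha => ?_
  obtain ⟨e, _, rfl⟩ := List.mem_map.1 ha
  exact X.nonneg _ _

theorem len_bdd (X : WGraph n) (u v : Fin n) :
    BddBelow (Set.range fun p : X.graph.Walk u v => (X.len p : ℝ)) := by
  refine ⟨0, ?_⟩
  rintro _ ⟨p, rfl⟩
  show (0 : ℝ) ≤ (X.len p : ℝ)
  exact_mod_cast len_nonneg X p

/-- The table walk as a walk of the graph, of minimal length. -/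
theorem table_walk (X : WGraph n) {tab : List (List (List ℕ))} (ht : IsTable (clear X.code) tab)
    (u v : Fin n) : ∃ p : X.graph.Walk u v,
      (p.support.map Fin.val) = tget tab (clear X.code).length u v ∧
      (∀ q : X.graph.Walk u v, X.len p ≤ X.len q) ∧ (X.dist u v = X.len p) ∧
      (tdist (clear X.code) tab u v : ℚ) = comden X.code * X.len p := by
  have hu : (u : ℕ) < (clear X.code).length := by rw [length_clear]; exact u.2
  have hv : (v : ℕ) < (clear X.code).length := by rw [length_clear]; exact v.2
  obtain ⟨h1, h2⟩ := ht u v hu hv (exists_isWalk X u.2 v.2)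
  obtain ⟨p, hp⟩ := list_to_walk X h1
  have hD : (0 : ℚ) < comden X.code := by exact_mod_cast comden_pos X
  have h3 := (walk_to_list X p).2
  rw [hp] at h3
  have h4 : ∀ q : X.graph.Walk u v, X.len p ≤ X.len q := by
    intro q
    have h5 := h2 _ (walk_to_list X q).1
    have h6 : (wsum (wt (clear X.code)) (tget tab (clear X.code).length u v) : ℚ) ≤
        (wsum (wt (clear X.code)) (q.support.map Fin.val) : ℚ) := by exact_mod_cast h5
    rw [h3, (walk_to_list X q).2] at h6
    exact le_of_mul_le_mul_left h6 hD
  refine ⟨p, hp, h4, ?_, h3⟩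
  have : Nonempty (X.graph.Walk u v) := ⟨p⟩
  refine le_antisymm (ciInf_le (len_bdd X u v) p) (le_ciInf fun q => ?_)
  exact_mod_cast h4 q

theorem tdist_eq (X : WGraph n) {tab : List (List (List ℕ))} (ht : IsTable (clear X.code) tab)
    (u v : Fin n) : (tdist (clear X.code) tab u v : ℝ) = comden X.code * X.dist u v := by
  obtain ⟨p, _, _, h1, h2⟩ := table_walk X ht u v
  rw [h1]
  exact_mod_cast congrArg (fun q : ℚ => (q : ℝ)) h2

theorem dist_le_len (X : WGraph n) {u v : Fin n} (p : X.graph.Walk u v) :
    X.dist u v ≤ (X.len p : ℝ) :=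
  ciInf_le (len_bdd X u v) p

end Pool.Agent.H703
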