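import Mathlib

/-!
# Weighted graphs, highway dimension, tours and Steiner trees
-/

set_option autoImplicit false

namespace Pool.Agent.H703

/-- A connected graph on the vertices `0, …, n-1` with non-negative rational edge weights (only the
weights of edges matter). -/
structure WGraph (n : ℕ) where
  /-- the graph -/
  graph : SimpleGraph (Fin n)
  /-- the weights -/
  weight : Fin n → Fin n → ℚ
  symm : ∀ u v, weight u v = weight v u
  nonneg : ∀ u v, 0 ≤ weight u v
  connected : graph.Connected

namespace WGraph

variable {n : ℕ} (X : WGraph n)

/-- The length of a walk: the sum of the weights of its steps. -/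
def len {u v : Fin n} (p : X.graph.Walk u v) : ℚ :=
  (p.darts.map fun e => X.weight e.fst e.snd).sum

/-- The distance of two vertices: the infimum (minimum) of the lengths of the walks between them. -/
noncomputable def dist (u v : Fin n) : ℝ := ⨅ p : X.graph.Walk u v, (X.len p : ℝ)

/-- A shortest path: a path of smallest length among all walks with the same end points. -/
def IsShortest {u v : Fin n} (p : X.graph.Walk u v) : Prop :=
  p.IsPath ∧ ∀ q : X.graph.Walk u v, X.len p ≤ X.len q

/-- `S` is a shortest path cover for scale `r`: it meets every shortest path of length in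
`(r, 2r]`. -/
def IsCover (r : ℝ) (S : Finset (Fin n)) : Prop :=
  ∀ (u v : Fin n) (p : X.graph.Walk u v), X.IsShortest p → r < (X.len p : ℝ) →
    (X.len p : ℝ) ≤ 2 * r → ∃ x ∈ S, x ∈ p.support

open Classical in
/-- `S` is locally `h`-sparse for scale `r`: every ball of radius `2r` has at most `h` points of
`S`. -/
def IsSparse (h : ℕ) (r : ℝ) (S : Finset (Fin n)) : Prop :=
  ∀ v : Fin n, (S.filter fun x => X.dist v x ≤ 2 * r).card ≤ h

/-- The highway dimension: the least `h` such that for every scale `r > 0` there is a locally
`h`-sparse shortest path cover. -/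
noncomputable def highwayDim : ℕ :=
  sInf {h | ∀ r : ℝ, 0 < r → ∃ S : Finset (Fin n), X.IsCover r S ∧ X.IsSparse h r S}

open Classical in
/-- The code of a weighted graph: its weight matrix, with `none` for non-adjacent pairs. -/
noncomputable def code : List (List (Option ℚ)) :=
  List.ofFn fun u : Fin n => List.ofFn fun v : Fin n =>
    if X.graph.Adj u v then some (X.weight u v) else none

/-- A closed walk is a tour if it visits every vertex. -/
def IsTour {v : Fin n} (p : X.graph.Walk v v) : Prop := ∀ u, u ∈ p.support

open Classical in
/-- The weight of a subgraph: the sum of the weights of its edges (every edge once). -/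
noncomputable def subWeight (H : X.graph.Subgraph) : ℚ :=
  ∑ e ∈ (Finset.univ : Finset (Fin n × Fin n)).filter (fun e => e.1 < e.2 ∧ H.Adj e.1 e.2),
    X.weight e.1 e.2

open Classical in
/-- The code of a subgraph: the list of its vertices and the list of its edges `(u, v)`, `u < v`. -/
noncomputable def subCode (H : X.graph.Subgraph) : List ℕ × List (ℕ × ℕ) :=
  (((List.finRange n).filter fun v => decide (v ∈ H.verts)).map Fin.val,
    (((List.finRange n).product (List.finRange n)).filter fun e =>
      decide (e.1 < e.2 ∧ H.Adj e.1 e.2)).map fun e => (e.1.val, e.2.val))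

/-- `X` is `C`-confined: two vertices joined by a walk all of whose edges have weight at most `ρ`
are at distance at most `C ρ`. -/
def Confined (C : ℝ) : Prop :=
  ∀ (ρ : ℝ) (u v : Fin n) (p : X.graph.Walk u v), 0 ≤ ρ →
    (∀ e ∈ p.darts, (X.weight e.fst e.snd : ℝ) ≤ ρ) → X.dist u v ≤ C * ρ

end WGraph

end Pool.Agent.H703
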