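import Pool.Agent.H703.Table
import Pool.Agent.H703.GraphB
import Pool.Agent.H703.Confine

/-!
# Graphs of highway dimension at most two are confined
-/

set_option autoImplicit false

namespace Pool.Agent.H703

variable {n : ℕ}

theorem confined_of_two (X : WGraph n) (hX : X.highwayDim ≤ 2) : X.Confined 56 := by
  classical
  obtain ⟨f, -, hft⟩ := exists_table
  have ht := hft (clear X.code)
  have hc := hc_of_highwayDim X ht hX
  have hmet : PMet (dR (tdist (clear X.code) (f (clear X.code)))) := (nmet X ht).toPMet
  have hD : (0 : ℝ) < comden X.code := by exact_mod_cast comden_pos X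
  intro ρ u v p hρ hp
  have key := confinement hmet hc (ρ := comden X.code * ρ) (by positivity) p.length
    (fun i => ((p.getVert i : Fin n) : ℕ)) (fun i _ => (p.getVert i).2) (fun i hi => by
      have hadj := p.adj_getVert_succ hi
      have hstep : X.dist (p.getVert i) (p.getVert (i + 1)) ≤ X.weight (p.getVert i)
          (p.getVert (i + 1)) := by
        have := dist_le_len X (SimpleGraph.Walk.cons hadj SimpleGraph.Walk.nil)
        rwa [len_cons, len_nil, add_zero] at this
      have hw : (X.weight (p.getVert i) (p.getVert (i + 1)) : ℝ) ≤ ρ := by
        have hmem : (⟨(p.getVert i, p.getVert (i + 1)), hadj⟩ : X.graph.Dart) ∈ p.darts := by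
          have h1 : i < p.darts.length := by rwa [SimpleGraph.Walk.length_darts]
          rw [← SimpleGraph.Walk.darts_getElem_eq_getVert i h1]
          exact List.getElem_mem h1
        exact hp _ hmem
      have e := tdist_real X ht (p.getVert i) (p.getVert (i + 1))
      rw [cut_of_lt X (p.getVert i).2, cut_of_lt X (p.getVert (i + 1)).2] at e
      unfold dR
      rw [e]
      exact mul_le_mul_of_nonneg_left (hstep.trans hw) hD.le)
  have e := tdist_real X ht u v
  rw [cut_of_lt X u.2, cut_of_lt X v.2] at e
  simp only [SimpleGraph.Walk.getVert_zero, SimpleGraph.Walk.getVert_length] at key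
  unfold dR at key
  rw [e] at key
  have h2 : comden X.code * X.dist u v ≤ comden X.code * (56 * ρ) := by
    have : (56 : ℝ) * (comden X.code * ρ) = comden X.code * (56 * ρ) := by ring
    rw [this] at key
    exact key
  exact le_of_mul_le_mul_left h2 hD

end Pool.Agent.H703
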