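import Pool.Agent.H703.Clos

/-!
# Undoing a contraction

Proofs written by helper733 from the plan of helper703.
-/

set_option autoImplicit false

namespace Pool.Agent.H703

/-
PROOF IN WORDS.  `E = [(z, a)]` or `E = [(z, a), (z, a)]`.  Every terminal `t ∈ R`, `t ≠ z`, is connected in `F` to an element of `z :: A`;
if this element is `z`, use the edge to `a`.  `z` itself is connected by the edge.  Degrees: a vertex `v ∉ A`, `v ≠ z`, is not
`a`, so its degree in `E ++ F` is its degree in `F`, even.  If `z ∉ A`, choose the number of copies such that the degree of `z`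
becomes even (`z ≠ a` in this case).
-/

theorem a4_adj_mono {E F : List Edge} {x y : ℕ} (h : adj F x y) : adj (E ++ F) x y := by
  rcases h with h | h
  · exact Or.inl (List.mem_append_right E h)
  · exact Or.inr (List.mem_append_right E h)

theorem a4_joined {E F : List Edge} {A R R' : List ℕ} {z a : ℕ} (ha : a ∈ A) (hE : (z, a) ∈ E)
    (hR : ∀ x ∈ R, x = z ∨ x ∈ R') (h : ∀ t ∈ R', Joined F (z :: A) t) :
    ∀ t ∈ R, Joined (E ++ F) A t := by
  have hz : adj (E ++ F) a z := Or.inr (List.mem_append_left F hE)
  intro t ht
  rcases hR t ht with rfl | ht'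
  · exact ⟨a, ha, Relation.ReflTransGen.single hz⟩
  · obtain ⟨b, hb, hbt⟩ := h t ht'
    have hbt' : Relation.ReflTransGen (adj (E ++ F)) b t :=
      Relation.ReflTransGen.lift id (fun x y hxy => a4_adj_mono hxy) b t hbt
    rcases List.mem_cons.1 hb with rfl | hb'
    · exact ⟨a, ha, Relation.ReflTransGen.head hz hbt'⟩
    · exact ⟨b, hb', hbt'⟩

theorem a4_ends_append (E F : List Edge) : ends (E ++ F) = ends E ++ ends F := by
  simp [ends]

/-- undoing the contraction of `z`. -/
theorem link {d : ℕ → ℕ → ℕ} {tsp : Bool} {F : List Edge} {R A R' : List ℕ} {z a : ℕ} (ha : a ∈ A)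
    (hR : ∀ x ∈ R, x = z ∨ x ∈ R') (hG : Good tsp F R' (z :: A)) :
    ∃ E ∈ links z A, Good tsp (E ++ F) R A ∧ cost d E ≤ 2 * d z a := by
  classical
  have hcount : ∀ v, v ∉ A → v ≠ z → ∀ E : List Edge, (E = [(z, a)] ∨ E = [(z, a), (z, a)]) →
      (ends E).count v = 0 := by
    intro v hv hvz E hE
    have hva : v ≠ a := fun h => hv (h ▸ ha)
    rw [List.count_eq_zero]
    rcases hE with rfl | rfl <;> simp [ends, hvz, hva]
  by_cases hodd : Even ((ends F).count z)
  · refine ⟨[(z, a), (z, a)], ?_, ⟨a4_joined ha (by simp) hR hG.1, ?_⟩, ?_⟩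
    · simp only [links, List.mem_flatMap]
      exact ⟨a, ha, by simp⟩
    · intro ht v hv
      rw [a4_ends_append, List.count_append]
      by_cases hvz : v = z
      · subst hvz
        have hva : a ≠ v := fun h => hv (h ▸ ha)
        have h2 : (ends [(v, a), (v, a)]).count v = 2 := by
          simp [ends, hva]
        rw [h2]
        exact even_two.add hodd
      · rw [hcount v hv hvz _ (Or.inr rfl), zero_add]
        refine hG.2 ht v ?_
        simp [hv, hvz]
    · simp only [cost, List.map_cons, List.map_nil, List.sum_cons, List.sum_nil]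
      omega
  · refine ⟨[(z, a)], ?_, ⟨a4_joined ha (by simp) hR hG.1, ?_⟩, ?_⟩
    · simp only [links, List.mem_flatMap]
      exact ⟨a, ha, by simp⟩
    · intro ht v hv
      rw [a4_ends_append, List.count_append]
      by_cases hvz : v = z
      · subst hvz
        have hva : a ≠ v := fun h => hv (h ▸ ha)
        have h2 : (ends [(v, a)]).count v = 1 := by
          simp [ends, hva]
        rw [h2]
        rw [Nat.not_even_iff_odd] at hodd
        exact odd_one.add_odd hodd
      · rw [hcount v hv hvz _ (Or.inl rfl), zero_add]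
        refine hG.2 ht v ?_
        simp [hv, hvz]
    · simp only [cost, List.map_cons, List.map_nil, List.sum_cons, List.sum_nil]
      omega

end Pool.Agent.H703
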