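import Pool.Agent.H703.Split
import Pool.Agent.H703.Brute
import Pool.Agent.H703.Link

/-!
# Correctness of the algorithm for one band

Proofs written by helper230 from the plan of helper703.
-/

set_option autoImplicit false

namespace Pool.Agent.H703

variable {V : Type}

theorem mem_compL' {d : ℕ → ℕ → ℕ} {A U : List ℕ} {u x : ℕ} :
    x ∈ compL d A U u ↔
      u ∈ U ∧ Relation.ReflTransGen (fun a b => b ∈ U ∧ relN d A a b) u x := by
  unfold compL
  rw [mem_clos]
  constructor
  · rintro ⟨s, hs, h1, h2⟩
    rw [List.mem_singleton] at hs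
    subst hs
    exact ⟨h1, h2⟩
  · rintro ⟨h1, h2⟩
    exact ⟨u, List.mem_singleton.2 rfl, h1, h2⟩

theorem compL_sub {d : ℕ → ℕ → ℕ} {A U : List ℕ} {u x : ℕ} (h : x ∈ compL d A U u) : x ∈ U := by
  obtain ⟨h1, h2⟩ := mem_compL'.1 h
  rcases Relation.ReflTransGen.cases_tail h2 with h3 | ⟨y, _, h3⟩
  · rw [h3]; exact h1
  · exact h3.1

theorem compL_nodup {d : ℕ → ℕ → ℕ} {A U : List ℕ} {u : ℕ} (h : U.Nodup) :
    (compL d A U u).Nodup := by
  classical
  unfold compL clos
  cases hn : U.length with
  | zero => exact h.filter _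
  | succ k =>
    rw [Function.iterate_succ_apply']
    exact h.filter _

theorem compL_comp {d : ℕ → ℕ → ℕ} {A U : List ℕ} {u : ℕ} (h : u ∈ U) :
    comp (dR d) {x | x ∈ A} {x | x ∈ U} u = {x | x ∈ compL d A U u} := by
  have hr : ∀ a b, rel (dR d) {x | x ∈ A} a b ↔ relN d A a b := by
    intro a b
    unfold rel relN dR
    constructor
    · intro h1 x hx y hy
      have := h1 x hx y hy
      exact_mod_cast this
    · intro h1 x hx y hy
      have := h1 x hx y hy
      show (d a b : ℝ) < d a x + d b y
      exact_mod_cast this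
  ext x
  show Relation.ReflTransGen _ u x ↔ x ∈ compL d A U u
  rw [mem_compL']
  simp only [hr, h, true_and]
  rfl

theorem joined_mono {F F' : List Edge} {A A' : List ℕ} {t : ℕ} (h : Joined F A t)
    (hF : ∀ e ∈ F, e ∈ F') (hA : ∀ a ∈ A, a ∈ A') : Joined F' A' t := by
  obtain ⟨a, ha, h1⟩ := h
  have h2 : adj F ≤ adj F' := by
    intro x y hxy
    rcases hxy with hxy | hxy
    · exact Or.inl (hF _ hxy)
    · exact Or.inr (hF _ hxy)
  exact ⟨a, hA a ha, Relation.ReflTransGen.mono h2 a t h1⟩

theorem cost_flatMap {d : ℕ → ℕ → ℕ} (l : List ℕ) (f : ℕ → List Edge) :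
    cost d (l.flatMap f) = (l.map fun u => cost d (f u)).sum := by
  induction l with
  | nil => rfl
  | cons a l ih =>
    rw [List.flatMap_cons, List.map_cons, List.sum_cons, ← ih]
    unfold cost
    rw [List.map_append, List.sum_append]

theorem cost_append {d : ℕ → ℕ → ℕ} (E F : List Edge) :
    cost d (E ++ F) = cost d E + cost d F := by
  unfold cost
  rw [List.map_append, List.sum_append]

theorem ends_flatMap (l : List ℕ) (f : ℕ → List Edge) :
    ends (l.flatMap f) = l.flatMap fun u => ends (f u) := by
  unfold ends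
  rw [List.flatMap_assoc]

theorem even_flatMap (l : List ℕ) (f : ℕ → List ℕ) (v : ℕ)
    (h : ∀ u ∈ l, Even ((f u).count v)) : Even ((l.flatMap f).count v) := by
  induction l with
  | nil => simp
  | cons a l ih =>
    rw [List.flatMap_cons, List.count_append]
    exact (h a List.mem_cons_self).add (ih fun u hu => h u (List.mem_cons_of_mem _ hu))

theorem good_flatMap {tsp : Bool} {R A l : List ℕ} {f : ℕ → List Edge} {g : ℕ → List ℕ}
    (h : ∀ u ∈ l, Good tsp (f u) (g u) A) (hR : ∀ t ∈ R, ∃ u ∈ l, t ∈ g u) :
    Good tsp (l.flatMap f) R A := by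
  refine ⟨?_, ?_⟩
  · intro t ht
    obtain ⟨u, hu, htu⟩ := hR t ht
    exact joined_mono ((h u hu).1 t htu)
      (fun e he => List.mem_flatMap.2 ⟨u, hu, he⟩) (fun a ha => ha)
  · intro htsp v hv
    rw [ends_flatMap]
    exact even_flatMap _ _ _ fun u hu => (h u hu).2 htsp v hv

open Classical in
/-- the candidates of one step -/
noncomputable def cand (n : ℕ) (d : ℕ → ℕ → ℕ) (tsp : Bool) (L : ℕ)
    (rec : List ℕ → List ℕ → List ℕ → List Edge) (C R A : List ℕ) : List (List Edge) :=
  (seqs (pairsOf (C ++ A)) L ++ (List.range n).flatMap fun z =>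
    (links z A).map fun E => E ++ rec (C.filter fun x => decide (x ≠ z))
      (R.filter fun x => decide (x ≠ z)) (z :: A)).filter fun F => decide (Good tsp F R A)

theorem mem_cand {n : ℕ} {d : ℕ → ℕ → ℕ} {tsp : Bool} {L : ℕ}
    {rec : List ℕ → List ℕ → List ℕ → List Edge} {C R A : List ℕ} {F : List Edge} :
    F ∈ cand n d tsp L rec C R A ↔ (F ∈ seqs (pairsOf (C ++ A)) L ∨ ∃ z < n, ∃ E ∈ links z A,
      F = E ++ rec (C.filter fun x => decide (x ≠ z))
        (R.filter fun x => decide (x ≠ z)) (z :: A)) ∧ Good tsp F R A := by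
  classical
  unfold cand
  rw [List.mem_filter, List.mem_append, List.mem_flatMap]
  simp only [List.mem_map, List.mem_range, decide_eq_true_eq]
  constructor
  · rintro ⟨h | ⟨z, hz, E, hE, rfl⟩, hG⟩
    · exact ⟨Or.inl h, hG⟩
    · exact ⟨Or.inr ⟨z, hz, E, hE, rfl⟩, hG⟩
  · rintro ⟨h | ⟨z, hz, E, hE, rfl⟩, hG⟩
    · exact ⟨Or.inl h, hG⟩
    · exact ⟨Or.inr ⟨z, hz, E, hE, rfl⟩, hG⟩

theorem step_spec {n : ℕ} {d : ℕ → ℕ → ℕ} {tsp : Bool} {L : ℕ}
    {rec : List ℕ → List ℕ → List ℕ → List Edge} {C R A : List ℕ} {F0 : List Edge}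
    (h0 : F0 ∈ cand n d tsp L rec C R A) :
    Good tsp (step n d tsp L rec C R A) R A ∧
      ∀ F ∈ cand n d tsp L rec C R A, cost d (step n d tsp L rec C R A) ≤ cost d F := by
  have hne : cand n d tsp L rec C R A ≠ [] := List.ne_nil_of_mem h0
  obtain ⟨h1, h2⟩ := pick_spec (d := d) hne
  exact ⟨(mem_cand.1 h1).2, h2⟩

/-
PROOF IN WORDS.  Induction on `s`.  `s = 0`: `Dep … 0` says `U` is empty, so `R = []` and the output `[]` is good and costs `0`.
`s + 1`: for `u ∈ tops d A U` let `C = compL d A U u` (a set of points of `U`; `{x | x ∈ C} = comp (dR d) {x | x ∈ A} {x | x ∈ U} u` by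
`mem_clos`; `rel (dR d)` is `relN d` after casting; `C.Nodup` as `clos` is an iterated `filter` of `U` (also for `U.length = 0`)),
`R' = R.filter (· ∈ C)`.  `Dep` gives `z ∈ P` with `Dep s (C \ {z}) (insert z A)`; the induction hypothesis applies to
`C.filter (· ≠ z)`, `R'.filter (· ≠ z)`, `z :: A`.  So with `F1 = solve … s …`, `Good tsp F1 (R'.filter (· ≠ z)) (z :: A)`, and by `link` (with the `a ∈ A` of the
hypothesis on `P`) there is `E ∈ links z A` with `Good tsp (E ++ F1) R' A` and `cost d E ≤ 2 d z a ≤ 2 D1 t`.  So `E ++ F1` is in the candidate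
list of `step`, which is therefore nonempty, and by `pick_spec` the output `S` of `step` is good for `R', A` and not more
expensive than any candidate.
Good for the union: every `t ∈ R` is in `U`, so in `compL d A U v` for some `v ∈ tops` (`mem_tops`); more edges do not disconnect; the degree in a
`flatMap` is the sum of the degrees, a sum of even numbers.
Cost: let `F` be given, `G` from `split`.  For `u ∈ tops` (so `u ∈ U`) we show `cost (step …) ≤ (1 + ε)^(s+1) * cost d (G u)`:
 - if `cost d (G u) ≤ 2 D1 t / ε`: by `brute` (with `hL`: `2 cost / t + 2 |A| ≤ 4 D1 / ε + 2 |A| ≤ L`) some candidate costs `≤ cost d (G u)`.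
 - otherwise `2 D1 t ≤ ε * cost d (G u)`.  `G u` is good for `R'.filter (· ≠ z)`, `z :: A` (a larger contracted set, fewer terminals), with end points
   in `C.filter (· ≠ z)` or `z :: A`; so by the induction hypothesis `cost F1 ≤ (1 + ε)^s cost (G u)`, and the candidate `E ++ F1` costs
   `≤ ε cost (G u) + (1 + ε)^s cost (G u) ≤ (1 + ε)^(s+1) cost (G u)`.
Sum over `tops`.
-/

/-- correctness of the algorithm for one band. -/
theorem solve_spec {n : ℕ} {d : ℕ → ℕ → ℕ} (hd : NMet d) {tsp : Bool} {ε D1 t : ℝ} (hε : 0 < ε)
    (hD : 0 ≤ D1) (ht : 0 < t) {L : ℕ} {P : Set ℕ} (hPn : ∀ z ∈ P, z < n) :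
    ∀ (s : ℕ) (U R A : List ℕ), U.Nodup → A ≠ [] → (∀ x ∈ R, x ∈ U) →
      (∀ u ∈ U, ∀ w ∈ U, u ≠ w → t ≤ (d u w : ℝ)) →
      (∀ z ∈ P, ∃ a ∈ A, (d z a : ℝ) ≤ D1 * t) →
      4 * D1 / ε + 2 * ((A.length : ℝ) + s) ≤ L →
      Dep (dR d) P s {x | x ∈ U} {x | x ∈ A} →
      Good tsp (solve n d tsp L s U R A) R A ∧
        ∀ F : List Edge, (∀ e ∈ F, (e.1 ∈ U ∨ e.1 ∈ A) ∧ (e.2 ∈ U ∨ e.2 ∈ A)) →
          Good tsp F R A →
          (cost d (solve n d tsp L s U R A) : ℝ) ≤ (1 + ε) ^ s * (cost d F : ℝ) := by
  intro s
  induction s with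
  | zero =>
    intro U R A _ _ hRU _ _ _ hdep
    have hU : ∀ x, x ∉ U := by
      intro x hx
      have h1 : ({x | x ∈ U} : Set ℕ) = ∅ := hdep
      exact Set.notMem_empty x (by rw [← h1]; exact hx)
    have hR : ∀ x, x ∉ R := fun x hx => hU x (hRU x hx)
    refine ⟨⟨fun t ht => absurd ht (hR t), fun _ v _ => ?_⟩, fun F _ _ => ?_⟩
    · simp [solve, ends]
    · have h0 : cost d (solve n d tsp L 0 U R A) = 0 := rfl
      rw [h0, Nat.cast_zero]
      positivity
  | succ s ih =>
    intro U R A hU hA hRU hsep hP hL hdep
    have hε1 : (0 : ℝ) ≤ 4 * D1 / ε := by positivity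
    -- one component
    have main : ∀ u ∈ U,
        Good tsp (step n d tsp L (solve n d tsp L s) (compL d A U u)
          (R.filter fun x => decide (x ∈ compL d A U u)) A)
          (R.filter fun x => decide (x ∈ compL d A U u)) A ∧
        ∀ F : List Edge, (∀ e ∈ F, (e.1 ∈ compL d A U u ∨ e.1 ∈ A) ∧
            (e.2 ∈ compL d A U u ∨ e.2 ∈ A)) →
          Good tsp F (R.filter fun x => decide (x ∈ compL d A U u)) A →
          (cost d (step n d tsp L (solve n d tsp L s) (compL d A U u)
            (R.filter fun x => decide (x ∈ compL d A U u)) A) : ℝ) ≤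
            (1 + ε) ^ (s + 1) * (cost d F : ℝ) := by
      intro u hu
      obtain ⟨z, hzP, hz⟩ := hdep u hu
      rw [compL_comp hu] at hz
      set C := compL d A U u with hC
      set R' := R.filter fun x => decide (x ∈ C) with hR'
      have hCU : ∀ x ∈ C, x ∈ U := fun x hx => compL_sub hx
      have hR'C : ∀ x ∈ R', x ∈ C := by
        intro x hx
        have := (List.mem_filter.1 hx).2
        simpa using this
      have e1 : ({x | x ∈ C} \ {z} : Set ℕ) = {x | x ∈ C.filter fun x => decide (x ≠ z)} := by
        ext x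
        simp
      have e2 : (insert z {x | x ∈ A} : Set ℕ) = {x | x ∈ z :: A} := by
        ext x
        simp
      rw [e1, e2] at hz
      have hsepC : ∀ u ∈ C, ∀ w ∈ C, u ≠ w → t ≤ (d u w : ℝ) :=
        fun u hu w hw => hsep u (hCU u hu) w (hCU w hw)
      obtain ⟨ih1, ih2⟩ := ih (C.filter fun x => decide (x ≠ z)) (R'.filter fun x => decide (x ≠ z))
        (z :: A) ((compL_nodup hU).filter _) (List.cons_ne_nil _ _)
        (by
          intro x hx
          rw [List.mem_filter] at hx ⊢
          exact ⟨hR'C x hx.1, hx.2⟩)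
        (by
          intro a ha b hb
          exact hsepC a (List.mem_filter.1 ha).1 b (List.mem_filter.1 hb).1)
        (by
          intro z' hz'
          obtain ⟨a, ha, h1⟩ := hP z' hz'
          exact ⟨a, List.mem_cons_of_mem _ ha, h1⟩)
        (by
          rw [List.length_cons]
          push_cast at hL ⊢
          linarith)
        hz
      obtain ⟨a, ha, hda⟩ := hP z hzP
      have hRR : ∀ x ∈ R', x = z ∨ x ∈ R'.filter fun x => decide (x ≠ z) := by
        intro x hx
        by_cases hxz : x = z
        · exact Or.inl hxz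
        · right
          rw [List.mem_filter]
          exact ⟨hx, by simpa using hxz⟩
      obtain ⟨E, hE, hEG, hEc⟩ := link (d := d) ha hRR ih1
      have hcand := mem_cand (d := d) (L := L) (rec := solve n d tsp L s) (C := C) |>.2
        ⟨Or.inr ⟨z, hPn z hzP, E, hE, rfl⟩, hEG⟩
      obtain ⟨hg, hc⟩ := step_spec hcand
      refine ⟨hg, ?_⟩
      intro F hF hFG
      have hpow : (1 : ℝ) ≤ (1 + ε) ^ s := one_le_pow₀ (by linarith)
      have hpow1 : (1 : ℝ) ≤ (1 + ε) ^ (s + 1) := one_le_pow₀ (by linarith)
      have hF0 : (0 : ℝ) ≤ (cost d F : ℝ) := Nat.cast_nonneg _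
      by_cases hsm : (cost d F : ℝ) ≤ 2 * D1 * t / ε
      · have hL' : 2 * (cost d F : ℝ) / t + 2 * (A.length : ℝ) ≤ L := by
          have h1 : 2 * (cost d F : ℝ) / t ≤ 4 * D1 / ε := by
            rw [div_le_iff₀ ht]
            calc 2 * (cost d F : ℝ) ≤ 2 * (2 * D1 * t / ε) := by linarith
              _ = 4 * D1 / ε * t := by ring
          push_cast at hL
          have h2 : (0 : ℝ) ≤ s := Nat.cast_nonneg _
          linarith
        obtain ⟨F', hF', hG', hc'⟩ := brute hd ht hsepC hF hFG hL'
        have h1 := hc F' (mem_cand.2 ⟨Or.inl hF', hG'⟩)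
        have h2 : (cost d (step n d tsp L (solve n d tsp L s) C R' A) : ℝ) ≤ cost d F := by
          exact_mod_cast h1.trans hc'
        nlinarith
      · push Not at hsm
        have h3 : 2 * D1 * t ≤ ε * cost d F := by
          rw [div_lt_iff₀ hε] at hsm
          linarith
        have h4 := ih2 F
          (by
            intro e he
            have h5 := hF e he
            have h6 : ∀ x, (x ∈ C ∨ x ∈ A) → (x ∈ C.filter (fun x => decide (x ≠ z)) ∨
                x ∈ z :: A) := by
              intro x hx
              by_cases hxz : x = z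
              · exact Or.inr (by rw [hxz]; exact List.mem_cons_self)
              · rcases hx with hx | hx
                · left
                  rw [List.mem_filter]
                  exact ⟨hx, by simpa using hxz⟩
                · exact Or.inr (List.mem_cons_of_mem _ hx)
            exact ⟨h6 _ h5.1, h6 _ h5.2⟩)
          (by
            refine ⟨?_, ?_⟩
            · intro x hx
              exact joined_mono (hFG.1 x (List.mem_filter.1 hx).1) (fun e he => he)
                (fun a ha => List.mem_cons_of_mem _ ha)
            · intro htsp v hv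
              exact hFG.2 htsp v (fun hva => hv (List.mem_cons_of_mem _ hva)))
        have h5 := hc _ hcand
        rw [cost_append] at h5
        have h6 : (cost d (step n d tsp L (solve n d tsp L s) C R' A) : ℝ) ≤
            (cost d E : ℝ) + (cost d (solve n d tsp L s (C.filter fun x => decide (x ≠ z))
              (R'.filter fun x => decide (x ≠ z)) (z :: A)) : ℝ) := by
          exact_mod_cast h5
        have h7 : (cost d E : ℝ) ≤ 2 * d z a := by exact_mod_cast hEc
        have h8 : (cost d E : ℝ) ≤ ε * cost d F := by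
          refine le_trans ?_ h3
          linarith
        have h9 : (1 + ε) ^ (s + 1) * (cost d F : ℝ) =
            (1 + ε) ^ s * cost d F + ε * (cost d F : ℝ) * (1 + ε) ^ s := by ring
        rw [h9]
        have h10 : ε * (cost d F : ℝ) ≤ ε * (cost d F : ℝ) * (1 + ε) ^ s :=
          le_mul_of_one_le_right (by positivity) hpow
        linarith
    have htopsU : ∀ u ∈ tops d A U, u ∈ U := fun u hu => (List.mem_filter.1 hu).1
    refine ⟨?_, ?_⟩
    · show Good tsp ((tops d A U).flatMap fun u =>
        step n d tsp L (solve n d tsp L s) (compL d A U u)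
          (R.filter fun x => decide (x ∈ compL d A U u)) A) R A
      refine good_flatMap (g := fun u => R.filter fun x => decide (x ∈ compL d A U u))
        (fun u hu => (main u (htopsU u hu)).1) ?_
      intro x hx
      obtain ⟨v, hv, h1, _⟩ := mem_tops (A := A) hd.symm (hRU x hx)
      refine ⟨v, hv, ?_⟩
      rw [List.mem_filter]
      exact ⟨hx, by simpa using h1⟩
    · intro F hF hG
      obtain ⟨G, hG1, hG2⟩ := split hd hU hA hF hG
      show (cost d ((tops d A U).flatMap fun u =>
        step n d tsp L (solve n d tsp L s) (compL d A U u)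
          (R.filter fun x => decide (x ∈ compL d A U u)) A) : ℝ) ≤ _
      rw [cost_flatMap]
      have h1 : ∀ l : List ℕ, (∀ u ∈ l, u ∈ U) →
          (((l.map fun u => cost d (step n d tsp L (solve n d tsp L s) (compL d A U u)
            (R.filter fun x => decide (x ∈ compL d A U u)) A)).sum : ℕ) : ℝ) ≤
          (1 + ε) ^ (s + 1) * (((l.map fun u => cost d (G u)).sum : ℕ) : ℝ) := by
        intro l
        induction l with
        | nil => intro _; simp
        | cons u l ihl =>
          intro hl
          have hu := hl u List.mem_cons_self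
          have h2 := ihl fun v hv => hl v (List.mem_cons_of_mem _ hv)
          obtain ⟨g1, g2⟩ := hG1 u hu
          have h3 := (main u hu).2 (G u) g1 (g2 _ (by
            intro x hx
            rw [List.mem_filter] at hx
            exact ⟨hx.1, by simpa using hx.2⟩))
          rw [List.map_cons, List.map_cons, List.sum_cons, List.sum_cons, Nat.cast_add,
            Nat.cast_add, mul_add]
          exact add_le_add h3 h2
      refine (h1 _ htopsU).trans ?_
      have h2 : (((tops d A U).map fun u => cost d (G u)).sum : ℝ) ≤ (cost d F : ℝ) := by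
        exact_mod_cast hG2
      exact mul_le_mul_of_nonneg_left (by exact_mod_cast hG2) (by positivity)

/-- the output uses only points of `U`, of `A` and of `{0, …, n-1}`. -/
theorem solve_ends {n : ℕ} {d : ℕ → ℕ → ℕ} {tsp : Bool} {L : ℕ} :
    ∀ (s : ℕ) (U R A : List ℕ), (∀ x ∈ U, x < n) → (∀ x ∈ A, x < n) →
      ∀ x ∈ ends (solve n d tsp L s U R A), x < n := by
  intro s
  induction s with
  | zero =>
    intro U R A _ _ x hx
    simp [solve, ends] at hx
  | succ s ih =>
    intro U R A hU hA x hx
    have hx1 : x ∈ ends ((tops d A U).flatMap fun u =>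
        step n d tsp L (solve n d tsp L s) (compL d A U u)
          (R.filter fun x => decide (x ∈ compL d A U u)) A) := hx
    rw [ends_flatMap, List.mem_flatMap] at hx1
    obtain ⟨u, hu, hx1⟩ := hx1
    by_cases hne : cand n d tsp L (solve n d tsp L s) (compL d A U u)
        (R.filter fun x => decide (x ∈ compL d A U u)) A = []
    · have h1 : step n d tsp L (solve n d tsp L s) (compL d A U u)
        (R.filter fun x => decide (x ∈ compL d A U u)) A = pick d (cand n d tsp L
          (solve n d tsp L s) (compL d A U u)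
          (R.filter fun x => decide (x ∈ compL d A U u)) A) := rfl
      rw [h1, hne] at hx1
      simp [pick, ends] at hx1
    · have h1 : step n d tsp L (solve n d tsp L s) (compL d A U u)
        (R.filter fun x => decide (x ∈ compL d A U u)) A ∈ cand n d tsp L
          (solve n d tsp L s) (compL d A U u)
          (R.filter fun x => decide (x ∈ compL d A U u)) A := (pick_spec (d := d) hne).1
      rcases (mem_cand.1 h1).1 with h2 | ⟨z, hz, E, hE, h2⟩
      · rw [mem_seqs] at h2
        unfold ends at hx1
        rw [List.mem_flatMap] at hx1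
        obtain ⟨e, he, hxe⟩ := hx1
        have h3 := mem_pairsOf.1 (h2.2 e he)
        have h4 : ∀ y ∈ compL d A U u ++ A, y < n := by
          intro y hy
          rcases List.mem_append.1 hy with hy | hy
          · exact hU y (compL_sub hy)
          · exact hA y hy
        simp only [List.mem_cons, List.not_mem_nil, or_false] at hxe
        rcases hxe with rfl | rfl
        · exact h4 _ h3.1
        · exact h4 _ h3.2
      · rw [h2] at hx1
        unfold ends at hx1
        rw [List.flatMap_append, List.mem_append] at hx1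
        rcases hx1 with hx1 | hx1
        · rw [List.mem_flatMap] at hx1
          obtain ⟨e, he, hxe⟩ := hx1
          unfold links at hE
          rw [List.mem_flatMap] at hE
          obtain ⟨a, ha, hE⟩ := hE
          have h3 : e = (z, a) := by
            simp only [List.mem_cons, List.not_mem_nil, or_false] at hE
            rcases hE with rfl | rfl
            · simpa using he
            · simpa using he
          subst h3
          simp only [List.mem_cons, List.not_mem_nil, or_false] at hxe
          rcases hxe with rfl | rfl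
          · exact hz
          · exact hA _ ha
        · refine ih _ _ _ ?_ ?_ x hx1
          · intro y hy
            exact hU y (compL_sub (List.mem_filter.1 hy).1)
          · intro y hy
            rcases List.mem_cons.1 hy with rfl | hy
            · exact hz
            · exact hA y hy

end Pool.Agent.H703
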