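import Pool.Agent.H703.Struct
import Pool.Agent.H703.SolveSpec
import Pool.Agent.H703.Avg

/-!
# The approximation scheme for confined metrics with the hub condition
-/

set_option autoImplicit false

namespace Pool.Agent.H703

theorem tau_le (j k : ℕ) : tau j ≤ 2 ^ k * max 1 (tau (j - k)) := by
  unfold tau
  by_cases h : k < j
  · obtain ⟨i, rfl⟩ : ∃ i, j = k + i + 1 := ⟨j - k - 1, by omega⟩
    have h1 : k + i + 1 - k = i + 1 := by omega
    rw [h1]
    have h2 : 2 ^ (k + i + 1) / 2 = 2 ^ k * 2 ^ i := by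
      rw [pow_succ, Nat.mul_div_cancel _ (by norm_num), pow_add]
    have h3 : 2 ^ (i + 1) / 2 = 2 ^ i := by
      rw [pow_succ, Nat.mul_div_cancel _ (by norm_num)]
    rw [h2, h3]
    exact Nat.mul_le_mul_left _ (le_max_right _ _)
  · have h1 : 2 ^ j / 2 ≤ 2 ^ k := by
      have : 2 ^ j ≤ 2 ^ k := Nat.pow_le_pow_right (by norm_num) (by omega)
      exact (Nat.div_le_self _ _).trans this
    calc 2 ^ j / 2 ≤ 2 ^ k := h1
      _ = 2 ^ k * 1 := by ring
      _ ≤ _ := Nat.mul_le_mul_left _ (le_max_left _ _)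

/-- The approximation scheme is correct on confined metrics which satisfy the hub condition. -/
theorem metric_ptas (h : ℕ) {C ε : ℝ} (hC : 0 ≤ C) (hε : 0 < ε) : ∃ k L s : ℕ, 1 ≤ k ∧
    ∀ (n : ℕ) (d : ℕ → ℕ → ℕ) (T : List ℕ) (tsp : Bool) (J : ℕ), NMet d →
      HC h (dR d) {x | x < n} →
      (∀ t u w : ℕ, u < n → w ∈ clu n d t u → (d u w : ℝ) ≤ C * t) →
      (∀ v ∈ T, v < n) → (∀ u < n, ∀ w < n, d u w ≤ tau J) →
      AllGood tsp (ptas n d T tsp L s k J) T ∧
        ∀ F : List Edge, (∀ e ∈ F, e.1 < n ∧ e.2 < n) → AllGood tsp F T →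
          (cost d (ptas n d T tsp L s k J) : ℝ) ≤ (1 + ε) * (cost d F : ℝ) := by
  classical
  -- the number of levels of a band
  obtain ⟨k0, hk0⟩ := exists_nat_gt (24 * C / min ε 1)
  have hm : 0 < min ε 1 := lt_min hε one_pos
  set k : ℕ := k0 + 1 with hk
  have hk1 : 1 ≤ k := by omega
  have hkC : 8 * C / k ≤ min ε 1 / 3 := by
    have hkp : (0 : ℝ) < k := by exact_mod_cast hk1
    rw [div_le_div_iff₀ hkp (by norm_num)]
    have h1 : 24 * C < k0 * min ε 1 := by rwa [div_lt_iff₀ hm] at hk0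
    have h2 : (k : ℝ) = k0 + 1 := by rw [hk]; push_cast; ring
    nlinarith
  -- the depth
  set Λ : ℝ := C * 2 ^ k with hΛ
  have hΛ0 : 0 ≤ Λ := by positivity
  obtain ⟨s, hs⟩ := exists_depth h Λ
  -- the error per round
  obtain ⟨ε', hε', hε'2⟩ : ∃ ε' : ℝ, 0 < ε' ∧ (1 + ε') ^ s ≤ 1 + min ε 1 / 3 := by
    have hcont : Filter.Tendsto (fun x : ℝ => (1 + x) ^ s) (nhds 0) (nhds ((1 + 0) ^ s)) := by
      have : Continuous (fun x : ℝ => (1 + x) ^ s) := by continuity
      exact this.tendsto 0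
    have h1 : ((1 : ℝ) + 0) ^ s < 1 + min ε 1 / 3 := by
      rw [add_zero, one_pow]; linarith
    have h2 := hcont.eventually (gt_mem_nhds h1)
    obtain ⟨δ, hδ, hδ2⟩ := Metric.eventually_nhds_iff.1 h2
    refine ⟨δ / 2, by linarith, (hδ2 ?_).le⟩
    rw [Real.dist_eq, sub_zero, abs_of_pos (by linarith)]
    linarith
  obtain ⟨L, hL⟩ := exists_nat_gt (4 * (2 * Λ) / ε' + 2 * (1 + (s : ℝ)))
  refine ⟨k, L, s, hk1, ?_⟩
  intro n d T tsp J hd hh hconf hT hJ
  have hdR := hd.toPMet
  have hβ : (0 : ℝ) ≤ (1 + ε') ^ s := by positivity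
  have hres := ptas_spec (L := L) (s := s) (tsp := tsp) hd hC hconf hT hk1 hJ hβ ?_
  · refine ⟨hres.1, ?_⟩
    intro F hF hG
    refine (hres.2 F hF hG).trans ?_
    refine mul_le_mul_of_nonneg_right ?_ (Nat.cast_nonneg _)
    have h1 : (0 : ℝ) ≤ 8 * C / k := by positivity
    have h2 : min ε 1 ≤ 1 := min_le_right _ _
    have h3 : min ε 1 ≤ ε := min_le_left _ _
    calc (1 + ε') ^ s * (1 + 8 * C / k) ≤ (1 + min ε 1 / 3) * (1 + min ε 1 / 3) := by
          gcongr
      _ ≤ 1 + ε := by nlinarith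
  · intro j q hj hq
    have hqn : q < n ∧ rp n d T (tau j) q = q := by
      simpa [reps] using hq
    -- the scale of the band
    set σ : ℕ := max 1 (tau (j - k)) with hσ
    have hσ1 : 1 ≤ σ := le_max_left _ _
    have hσR : (0 : ℝ) < (σ : ℝ) := by exact_mod_cast hσ1
    have hU : ∀ u ∈ bandU n d T k j q, u < n ∧ rp n d T (tau (j - k)) u = u ∧
        rp n d T (tau j) u = q := by
      intro u hu
      simpa [bandU] using hu
    have hsep : ∀ u ∈ bandU n d T k j q, ∀ w ∈ bandU n d T k j q, u ≠ w →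
        (σ : ℝ) ≤ (d u w : ℝ) := by
      intro u hu w hw hne
      have h1 : tau (j - k) < d u w := by
        refine rp_sep hd (T := T) (hU u hu).1 (hU w hw).1 ?_
        rw [(hU u hu).2.1, (hU w hw).2.1]
        exact hne
      have h2 : σ ≤ d u w := by
        rw [hσ]
        exact max_le (by omega) (by omega)
      exact_mod_cast h2
    have hτ : (tau j : ℝ) ≤ 2 ^ k * (σ : ℝ) := by exact_mod_cast tau_le j k
    have hdiam : ∀ u ∈ bandU n d T k j q, ∀ w ∈ bandU n d T k j q,
        (d u w : ℝ) ≤ Λ * σ := by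
      intro u hu w hw
      have h1 : w ∈ clu n d (tau j) u := by
        rw [← rp_eq_iff hd (T := T) (hU w hw).1 (hU u hu).1, (hU w hw).2.2, (hU u hu).2.2]
      refine (hconf (tau j) u w (hU u hu).1 h1).trans ?_
      rw [hΛ, mul_assoc]
      exact mul_le_mul_of_nonneg_left hτ hC
    have hqU : q ∈ bandU n d T k j q := by
      have h1 : rp n d T (tau (j - k)) q = q := by
        have h2 := rp_down hd (T := T) (t := tau (j - k)) (t' := tau j) hqn.1 ?_
        · rwa [hqn.2] at h2
        · unfold tau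
          exact Nat.div_le_div_right (Nat.pow_le_pow_right (by norm_num) (by omega))
      simp [bandU, hqn, h1]
    set P : Set ℕ := {z | z < n ∧ (d z q : ℝ) ≤ 2 * Λ * σ} with hP
    have hPq : q ∈ P := by
      refine ⟨hqn.1, ?_⟩
      rw [hd.self]
      push_cast
      positivity
    have hdep : Dep (dR d) P s {x | x ∈ bandU n d T k j q} ∅ := by
      refine hs ℕ (dR d) {x | x < n} hdR hh σ _ P hσR (List.finite_toSet _) ?_ ?_ ?_ ?_ ⟨q, hPq⟩
      · intro u hu
        exact (hU u hu).1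
      · intro u hu w hw hne
        exact hsep u hu w hw hne
      · intro u hu w hw
        exact hdiam u hu w hw
      · intro z hz u hu h1
        refine ⟨hz, ?_⟩
        have h2 := hdR.tri z u q
        have h3 : dR d u q ≤ Λ * σ := hdiam u hu q hqU
        have h4 := hdR.symm z u
        unfold dR at h1 h2 h3 h4
        linarith
    have hdep' : Dep (dR d) P s {x | x ∈ bandU n d T k j q} {x | x ∈ [q]} :=
      Dep.mono (Set.empty_subset _) le_rfl hdep
    have hnd : (bandU n d T k j q).Nodup := by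
      unfold bandU
      exact List.Nodup.filter _ List.nodup_range
    refine solve_spec (P := P) hd hε' (D1 := 2 * Λ) (t := σ) (by positivity) hσR
      (fun z hz => hz.1) s _ _ [q] hnd (by simp) ?_ hsep ?_ ?_ hdep'
    · intro x hx
      unfold bandR at hx
      exact (List.mem_filter.1 hx).1
    · intro z hz
      exact ⟨q, by simp, hz.2⟩
    · have : (([q] : List ℕ).length : ℝ) = 1 := by simp
      rw [this]
      exact hL.le

end Pool.Agent.H703
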