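import Pool.Agent.H703.Rp

/-!
# The expected cost of an edge

Proofs written by helper613 from the plan of helper703.
-/

set_option autoImplicit false

namespace Pool.Agent.H703

variable {V : Type}

/-
PROOF IN WORDS.  `D = d x y`, `τ_j = tau j` (`0, 1, 2, 4, …`: `tau j = 2^(j-1)` for `j ≥ 1`), `r_j = rp n d T (tau j)`.
Say `s_j` if `r_j x = r_j y`.  `s_j → s_{j'}` for `j ≤ j'` (`rp_up`); `¬ s_j → τ_j < D` (`rp_sep`); `s_J` holds (`rp_top`).  Let `J_s ≤ J` be the least `j`
with `s_j`.  For fixed `j ≥ 1` let `c_j` be the inner sum over `q ∈ reps n d T j` (a list without duplicates).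
 - `s_{j-k}`: then `s_j`, and `phi … q x = phi … q y` for all `q`: `c_j = 0`.
 - `¬ s_{j-k}` and `s_j`: only `q = r_j x = r_j y` contributes (for other `q` both are `q`), and
     `d (r_{j-k} x) (r_{j-k} y) ≤ D + 2 C τ_{j-k}` by the triangle inequality and `hconf` (`r_{j-k} x ∈ clu … x`).
 - `¬ s_j`: only `q = r_j x` and `q = r_j y` contribute; for `q = r_j x` the term is `d (r_{j-k} x) q ≤ C τ_j`, as both are in the cluster
     of `x` of level `j` (use `hconf` with `u = r_{j-k} x`, whose cluster of level `j` contains `q`).  So `c_j ≤ 2 C τ_j`.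
Sum of the third kind: `j` ranges over `1 ≤ j < J_s`: `∑ 2 C τ_j ≤ 2 C * 2 τ_{J_s - 1} ≤ 4 C D` (if `J_s ≥ 2`; otherwise the sum is empty).
Second kind: `j - k < J_s ≤ j` (truncated subtraction; if `J_s = 0` nothing) so `j ∈ [J_s, J_s + k - 1]`, at most `k` values of `j`; `τ_{j-k}` is `0` if `j ≤ k`,
and the other `j - k` are distinct levels `< J_s`: `∑ 2 C τ_{j-k} ≤ 4 C D`.  Total `≤ k D + 8 C D`.
-/

theorem tau_mono {i j : ℕ} (h : i ≤ j) : tau i ≤ tau j := by
  unfold tau
  exact Nat.div_le_div_right (Nat.pow_le_pow_right (by norm_num) h)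

theorem tau_succ (i : ℕ) : tau (i + 1) = 2 ^ i := by
  unfold tau
  rw [pow_succ, Nat.mul_div_cancel _ (by norm_num)]

theorem geo (g : ℕ → ℕ) (D : ℕ) (h0 : g 0 = 0)
    (hg : ∀ i, g i = 0 ∨ (g i = tau i ∧ tau i < D)) (N : ℕ) :
    ∑ i ∈ Finset.range (N + 1), g i ≤ 2 * D ∧
      ∑ i ∈ Finset.range (N + 1), g i + 1 ≤ 2 ^ N := by
  induction N with
  | zero =>
    simp [h0]
  | succ N ih =>
    rw [Finset.sum_range_succ]
    have e := tau_succ N
    have e2 : 2 ^ (N + 1) = 2 * 2 ^ N := by ring
    rcases hg (N + 1) with a | ⟨a, b⟩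
    · omega
    · rw [e] at a b
      omega

theorem two_sum {ι : Type} [DecidableEq ι] (S : Finset ι) (f : ι → ℝ) (a b : ι)
    (hf : ∀ q, 0 ≤ f q) (h0 : ∀ q, q ≠ a → q ≠ b → f q = 0) :
    ∑ q ∈ S, f q ≤ ∑ q ∈ ({a, b} : Finset ι), f q := by
  have h1 : ∑ q ∈ S, f q ≤ ∑ q ∈ S ∪ {a, b}, f q :=
    Finset.sum_le_sum_of_subset_of_nonneg Finset.subset_union_left (fun i _ _ => hf i)
  have h2 : ∑ q ∈ ({a, b} : Finset ι), f q = ∑ q ∈ S ∪ {a, b}, f q := by
    refine Finset.sum_subset Finset.subset_union_right ?_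
    intro q _ hq
    simp only [Finset.mem_insert, Finset.mem_singleton, not_or] at hq
    exact h0 q hq.1 hq.2
  rw [h2]
  exact h1

/-- the expected cost of an edge. -/
theorem phi_sum {n : ℕ} {d : ℕ → ℕ → ℕ} (hd : NMet d) {C : ℝ} (hC : 0 ≤ C)
    (hconf : ∀ t u w : ℕ, u < n → w ∈ clu n d t u → (d u w : ℝ) ≤ C * t) (T : List ℕ)
    {k J x y : ℕ} (hk : 1 ≤ k) (hx : x < n) (hy : y < n)
    (hJ : ∀ u < n, ∀ w < n, d u w ≤ tau J) :
    ∑ j ∈ Finset.Icc 1 (J + k), ((reps n d T j).map fun q =>
      (d (phi n d T k j q x) (phi n d T k j q y) : ℝ)).sum ≤ (k + 8 * C) * (d x y : ℝ) := by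
  classical
  set D := d x y with hD
  have hup : ∀ i j : ℕ, i ≤ j → rp n d T (tau i) x = rp n d T (tau i) y →
      rp n d T (tau j) x = rp n d T (tau j) y := by
    intro i j hij h
    rw [← rp_up hd hx (tau_mono hij), h, rp_up hd hy (tau_mono hij)]
  -- the pointwise bound
  let g : ℕ → ℕ := fun i => if rp n d T (tau i) x = rp n d T (tau i) y then 0 else tau i
  have hg0 : g 0 = 0 := by
    simp only [g]
    split_ifs
    · rfl
    · rfl
  have hg : ∀ i, g i = 0 ∨ (g i = tau i ∧ tau i < D) := by
    intro i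
    simp only [g]
    split_ifs with h
    · exact Or.inl rfl
    · exact Or.inr ⟨rfl, rp_sep hd hx hy h⟩
  have hclose : ∀ v < n, ∀ j : ℕ,
      (d (rp n d T (tau (j - k)) v) (rp n d T (tau j) v) : ℝ) ≤ C * tau j := by
    intro v hv j
    have h1 : rp n d T (tau (j - k)) v ∈ clu n d (tau j) v :=
      clu_mono (tau_mono (Nat.sub_le j k)) (rp_mem hv)
    have h2 : rp n d T (tau j) v ∈ clu n d (tau j) v := rp_mem hv
    exact hconf (tau j) _ _ (mem_clu_lt h1) (clu_trans (clu_symm hd h1) h2)
  have hpt : ∀ j, ((reps n d T j).map fun q =>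
      (d (phi n d T k j q x) (phi n d T k j q y) : ℝ)).sum ≤
      (if rp n d T (tau (j - k)) x ≠ rp n d T (tau (j - k)) y ∧
        rp n d T (tau j) x = rp n d T (tau j) y then (D : ℝ) else 0) +
      2 * C * g (j - k) + 2 * C * g j := by
    intro j
    have hnd : (reps n d T j).Nodup := by
      unfold reps
      exact List.Nodup.filter _ List.nodup_range
    rw [← List.sum_toFinset _ hnd]
    have hb := two_sum (reps n d T j).toFinset
      (fun q => (d (phi n d T k j q x) (phi n d T k j q y) : ℝ))
      (rp n d T (tau j) x) (rp n d T (tau j) y) (fun q => Nat.cast_nonneg _) (by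
        intro q h1 h2
        have e1 : phi n d T k j q x = q := by
          unfold phi
          rw [if_neg (fun e => h1 e.symm)]
        have e2 : phi n d T k j q y = q := by
          unfold phi
          rw [if_neg (fun e => h2 e.symm)]
        simp only [e1, e2, hd.self, Nat.cast_zero])
    refine hb.trans ?_
    have n1 : (0 : ℝ) ≤ 2 * C * g (j - k) := by positivity
    have n2 : (0 : ℝ) ≤ 2 * C * g j := by positivity
    by_cases hs : rp n d T (tau j) x = rp n d T (tau j) y
    · rw [← hs, Finset.pair_eq_singleton, Finset.sum_singleton]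
      have e1 : phi n d T k j (rp n d T (tau j) x) x = rp n d T (tau (j - k)) x := by
        unfold phi
        rw [if_pos rfl]
      have e2 : phi n d T k j (rp n d T (tau j) x) y = rp n d T (tau (j - k)) y := by
        unfold phi
        rw [if_pos hs.symm]
      rw [e1, e2]
      by_cases hs' : rp n d T (tau (j - k)) x = rp n d T (tau (j - k)) y
      · rw [hs', hd.self, if_neg (by simp)]
        push_cast
        linarith
      · rw [if_pos ⟨hs', rfl⟩]
        have e3 : g (j - k) = tau (j - k) := by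
          simp only [g]
          rw [if_neg hs']
        have t1 := hd.tri (rp n d T (tau (j - k)) x) x (rp n d T (tau (j - k)) y)
        have t2 := hd.tri x y (rp n d T (tau (j - k)) y)
        have t3 := hconf (tau (j - k)) x _ hx (rp_mem (T := T) hx)
        have t4 := hconf (tau (j - k)) y _ hy (rp_mem (T := T) hy)
        have t5 := hd.symm (rp n d T (tau (j - k)) x) x
        have t6 : (d (rp n d T (tau (j - k)) x) (rp n d T (tau (j - k)) y) : ℝ) ≤
            d x (rp n d T (tau (j - k)) x) + (D + d y (rp n d T (tau (j - k)) y)) := by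
          have : d (rp n d T (tau (j - k)) x) (rp n d T (tau (j - k)) y) ≤
              d x (rp n d T (tau (j - k)) x) + (D + d y (rp n d T (tau (j - k)) y)) := by
            omega
          exact_mod_cast this
        rw [e3]
        rw [e3] at n1
        linarith
    · rw [Finset.sum_pair hs]
      have e1 : phi n d T k j (rp n d T (tau j) x) x = rp n d T (tau (j - k)) x := by
        unfold phi
        rw [if_pos rfl]
      have e2 : phi n d T k j (rp n d T (tau j) x) y = rp n d T (tau j) x := by
        unfold phi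
        rw [if_neg (fun e => hs e.symm)]
      have e3 : phi n d T k j (rp n d T (tau j) y) x = rp n d T (tau j) y := by
        unfold phi
        rw [if_neg hs]
      have e4 : phi n d T k j (rp n d T (tau j) y) y = rp n d T (tau (j - k)) y := by
        unfold phi
        rw [if_pos rfl]
      rw [e1, e2, e3, e4, if_neg (by tauto)]
      have e5 : g j = tau j := by
        simp only [g]
        rw [if_neg hs]
      have t1 := hclose x hx j
      have t2 := hclose y hy j
      rw [hd.symm] at t2
      rw [e5]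
      linarith
  -- the number of levels of the second kind
  have hcard : ∑ j ∈ Finset.Icc 1 (J + k),
      (if rp n d T (tau (j - k)) x ≠ rp n d T (tau (j - k)) y ∧
        rp n d T (tau j) x = rp n d T (tau j) y then (D : ℝ) else 0) ≤ k * (D : ℝ) := by
    have hex : ∃ j, rp n d T (tau j) x = rp n d T (tau j) y := ⟨J, rp_top hd hx hy hJ⟩
    rw [← Finset.sum_filter, Finset.sum_const, nsmul_eq_mul]
    refine mul_le_mul_of_nonneg_right ?_ (Nat.cast_nonneg _)
    have hsub : (Finset.Icc 1 (J + k)).filter (fun j =>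
        rp n d T (tau (j - k)) x ≠ rp n d T (tau (j - k)) y ∧
        rp n d T (tau j) x = rp n d T (tau j) y) ⊆
        Finset.Ico (Nat.find hex) (Nat.find hex + k) := by
      intro j hj
      rw [Finset.mem_filter] at hj
      obtain ⟨-, h1, h2⟩ := hj
      rw [Finset.mem_Ico]
      refine ⟨Nat.find_min' hex h2, ?_⟩
      by_contra hlt
      exact h1 (hup (Nat.find hex) (j - k) (by omega) (Nat.find_spec hex))
    have := Finset.card_le_card hsub
    rw [Nat.card_Ico, Nat.add_sub_cancel_left] at this
    exact_mod_cast this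
  have hs2 : ∑ j ∈ Finset.Icc 1 (J + k), g j ≤ 2 * D := by
    refine le_trans ?_ (geo g D hg0 hg (J + k)).1
    refine Finset.sum_le_sum_of_subset ?_
    intro j hj
    rw [Finset.mem_Icc] at hj
    rw [Finset.mem_range]
    omega
  have hs1 : ∑ j ∈ Finset.Icc 1 (J + k), g (j - k) ≤ 2 * D := by
    have h1 : ∑ j ∈ Finset.Icc 1 (J + k), g (j - k) ≤
        ∑ j ∈ Finset.range (k + (J + 1)), g (j - k) := by
      refine Finset.sum_le_sum_of_subset ?_
      intro j hj
      rw [Finset.mem_Icc] at hj
      rw [Finset.mem_range]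
      omega
    refine h1.trans ?_
    rw [Finset.sum_range_add]
    have h2 : ∑ j ∈ Finset.range k, g (j - k) = 0 := by
      refine Finset.sum_eq_zero ?_
      intro j hj
      rw [Finset.mem_range] at hj
      have : j - k = 0 := by omega
      rw [this, hg0]
    rw [h2, zero_add]
    simp only [Nat.add_sub_cancel_left]
    exact (geo g D hg0 hg J).1
  calc _ ≤ ∑ j ∈ Finset.Icc 1 (J + k),
      ((if rp n d T (tau (j - k)) x ≠ rp n d T (tau (j - k)) y ∧
        rp n d T (tau j) x = rp n d T (tau j) y then (D : ℝ) else 0) +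
      2 * C * g (j - k) + 2 * C * g j) := Finset.sum_le_sum (fun j _ => hpt j)
    _ = ∑ j ∈ Finset.Icc 1 (J + k),
      (if rp n d T (tau (j - k)) x ≠ rp n d T (tau (j - k)) y ∧
        rp n d T (tau j) x = rp n d T (tau j) y then (D : ℝ) else 0) +
      2 * C * ∑ j ∈ Finset.Icc 1 (J + k), (g (j - k) : ℝ) +
      2 * C * ∑ j ∈ Finset.Icc 1 (J + k), (g j : ℝ) := by
        rw [Finset.sum_add_distrib, Finset.sum_add_distrib, Finset.mul_sum, Finset.mul_sum]
    _ ≤ k * (D : ℝ) + 2 * C * (2 * D) + 2 * C * (2 * D) := by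
        have a1 : ∑ j ∈ Finset.Icc 1 (J + k), (g (j - k) : ℝ) ≤ 2 * D := by
          exact_mod_cast hs1
        have a2 : ∑ j ∈ Finset.Icc 1 (J + k), (g j : ℝ) ≤ 2 * D := by
          exact_mod_cast hs2
        have c2 : 0 ≤ 2 * C := by linarith
        have b1 := mul_le_mul_of_nonneg_left a1 c2
        have b2 := mul_le_mul_of_nonneg_left a2 c2
        linarith
    _ = (k + 8 * C) * (D : ℝ) := by ring

end Pool.Agent.H703
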