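import Pool.Agent.H703.Clos

/-!
# Clusters and their representatives

Proofs written by helper774 from the plan of helper703.
-/

set_option autoImplicit false

namespace Pool.Agent.H703

variable {V : Type}

/-
PROOF IN WORDS.  `clu n d t v` is a sublist (`filter`) of `List.range n`, hence increasing; its members are the points reachable
from `v` in `{0, …, n-1}` by hops of length `≤ t` (`mem_clos`).  Reachability is an equivalence relation (symmetry of `d`), so points
of the same cluster have literally the same list `clu` (two filters of the same list with the same members), hence the same `rp`.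
`rp` is the first, i.e. the least terminal in the cluster if there is one, and the least point otherwise.
`rp_down`: `q = rp t' v`; `clu t q ⊆ clu t' q`, which has the same members as `clu t' v`.  If the latter contains a terminal, `q` is its least
terminal, and `q ∈ clu t q`, so `q` is the least terminal of `clu t q`.  If not, `clu t q` has no terminal and `q` is the least member of both.
`rp_up`: `rp t v ∈ clu t v ⊆ clu t' v`.   `rp_sep`: if `d u v ≤ t` then `v ∈ clu t u`.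
-/

theorem mem_clu {n : ℕ} {d : ℕ → ℕ → ℕ} {t v x : ℕ} : x ∈ clu n d t v ↔
    v < n ∧ Relation.ReflTransGen (fun a b => b < n ∧ d a b ≤ t) v x := by
  unfold clu
  rw [mem_clos]
  simp only [List.mem_singleton, List.mem_range]
  constructor
  · rintro ⟨s, rfl, h1, h2⟩
    exact ⟨h1, h2⟩
  · rintro ⟨h1, h2⟩
    exact ⟨v, rfl, h1, h2⟩

open Classical in
theorem clos_filter (r : ℕ → ℕ → Prop) (V S : List ℕ) :
    ∃ p : ℕ → Bool, clos r V S = V.filter p := by
  unfold clos
  generalize hk : V.length = k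
  clear hk
  cases k with
  | zero => exact ⟨_, rfl⟩
  | succ k =>
    rw [Function.iterate_succ_apply']
    exact ⟨_, rfl⟩

theorem clos_ext {r r' : ℕ → ℕ → Prop} {V S S' : List ℕ}
    (h : ∀ x, x ∈ clos r V S ↔ x ∈ clos r' V S') : clos r V S = clos r' V S' := by
  obtain ⟨p, hp⟩ := clos_filter r V S
  obtain ⟨p', hp'⟩ := clos_filter r' V S'
  rw [hp, hp'] at h ⊢
  refine List.filter_congr fun x hx => ?_
  have := h x
  simp only [List.mem_filter, hx, true_and] at this
  exact Bool.eq_iff_iff.mpr this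

theorem self_mem {n : ℕ} {d : ℕ → ℕ → ℕ} {t v : ℕ} (hv : v < n) : v ∈ clu n d t v :=
  mem_clu.2 ⟨hv, Relation.ReflTransGen.refl⟩

theorem clu_sorted (n : ℕ) (d : ℕ → ℕ → ℕ) (t v : ℕ) : (clu n d t v).Pairwise (· ≤ ·) := by
  obtain ⟨p, hp⟩ := clos_filter (fun x y => d x y ≤ t) (List.range n) [v]
  unfold clu
  rw [hp]
  exact List.Pairwise.filter _ List.pairwise_le_range

theorem head_spec {l : List ℕ} (hl : l.Pairwise (· ≤ ·)) (hne : l ≠ []) (a : ℕ) :
    l.headD a ∈ l ∧ ∀ x ∈ l, l.headD a ≤ x := by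
  cases l with
  | nil => exact absurd rfl hne
  | cons b l =>
    simp only [List.headD_cons]
    refine ⟨List.mem_cons_self, ?_⟩
    intro x hx
    rcases List.mem_cons.1 hx with rfl | h
    · exact le_rfl
    · exact (List.pairwise_cons.1 hl).1 x h

theorem headD_append {l l' : List ℕ} (hne : l ≠ []) (a : ℕ) : (l ++ l').headD a = l.headD a := by
  cases l with
  | nil => exact absurd rfl hne
  | cons b l => rfl

open Classical in
theorem rp_spec {n : ℕ} {d : ℕ → ℕ → ℕ} {T : List ℕ} {t v : ℕ} (hv : v < n) :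
    rp n d T t v ∈ clu n d t v ∧
    ((∃ x ∈ clu n d t v, x ∈ T) → rp n d T t v ∈ T ∧ ∀ x ∈ clu n d t v, x ∈ T → rp n d T t v ≤ x) ∧
    ((¬ ∃ x ∈ clu n d t v, x ∈ T) → ∀ x ∈ clu n d t v, rp n d T t v ≤ x) := by
  have hne : clu n d t v ≠ [] := List.ne_nil_of_mem (self_mem hv)
  have hs := clu_sorted n d t v
  by_cases h : ∃ x ∈ clu n d t v, x ∈ T
  · obtain ⟨x, hx, hxT⟩ := h
    have hne2 : (clu n d t v).filter (fun x => decide (x ∈ T)) ≠ [] :=
      List.ne_nil_of_mem (List.mem_filter.2 ⟨hx, by simpa using hxT⟩)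
    have hrp : rp n d T t v = ((clu n d t v).filter (fun x => decide (x ∈ T))).headD v := by
      unfold rp
      exact headD_append hne2 _
    have hsp := head_spec (List.Pairwise.filter (fun x => decide (x ∈ T)) hs) hne2 v
    rw [← hrp] at hsp
    have h1 := List.mem_filter.1 hsp.1
    refine ⟨h1.1, fun _ => ⟨by simpa using h1.2, fun y hy hyT => hsp.2 y
      (List.mem_filter.2 ⟨hy, by simpa using hyT⟩)⟩, fun h => absurd ⟨x, hx, hxT⟩ h⟩
  · have hnil : (clu n d t v).filter (fun x => decide (x ∈ T)) = [] := by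
      rw [List.filter_eq_nil_iff]
      intro x hx hxT
      exact h ⟨x, hx, by simpa using hxT⟩
    have hrp : rp n d T t v = (clu n d t v).headD v := by
      unfold rp
      rw [hnil, List.nil_append]
    have hsp := head_spec hs hne v
    rw [← hrp] at hsp
    exact ⟨hsp.1, fun h' => absurd h' h, fun _ => hsp.2⟩

theorem rp_mem {n : ℕ} {d : ℕ → ℕ → ℕ} {T : List ℕ} {t v : ℕ} (hv : v < n) :
    rp n d T t v ∈ clu n d t v := (rp_spec hv).1

theorem mem_clu_lt {n : ℕ} {d : ℕ → ℕ → ℕ} {t v x : ℕ} (hx : x ∈ clu n d t v) : x < n := by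
  obtain ⟨hv, h⟩ := mem_clu.1 hx
  rcases Relation.ReflTransGen.cases_tail h with h | ⟨y, _, h⟩
  · rw [h]; exact hv
  · exact h.1

theorem clu_symm {n : ℕ} {d : ℕ → ℕ → ℕ} (hd : NMet d) {t u v : ℕ} (hu : u ∈ clu n d t v) :
    v ∈ clu n d t u := by
  have hun := mem_clu_lt hu
  obtain ⟨hv, h⟩ := mem_clu.1 hu
  refine mem_clu.2 ⟨hun, ?_⟩
  have key : ∀ x, Relation.ReflTransGen (fun a b => b < n ∧ d a b ≤ t) v x →
      Relation.ReflTransGen (fun a b => b < n ∧ d a b ≤ t) x v := by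
    intro x hx
    induction hx with
    | refl => exact Relation.ReflTransGen.refl
    | @tail b c hb hc ih =>
      have hbn : b < n := mem_clu_lt (mem_clu.2 ⟨hv, hb⟩)
      refine Relation.ReflTransGen.head ⟨hbn, ?_⟩ ih
      rw [hd.symm]
      exact hc.2
  exact key u h

theorem clu_trans {n : ℕ} {d : ℕ → ℕ → ℕ} {t u v w : ℕ} (hu : u ∈ clu n d t v)
    (hw : w ∈ clu n d t u) : w ∈ clu n d t v := by
  obtain ⟨hv, h1⟩ := mem_clu.1 hu
  obtain ⟨_, h2⟩ := mem_clu.1 hw
  exact mem_clu.2 ⟨hv, h1.trans h2⟩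

theorem clu_mono {n : ℕ} {d : ℕ → ℕ → ℕ} {t t' u v : ℕ} (h : t ≤ t') (hu : u ∈ clu n d t v) :
    u ∈ clu n d t' v := by
  obtain ⟨hv, h1⟩ := mem_clu.1 hu
  refine mem_clu.2 ⟨hv, ?_⟩
  induction h1 with
  | refl => exact Relation.ReflTransGen.refl
  | tail _ hc ih =>
    have hb := ih (mem_clu.2 ⟨hv, by assumption⟩)
    exact Relation.ReflTransGen.tail hb ⟨hc.1, hc.2.trans h⟩

theorem clu_eq {n : ℕ} {d : ℕ → ℕ → ℕ} (hd : NMet d) {t u v : ℕ} (hu : u ∈ clu n d t v) :
    clu n d t u = clu n d t v := by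
  refine clos_ext fun x => ?_
  change x ∈ clu n d t u ↔ x ∈ clu n d t v
  exact ⟨fun h => clu_trans hu h, fun h => clu_trans (clu_symm hd hu) h⟩

theorem rp_eq_iff {n : ℕ} {d : ℕ → ℕ → ℕ} (hd : NMet d) {T : List ℕ} {t u v : ℕ} (hu : u < n)
    (hv : v < n) : rp n d T t u = rp n d T t v ↔ u ∈ clu n d t v := by
  constructor
  · intro h
    have h1 := rp_mem (d := d) (T := T) (t := t) hu
    have h2 := rp_mem (d := d) (T := T) (t := t) hv
    rw [← h] at h2
    exact clu_trans h2 (clu_symm hd h1)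
  · intro h
    have hcl := clu_eq hd h
    have h1 := rp_spec (d := d) (T := T) (t := t) hu
    have h2 := rp_spec (d := d) (T := T) (t := t) hv
    rw [hcl] at h1
    by_cases hT : ∃ x ∈ clu n d t v, x ∈ T
    · exact le_antisymm ((h1.2.1 hT).2 _ h2.1 (h2.2.1 hT).1) ((h2.2.1 hT).2 _ h1.1 (h1.2.1 hT).1)
    · exact le_antisymm (h1.2.2 hT _ h2.1) (h2.2.2 hT _ h1.1)

theorem rp_sep {n : ℕ} {d : ℕ → ℕ → ℕ} (hd : NMet d) {T : List ℕ} {t u v : ℕ} (hu : u < n)
    (hv : v < n) (h : rp n d T t u ≠ rp n d T t v) : t < d u v := by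
  by_contra hcon
  push Not at hcon
  apply h
  rw [rp_eq_iff hd hu hv]
  refine mem_clu.2 ⟨hv, Relation.ReflTransGen.single ⟨hu, ?_⟩⟩
  rw [hd.symm]
  exact hcon

theorem rp_up {n : ℕ} {d : ℕ → ℕ → ℕ} (hd : NMet d) {T : List ℕ} {t t' v : ℕ} (hv : v < n)
    (h : t ≤ t') : rp n d T t' (rp n d T t v) = rp n d T t' v := by
  have h1 := rp_mem (d := d) (T := T) (t := t) hv
  rw [rp_eq_iff hd (mem_clu_lt h1) hv]
  exact clu_mono h h1

theorem rp_down {n : ℕ} {d : ℕ → ℕ → ℕ} (hd : NMet d) {T : List ℕ} {t t' v : ℕ} (hv : v < n)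
    (h : t ≤ t') : rp n d T t (rp n d T t' v) = rp n d T t' v := by
  have hs := rp_spec (d := d) (T := T) (t := t') hv
  have hqn := mem_clu_lt hs.1
  have hq := rp_spec (d := d) (T := T) (t := t) hqn
  have hself := self_mem (d := d) (t := t) hqn
  have hsub : ∀ x, x ∈ clu n d t (rp n d T t' v) → x ∈ clu n d t' v := fun x hx =>
    clu_trans hs.1 (clu_mono h hx)
  by_cases hT : ∃ x ∈ clu n d t' v, x ∈ T
  · have h1 := hs.2.1 hT
    have h2 := hq.2.1 ⟨_, hself, h1.1⟩
    exact le_antisymm (h2.2 _ hself h1.1) (h1.2 _ (hsub _ hq.1) h2.1)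
  · have h2 : ¬ ∃ x ∈ clu n d t (rp n d T t' v), x ∈ T := fun ⟨x, hx, hxT⟩ => hT ⟨x, hsub x hx, hxT⟩
    exact le_antisymm (hq.2.2 h2 _ hself) (hs.2.2 hT _ (hsub _ hq.1))

theorem rp_term {n : ℕ} {d : ℕ → ℕ → ℕ} {T : List ℕ} {t v : ℕ} (hv : v < n)
    (hT : v ∈ T) : rp n d T t v ∈ T :=
  ((rp_spec hv).2.1 ⟨v, self_mem hv, hT⟩).1

theorem rp_top {n : ℕ} {d : ℕ → ℕ → ℕ} (hd : NMet d) {T : List ℕ} {t u v : ℕ} (hu : u < n)
    (hv : v < n) (h : ∀ x < n, ∀ y < n, d x y ≤ t) : rp n d T t u = rp n d T t v := by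
  rw [rp_eq_iff hd hu hv]
  exact mem_clu.2 ⟨hv, Relation.ReflTransGen.single ⟨hu, h v hv u hu⟩⟩

end Pool.Agent.H703
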