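import Pool.Agent.H703.Clos

/-!
# Splitting a solution at the components

Proofs written by helper683 from the plan of helper703.
-/

set_option autoImplicit false

namespace Pool.Agent.H703

/-
PROOF IN WORDS.  For `x` let `na x ∈ A` be a nearest element of `A` (`d x (na x) ≤ d x b` for `b ∈ A`; if `x ∈ A`, `d x (na x) = 0`).
Facts: for `u ∈ U`, `w ∈ U`: if `w ∉ compL d A U u` (different components) then `relN d A u w` fails, so
`d u (na u) + d w (na w) ≤ d u w`.  `compL` of `u` is the set of points of `U` reachable from `u` by related steps; components are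
equal or disjoint (`relN` is symmetric as `d` is).  For `u ∈ U` put `C = compL d A U u` and define `G u = F.flatMap (piece C)`, where
for `e = (x, y)`:
 - `x ∈ C`, `y ∈ C`: `[(x, y)]`;
 - `x ∈ C`, `y ∉ C`: `[(x, y)]` if `y ∈ A` and `x ∉ A`, else `[(x, na x)]`;
 - `x ∉ C`, `y ∈ C`: `[(x, y)]` if `x ∈ A` and `y ∉ A`, else `[(na y, y)]`;
 - `x ∉ C`, `y ∉ C`: `[]`.
(1) End points are in `C ∪ A`: clear.
(2) Parity: let `v ∉ A`.  If `v ∉ C` then `v` is no end point of `G u`, count `0`.  If `v ∈ C`: in each piece the end points of `e` that lie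
 in `C` are kept and the others are in `A` or replaced by an element of `A`; so `(ends (G u)).count v = (ends F).count v`, even.
(3) Connectivity: by induction on a path in `F` from `a ∈ A`: every `x ∈ C` on it is `Joined (G u) A`.  For a step `x → y` with `y ∈ C`:
 if `x ∈ C`, the edge is in `G u`; if `x ∉ C`, then `G u` has an edge joining `y` to an element of `A` (either `(x, y)` with `x ∈ A`, or
 `(na y, y)`; for the reversed orientation of the edge the symmetric cases).
(4) Cost: `∑ over u ∈ tops` of `cost d (G u)` = sum over `e ∈ F` of `∑ over u ∈ tops` of the cost of the piece of `e`; show the latter is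
 `≤ d e.1 e.2`.  `tops d A U` has no duplicates (`U.Nodup`) and every point of `U` is in `compL d A U u` for exactly one `u ∈ tops`.
 So at most two `u` give a nonzero piece.  `x, y` in the same component: one piece of cost `d x y`.  `x ∈ C`, `y ∈ C' ≠ C`, both in `U`:
   `x, y ∉ A`: `d x (na x) + d y (na y) ≤ d x y`;  `x ∈ A`, `y ∉ A`: the piece in `C` costs `d x (na x) = 0`, the piece in `C'` costs `d x y`;
   symmetric; both in `A`: `0`.  `x ∈ C`, `y ∉ U` (so `y ∈ A`): the piece costs `d x y` or `d x (na x) = 0`.  Symmetric.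
(If an element of `A` lies in `U` it is alone in its component, since `relN d A x w` with `b = c = x` is false.)
-/

theorem A2_mem_compL {d : ℕ → ℕ → ℕ} {A U : List ℕ} {u x : ℕ} :
    x ∈ compL d A U u ↔ u ∈ U ∧
      Relation.ReflTransGen (fun a b => b ∈ U ∧ relN d A a b) u x := by
  unfold compL
  rw [mem_clos]
  simp

theorem A2_sub {d : ℕ → ℕ → ℕ} {A U : List ℕ} {u x : ℕ} (h : x ∈ compL d A U u) : x ∈ U := by
  rw [A2_mem_compL] at h
  obtain ⟨hu, h⟩ := h
  induction h with
  | refl => exact hu
  | tail _ h _ => exact h.1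

theorem A2_step {d : ℕ → ℕ → ℕ} {A U : List ℕ} {u x y : ℕ} (h : x ∈ compL d A U u)
    (hy : y ∈ U) (hr : relN d A x y) : y ∈ compL d A U u := by
  rw [A2_mem_compL] at h ⊢
  exact ⟨h.1, h.2.tail ⟨hy, hr⟩⟩

theorem A2_trans {d : ℕ → ℕ → ℕ} {A U : List ℕ} {u x y : ℕ} (h : x ∈ compL d A U u)
    (h' : y ∈ compL d A U x) : y ∈ compL d A U u := by
  rw [A2_mem_compL] at h h' ⊢
  exact ⟨h.1, h.2.trans h'.2⟩

theorem A2_symm {d : ℕ → ℕ → ℕ} (hs : ∀ x y, d x y = d y x) {A U : List ℕ} {u x : ℕ}
    (h : x ∈ compL d A U u) : u ∈ compL d A U x := by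
  have hu : u ∈ U := (A2_mem_compL.1 h).1
  have hx : x ∈ U := A2_sub h
  have h2 := (A2_mem_compL.1 h).2
  clear h
  induction h2 with
  | refl => exact A2_mem_compL.2 ⟨hx, Relation.ReflTransGen.refl⟩
  | @tail b c hab hbc ih =>
    have hb : b ∈ U := by
      have : b ∈ compL d A U u := A2_mem_compL.2 ⟨hu, hab⟩
      exact A2_sub this
    have h1 := ih hb
    have h3 : b ∈ compL d A U c := by
      refine A2_mem_compL.2 ⟨hx, Relation.ReflTransGen.single ⟨hb, ?_⟩⟩
      intro p hp q hq
      have := hbc.2 q hq p hp
      rw [hs c b]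
      omega
    exact A2_trans h3 h1

theorem A2_uniq {d : ℕ → ℕ → ℕ} (hs : ∀ x y, d x y = d y x) {A U : List ℕ} {u v x : ℕ}
    (hu : u ∈ tops d A U) (hv : v ∈ tops d A U)
    (h : x ∈ compL d A U u) (h' : x ∈ compL d A U v) : u = v := by
  unfold tops at hu hv
  rw [List.mem_filter] at hu hv
  have hu2 := of_decide_eq_true hu.2
  have hv2 := of_decide_eq_true hv.2
  have h1 : v ∈ compL d A U u := A2_trans h (A2_symm hs h')
  have h2 : u ∈ compL d A U v := A2_trans h' (A2_symm hs h)
  exact le_antisymm (hu2 v h1) (hv2 u h2)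

theorem A2_sum_le {l : List ℕ} (hl : l.Nodup) (P : ℕ → Prop) [DecidablePred P] (c : ℕ)
    (h : ∀ u ∈ l, ∀ v ∈ l, P u → P v → u = v) :
    (l.map fun u => if P u then c else 0).sum ≤ c := by
  induction l with
  | nil => simp
  | cons a l ih =>
    rw [List.map_cons, List.sum_cons]
    rw [List.nodup_cons] at hl
    by_cases ha : P a
    · have : (l.map fun u => if P u then c else 0).sum = 0 := by
        apply List.sum_eq_zero
        intro x hx
        rw [List.mem_map] at hx
        obtain ⟨u, hu, rfl⟩ := hx
        rw [if_neg]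
        intro hPu
        have := h a (by simp) u (by simp [hu]) ha hPu
        subst this
        exact hl.1 hu
      rw [this, if_pos ha]
      omega
    · rw [if_neg ha, zero_add]
      exact ih hl.2 fun u hu v hv => h u (by simp [hu]) v (by simp [hv])

theorem A2_sum_zero {l : List ℕ} (P : ℕ → Prop) [DecidablePred P] (c : ℕ)
    (h : ∀ u ∈ l, ¬ P u) :
    (l.map fun u => if P u then c else 0).sum = 0 := by
  apply List.sum_eq_zero
  intro x hx
  rw [List.mem_map] at hx
  obtain ⟨u, hu, rfl⟩ := hx
  rw [if_neg (h u hu)]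

open Classical in
/-- The piece of an edge in a component. -/
noncomputable def A2piece (na : ℕ → ℕ) (C : List ℕ) (e : Edge) : List Edge :=
  if e.1 ∈ C then (if e.2 ∈ C then [(e.1, e.2)] else [(e.1, na e.1)])
  else (if e.2 ∈ C then [(na e.2, e.2)] else [])

theorem A2_cost_append (d : ℕ → ℕ → ℕ) (F G : List Edge) :
    cost d (F ++ G) = cost d F + cost d G := by
  unfold cost
  rw [List.map_append, List.sum_append]

theorem A2_exists_na (d : ℕ → ℕ → ℕ) {A : List ℕ} (hA : A ≠ []) (x : ℕ) :
    ∃ a ∈ A, ∀ b ∈ A, d x a ≤ d x b := by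
  obtain ⟨a, ha, h⟩ := Finset.exists_min_image A.toFinset (fun a => d x a)
    (by
      obtain ⟨a, ha⟩ := List.exists_mem_of_ne_nil A hA
      exact ⟨a, by simpa using ha⟩)
  exact ⟨a, by simpa using ha, fun b hb => h b (by simpa using hb)⟩

theorem A2_count_flatMap (f : Edge → List Edge) (F : List Edge) (v : ℕ)
    (h : ∀ e ∈ F, (ends (f e)).count v = (ends [e]).count v) :
    (ends (F.flatMap f)).count v = (ends F).count v := by
  induction F with
  | nil => simp
  | cons e F ih =>
    have h1 : ends ((e :: F).flatMap f) = ends (f e) ++ ends (F.flatMap f) := by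
      simp [ends]
    have h2 : ends (e :: F) = ends [e] ++ ends F := by
      simp [ends]
    rw [h1, h2, List.count_append, List.count_append, h e (by simp),
      ih fun e' he' => h e' (by simp [he'])]

theorem A2_edge_cost {d : ℕ → ℕ → ℕ} (hd : NMet d) {U A : List ℕ} (hU : U.Nodup)
    {na : ℕ → ℕ} (_hna1 : ∀ x, na x ∈ A) (hna2 : ∀ x, ∀ b ∈ A, d x (na x) ≤ d x b)
    {e : Edge} (he : (e.1 ∈ U ∨ e.1 ∈ A) ∧ (e.2 ∈ U ∨ e.2 ∈ A)) :
    ((tops d A U).map fun u => cost d (A2piece na (compL d A U u) e)).sum ≤ d e.1 e.2 := by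
  classical
  obtain ⟨x, y⟩ := e
  simp only at he ⊢
  have hnd : (tops d A U).Nodup := by
    unfold tops
    exact hU.filter _
  by_cases hc : ∃ u0 ∈ tops d A U, x ∈ compL d A U u0 ∧ y ∈ compL d A U u0
  · obtain ⟨u0, hu0, hx0, hy0⟩ := hc
    have : ∀ u ∈ tops d A U, cost d (A2piece na (compL d A U u) (x, y)) =
        if x ∈ compL d A U u then d x y else 0 := by
      intro u hu
      by_cases hx : x ∈ compL d A U u
      · have := A2_uniq hd.symm hu hu0 hx hx0
        subst this
        simp [A2piece, hx, hy0, cost]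
      · have hy : y ∉ compL d A U u := by
          intro hy
          have := A2_uniq hd.symm hu hu0 hy hy0
          subst this
          exact hx hx0
        simp [A2piece, hx, hy, cost]
    rw [List.map_congr_left this]
    exact A2_sum_le hnd (fun u => x ∈ compL d A U u) (d x y)
      fun u hu v hv h h' => A2_uniq hd.symm hu hv h h'
  · have hle : ((tops d A U).map fun u => cost d (A2piece na (compL d A U u) (x, y))).sum ≤
        ((tops d A U).map fun u => (if x ∈ compL d A U u then d x (na x) else 0) +
          (if y ∈ compL d A U u then d y (na y) else 0)).sum := by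
      apply List.sum_le_sum
      intro u hu
      by_cases hx : x ∈ compL d A U u
      · by_cases hy : y ∈ compL d A U u
        · exact absurd ⟨u, hu, hx, hy⟩ hc
        · simp [A2piece, hx, hy, cost]
      · by_cases hy : y ∈ compL d A U u
        · simp [A2piece, hx, hy, cost, hd.symm]
        · simp [A2piece, hx, hy, cost]
    refine hle.trans ?_
    rw [List.sum_map_add]
    have hx1 : ((tops d A U).map fun u => if x ∈ compL d A U u then d x (na x) else 0).sum ≤
        d x (na x) :=
      A2_sum_le hnd (fun u => x ∈ compL d A U u) _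
        fun u hu v hv h h' => A2_uniq hd.symm hu hv h h'
    have hy1 : ((tops d A U).map fun u => if y ∈ compL d A U u then d y (na y) else 0).sum ≤
        d y (na y) :=
      A2_sum_le hnd (fun u => y ∈ compL d A U u) _
        fun u hu v hv h h' => A2_uniq hd.symm hu hv h h'
    by_cases hxU : x ∈ U
    · by_cases hyU : y ∈ U
      · have hnr : ¬ relN d A x y := by
          intro hr
          have hxx : x ∈ compL d A U x := A2_mem_compL.2 ⟨hxU, Relation.ReflTransGen.refl⟩
          have hxy : y ∈ compL d A U x := A2_step hxx hyU hr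
          obtain ⟨v, hv, hxv, hiff⟩ := mem_tops hd.symm (A := A) hxU
          exact hc ⟨v, hv, hxv, (hiff y).2 hxy⟩
        unfold relN at hnr
        push Not at hnr
        obtain ⟨b, hb, c, hc', hbc⟩ := hnr
        have h1 := hna2 x b hb
        have h2 := hna2 y c hc'
        omega
      · have hy0 : ((tops d A U).map fun u => if y ∈ compL d A U u then d y (na y) else 0).sum
            = 0 :=
          A2_sum_zero (fun u => y ∈ compL d A U u) _ fun u _ h => hyU (A2_sub h)
        have hyA : y ∈ A := he.2.resolve_left hyU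
        have h1 := hna2 x y hyA
        rw [hy0]
        omega
    · have hx0 : ((tops d A U).map fun u => if x ∈ compL d A U u then d x (na x) else 0).sum
            = 0 :=
          A2_sum_zero (fun u => x ∈ compL d A U u) _ fun u _ h => hxU (A2_sub h)
      have hxA : x ∈ A := he.1.resolve_left hxU
      have h1 := hna2 y x hxA
      rw [hd.symm y x] at h1
      rw [hx0]
      omega

theorem A2_total_cost {d : ℕ → ℕ → ℕ} (hd : NMet d) {U A : List ℕ} (hU : U.Nodup)
    {na : ℕ → ℕ} (hna1 : ∀ x, na x ∈ A) (hna2 : ∀ x, ∀ b ∈ A, d x (na x) ≤ d x b)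
    {F : List Edge} (hF : ∀ e ∈ F, (e.1 ∈ U ∨ e.1 ∈ A) ∧ (e.2 ∈ U ∨ e.2 ∈ A)) :
    ((tops d A U).map fun u => cost d (F.flatMap (A2piece na (compL d A U u)))).sum ≤
      cost d F := by
  induction F with
  | nil => simp [cost]
  | cons e F ih =>
    have h1 : (fun u => cost d ((e :: F).flatMap (A2piece na (compL d A U u)))) =
        fun u => cost d (A2piece na (compL d A U u) e) +
          cost d (F.flatMap (A2piece na (compL d A U u))) := by
      funext u
      rw [List.flatMap_cons, A2_cost_append]
    rw [h1, List.sum_map_add]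
    have h2 : cost d (e :: F) = d e.1 e.2 + cost d F := by
      simp [cost]
    rw [h2]
    exact Nat.add_le_add (A2_edge_cost hd hU hna1 hna2 (hF e (by simp)))
      (ih fun e' he' => hF e' (by simp [he']))

/-- a solution can be split into solutions of the components, without increase of cost. -/
theorem split {d : ℕ → ℕ → ℕ} (hd : NMet d) {tsp : Bool} {U R A : List ℕ} (hU : U.Nodup)
    (hA : A ≠ []) {F : List Edge}
    (hF : ∀ e ∈ F, (e.1 ∈ U ∨ e.1 ∈ A) ∧ (e.2 ∈ U ∨ e.2 ∈ A)) (hG : Good tsp F R A) :
    ∃ G : ℕ → List Edge,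
      (∀ u ∈ U, (∀ e ∈ G u, (e.1 ∈ compL d A U u ∨ e.1 ∈ A) ∧ (e.2 ∈ compL d A U u ∨ e.2 ∈ A)) ∧
        ∀ R' : List ℕ, (∀ x ∈ R', x ∈ R ∧ x ∈ compL d A U u) → Good tsp (G u) R' A) ∧
      ((tops d A U).map fun u => cost d (G u)).sum ≤ cost d F := by
  classical
  choose na hna1 hna2 using A2_exists_na d hA
  refine ⟨fun u => F.flatMap (A2piece na (compL d A U u)), ?_, A2_total_cost hd hU hna1 hna2 hF⟩
  intro u _hu
  have hends : ∀ e ∈ F.flatMap (A2piece na (compL d A U u)),
      (e.1 ∈ compL d A U u ∨ e.1 ∈ A) ∧ (e.2 ∈ compL d A U u ∨ e.2 ∈ A) := by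
    intro e he
    rw [List.mem_flatMap] at he
    obtain ⟨e', _, he⟩ := he
    unfold A2piece at he
    split_ifs at he with h1 h2 h3
    · rw [List.mem_singleton] at he
      subst he
      exact ⟨Or.inl h1, Or.inl h2⟩
    · rw [List.mem_singleton] at he
      subst he
      exact ⟨Or.inl h1, Or.inr (hna1 _)⟩
    · rw [List.mem_singleton] at he
      subst he
      exact ⟨Or.inr (hna1 _), Or.inl h3⟩
    · simp at he
  refine ⟨hends, ?_⟩
  intro R' hR'
  refine ⟨?_, ?_⟩
  · intro t ht
    obtain ⟨htR, htC⟩ := hR' t ht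
    obtain ⟨a, ha, hpath⟩ := hG.1 t htR
    clear ht htR
    induction hpath with
    | refl => exact ⟨a, ha, Relation.ReflTransGen.refl⟩
    | @tail y x hay hyx ih =>
      by_cases hy : y ∈ compL d A U u
      · obtain ⟨b, hb, hby⟩ := ih hy
        refine ⟨b, hb, hby.tail ?_⟩
        rcases hyx with h | h
        · left
          rw [List.mem_flatMap]
          exact ⟨(y, x), h, by simp [A2piece, hy, htC]⟩
        · right
          rw [List.mem_flatMap]
          exact ⟨(x, y), h, by simp [A2piece, hy, htC]⟩
      · refine ⟨na x, hna1 x, Relation.ReflTransGen.single ?_⟩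
        rcases hyx with h | h
        · left
          rw [List.mem_flatMap]
          exact ⟨(y, x), h, by simp [A2piece, hy, htC]⟩
        · right
          rw [List.mem_flatMap]
          exact ⟨(x, y), h, by simp [A2piece, hy, htC]⟩
  · intro htsp v hv
    by_cases hvC : v ∈ compL d A U u
    · have h0 : (ends (F.flatMap (A2piece na (compL d A U u)))).count v = (ends F).count v := by
        apply A2_count_flatMap
        intro e _he
        obtain ⟨x, y⟩ := e
        have hvn : ∀ z, na z ≠ v := fun z hz => hv (hz ▸ hna1 z)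
        by_cases hx : x ∈ compL d A U u
        · by_cases hy : y ∈ compL d A U u
          · simp [A2piece, hx, hy]
          · have hyv : y ≠ v := fun h => hy (h ▸ hvC)
            simp [A2piece, hx, hy, ends, List.count_cons, hvn, hyv]
        · have hxv : x ≠ v := fun h => hx (h ▸ hvC)
          by_cases hy : y ∈ compL d A U u
          · simp [A2piece, hx, hy, ends, List.count_cons, hvn, hxv]
          · have hyv : y ≠ v := fun h => hy (h ▸ hvC)
            simp [A2piece, hx, hy, ends, hxv, hyv]
      show Even ((ends (F.flatMap (A2piece na (compL d A U u)))).count v)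
      rw [h0]
      exact hG.2 htsp v hv
    · have h0 : (ends (F.flatMap (A2piece na (compL d A U u)))).count v = 0 := by
        rw [List.count_eq_zero]
        intro hmem
        unfold ends at hmem
        rw [List.mem_flatMap] at hmem
        obtain ⟨e, he, hve⟩ := hmem
        have := hends e he
        simp only [List.mem_cons, List.not_mem_nil, or_false] at hve
        rcases hve with rfl | rfl
        · rcases this.1 with h | h
          · exact hvC h
          · exact hv h
        · rcases this.2 with h | h
          · exact hvC h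
          · exact hv h
      show Even ((ends (F.flatMap (A2piece na (compL d A U u)))).count v)
      rw [h0]
      exact Even.zero

end Pool.Agent.H703
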