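import Pool.Agent.H703.Glue

/-!
# The Steiner tree problem

Proofs written by helper437 from the plan of helper703.
-/

set_option autoImplicit false

namespace Pool.Agent.H703

variable {V : Type}

namespace WGraph

variable {n : ℕ} (X : WGraph n)

end WGraph

open Pool.Agent.NPC

variable {n : ℕ}

/-
WHAT IS WANTED.  The Steiner tree theorem.  Constants `k, L, s` from `runF_spec`, `f` from `exists_table`.  The input is the pair (matrix, list of
terminals).  The algorithm on `(M, T)` (decode with `unbits`, `polyTime_opt`, `poly_unbits` as in `main` of TH694/M3/Final.lean): `F = runF f false L s k M T`,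
`E = F.flatMap fun e => (let w := tget tab n e.1 e.2; w.zip w.tail)` (a list of edges of the graph), `r = T.headD 0`, `V = clos (adj E) (List.range n) [r]`, output
`((List.range n).filter (· ∈ V), all pairs (u, v) of (List.range n) × (List.range n) (in the order of List.product) with u < v, adj E u v, u ∈ V)`.
Correctness: `T ≠ []`, all terminals are connected in `F`, hence in `E` (a table walk connects its end points), so they are in `V`.  The
subgraph `H` with vertex set `V` and the edges of `E` between vertices of `V` is connected (`V` is the component of `r`), its code is the output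
(`List.range n` is `(List.finRange n).map val`), and `D * subWeight H ≤ ∑ over E of wt ≤ cost (tdist N tab) F`, because distinct edges `u < v` of `H` come from
distinct positions of the list `E`.
Comparison with `H'`: `F* =` the list of all pairs `(u, v)`, `u < v`, `H'.Adj u v`: `AllGood false F* T` since `H'` is connected and contains all
terminals; its cost is at most `D * subWeight H'` since `tdist x y ≤ wt N x y` for adjacent `x, y`.
-/

/-- the edges of the table walks of the members of `F` -/
def wEdges (tab : List (List (List ℕ))) (n : ℕ) (F : List Edge) : List Edge :=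
  F.flatMap fun e => (tget tab n e.1 e.2).zip (tget tab n e.1 e.2).tail

/-- the component of `r` -/
noncomputable def stV (n : ℕ) (E : List Edge) (r : ℕ) : List ℕ := clos (adj E) (List.range n) [r]

open Classical in
/-- the output of the algorithm -/
noncomputable def stOut (n : ℕ) (E : List Edge) (r : ℕ) : List ℕ × List (ℕ × ℕ) :=
  ((List.range n).filter fun v => decide (v ∈ stV n E r),
    ((List.range n).product (List.range n)).filter fun e =>
      decide (e.1 < e.2 ∧ adj E e.1 e.2 ∧ e.1 ∈ stV n E r))

section PolyPart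

variable {α : Type} [TEnc α]

theorem poly_wEdges {tab : α → List (List (List ℕ))} {n : α → ℕ} {F : α → List Edge}
    (ht : NPC.Poly tab) (hn : NPC.Poly n) (hF : NPC.Poly F) :
    NPC.Poly (fun a => wEdges (tab a) (n a) (F a)) := by
  unfold wEdges
  have h1 : NPC.Poly (fun p : α × Edge => tget (tab p.1) (n p.1) p.2.1 p.2.2) :=
    poly_tget (ht.comp (NPC.Poly.fst NPC.Poly.id)) (hn.comp (NPC.Poly.fst NPC.Poly.id))
      (NPC.Poly.fst (NPC.Poly.snd NPC.Poly.id)) (NPC.Poly.snd (NPC.Poly.snd NPC.Poly.id))
  exact NPC.Poly.flatMap (F := fun a (e : Edge) =>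
    (tget (tab a) (n a) e.1 e.2).zip (tget (tab a) (n a) e.1 e.2).tail) hF
    (NPC.Poly.zip h1 (NPC.Poly.tail h1))

theorem pp_adj {E : α → List Edge} {x y : α → ℕ} (hE : NPC.Poly E) (hx : NPC.Poly x)
    (hy : NPC.Poly y) : PP (fun a => adj (E a) (x a) (y a)) := by
  unfold adj
  exact PP.or (PP.mem (NPC.Poly.pair hx hy) hE) (PP.mem (NPC.Poly.pair hy hx) hE)

theorem poly_stV {n : α → ℕ} {E : α → List Edge} {r : α → ℕ} (hn : UPoly n)
    (hE : NPC.Poly E) (hr : NPC.Poly r) : NPC.Poly (fun a => stV (n a) (E a) (r a)) := by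
  unfold stV
  exact poly_clos (r := fun a => adj (E a)) hn.range (NPC.Poly.cons hr (NPC.Poly.const []))
    (pp_adj (hE.comp (NPC.Poly.fst NPC.Poly.id)) (NPC.Poly.fst (NPC.Poly.snd NPC.Poly.id))
      (NPC.Poly.snd (NPC.Poly.snd NPC.Poly.id)))

theorem poly_stOut {n : α → ℕ} {E : α → List Edge} {r : α → ℕ} (hn : UPoly n)
    (hE : NPC.Poly E) (hr : NPC.Poly r) : NPC.Poly (fun a => stOut (n a) (E a) (r a)) := by
  classical
  have hV := poly_stV hn hE hr
  unfold stOut
  have hp : NPC.Poly (fun a => (List.range (n a)).product (List.range (n a))) :=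
    R671.poly_product hn.range hn.range
  have hf : NPC.Poly (fun x : α × Edge => x.1) := NPC.Poly.fst NPC.Poly.id
  have h1 : NPC.Poly (fun x : α × Edge => x.2.1) := NPC.Poly.fst (NPC.Poly.snd NPC.Poly.id)
  have h2 : NPC.Poly (fun x : α × Edge => x.2.2) := NPC.Poly.snd (NPC.Poly.snd NPC.Poly.id)
  refine NPC.Poly.pair ?_ ?_
  · exact PP.filter (r := fun a v => v ∈ stV (n a) (E a) (r a)) hn.range
      (PP.mem (NPC.Poly.snd NPC.Poly.id) (hV.comp (NPC.Poly.fst NPC.Poly.id)))
  · exact PP.filter (r := fun a (e : Edge) => e.1 < e.2 ∧ adj (E a) e.1 e.2 ∧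
      e.1 ∈ stV (n a) (E a) (r a)) hp
      (PP.and (PP.lt h1 h2) (PP.and (pp_adj (hE.comp hf) h1 h2) (PP.mem h1 (hV.comp hf))))

end PolyPart

theorem adj_symm {E : List Edge} {x y : ℕ} (h : adj E x y) : adj E y x := h.symm

theorem chain_zip {R : ℕ → ℕ → Prop} : ∀ (l : List ℕ), (∀ e ∈ l.zip l.tail, R e.1 e.2) →
    ∀ a b, l.head? = some a → l.getLast? = some b → Relation.ReflTransGen R a b := by
  intro l
  induction l with
  | nil => intro _ a b h; simp at h
  | cons x l ih =>
    intro hl a b ha hb
    simp only [List.head?_cons, Option.some.injEq] at ha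
    subst ha
    cases l with
    | nil =>
      simp only [List.getLast?_singleton, Option.some.injEq] at hb
      subst hb
      exact Relation.ReflTransGen.refl
    | cons y l =>
      have h1 : R x y := hl (x, y) (by simp)
      have h2 : Relation.ReflTransGen R y b := by
        refine ih (fun e he => hl e ?_) y b rfl ?_
        · simp only [List.tail_cons, List.zip_cons_cons, List.mem_cons] at he ⊢
          exact Or.inr he
        · rw [List.getLast?_cons_cons] at hb
          exact hb
      exact Relation.ReflTransGen.head h1 h2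

theorem zip_support (X : WGraph n) {u v : Fin n} (p : X.graph.Walk u v) :
    ∀ e ∈ (p.support.map Fin.val).zip (p.support.map Fin.val).tail,
      ∃ a b : Fin n, X.graph.Adj a b ∧ e = (a.val, b.val) := by
  induction p with
  | nil => intro e he; simp at he
  | @cons u v w h p ih =>
    intro e he
    rw [SimpleGraph.Walk.support_cons, List.map_cons, List.tail_cons,
      ← SimpleGraph.Walk.cons_tail_support p, List.map_cons, List.zip_cons_cons,
      List.mem_cons] at he
    rcases he with rfl | he
    · exact ⟨u, v, h, rfl⟩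
    · refine ih e ?_
      rw [← SimpleGraph.Walk.cons_tail_support p, List.map_cons, List.tail_cons]
      exact he

theorem tdist_le_wt (X : WGraph n) {tab : List (List (List ℕ))}
    (ht : IsTable (clear X.code) tab) {a b : Fin n} (h : X.graph.Adj a b) :
    tdist (clear X.code) tab a b ≤ wt (clear X.code) a b := by
  have hw := (walk_to_list X (SimpleGraph.Walk.cons h SimpleGraph.Walk.nil)).1
  have := (ht a b (by rw [length_clear]; exact a.2) (by rw [length_clear]; exact b.2)
    ⟨_, hw⟩).2 _ hw
  simpa [tdist, wsum] using this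

theorem sum_wEdges (N : List (List (Option ℕ))) (tab : List (List (List ℕ))) (F : List Edge) :
    ((wEdges tab N.length F).map fun e => wt N e.1 e.2).sum = cost (tdist N tab) F := by
  induction F with
  | nil => rfl
  | cons e F ih =>
    have h1 : wEdges tab N.length (e :: F) = (tget tab N.length e.1 e.2).zip
        (tget tab N.length e.1 e.2).tail ++ wEdges tab N.length F := by
      unfold wEdges
      rw [List.flatMap_cons]
    rw [h1, List.map_append, List.sum_append, ih]
    rfl

theorem sum_toFinset_le (g : Edge → ℕ) (l : List Edge) :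
    ∑ x ∈ l.toFinset, g x ≤ (l.map g).sum := by
  induction l with
  | nil => simp
  | cons a l ih =>
    rw [List.toFinset_cons, List.map_cons, List.sum_cons]
    by_cases h : a ∈ l.toFinset
    · rw [Finset.insert_eq_of_mem h]
      omega
    · rw [Finset.sum_insert h]
      omega

theorem sum_le_of_adj (w : ℕ → ℕ → ℕ) (E : List Edge)
    (hE : ∀ e ∈ E, w e.1 e.2 = w e.2 e.1) (S : Finset (Fin n × Fin n))
    (hS : ∀ e ∈ S, e.1 < e.2 ∧ adj E e.1.val e.2.val) :
    ∑ e ∈ S, w e.1.val e.2.val ≤ (E.map fun e => w e.1 e.2).sum := by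
  classical
  set m : Edge → Edge := fun e => if e.1 < e.2 then e else (e.2, e.1) with hm
  have h1 : ((E.map m).map fun e => w e.1 e.2) = E.map fun e => w e.1 e.2 := by
    rw [List.map_map]
    refine List.map_congr_left fun e he => ?_
    simp only [Function.comp_apply, hm]
    split_ifs with h
    · rfl
    · exact (hE e he).symm
  rw [← h1]
  refine le_trans ?_ (sum_toFinset_le (fun e => w e.1 e.2) (E.map m))
  have h2 : ∑ e ∈ S, w e.1.val e.2.val =
      ∑ x ∈ S.image (fun e : Fin n × Fin n => ((e.1.val, e.2.val) : Edge)), w x.1 x.2 := by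
    rw [Finset.sum_image]
    rintro ⟨a, b⟩ _ ⟨a', b'⟩ _ hab
    simp only [Prod.mk.injEq] at hab
    exact Prod.ext (Fin.ext hab.1) (Fin.ext hab.2)
  rw [h2]
  refine Finset.sum_le_sum_of_subset ?_
  intro x hx
  obtain ⟨e, he, rfl⟩ := Finset.mem_image.1 hx
  obtain ⟨hlt, hadj⟩ := hS e he
  have hlt' : e.1.val < e.2.val := hlt
  rw [List.mem_toFinset, List.mem_map]
  rcases hadj with h | h
  · refine ⟨_, h, ?_⟩
    simp only [hm]
    rw [if_pos hlt']
  · refine ⟨_, h, ?_⟩
    simp only [hm]
    rw [if_neg (by omega)]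

theorem mem_stV {E : List Edge} {r x : ℕ} : x ∈ stV n E r ↔
    r < n ∧ Relation.ReflTransGen (fun a b => b < n ∧ adj E a b) r x := by
  unfold stV
  rw [mem_clos]
  simp only [List.mem_singleton, exists_eq_left, List.mem_range]

theorem stV_step {E : List Edge} {r x y : ℕ} (hx : x ∈ stV n E r) (hy : y < n)
    (h : adj E x y) : y ∈ stV n E r := by
  rw [mem_stV] at hx ⊢
  exact ⟨hx.1, hx.2.tail ⟨hy, h⟩⟩

/-- the subgraph found by the algorithm -/
def stH (X : WGraph n) (E : List Edge) (r : ℕ)
    (hE : ∀ e ∈ E, ∃ a b : Fin n, X.graph.Adj a b ∧ e = (a.val, b.val)) : X.graph.Subgraph where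
  verts := {v | v.val ∈ stV n E r}
  Adj u v := adj E u.val v.val ∧ u.val ∈ stV n E r
  adj_sub := by
    intro u v h
    rcases h.1 with h1 | h1
    · obtain ⟨a, b, hab, he⟩ := hE _ h1
      simp only [Prod.mk.injEq] at he
      rw [Fin.ext he.1, Fin.ext he.2]
      exact hab
    · obtain ⟨a, b, hab, he⟩ := hE _ h1
      simp only [Prod.mk.injEq] at he
      rw [Fin.ext he.1, Fin.ext he.2]
      exact hab.symm
  edge_vert := fun h => h.2
  symm := ⟨fun _ v h => ⟨adj_symm h.1, stV_step h.2 v.2 h.1⟩⟩

theorem stH_connected (X : WGraph n) (E : List Edge) (r : Fin n)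
    (hE : ∀ e ∈ E, ∃ a b : Fin n, X.graph.Adj a b ∧ e = (a.val, b.val)) :
    (stH X E r.val hE).Connected := by
  rw [SimpleGraph.Subgraph.connected_iff', SimpleGraph.connected_iff_exists_forall_reachable]
  have hr : r ∈ (stH X E r.val hE).verts := by
    show r.val ∈ stV n E r.val
    rw [mem_stV]
    exact ⟨r.2, Relation.ReflTransGen.refl⟩
  refine ⟨⟨r, hr⟩, ?_⟩
  have key : ∀ y, Relation.ReflTransGen (fun a b => b < n ∧ adj E a b) r.val y →
      ∃ (hy : y < n) (hv : (⟨y, hy⟩ : Fin n) ∈ (stH X E r.val hE).verts),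
        (stH X E r.val hE).coe.Reachable ⟨r, hr⟩ ⟨⟨y, hy⟩, hv⟩ := by
    intro y hy
    induction hy with
    | refl => exact ⟨r.2, hr, SimpleGraph.Reachable.refl _⟩
    | @tail b c hb hc ih =>
      obtain ⟨hb1, hb2, hb3⟩ := ih
      have hb2' : b ∈ stV n E r.val := hb2
      have hc2 : c ∈ stV n E r.val := stV_step hb2' hc.1 hc.2
      refine ⟨hc.1, hc2, hb3.trans (SimpleGraph.Adj.reachable ?_)⟩
      show (stH X E r.val hE).Adj ⟨b, hb1⟩ ⟨c, hc.1⟩
      exact ⟨hc.2, hb2'⟩
  rintro ⟨w, hw⟩
  have hw' : w.val ∈ stV n E r.val := hw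
  rw [mem_stV] at hw'
  obtain ⟨hy, hv, h⟩ := key w.val hw'.2
  exact h

theorem range_eq_map (n : ℕ) : List.range n = (List.finRange n).map Fin.val := by
  apply List.ext_getElem
  · simp
  · intro i h1 h2
    simp

theorem stH_code (X : WGraph n) (E : List Edge) (r : ℕ)
    (hE : ∀ e ∈ E, ∃ a b : Fin n, X.graph.Adj a b ∧ e = (a.val, b.val)) :
    stOut n E r = X.subCode (stH X E r hE) := by
  classical
  unfold stOut WGraph.subCode
  refine Prod.ext ?_ ?_
  · show (List.range n).filter _ = ((List.finRange n).filter _).map Fin.val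
    rw [range_eq_map, List.filter_map]
    congr 1
    refine List.filter_congr fun x _ => ?_
    exact decide_eq_decide.2 Iff.rfl
  · show ((List.range n).product (List.range n)).filter _ =
      (((List.finRange n).product (List.finRange n)).filter _).map _
    have h1 : (List.range n).product (List.range n) =
        ((List.finRange n).product (List.finRange n)).map
          (fun e : Fin n × Fin n => ((e.1.val, e.2.val) : Edge)) := by
      rw [range_eq_map]
      unfold List.product
      rw [List.map_flatMap, List.flatMap_map]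
      refine List.flatMap_congr fun x _ => ?_
      rw [List.map_map, List.map_map]
      rfl
    rw [h1, List.filter_map]
    congr 1
    refine List.filter_congr fun x _ => ?_
    exact decide_eq_decide.2 Iff.rfl

open Classical in
theorem sum_stH (X : WGraph n) (H : X.graph.Subgraph) :
    ((∑ e ∈ (Finset.univ : Finset (Fin n × Fin n)).filter
      (fun e => e.1 < e.2 ∧ H.Adj e.1 e.2), wt (clear X.code) e.1.val e.2.val : ℕ) : ℚ) =
      comden X.code * X.subWeight H := by
  unfold WGraph.subWeight
  rw [Nat.cast_sum, Finset.mul_sum]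
  refine Finset.sum_congr rfl fun e he => ?_
  exact wt_adj X (H.adj_sub (Finset.mem_filter.1 he).2.2)

theorem subWeight_stH_le (X : WGraph n) (E : List Edge) (r : ℕ)
    (hE : ∀ e ∈ E, ∃ a b : Fin n, X.graph.Adj a b ∧ e = (a.val, b.val)) :
    (comden X.code * X.subWeight (stH X E r hE) : ℚ) ≤
      ((E.map fun e => wt (clear X.code) e.1 e.2).sum : ℕ) := by
  classical
  rw [← sum_stH]
  norm_cast
  convert sum_le_of_adj (wt (clear X.code)) E ?_ _ ?_ using 1
  · intro e he
    obtain ⟨a, b, hab, rfl⟩ := hE e he
    have h1 := wt_adj X hab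
    have h2 := wt_adj X hab.symm
    rw [X.symm b a, ← h1] at h2
    exact_mod_cast h2.symm
  · intro e he
    obtain ⟨_, h1, h2⟩ := Finset.mem_filter.1 he
    exact ⟨h1, h2.1⟩

theorem nodup_prod (n : ℕ) : ((List.finRange n).product (List.finRange n)).Nodup :=
  (List.nodup_finRange n).product (List.nodup_finRange n)

theorem cost_subCode_le (X : WGraph n) {tab : List (List (List ℕ))}
    (ht : IsTable (clear X.code) tab) (H : X.graph.Subgraph) :
    ((cost (tdist (clear X.code) tab) (X.subCode H).2 : ℕ) : ℚ) ≤
      comden X.code * X.subWeight H := by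
  classical
  rw [← sum_stH]
  norm_cast
  unfold cost WGraph.subCode
  show (List.map _ (List.map _ (List.filter _ _))).sum ≤ _
  rw [List.map_map]
  set P : Fin n × Fin n → Bool := fun e => decide (e.1 < e.2 ∧ H.Adj e.1 e.2) with hP
  have h1 : (((List.finRange n).product (List.finRange n)).filter P).Nodup :=
    (nodup_prod n).filter _
  rw [← List.sum_toFinset _ h1]
  have h2 : (((List.finRange n).product (List.finRange n)).filter P).toFinset =
      (Finset.univ : Finset (Fin n × Fin n)).filter
        (fun e => e.1 < e.2 ∧ H.Adj e.1 e.2) := by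
    ext e
    rw [List.mem_toFinset, List.mem_filter, Finset.mem_filter]
    have h3 : e ∈ (List.finRange n).product (List.finRange n) :=
      List.pair_mem_product.2 ⟨List.mem_finRange e.1, List.mem_finRange e.2⟩
    simp [hP, h3]
  rw [h2]
  refine Finset.sum_le_sum fun e he => ?_
  exact tdist_le_wt X ht (H.adj_sub (Finset.mem_filter.1 he).2.2)

theorem allGood_subCode (X : WGraph n) (H : X.graph.Subgraph) (hH : H.Connected)
    (T : List (Fin n)) (hT : ∀ t ∈ T, t ∈ H.verts) :
    AllGood false (X.subCode H).2 (T.map Fin.val) := by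
  classical
  refine ⟨?_, fun h => by simp at h⟩
  intro t ht t' ht'
  obtain ⟨a, ha, rfl⟩ := List.mem_map.1 ht
  obtain ⟨b, hb, rfl⟩ := List.mem_map.1 ht'
  have h1 : H.coe.Reachable ⟨a, hT a ha⟩ ⟨b, hT b hb⟩ := hH.coe.preconnected _ _
  rw [SimpleGraph.reachable_iff_reflTransGen] at h1
  have key : ∀ x y : Fin n, H.Adj x y → x < y → (x.val, y.val) ∈ (X.subCode H).2 := by
    intro x y hxy hlt
    unfold WGraph.subCode
    refine List.mem_map.2 ⟨(x, y), ?_, rfl⟩
    rw [List.mem_filter]
    refine ⟨?_, by simpa using ⟨hlt, hxy⟩⟩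
    exact List.pair_mem_product.2 ⟨List.mem_finRange _, List.mem_finRange _⟩
  refine Relation.ReflTransGen.lift (fun x : H.verts => x.1.val) ?_ _ _ h1
  intro x y hxy
  have hxy' : H.Adj x.1 y.1 := hxy
  rcases lt_trichotomy x.1 y.1 with h | h | h
  · exact Or.inl (key _ _ hxy' h)
  · exact absurd h hxy'.ne
  · exact Or.inr (key _ _ hxy'.symm h)

theorem reach_wEdges (X : WGraph n) {tab : List (List (List ℕ))}
    (ht : IsTable (clear X.code) tab) {F : List Edge} (hF : ∀ x ∈ ends F, x < n) {x y : ℕ}
    (hx : x < n) (h : Relation.ReflTransGen (adj F) x y) :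
    Relation.ReflTransGen (fun a b => b < n ∧ adj (wEdges tab (clear X.code).length F) a b)
      x y := by
  have hsub : ∀ e ∈ wEdges tab (clear X.code).length F, e.1 < n ∧ e.2 < n := by
    intro e he
    obtain ⟨f, hf, he'⟩ := List.mem_flatMap.1 he
    have hf1 : f.1 < n := hF _ (List.mem_flatMap.2 ⟨f, hf, by simp⟩)
    have hf2 : f.2 < n := hF _ (List.mem_flatMap.2 ⟨f, hf, by simp⟩)
    have hw := (ht f.1 f.2 (by rw [length_clear]; exact hf1) (by rw [length_clear]; exact hf2)
      (exists_isWalk X hf1 hf2)).1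
    have h1 := List.of_mem_zip he'
    have h2 := hw.lt _ h1.1
    have h3 := hw.lt _ (List.mem_of_mem_tail h1.2)
    rw [length_clear] at h2 h3
    exact ⟨h2, h3⟩
  have hedge : ∀ a b, (a, b) ∈ F → Relation.ReflTransGen
      (fun a b => b < n ∧ a < n ∧ adj (wEdges tab (clear X.code).length F) a b) a b := by
    intro a b hab
    have hf1 : a < n := hF _ (List.mem_flatMap.2 ⟨(a, b), hab, by simp⟩)
    have hf2 : b < n := hF _ (List.mem_flatMap.2 ⟨(a, b), hab, by simp⟩)
    have hw := (ht a b (by rw [length_clear]; exact hf1) (by rw [length_clear]; exact hf2)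
      (exists_isWalk X hf1 hf2)).1
    refine chain_zip (tget tab (clear X.code).length a b) ?_ a b hw.head hw.last
    intro e he
    have hmem : e ∈ wEdges tab (clear X.code).length F := List.mem_flatMap.2 ⟨(a, b), hab, he⟩
    exact ⟨(hsub e hmem).2, (hsub e hmem).1, Or.inl hmem⟩
  have hsymm : ∀ a b, Relation.ReflTransGen
      (fun a b => b < n ∧ a < n ∧ adj (wEdges tab (clear X.code).length F) a b) a b →
      Relation.ReflTransGen
      (fun a b => b < n ∧ a < n ∧ adj (wEdges tab (clear X.code).length F) a b) b a := by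
    intro a b hab
    induction hab with
    | refl => exact Relation.ReflTransGen.refl
    | tail _ hbc ih =>
      exact Relation.ReflTransGen.head ⟨hbc.2.1, hbc.1, adj_symm hbc.2.2⟩ ih
  induction h with
  | refl => exact Relation.ReflTransGen.refl
  | @tail b c _ hbc ih =>
    refine ih.trans ?_
    have h1 : Relation.ReflTransGen
      (fun a b => b < n ∧ a < n ∧ adj (wEdges tab (clear X.code).length F) a b) b c := by
      rcases hbc with h | h
      · exact hedge _ _ h
      · exact hsymm _ _ (hedge _ _ h)
    exact Relation.ReflTransGen.mono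
      (p := fun a b => b < n ∧ adj (wEdges tab (clear X.code).length F) a b)
      (fun a b hab => ⟨hab.1, hab.2.2⟩) _ _ h1

theorem wEdges_adj (X : WGraph n) {tab : List (List (List ℕ))}
    (ht : IsTable (clear X.code) tab) {F : List Edge} (hF : ∀ x ∈ ends F, x < n) :
    ∀ e ∈ wEdges tab (clear X.code).length F,
      ∃ a b : Fin n, X.graph.Adj a b ∧ e = (a.val, b.val) := by
  intro e he
  obtain ⟨f, hf, he'⟩ := List.mem_flatMap.1 he
  have hf1 : f.1 < n := hF _ (List.mem_flatMap.2 ⟨f, hf, by simp⟩)
  have hf2 : f.2 < n := hF _ (List.mem_flatMap.2 ⟨f, hf, by simp⟩)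
  obtain ⟨p, hp, _⟩ := table_walk X ht ⟨f.1, hf1⟩ ⟨f.2, hf2⟩
  have hp' : tget tab (clear X.code).length f.1 f.2 = p.support.map Fin.val := hp.symm
  rw [hp'] at he'
  exact zip_support X p e he'

/-- the Steiner tree problem has a polynomial-time approximation scheme on confined graphs
of bounded highway dimension. -/
theorem stp_main (h : ℕ) {C : ℝ} (hC : 0 ≤ C) {ε : ℝ} (hε : 0 < ε) :
    ∃ f : List Bool → List Bool, PolyTime f ∧ ∀ (n : ℕ) (X : WGraph n) (T : List (Fin n)),
      X.highwayDim ≤ h → X.Confined C → T ≠ [] → ∃ H : X.graph.Subgraph,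
        f (bits (X.code, T.map Fin.val)) = bits (X.subCode H) ∧ H.Connected ∧
        (∀ t ∈ T, t ∈ H.verts) ∧
        ∀ H' : X.graph.Subgraph, H'.Connected → (∀ t ∈ T, t ∈ H'.verts) →
          (X.subWeight H : ℝ) ≤ (1 + ε) * (X.subWeight H' : ℝ) := by
  classical
  obtain ⟨k, L, s, hspec⟩ := runF_spec h hC hε
  obtain ⟨f, hf, hft⟩ := exists_table
  set alg : List (List (Option ℚ)) × List ℕ → List ℕ × List (ℕ × ℕ) := fun p =>
    stOut (clear p.1).length (wEdges (f (clear p.1)) (clear p.1).length
      (runF f false L s k p.1 p.2)) (p.2.headD 0) with halgd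
  have halg : NPC.Poly alg := by
    have hc : NPC.Poly (fun p : List (List (Option ℚ)) × List ℕ => clear p.1) :=
      poly_clear.comp (NPC.Poly.fst NPC.Poly.id)
    exact poly_stOut (UPoly.length hc)
      (poly_wEdges (hf.comp hc) (NPC.Poly.length hc) (poly_runF hf false L s k))
      (poly_headD (NPC.Poly.snd NPC.Poly.id) (NPC.Poly.const 0))
  refine ⟨_, polyTime_opt (NPC.Poly.optMap (o := unbits (List (List (Option ℚ)) × List ℕ))
    (f := fun _ p => alg p) poly_unbits (halg.comp (NPC.Poly.snd NPC.Poly.id))), ?_⟩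
  intro n X T hX hXC hT0
  obtain ⟨t0, T', rfl⟩ := List.exists_cons_of_ne_nil hT0
  set T := t0 :: T' with hTd
  have htab : IsTable (clear X.code) (f (clear X.code)) := hft _
  have hTn : ∀ v ∈ T.map Fin.val, v < n := by
    intro v hv
    obtain ⟨t, _, rfl⟩ := List.mem_map.1 hv
    exact t.2
  obtain ⟨hends, hgood, hopt⟩ := hspec f n X (T.map Fin.val) false htab hX hXC hTn
  set F := runF f false L s k X.code (T.map Fin.val) with hFd
  set E := wEdges (f (clear X.code)) (clear X.code).length F with hEd
  have hE := wEdges_adj X htab hends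
  have hr : (T.map Fin.val).headD 0 = t0.val := rfl
  refine ⟨stH X E t0.val hE, ?_, stH_connected X E t0 hE, ?_, ?_⟩
  · have h1 : alg (X.code, T.map Fin.val) = X.subCode (stH X E t0.val hE) := by
      rw [← stH_code]
      simp only [halgd]
      rw [hr, length_clear]
      simp only [hEd, length_clear]
      rfl
    simp only [unbits_bits, Option.map_some]
    rw [h1]
  · intro t ht
    show t.val ∈ stV n E t0.val
    rw [mem_stV]
    refine ⟨t0.2, reach_wEdges X htab hends t0.2 ?_⟩
    exact hgood.1 _ (List.mem_map.2 ⟨t0, by simp [hTd], rfl⟩) _ (List.mem_map.2 ⟨t, ht, rfl⟩)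
  · intro H' hH' hT'
    have h1 := subWeight_stH_le X E t0.val hE
    have h0 : (E.map fun e => wt (clear X.code) e.1 e.2).sum =
        cost (tdist (clear X.code) (f (clear X.code))) F := sum_wEdges _ _ _
    rw [h0] at h1
    have h2 := hopt (X.subCode H').2 (by
      intro e he
      unfold WGraph.subCode at he
      obtain ⟨e', _, rfl⟩ := List.mem_map.1 he
      exact ⟨e'.1.2, e'.2.2⟩) (allGood_subCode X H' hH' T hT')
    have h3 := cost_subCode_le X htab H'
    have hD : (0 : ℝ) < comden X.code := by exact_mod_cast comden_pos X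
    have h1' : ((comden X.code : ℝ) * (X.subWeight (stH X E t0.val hE) : ℝ)) ≤
        (cost (tdist (clear X.code) (f (clear X.code))) F : ℝ) := by
      exact_mod_cast h1
    have h3' : (cost (tdist (clear X.code) (f (clear X.code))) (X.subCode H').2 : ℝ) ≤
        (comden X.code : ℝ) * (X.subWeight H' : ℝ) := by
      exact_mod_cast h3
    have h4 : (comden X.code : ℝ) * (X.subWeight (stH X E t0.val hE) : ℝ) ≤
        (comden X.code : ℝ) * ((1 + ε) * (X.subWeight H' : ℝ)) := by
      calc (comden X.code : ℝ) * (X.subWeight (stH X E t0.val hE) : ℝ)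
          ≤ (cost (tdist (clear X.code) (f (clear X.code))) F : ℝ) := h1'
        _ ≤ (1 + ε) * (cost (tdist (clear X.code) (f (clear X.code))) (X.subCode H').2 : ℝ) := h2
        _ ≤ (1 + ε) * ((comden X.code : ℝ) * (X.subWeight H' : ℝ)) := by
          exact mul_le_mul_of_nonneg_left h3' (by linarith)
        _ = (comden X.code : ℝ) * ((1 + ε) * (X.subWeight H' : ℝ)) := by ring
    exact le_of_mul_le_mul_left h4 hD

end Pool.Agent.H703
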