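import Pool.Agent.H703.Depth

/-!
# The structure theorem for sets of bounded aspect ratio
-/

set_option autoImplicit false

namespace Pool.Agent.H703

theorem exists_depth_one (h : ℕ) (Λ : ℝ) : ∃ s : ℕ, ∀ (V : Type) (d : V → V → ℝ) (W : Set V),
    PMet d → HC h d W → ∀ (U P : Set V), U.Finite → U ⊆ W →
    (∀ u ∈ U, ∀ w ∈ U, u ≠ w → 1 ≤ d u w) → (∀ u ∈ U, ∀ w ∈ U, d u w ≤ Λ) →
    (∀ z ∈ W, ∀ u ∈ U, d u z ≤ Λ → z ∈ P) → P.Nonempty → Dep d P s U ∅ := by
  classical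
  obtain ⟨K0, hK0⟩ := exists_hubs h (2 * Λ)
  obtain ⟨s, hs⟩ := depth_bound K0 K0
  refine ⟨s, ?_⟩
  intro V d W hd hc U P hUf hUW hsep hdiam hP hPn
  obtain ⟨R, hR⟩ := hK0 V d W hd hc
  have hex : ∀ u w, ∃ x, u ∈ U → w ∈ U → u ≠ w →
      d u x + d x w = d u w ∧ 2 * d u w - 1 / 1000 ≤ R x := by
    intro u w
    by_cases h1 : u ∈ U ∧ w ∈ U ∧ u ≠ w
    · obtain ⟨hu, hw, hne⟩ := h1
      have h2 := hsep u hu w hw hne
      have h3 := hdiam u hu w hw
      obtain ⟨x, hx1, hx2⟩ := hR.cov u (hUW hu) w (hUW hw) h2 (by linarith)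
      exact ⟨x, fun _ _ _ => ⟨hx1, hx2⟩⟩
    · exact ⟨u, fun a b c => absurd ⟨a, b, c⟩ h1⟩
  choose χ hχ using hex
  have hch : Chosen d W (2 * Λ) R χ U ∅ := by
    refine ⟨hUW, hsep, ?_, ?_, ?_, ?_⟩
    · intro u hu w hw
      have := hdiam u hu w hw
      linarith
    · intro u hu w hw hne
      exact (hχ u w hu hw hne).1
    · intro u hu w hw hne
      exact (hχ u w hu hw hne).2
    · intro u _ w _ _ z hz
      exact absurd hz (Set.notMem_empty z)
  refine hs V d W R (2 * Λ) hd hR χ U ∅ P hch hUf Set.finite_empty ?_ ?_ hPn ?_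
  · intro u hu
    refine hP u (hUW hu) u hu ?_
    exact hdiam u hu u hu
  · rintro x ⟨u, hu, w, hw, hne, rfl⟩
    have h1 := hχ u w hu hw hne
    have h2 := hsep u hu w hw hne
    have h3 := hdiam u hu w hw
    have h4 := hd.nonneg (χ u w) w
    refine hP _ (hR.mem _ (by linarith [h1.2])) u hu ?_
    linarith [h1.1]
  · intro u hu T hT
    exact hR.card u (hUW hu) T (fun x hx => (hT x hx).2)

theorem PMet.scale {V : Type} {d : V → V → ℝ} (hd : PMet d) {t : ℝ} (ht : 0 < t) :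
    PMet (fun x y => d x y / t) := by
  refine ⟨?_, ?_, ?_⟩
  · intro x; simp only [hd.self, zero_div]
  · intro x y
    show d x y / t = d y x / t
    rw [hd.symm x y]
  · intro x y z
    have := hd.tri x y z
    show d x z / t ≤ d x y / t + d y z / t
    rw [← add_div]
    gcongr

theorem HC.scale {V : Type} {d : V → V → ℝ} {W : Set V} {h : ℕ} (hc : HC h d W) {t : ℝ}
    (ht : 0 < t) : HC h (fun x y => d x y / t) W := by
  intro r hr
  obtain ⟨S, h1, h2, h3⟩ := hc (r * t) (by positivity)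
  refine ⟨S, h1, ?_, ?_⟩
  · intro v hv T hT hT2
    refine h2 v hv T hT ?_
    intro x hx
    have := hT2 x hx
    rw [div_le_iff₀ ht] at this
    linarith
  · intro u hu w hw h4 h5
    rw [lt_div_iff₀ ht] at h4
    rw [div_le_iff₀ ht] at h5
    obtain ⟨x, hx, hx2⟩ := h3 u hu w hw h4 (by linarith)
    refine ⟨x, hx, ?_⟩
    rw [← add_div, hx2]

theorem rel_scale {V : Type} {d : V → V → ℝ} {t : ℝ} (ht : 0 < t) (A : Set V) (u w : V) :
    rel (fun x y => d x y / t) A u w ↔ rel d A u w := by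
  unfold rel
  simp only [← add_div, div_lt_div_iff_of_pos_right ht]

theorem comp_scale {V : Type} {d : V → V → ℝ} {t : ℝ} (ht : 0 < t) (A U : Set V) (u : V) :
    comp (fun x y => d x y / t) A U u = comp d A U u := by
  unfold comp
  simp only [rel_scale ht]

theorem Dep.scale {V : Type} {d : V → V → ℝ} {P : Set V} {t : ℝ} (ht : 0 < t) :
    ∀ {s : ℕ} {U A : Set V}, Dep (fun x y => d x y / t) P s U A → Dep d P s U A
  | 0, U, A, h => h
  | s + 1, U, A, h => by
    intro u hu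
    obtain ⟨z, hz, h1⟩ := h u hu
    rw [comp_scale ht] at h1
    exact ⟨z, hz, Dep.scale ht h1⟩

/-- The structure theorem: on a set of points whose distances lie in `[t, Λ t]` the contraction
depth is bounded, if the hub condition holds. -/
theorem exists_depth (h : ℕ) (Λ : ℝ) : ∃ s : ℕ, ∀ (V : Type) (d : V → V → ℝ) (W : Set V),
    PMet d → HC h d W → ∀ (t : ℝ) (U P : Set V), 0 < t → U.Finite → U ⊆ W →
    (∀ u ∈ U, ∀ w ∈ U, u ≠ w → t ≤ d u w) → (∀ u ∈ U, ∀ w ∈ U, d u w ≤ Λ * t) →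
    (∀ z ∈ W, ∀ u ∈ U, d u z ≤ Λ * t → z ∈ P) → P.Nonempty → Dep d P s U ∅ := by
  obtain ⟨s, hs⟩ := exists_depth_one h Λ
  refine ⟨s, ?_⟩
  intro V d W hd hc t U P ht hUf hUW hsep hdiam hP hPn
  refine Dep.scale ht (hs V (fun x y => d x y / t) W (hd.scale ht) (hc.scale ht) U P hUf hUW
    ?_ ?_ ?_ hPn)
  · intro u hu w hw hne
    rw [le_div_iff₀ ht]
    linarith [hsep u hu w hw hne]
  · intro u hu w hw
    rw [div_le_iff₀ ht]
    exact hdiam u hu w hw
  · intro z hz u hu h1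
    rw [div_le_iff₀ ht] at h1
    exact hP z hz u hu h1

end Pool.Agent.H703
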