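import Pool.Agent.H703.Base

/-!
# Tight triples

`a` is the distance to the contracted set.  Two points `u, w` of `P` are related if
`d u w < a u + a w`; then `3 d u w ≤ a u + a w + e` with `e = 1/500`.  A tight triple `(u, v, w)` has
`u, v` related, `v, w` related, but not `u, w`.
-/

set_option autoImplicit false

namespace Pool.Agent.H703

variable {V : Type}

/-- The setting of the tight triple lemmas. -/
structure TCtx (d : V → V → ℝ) (a : V → ℝ) (P : Set V) : Prop where
  lip : ∀ x y, a x ≤ a y + d x y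
  pos : ∀ u ∈ P, 1 / 2 ≤ a u
  close : ∀ u ∈ P, ∀ w ∈ P, d u w < a u + a w → 3 * d u w ≤ a u + a w + 1 / 500

/-- A tight triple. -/
structure Tight (d : V → V → ℝ) (a : V → ℝ) (P : Set V) (u v w : V) : Prop where
  hu : u ∈ P
  hv : v ∈ P
  hw : w ∈ P
  uv : d u v < a u + a v
  vw : d v w < a v + a w
  uw : a u + a w ≤ d u w

variable {d : V → V → ℝ} {a : V → ℝ} {P : Set V}

theorem Tight.symm (hd : PMet d) {u v w : V} (h : Tight d a P u v w) : Tight d a P w v u := by
  refine ⟨h.hw, h.hv, h.hu, ?_, ?_, ?_⟩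
  · rw [hd.symm, add_comm]; exact h.vw
  · rw [hd.symm, add_comm]; exact h.uv
  · rw [hd.symm, add_comm]; exact h.uw

/-- In a tight triple the outer points have half the `a` of the middle point and lie at half that
distance. -/
theorem Tight.bounds (hd : PMet d) (hP : TCtx d a P) {u v w : V} (h : Tight d a P u v w) :
    a v / 2 - 1 / 500 ≤ a u ∧ a u ≤ a v / 2 + 1 / 250 ∧
      a v / 2 - 1 / 250 ≤ d u v ∧ d u v ≤ a v / 2 + 1 / 250 := by
  have h1 := hP.close u h.hu v h.hv h.uv
  have h2 := hP.close v h.hv w h.hw h.vw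
  have h3 := h.uw
  have h4 := hd.tri u v w
  have h5 := hP.lip v u
  have h6 := hP.lip v w
  rw [hd.symm v u] at h5
  refine ⟨?_, ?_, ?_, ?_⟩ <;> linarith

/-- The middle of a tight triple is related to everything related to something related to it. -/
theorem Tight.all_rel (hd : PMet d) (hP : TCtx d a P) {u v w m n : V} (h : Tight d a P u v w)
    (hm : m ∈ P) (hn : n ∈ P) (hmv : d m v < a m + a v) (hnm : d n m < a n + a m) :
    d n v < a n + a v := by
  by_contra hc
  push Not at hc
  have ht : Tight d a P n m v := ⟨hn, hm, h.hv, hnm, hmv, hc⟩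
  have b1 := (ht.symm hd).bounds hd hP
  have b2 := h.bounds hd hP
  have pv := hP.pos v h.hv
  have hmu : d m u ≤ d m v + d u v := by
    have := hd.tri m v u
    rw [hd.symm v u] at this
    exact this
  have hvm : d v m = d m v := hd.symm v m
  rw [hvm] at b1
  have h1 : d m u < a m + a u := by linarith [b1.1, b1.2.1, b1.2.2.1, b1.2.2.2, b2.1, b2.2.1, b2.2.2.1, b2.2.2.2]
  have h2 := hP.close m hm u h.hu h1
  have h3 := hP.lip m u
  linarith [b1.1, b1.2.1, b1.2.2.1, b1.2.2.2, b2.1, b2.2.1, b2.2.2.1, b2.2.2.2]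

/-- A point related to both outer points of a tight triple (a core point). -/
theorem Tight.core (hd : PMet d) (hP : TCtx d a P) {u v w n : V} (h : Tight d a P u v w)
    (hn : n ∈ P) (hnu : d n u < a n + a u) (hnw : d n w < a n + a w) :
    a v - 1 / 100 ≤ a n ∧ a n ≤ a v + 1 / 100 ∧
      a v / 2 - 1 / 100 ≤ d u n ∧ d u n ≤ a v / 2 + 1 / 100 := by
  have b2 := h.bounds hd hP
  have b3 := (h.symm hd).bounds hd hP
  have h1 := hP.close n hn u h.hu hnu
  have h2 := hP.close n hn w h.hw hnw
  have h3 := hP.lip n u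
  have h4 := h.uw
  have h5 := hd.tri u n w
  rw [hd.symm u n] at h5 ⊢
  obtain ⟨c1, c2, c3, c4⟩ := b2
  obtain ⟨e1, e2, e3, e4⟩ := b3
  refine ⟨?_, ?_, ?_, ?_⟩ <;> linarith

/-- The hub of a pair at distance about `a v / 2` ending in `v`, starting from a point of half the
`a`, is close to `v`. -/
theorem hub_near {p v x : V} {A : ℝ} (hlip : ∀ x y, a x ≤ a y + d x y) (hsy : d x p = d p x)
    (hap : a p ≤ A / 2 + 1 / 250) (h1 : A / 2 - 1 / 100 ≤ d p v)
    (hx : d p x + d x v = d p v) (hR : 2 * d p v - 1 / 1000 ≤ a x) : d x v ≤ 1 / 20 := by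
  have := hlip x p
  rw [hsy] at this
  linarith

end Pool.Agent.H703
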