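import Pool.Agent.H703.Clos
import Pool.Agent.H601R2.PP
import Pool.Agent.NPC.Dec

/-!
# Basic list functions run in polynomial time

Proofs written by helper839 from the plan of helper703.
-/

set_option autoImplicit false

namespace Pool.Agent.H703

open Pool.Agent.NPC

variable {α : Type} [TEnc α]

/-
WHAT IS WANTED.  `NPC.Poly f` says that `f` is computed in polynomial time on encoded data, `NPC.PP p` that the predicate `p` is
decidable in polynomial time, `NPC.UPoly n` that the number `n a` is at most polynomial (computable in unary).  The library has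
`NPC.Poly.map, flatMap, filter, append, cons, pair, fst, snd, comp, const, id, sum, iterLen, listCases, foldl, foldr, getD, range…`,
`PP.and, or, not, eq, lt, le, mem, ball, bex, filter, ite, dec, congr, comp`.
`poly_clos`: `NPC.Poly.iterLen` (iteration `V.length` times); every iterate is a sublist (a `filter`) of `V`, which bounds its size
(see `sz_sublist` in the example).  `pp_good`: through `good_iff`.  `poly_seqs`, `poly_cost`, `poly_pick`: see `poly_seqs`, `poly_cw`,
`poly_best`, `poly_take1` in the example.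
-/

theorem poly_clos_sz {β : Type} [TEnc β] {l l' : List β} (h : l.Sublist l') : sz l ≤ sz l' := by
  induction h with
  | slnil => exact le_rfl
  | cons a _ ih => simp; omega
  | cons_cons a _ ih => simp; omega

theorem poly_clos {V S : α → List ℕ} {r : α → ℕ → ℕ → Prop} (hV : NPC.Poly V) (hS : NPC.Poly S)
    (hr : PP (fun p : α × ℕ × ℕ => r p.1 p.2.1 p.2.2)) :
    NPC.Poly (fun a => clos (r a) (V a) (S a)) := by
  classical
  unfold clos
  obtain ⟨q, hq⟩ := hV.sz_le
  refine NPC.Poly.iterLen (l := V) (s := fun a => (V a).filter fun v => decide (v ∈ S a))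
    (F := fun a S' => (V a).filter fun v => decide (v ∈ S' ∨ ∃ s ∈ S', r a s v)) hV ?_ ?_ q ?_
  · exact PP.filter (inst := fun a v => _) (r := fun a v => v ∈ S a) hV
      (PP.mem (NPC.Poly.snd NPC.Poly.id) (hS.comp (NPC.Poly.fst NPC.Poly.id)))
  · refine PP.filter (inst := fun a v => _)
      (r := fun (p : α × List ℕ) v => v ∈ p.2 ∨ ∃ s ∈ p.2, r p.1 s v)
      (hV.comp (NPC.Poly.fst NPC.Poly.id)) ?_
    refine PP.or (PP.mem (NPC.Poly.snd NPC.Poly.id) (NPC.Poly.snd (NPC.Poly.fst NPC.Poly.id))) ?_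
    refine PP.bex (r := fun (p : (α × List ℕ) × ℕ) s => r p.1.1 s p.2)
      (NPC.Poly.snd (NPC.Poly.fst NPC.Poly.id)) ?_
    exact hr.comp (f := fun p : ((α × List ℕ) × ℕ) × ℕ => (p.1.1.1, p.2, p.1.2))
      (NPC.Poly.pair (NPC.Poly.fst (NPC.Poly.fst (NPC.Poly.fst NPC.Poly.id)))
        (NPC.Poly.pair (NPC.Poly.snd NPC.Poly.id) (NPC.Poly.snd (NPC.Poly.fst NPC.Poly.id))))
  · intro a k _
    refine le_trans ?_ (hq a)
    apply poly_clos_sz
    cases k with
    | zero => exact List.filter_sublist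
    | succ k =>
      rw [Function.iterate_succ_apply']
      exact List.filter_sublist

theorem poly_ends {F : α → List Edge} (hF : NPC.Poly F) : NPC.Poly (fun a => ends (F a)) := by
  unfold ends
  exact NPC.Poly.flatMap (F := fun _ (e : Edge) => [e.1, e.2]) hF
    (NPC.Poly.cons (NPC.Poly.fst (NPC.Poly.snd NPC.Poly.id))
      (NPC.Poly.cons (NPC.Poly.snd (NPC.Poly.snd NPC.Poly.id)) (NPC.Poly.const _)))

theorem pp_good_count {l : α → List ℕ} {v : α → ℕ} (hl : NPC.Poly l) (hv : NPC.Poly v) :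
    NPC.Poly (fun a => (l a).count (v a)) := by
  refine (NPC.Poly.length (PP.filter (r := fun a x => x = v a) hl
    (PP.eq (NPC.Poly.snd NPC.Poly.id) (hv.comp (NPC.Poly.fst NPC.Poly.id))))).congr fun a => ?_
  rw [List.count_eq_length_filter]
  rfl

theorem pp_good_adj {F : α → List Edge} (hF : NPC.Poly F) :
    PP (fun p : α × ℕ × ℕ => adj (F p.1) p.2.1 p.2.2) := by
  unfold adj
  exact PP.or (PP.mem (NPC.Poly.pair (NPC.Poly.fst (NPC.Poly.snd NPC.Poly.id))
      (NPC.Poly.snd (NPC.Poly.snd NPC.Poly.id))) (hF.comp (NPC.Poly.fst NPC.Poly.id)))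
    (PP.mem (NPC.Poly.pair (NPC.Poly.snd (NPC.Poly.snd NPC.Poly.id))
      (NPC.Poly.fst (NPC.Poly.snd NPC.Poly.id))) (hF.comp (NPC.Poly.fst NPC.Poly.id)))

theorem pp_good {tsp : Bool} {F : α → List Edge} {R A : α → List ℕ} (hF : NPC.Poly F)
    (hR : NPC.Poly R) (hA : NPC.Poly A) : PP (fun a => Good tsp (F a) (R a) (A a)) := by
  refine PP.congr (p := fun a => (∀ t ∈ R a, t ∈ clos (adj (F a)) (A a ++ ends (F a)) (A a)) ∧
      (tsp = false ∨ ∀ v ∈ ends (F a), v ∈ A a ∨ (ends (F a)).count v % 2 = 0)) ?_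
    (fun a => good_iff.symm)
  have hE := poly_ends hF
  have hc := poly_clos (r := fun a => adj (F a)) (NPC.Poly.append hA hE) hA (pp_good_adj hF)
  refine PP.and ?_ (PP.or (PP.eq (NPC.Poly.const _) (NPC.Poly.const _)) ?_)
  · exact PP.ball (r := fun a t => t ∈ clos (adj (F a)) (A a ++ ends (F a)) (A a)) hR
      (PP.mem (NPC.Poly.snd NPC.Poly.id) (hc.comp (NPC.Poly.fst NPC.Poly.id)))
  · refine PP.ball (r := fun a v => v ∈ A a ∨ (ends (F a)).count v % 2 = 0) hE ?_
    refine PP.or (PP.mem (NPC.Poly.snd NPC.Poly.id) (hA.comp (NPC.Poly.fst NPC.Poly.id))) ?_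
    exact PP.eq (NPC.Poly.mod (pp_good_count (hE.comp (NPC.Poly.fst NPC.Poly.id))
      (NPC.Poly.snd NPC.Poly.id)) (NPC.Poly.const 2)) (NPC.Poly.const 0)

theorem poly_cost {d : α → ℕ → ℕ → ℕ} (hd : NPC.Poly (fun p : α × ℕ × ℕ => d p.1 p.2.1 p.2.2))
    {F : α → List Edge} (hF : NPC.Poly F) : NPC.Poly (fun a => cost (d a) (F a)) := by
  unfold cost
  exact NPC.Poly.sum (NPC.Poly.map (F := fun a (e : Edge) => d a e.1 e.2) hF
    (hd.comp (f := fun p : α × Edge => (p.1, p.2.1, p.2.2)) (NPC.Poly.pair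
      (NPC.Poly.fst NPC.Poly.id) (NPC.Poly.pair (NPC.Poly.fst (NPC.Poly.snd NPC.Poly.id))
        (NPC.Poly.snd (NPC.Poly.snd NPC.Poly.id))))))

theorem poly_pick_take1 {β : Type} [TEnc β] {l : α → List β} (hl : NPC.Poly l) :
    NPC.Poly (fun a => (l a).take 1) := by
  refine (NPC.Poly.listCases (g := fun _ => ([] : List β)) (h := fun _ b _ => [b]) hl
    (NPC.Poly.const _) (NPC.Poly.cons (NPC.Poly.fst (NPC.Poly.snd NPC.Poly.id))
      (NPC.Poly.const _))).congr fun a => ?_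
  cases l a <;> simp

theorem poly_pick_lift {γ : Type} [TEnc γ] {d : α → ℕ → ℕ → ℕ}
    (hd : NPC.Poly (fun p : α × ℕ × ℕ => d p.1 p.2.1 p.2.2)) {f : γ → α}
    (hf : NPC.Poly f) : NPC.Poly (fun p : γ × ℕ × ℕ => d (f p.1) p.2.1 p.2.2) :=
  hd.comp (f := fun p : γ × ℕ × ℕ => (f p.1, p.2.1, p.2.2))
    (NPC.Poly.pair (hf.comp (NPC.Poly.fst NPC.Poly.id))
      (NPC.Poly.pair (NPC.Poly.fst (NPC.Poly.snd NPC.Poly.id))
        (NPC.Poly.snd (NPC.Poly.snd NPC.Poly.id))))

theorem poly_pick {d : α → ℕ → ℕ → ℕ} (hd : NPC.Poly (fun p : α × ℕ × ℕ => d p.1 p.2.1 p.2.2))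
    {l : α → List (List Edge)} (hl : NPC.Poly l) : NPC.Poly (fun a => pick (d a) (l a)) := by
  classical
  unfold pick
  refine NPC.Poly.flatten (poly_pick_take1 (PP.filter (inst := fun a S => _)
    (r := fun a S => ∀ S' ∈ l a, cost (d a) S ≤ cost (d a) S') hl ?_))
  refine PP.ball (r := fun (p : α × List Edge) S' => cost (d p.1) p.2 ≤ cost (d p.1) S')
    (hl.comp (NPC.Poly.fst NPC.Poly.id)) ?_
  exact PP.le
    (poly_cost (d := fun p : (α × List Edge) × List Edge => d p.1.1)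
      (poly_pick_lift hd (NPC.Poly.fst (NPC.Poly.fst NPC.Poly.id)))
      (NPC.Poly.snd (NPC.Poly.fst NPC.Poly.id)))
    (poly_cost (d := fun p : (α × List Edge) × List Edge => d p.1.1)
      (poly_pick_lift hd (NPC.Poly.fst (NPC.Poly.fst NPC.Poly.id))) (NPC.Poly.snd NPC.Poly.id))

theorem poly_seqs {β : Type} [TEnc β] {V : α → List β} (hV : NPC.Poly V) (k : ℕ) :
    NPC.Poly (fun a => seqs (V a) k) := by
  induction k with
  | zero => exact NPC.Poly.const _
  | succ k ih =>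
    unfold seqs
    refine NPC.Poly.append ih (NPC.Poly.flatMap
      (F := fun a v => (seqs (V a) k).map (fun l => v :: l)) hV ?_)
    exact NPC.Poly.map (F := fun (p : α × β) l => p.2 :: l) (ih.comp (NPC.Poly.fst NPC.Poly.id))
      (NPC.Poly.cons (NPC.Poly.snd (NPC.Poly.fst NPC.Poly.id)) (NPC.Poly.snd NPC.Poly.id))

theorem poly_pairsOf {S : α → List ℕ} (hS : NPC.Poly S) : NPC.Poly (fun a => pairsOf (S a)) := by
  unfold pairsOf
  refine NPC.Poly.flatMap (F := fun a x => (S a).map fun y => (x, y)) hS ?_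
  exact NPC.Poly.map (F := fun (p : α × ℕ) y => (p.2, y)) (hS.comp (NPC.Poly.fst NPC.Poly.id))
    (NPC.Poly.pair (NPC.Poly.snd (NPC.Poly.fst NPC.Poly.id)) (NPC.Poly.snd NPC.Poly.id))

theorem poly_links {z : α → ℕ} {A : α → List ℕ} (hz : NPC.Poly z) (hA : NPC.Poly A) :
    NPC.Poly (fun a => links (z a) (A a)) := by
  unfold links
  refine NPC.Poly.flatMap (F := fun a x => [[(z a, x)], [(z a, x), (z a, x)]]) hA ?_
  have hp : NPC.Poly (fun p : α × ℕ => (z p.1, p.2)) :=
    NPC.Poly.pair (hz.comp (NPC.Poly.fst NPC.Poly.id)) (NPC.Poly.snd NPC.Poly.id)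
  exact NPC.Poly.cons (NPC.Poly.cons hp (NPC.Poly.const _))
    (NPC.Poly.cons (NPC.Poly.cons hp (NPC.Poly.cons hp (NPC.Poly.const _))) (NPC.Poly.const _))

end Pool.Agent.H703
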