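import Pool.Agent.H703.Time1

/-!
# The band algorithm runs in polynomial time

Proofs written by helper933 from the plan of helper703.
-/

set_option autoImplicit false

namespace Pool.Agent.H703

open Pool.Agent.NPC

variable {α : Type} [TEnc α]

/-
WHAT IS WANTED.  See the example TH694/M3/Time.lean for the style.  `poly_solve`: induction on `s`; in the statement the input is
`(a, U, R, A)` and everything (the number `n`, the metric `d`) depends on `a`.  In `solve (s+1)`: `flatMap` over `tops d A U` (a `filter` of `U`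
by a `PP` predicate, `∀ w ∈ compL …, u ≤ w`), `compL` is a `clos` (`poly_clos`, `relN` is a `PP` predicate by `PP.ball` twice), `step` is `pick` of a
`filter` (`PP.filter`, `pp_good`) of an `append` of `seqs` and a `flatMap` over `List.range n` (`UPoly.range`) of a `map` over `links`, with the
induction hypothesis composed with the tuple `(a, C.filter …, R.filter …, z :: A)`.
-/

section AuxSolve

variable {γ : Type} [TEnc γ]

theorem poly_dist {d : α → ℕ → ℕ → ℕ}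
    (hd : NPC.Poly (fun p : α × ℕ × ℕ => d p.1 p.2.1 p.2.2)) {f : γ → α} {x y : γ → ℕ}
    (hf : NPC.Poly f) (hx : NPC.Poly x) (hy : NPC.Poly y) :
    NPC.Poly (fun g => d (f g) (x g) (y g)) :=
  hd.comp (f := fun g => (f g, x g, y g)) (NPC.Poly.pair hf (NPC.Poly.pair hx hy))

theorem lift_dist {d : α → ℕ → ℕ → ℕ}
    (hd : NPC.Poly (fun p : α × ℕ × ℕ => d p.1 p.2.1 p.2.2)) {f : γ → α} (hf : NPC.Poly f) :
    NPC.Poly (fun p : γ × ℕ × ℕ => d (f p.1) p.2.1 p.2.2) :=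
  poly_dist hd (hf.comp (NPC.Poly.fst NPC.Poly.id)) (NPC.Poly.fst (NPC.Poly.snd NPC.Poly.id))
    (NPC.Poly.snd (NPC.Poly.snd NPC.Poly.id))

theorem pp_relN {d : α → ℕ → ℕ → ℕ}
    (hd : NPC.Poly (fun p : α × ℕ × ℕ => d p.1 p.2.1 p.2.2)) {A : α → List ℕ} (hA : NPC.Poly A)
    {u w : α → ℕ} (hu : NPC.Poly u) (hw : NPC.Poly w) :
    PP (fun a => relN (d a) (A a) (u a) (w a)) := by
  unfold relN
  refine PP.ball (r := fun a b => ∀ c ∈ A a, d a (u a) (w a) < d a (u a) b + d a (w a) c) hA ?_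
  refine PP.ball (r := fun (p : α × ℕ) c =>
    d p.1 (u p.1) (w p.1) < d p.1 (u p.1) p.2 + d p.1 (w p.1) c)
    (hA.comp (NPC.Poly.fst NPC.Poly.id)) ?_
  have q : NPC.Poly (fun p : (α × ℕ) × ℕ => p.1.1) := NPC.Poly.fst (NPC.Poly.fst NPC.Poly.id)
  have hu' := hu.comp q
  have hw' := hw.comp q
  exact PP.lt (poly_dist hd q hu' hw')
    (NPC.Poly.add (poly_dist hd q hu' (NPC.Poly.snd (NPC.Poly.fst NPC.Poly.id)))
      (poly_dist hd q hw' (NPC.Poly.snd NPC.Poly.id)))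

theorem poly_compL {d : α → ℕ → ℕ → ℕ}
    (hd : NPC.Poly (fun p : α × ℕ × ℕ => d p.1 p.2.1 p.2.2)) {A U : α → List ℕ}
    (hA : NPC.Poly A) (hU : NPC.Poly U) {u : α → ℕ} (hu : NPC.Poly u) :
    NPC.Poly (fun a => compL (d a) (A a) (U a) (u a)) := by
  unfold compL
  refine poly_clos (r := fun a => relN (d a) (A a)) hU (NPC.Poly.cons hu (NPC.Poly.const [])) ?_
  have q : NPC.Poly (fun p : α × ℕ × ℕ => p.1) := NPC.Poly.fst NPC.Poly.id
  exact pp_relN (d := fun p : α × ℕ × ℕ => d p.1) (lift_dist hd q) (hA.comp q)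
    (NPC.Poly.fst (NPC.Poly.snd NPC.Poly.id)) (NPC.Poly.snd (NPC.Poly.snd NPC.Poly.id))

theorem poly_tops {d : α → ℕ → ℕ → ℕ}
    (hd : NPC.Poly (fun p : α × ℕ × ℕ => d p.1 p.2.1 p.2.2)) {A U : α → List ℕ}
    (hA : NPC.Poly A) (hU : NPC.Poly U) :
    NPC.Poly (fun a => tops (d a) (A a) (U a)) := by
  unfold tops
  refine PP.filter (inst := fun a u => _)
    (r := fun a u => ∀ w ∈ compL (d a) (A a) (U a) u, u ≤ w) hU ?_
  have q : NPC.Poly (fun p : α × ℕ => p.1) := NPC.Poly.fst NPC.Poly.id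
  exact PP.ball (r := fun (p : α × ℕ) w => p.2 ≤ w)
    (poly_compL (d := fun p : α × ℕ => d p.1) (lift_dist hd q) (hA.comp q) (hU.comp q)
      (NPC.Poly.snd NPC.Poly.id))
    (PP.le (NPC.Poly.snd (NPC.Poly.fst NPC.Poly.id)) (NPC.Poly.snd NPC.Poly.id))

theorem poly_without {C : α → List ℕ} {z : α → ℕ} (hC : NPC.Poly C) (hz : NPC.Poly z)
    [inst : ∀ a x, Decidable (x ≠ z a)] :
    NPC.Poly (fun a => (C a).filter fun x => @decide (x ≠ z a) (inst a x)) :=
  PP.filter (r := fun a x => x ≠ z a) hC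
    (PP.ne (NPC.Poly.snd NPC.Poly.id) (hz.comp (NPC.Poly.fst NPC.Poly.id)))

theorem poly_step {n : α → ℕ} (hn : UPoly n) {d : α → ℕ → ℕ → ℕ}
    (hd : NPC.Poly (fun p : α × ℕ × ℕ => d p.1 p.2.1 p.2.2)) (tsp : Bool) (L : ℕ)
    {rec : α → List ℕ → List ℕ → List ℕ → List Edge}
    (hrec : NPC.Poly (fun p : α × List ℕ × List ℕ × List ℕ => rec p.1 p.2.1 p.2.2.1 p.2.2.2))
    {C R A : α → List ℕ} (hC : NPC.Poly C) (hR : NPC.Poly R) (hA : NPC.Poly A) :
    NPC.Poly (fun a => step (n a) (d a) tsp L (rec a) (C a) (R a) (A a)) := by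
  classical
  unfold step
  refine poly_pick hd ?_
  refine PP.filter (inst := fun a F => _) (r := fun a F => Good tsp F (R a) (A a)) ?_ ?_
  · refine NPC.Poly.append (poly_seqs (poly_pairsOf (NPC.Poly.append hC hA)) L) ?_
    refine NPC.Poly.flatMap (F := fun a z => (links z (A a)).map fun E =>
      E ++ rec a ((C a).filter fun x => decide (x ≠ z)) ((R a).filter fun x => decide (x ≠ z))
        (z :: A a)) hn.range ?_
    have q : NPC.Poly (fun p : α × ℕ => p.1) := NPC.Poly.fst NPC.Poly.id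
    refine NPC.Poly.map (F := fun (p : α × ℕ) E => E ++ rec p.1
      ((C p.1).filter fun x => decide (x ≠ p.2)) ((R p.1).filter fun x => decide (x ≠ p.2))
        (p.2 :: A p.1)) (poly_links (NPC.Poly.snd NPC.Poly.id) (hA.comp q)) ?_
    refine NPC.Poly.append (NPC.Poly.snd NPC.Poly.id) ?_
    have q1 : NPC.Poly (fun p : (α × ℕ) × List Edge => p.1.1) :=
      NPC.Poly.fst (NPC.Poly.fst NPC.Poly.id)
    have q2 : NPC.Poly (fun p : (α × ℕ) × List Edge => p.1.2) :=
      NPC.Poly.snd (NPC.Poly.fst NPC.Poly.id)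
    exact hrec.comp (f := fun p : (α × ℕ) × List Edge => (p.1.1,
      (C p.1.1).filter fun x => decide (x ≠ p.1.2), (R p.1.1).filter fun x => decide (x ≠ p.1.2),
        p.1.2 :: A p.1.1))
      (NPC.Poly.pair q1 (NPC.Poly.pair (poly_without (hC.comp q1) q2)
        (NPC.Poly.pair (poly_without (hR.comp q1) q2) (NPC.Poly.cons q2 (hA.comp q1)))))
  · have q : NPC.Poly (fun p : α × List Edge => p.1) := NPC.Poly.fst NPC.Poly.id
    exact pp_good (NPC.Poly.snd NPC.Poly.id) (hR.comp q) (hA.comp q)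

end AuxSolve

theorem poly_solve {n : α → ℕ} (hn : UPoly n) {d : α → ℕ → ℕ → ℕ}
    (hd : NPC.Poly (fun p : α × ℕ × ℕ => d p.1 p.2.1 p.2.2)) (tsp : Bool) (L : ℕ) (s : ℕ) :
    NPC.Poly (fun p : α × List ℕ × List ℕ × List ℕ =>
      solve (n p.1) (d p.1) tsp L s p.2.1 p.2.2.1 p.2.2.2) := by
  classical
  induction s with
  | zero => exact NPC.Poly.const _
  | succ s ih =>
    unfold solve
    have p0 : NPC.Poly (fun p : α × List ℕ × List ℕ × List ℕ => p.1) := NPC.Poly.fst NPC.Poly.id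
    have p1 : NPC.Poly (fun p : α × List ℕ × List ℕ × List ℕ => p.2.1) :=
      NPC.Poly.fst (NPC.Poly.snd NPC.Poly.id)
    have p2 : NPC.Poly (fun p : α × List ℕ × List ℕ × List ℕ => p.2.2.1) :=
      NPC.Poly.fst (NPC.Poly.snd (NPC.Poly.snd NPC.Poly.id))
    have p3 : NPC.Poly (fun p : α × List ℕ × List ℕ × List ℕ => p.2.2.2) :=
      NPC.Poly.snd (NPC.Poly.snd (NPC.Poly.snd NPC.Poly.id))
    refine NPC.Poly.flatMap (F := fun (p : α × List ℕ × List ℕ × List ℕ) u =>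
      step (n p.1) (d p.1) tsp L (solve (n p.1) (d p.1) tsp L s) (compL (d p.1) p.2.2.2 p.2.1 u)
        (p.2.2.1.filter fun x => decide (x ∈ compL (d p.1) p.2.2.2 p.2.1 u)) p.2.2.2)
      (poly_tops (d := fun p : α × List ℕ × List ℕ × List ℕ => d p.1) (lift_dist hd p0) p3 p1) ?_
    have q : NPC.Poly (fun p : (α × List ℕ × List ℕ × List ℕ) × ℕ => p.1) :=
      NPC.Poly.fst NPC.Poly.id
    have hcomp : NPC.Poly (fun p : (α × List ℕ × List ℕ × List ℕ) × ℕ =>
        compL (d p.1.1) p.1.2.2.2 p.1.2.1 p.2) :=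
      poly_compL (d := fun p : (α × List ℕ × List ℕ × List ℕ) × ℕ => d p.1.1)
        (lift_dist hd (p0.comp q)) (p3.comp q) (p1.comp q) (NPC.Poly.snd NPC.Poly.id)
    refine poly_step (n := fun p : (α × List ℕ × List ℕ × List ℕ) × ℕ => n p.1.1)
      (hn.comp (p0.comp q)) (d := fun p : (α × List ℕ × List ℕ × List ℕ) × ℕ => d p.1.1)
      (lift_dist hd (p0.comp q)) tsp L
      (rec := fun p : (α × List ℕ × List ℕ × List ℕ) × ℕ =>
        solve (n p.1.1) (d p.1.1) tsp L s) ?_ hcomp ?_ (p3.comp q)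
    · exact ih.comp (f := fun p : ((α × List ℕ × List ℕ × List ℕ) × ℕ) ×
        List ℕ × List ℕ × List ℕ => (p.1.1.1, p.2))
        (NPC.Poly.pair ((p0.comp q).comp (NPC.Poly.fst NPC.Poly.id)) (NPC.Poly.snd NPC.Poly.id))
    · refine PP.filter (r := fun (p : (α × List ℕ × List ℕ × List ℕ) × ℕ) x =>
        x ∈ compL (d p.1.1) p.1.2.2.2 p.1.2.1 p.2) (p2.comp q) ?_
      exact PP.mem (NPC.Poly.snd NPC.Poly.id) (hcomp.comp (NPC.Poly.fst NPC.Poly.id))

end Pool.Agent.H703
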