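import Pool.Agent.H703.Glue

/-!
# The travelling salesman problem

Proofs written by helper843 from the plan of helper703.
-/

set_option autoImplicit false

namespace Pool.Agent.H703

variable {V : Type}

namespace WGraph

variable {n : ℕ} (X : WGraph n)

end WGraph

open Pool.Agent.NPC

variable {n : ℕ}

/-
The algorithm: `outL`.
-/

/-- consecutive pairs -/
theorem ts_cp_append {β : Type} (P : List β) (b : β) (Q : List β) :
    (P ++ b :: Q).zip (P ++ b :: Q).tail =
      (P ++ [b]).zip (P ++ [b]).tail ++ (b :: Q).zip (b :: Q).tail := by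
  induction P with
  | nil => simp
  | cons x P ih =>
    cases P with
    | nil => simp
    | cons y P =>
      simp only [List.cons_append, List.tail_cons, List.zip_cons_cons] at ih ⊢
      rw [ih]

theorem ts_append {N : List (List (Option ℕ))} {a b c : ℕ} {P Q : List ℕ} (hP : IsWalk N a b P)
    (hQ : IsWalk N b c Q) : IsWalk N a c (P.dropLast ++ Q) ∧
      (∀ d : ℕ → ℕ → ℕ, wsum d (P.dropLast ++ Q) = wsum d P + wsum d Q) ∧
      a ∈ P.dropLast ++ Q := by
  obtain ⟨P', rfl⟩ : ∃ P', P = P' ++ [b] := by
    have h := hP.last
    rw [List.getLast?_eq_some_iff] at h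
    exact h
  obtain ⟨Q', rfl⟩ : ∃ Q', Q = b :: Q' := by
    have h := hQ.head
    cases Q with
    | nil => simp at h
    | cons x Q => simp at h; subst h; exact ⟨Q, rfl⟩
  rw [List.dropLast_concat]
  have hcp := ts_cp_append P' b Q'
  have hhead : (P' ++ b :: Q').head? = some a := by
    have h := hP.head
    cases P' with
    | nil => simpa using h
    | cons x P' => simpa using h
  refine ⟨⟨hhead, ?_, ?_, ?_⟩, ?_, ?_⟩
  · have h := hQ.last
    rw [List.getLast?_append, h]
    simp
  · intro e he
    rw [hcp, List.mem_append] at he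
    rcases he with he | he
    · exact hP.chain e he
    · exact hQ.chain e he
  · intro x hx
    rw [List.mem_append] at hx
    rcases hx with hx | hx
    · exact hP.lt x (List.mem_append_left _ hx)
    · exact hQ.lt x hx
  · intro d
    unfold wsum
    rw [hcp, List.map_append, List.sum_append]
  · exact List.mem_of_mem_head? hhead

/-- Replace the steps of a list by the walks of the table. -/
def ts_exp (N : List (List (Option ℕ))) (tab : List (List (List ℕ))) (l : List ℕ) : List ℕ :=
  (l.zip l.tail).flatMap fun e => (tget tab N.length e.1 e.2).dropLast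

theorem ts_exp_spec {N : List (List (Option ℕ))} {tab : List (List (List ℕ))} (ht : IsTable N tab)
    (hc : ∀ u v, u < N.length → v < N.length → ∃ l, IsWalk N u v l) :
    ∀ (l : List ℕ) (a b : ℕ), (∀ x ∈ l, x < N.length) → l.head? = some a → l.getLast? = some b →
      IsWalk N a b (ts_exp N tab l ++ [b]) ∧
        wsum (wt N) (ts_exp N tab l ++ [b]) = wsum (tdist N tab) l ∧
        ∀ x ∈ l, x ∈ ts_exp N tab l ++ [b] := by
  intro l
  induction l with
  | nil => intro a b _ h; simp at h
  | cons x l ih =>
    intro a b hlt hh hl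
    have hxa : x = a := by simpa using hh
    subst hxa
    cases l with
    | nil =>
      have hxb : x = b := by simpa using hl
      subst hxb
      have e : ts_exp N tab [x] ++ [x] = [x] := by simp [ts_exp]
      rw [e]
      refine ⟨⟨rfl, rfl, ?_, hlt⟩, ?_, fun y hy => hy⟩
      · intro e he
        simp at he
      · simp [wsum]
    | cons y l =>
      have hlt' : ∀ z ∈ y :: l, z < N.length := fun z hz => hlt z (List.mem_cons_of_mem _ hz)
      obtain ⟨h1, h2, h3⟩ := ih y b hlt' rfl (by simpa [List.getLast?_cons_cons] using hl)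
      have hx : x < N.length := hlt x List.mem_cons_self
      have hy : y < N.length := hlt' y List.mem_cons_self
      obtain ⟨h4, -⟩ := ht x y hx hy (hc x y hx hy)
      have e : ts_exp N tab (x :: y :: l) ++ [b] =
          (tget tab N.length x y).dropLast ++ (ts_exp N tab (y :: l) ++ [b]) := by
        unfold ts_exp
        simp only [List.tail_cons, List.zip_cons_cons, List.flatMap_cons, List.append_assoc]
      obtain ⟨h5, h6, h7⟩ := ts_append h4 h1
      rw [e]
      refine ⟨h5, ?_, ?_⟩
      · rw [h6, h2]
        unfold wsum tdist wsum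
        simp only [List.tail_cons, List.zip_cons_cons, List.map_cons, List.sum_cons]
      · intro z hz
        rcases List.mem_cons.1 hz with rfl | hz
        · exact h7
        · exact List.mem_append_right _ (h3 z hz)

/-- end points of a list of pairs -/
theorem ts_mem_ends {F : List Edge} {v w : ℕ} (h : adj F v w) : w ∈ ends F := by
  unfold ends
  rw [List.mem_flatMap]
  rcases h with h | h
  · exact ⟨_, h, by simp⟩
  · exact ⟨_, h, by simp⟩

theorem ts_reach_ends {F : List Edge} {v w : ℕ} (h : Relation.ReflTransGen (adj F) v w)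
    (hne : w ≠ v) : w ∈ ends F := by
  rcases Relation.ReflTransGen.cases_tail h with h | ⟨u, -, h⟩
  · exact absurd h hne
  · exact ts_mem_ends h

theorem ts_adj_symm {F : List Edge} {v w : ℕ} (h : adj F v w) : adj F w v := Or.symm h

theorem ts_reach_symm {F : List Edge} {v w : ℕ} (h : Relation.ReflTransGen (adj F) v w) :
    Relation.ReflTransGen (adj F) w v := by
  induction h with
  | refl => exact Relation.ReflTransGen.refl
  | tail _ h ih => exact Relation.ReflTransGen.head (ts_adj_symm h) ih

/-- the elements of a list are connected by its consecutive pairs -/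
theorem ts_conn : ∀ (l : List ℕ) (a : ℕ) (F : List Edge), (∀ e ∈ (a :: l).zip l, e ∈ F) →
    ∀ x ∈ a :: l, Relation.ReflTransGen (adj F) a x := by
  intro l
  induction l with
  | nil =>
    intro a F _ x hx
    rw [List.mem_singleton] at hx
    subst hx
    exact Relation.ReflTransGen.refl
  | cons b l ih =>
    intro a F hF x hx
    rcases List.mem_cons.1 hx with rfl | hx
    · exact Relation.ReflTransGen.refl
    · have h1 : (a, b) ∈ F := hF _ (by simp)
      exact Relation.ReflTransGen.head (Or.inl h1)
        (ih b F (fun e he => hF e (by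
          rw [List.zip_cons_cons]
          exact List.mem_cons_of_mem _ he)) x hx)

/-- degrees along a list -/
theorem ts_count (v : ℕ) : ∀ (l : List ℕ) (a b : ℕ), (a :: l).getLast? = some b →
    (ends ((a :: l).zip l)).count v + (if a = v then 1 else 0) + (if b = v then 1 else 0) =
      2 * (a :: l).count v := by
  intro l
  induction l with
  | nil =>
    intro a b h
    have hab : a = b := by simpa using h
    subst hab
    simp only [ends, List.zip_nil_right, List.flatMap_nil, List.count_nil, List.count_cons,
      beq_iff_eq]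
    split_ifs <;> rfl
  | cons c l ih =>
    intro a b h
    have h1 := ih c b (by simpa [List.getLast?_cons_cons] using h)
    have h2 : ends ((a :: c :: l).zip (c :: l)) = a :: c :: ends ((c :: l).zip l) := by
      unfold ends
      rw [List.zip_cons_cons, List.flatMap_cons]
      rfl
    rw [h2, List.count_cons, List.count_cons, List.count_cons (l := c :: l)]
    simp only [beq_iff_eq]
    omega

/-- The algorithm. -/
noncomputable def outL (f : List (List (Option ℕ)) → List (List (List ℕ)))
    (g : List Edge × ℕ → List ℕ) (L s k : ℕ) (M : List (List (Option ℚ))) : List ℕ :=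
  ts_exp (clear M) (f (clear M)) (g (runF f true L s k M (List.range M.length), 0)) ++ [0]

theorem ts_dropLast {β : Type} (l : List β) : l.dropLast = l.reverse.tail.reverse := by
  rw [List.tail_reverse, List.reverse_reverse]

theorem poly_outL {f : List (List (Option ℕ)) → List (List (List ℕ))} (hf : NPC.Poly f)
    {g : List Edge × ℕ → List ℕ} (hg : NPC.Poly g) (L s k : ℕ) :
    NPC.Poly (fun M : List (List (Option ℚ)) => outL f g L s k M) := by
  have hr : NPC.Poly (fun M : List (List (Option ℚ)) => List.range M.length) :=
    NPC.Poly.range_length NPC.Poly.id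
  have hF : NPC.Poly (fun M : List (List (Option ℚ)) =>
      runF f true L s k M (List.range M.length)) :=
    NPC.Poly.comp (g := fun p : List (List (Option ℚ)) × List ℕ => runF f true L s k p.1 p.2)
      (f := fun M => (M, List.range M.length)) (poly_runF hf true L s k) (NPC.Poly.pair NPC.Poly.id hr)
  generalize hgF : (fun M : List (List (Option ℚ)) =>
      runF f true L s k M (List.range M.length)) = RF at hF
  have hl : NPC.Poly (fun M : List (List (Option ℚ)) => g (RF M, 0)) :=
    NPC.Poly.comp (g := g) (f := fun M => (RF M, 0)) hg (NPC.Poly.pair hF (NPC.Poly.const 0))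
  have htab : NPC.Poly (fun M : List (List (Option ℚ)) => f (clear M)) :=
    NPC.Poly.comp (g := f) hf poly_clear
  have hlen : NPC.Poly (fun M : List (List (Option ℚ)) => (clear M).length) :=
    NPC.Poly.length poly_clear
  have h1 : NPC.Poly (fun x : List (List (Option ℚ)) × (ℕ × ℕ) =>
      (tget (f (clear x.1)) (clear x.1).length x.2.1 x.2.2)) :=
    poly_tget (NPC.Poly.comp (g := fun M => f (clear M)) (f := Prod.fst) htab (NPC.Poly.fst NPC.Poly.id))
      (NPC.Poly.comp (g := fun M => (clear M).length) (f := Prod.fst) hlen (NPC.Poly.fst NPC.Poly.id))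
      (NPC.Poly.fst (NPC.Poly.snd NPC.Poly.id)) (NPC.Poly.snd (NPC.Poly.snd NPC.Poly.id))
  have h2 : NPC.Poly (fun x : List (List (Option ℚ)) × (ℕ × ℕ) =>
      (tget (f (clear x.1)) (clear x.1).length x.2.1 x.2.2).dropLast) :=
    (NPC.Poly.reverse (NPC.Poly.tail (NPC.Poly.reverse h1))).congr fun x => (ts_dropLast _).symm
  have h3 : NPC.Poly (fun M : List (List (Option ℚ)) =>
      ((g (RF M, 0)).zip (g (RF M, 0)).tail).flatMap (fun e : ℕ × ℕ =>
        (tget (f (clear M)) (clear M).length e.1 e.2).dropLast)) :=
    NPC.Poly.flatMap (F := fun M (e : ℕ × ℕ) =>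
      (tget (f (clear M)) (clear M).length e.1 e.2).dropLast) (NPC.Poly.zip hl (NPC.Poly.tail hl)) h2
  refine (NPC.Poly.append h3 (NPC.Poly.const [0])).congr fun M => ?_
  unfold outL ts_exp
  rw [← congrFun hgF M]

/-- the travelling salesman problem has a polynomial-time approximation scheme on confined
graphs of bounded highway dimension. -/
theorem tsp_main (h : ℕ) {C : ℝ} (hC : 0 ≤ C) {ε : ℝ} (hε : 0 < ε) :
    ∃ f : List Bool → List Bool, PolyTime f ∧ ∀ (n : ℕ) (X : WGraph n), X.highwayDim ≤ h →
      X.Confined C → ∃ (v : Fin n) (p : X.graph.Walk v v),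
        f (bits X.code) = bits (p.support.map Fin.val) ∧ X.IsTour p ∧
        ∀ (v' : Fin n) (q : X.graph.Walk v' v'), X.IsTour q →
          (X.len p : ℝ) ≤ (1 + ε) * (X.len q : ℝ) := by
  obtain ⟨k, L, s, hspec⟩ := runF_spec h hC hε
  obtain ⟨f, hfp, hft⟩ := exists_table
  obtain ⟨g, hgp, hgt⟩ := exists_tour
  refine ⟨_, polyTime_opt (NPC.Poly.optMap (o := unbits (List (List (Option ℚ))))
    (f := fun _ M => outL f g L s k M) poly_unbits
    ((poly_outL hfp hgp L s k).comp (NPC.Poly.snd NPC.Poly.id))), ?_⟩
  intro n X hX hconf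
  have hn : 0 < n := by
    obtain ⟨v⟩ := X.connected.nonempty
    exact v.pos
  have hN : (clear X.code).length = n := length_clear X
  have hlenc : X.code.length = n := length_code X
  obtain ⟨h1, h2, h3⟩ := hspec f n X (List.range n) true (hft _) hX hconf
    (fun v hv => List.mem_range.1 hv)
  set F := runF f true L s k X.code (List.range n) with hF
  set N := clear X.code with hNdef
  have hreach : ∀ v < n, Relation.ReflTransGen (adj F) 0 v := fun v hv =>
    h2.1 0 (List.mem_range.2 hn) v (List.mem_range.2 hv)
  obtain ⟨g1, g2, g3, g4, g5⟩ := hgt F 0 (h2.2 rfl) (fun v hv => hreach v (h1 v hv))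
  set l := g (F, 0) with hl
  have hllt : ∀ x ∈ l, x < N.length := by
    intro x hx
    rw [hN]
    rcases g4 x hx with rfl | hx
    · exact hn
    · exact h1 x hx
  have hall : ∀ v < n, v ∈ l := by
    intro v hv
    by_cases hv0 : v = 0
    · subst hv0
      exact List.mem_of_mem_head? g1
    · exact g3 v (ts_reach_ends (hreach v hv) hv0)
  have hconn : ∀ u v, u < N.length → v < N.length → ∃ l, IsWalk N u v l := by
    intro u v hu hv
    rw [hN] at hu hv
    exact exists_isWalk X hu hv
  obtain ⟨w1, w2, w3⟩ := ts_exp_spec (hft N) hconn l 0 0 hllt g1 g2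
  have w1' : IsWalk (clear X.code) ((⟨0, hn⟩ : Fin n) : ℕ) ((⟨0, hn⟩ : Fin n) : ℕ)
      (ts_exp N (f N) l ++ [0]) := w1
  obtain ⟨p, hp⟩ := list_to_walk X w1'
  refine ⟨⟨0, hn⟩, p, ?_, ?_, ?_⟩
  · have e : outL f g L s k X.code = p.support.map Fin.val := by
      rw [hp]
      unfold outL
      rw [hlenc]
    rw [← e]
    simp [unbits_bits]
  · intro u
    have h4 := w3 u (hall u u.2)
    rw [← hp, List.mem_map] at h4
    obtain ⟨u', h5, h6⟩ := h4
    rwa [← Fin.ext h6]
  · intro v' q hq
    obtain ⟨q1, q2⟩ := walk_to_list X q
    obtain ⟨p1, p2⟩ := walk_to_list X p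
    have hDpos : (0 : ℚ) < comden X.code := by exact_mod_cast comden_pos X
    set l' := q.support.map Fin.val with hl'
    have hmem : ∀ v < n, v ∈ l' := by
      intro v hv
      rw [hl', List.mem_map]
      exact ⟨⟨v, hv⟩, hq _, rfl⟩
    obtain ⟨a, r, har⟩ : ∃ a r, l' = a :: r := by
      have h4 := q1.head
      cases hr : l' with
      | nil => rw [hr] at h4; simp at h4
      | cons a r => exact ⟨a, r, rfl⟩
    have hlt' : ∀ x ∈ l', x < n := fun x hx => by
      have := q1.lt x hx
      rwa [← hNdef, hN] at this
    have hhead : a = (v' : ℕ) := by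
      have h4 := q1.head
      rw [har] at h4
      simpa using h4
    have hlast : (a :: r).getLast? = some a := by
      have h4 := q1.last
      rw [har, ← hhead] at h4
      exact h4
    have hFs : ∀ e ∈ l'.zip l'.tail, e.1 < n ∧ e.2 < n := by
      intro e he
      have he' : (e.1, e.2) ∈ l'.zip l'.tail := he
      obtain ⟨h4, h5⟩ := List.of_mem_zip he'
      exact ⟨hlt' _ h4, hlt' _ (List.mem_of_mem_tail h5)⟩
    have hgood : AllGood true (l'.zip l'.tail) (List.range n) := by
      have hc : ∀ x ∈ l', Relation.ReflTransGen (adj (l'.zip l'.tail)) a x := by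
        rw [har]
        exact ts_conn r a _ (fun e he => by rw [List.tail_cons]; exact he)
      refine ⟨fun t ht t' ht' => ?_, fun _ v => ?_⟩
      · exact (ts_reach_symm (hc t (hmem t (List.mem_range.1 ht)))).trans
          (hc t' (hmem t' (List.mem_range.1 ht')))
      · have h4 := ts_count v r a a hlast
        rw [har, List.tail_cons]
        rw [Nat.even_iff]
        split_ifs at h4 <;> omega
    have h4 := h3 (l'.zip l'.tail) hFs hgood
    -- the cost of the tour
    have hsym : ∀ x y, tdist N (f N) x y = tdist N (f N) y x := (nmet X (hft _)).symm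
    have h5 : (wsum (wt N) (p.support.map Fin.val) : ℚ) = cost (tdist N (f N)) F := by
      rw [hp, w2, g5 _ hsym]
    have h6 : cost (tdist N (f N)) (l'.zip l'.tail) ≤ wsum (wt N) l' := by
      unfold cost wsum
      apply List.sum_le_sum
      intro e he
      have h7 := q1.chain e he
      have hb := hFs e he
      have h8 : IsWalk N e.1 e.2 [e.1, e.2] := by
        refine ⟨rfl, rfl, ?_, ?_⟩
        · intro e' he'
          simp at he'
          subst he'
          exact h7
        · intro x hx
          rw [hN]
          simp at hx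
          rcases hx with rfl | rfl
          · exact hb.1
          · exact hb.2
      have h9 := (hft N e.1 e.2 (by rw [hN]; exact hb.1) (by rw [hN]; exact hb.2) ⟨_, h8⟩).2 _ h8
      have h10 : wsum (wt N) [e.1, e.2] = wt N e.1 e.2 := by simp [wsum]
      rw [h10] at h9
      exact h9
    have h7 : (comden X.code : ℝ) * (X.len p : ℝ) = (cost (tdist N (f N)) F : ℝ) := by
      have : (comden X.code : ℚ) * X.len p = (cost (tdist N (f N)) F : ℚ) := by
        rw [← p2, ← h5]
      exact_mod_cast this
    have h8 : (cost (tdist N (f N)) (l'.zip l'.tail) : ℝ) ≤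
        (comden X.code : ℝ) * (X.len q : ℝ) := by
      have h9 : (cost (tdist N (f N)) (l'.zip l'.tail) : ℚ) ≤ comden X.code * X.len q := by
        rw [← q2]
        exact_mod_cast h6
      exact_mod_cast h9
    have hD : (0 : ℝ) < comden X.code := by exact_mod_cast comden_pos X
    have h9 : (comden X.code : ℝ) * (X.len p : ℝ) ≤
        (comden X.code : ℝ) * ((1 + ε) * (X.len q : ℝ)) := by
      rw [h7]
      refine h4.trans ?_
      calc (1 + ε) * (cost (tdist N (f N)) (l'.zip l'.tail) : ℝ)
          ≤ (1 + ε) * ((comden X.code : ℝ) * (X.len q : ℝ)) :=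
            mul_le_mul_of_nonneg_left h8 (by linarith)
        _ = _ := by ring
    exact le_of_mul_le_mul_left h9 hD

end Pool.Agent.H703
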